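import Pool.Agent.D12.Stmts

set_option autoImplicit false

/-!
# Lattices all of whose shells are spherical 12-designs: module Coprime
-/

namespace Pool.Agent.D12

theorem coprime_coeff0_thd {κ : Type} [Field κ] (x : PowerSeries κ) :
    PowerSeries.constantCoeff (thd x) = 0 := by
  rw [← PowerSeries.coeff_zero_eq_constantCoeff_apply, thd, PowerSeries.coeff_mk]
  simp

theorem coprime_coeff0_E2 {κ : Type} [Field κ] :
    PowerSeries.constantCoeff (E2R κ) = 1 := by
  rw [← PowerSeries.coeff_zero_eq_constantCoeff_apply, E2R, PowerSeries.coeff_map, e2s,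
    PowerSeries.coeff_mk]
  simp

theorem coprime_thd_one {κ : Type} [Field κ] : thd (1 : PowerSeries κ) = 0 := by
  ext k
  rw [thd, PowerSeries.coeff_mk, PowerSeries.coeff_one]
  by_cases hk : k = 0
  · simp [hk]
  · simp [hk]

theorem coprime_thd_map {κ : Type} [Field κ] (x : PowerSeries ℤ) :
    (thd x).map (Int.castRingHom κ) = thd (x.map (Int.castRingHom κ)) := by
  ext k
  simp [thd, PowerSeries.coeff_map, PowerSeries.coeff_mk]

theorem coprime_raman {κ : Type} [Field κ] (h2 : St_Raman2) :
    12 * thd (E2R κ) = E2R κ ^ 2 - E4R κ := by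
  have h := congrArg (PowerSeries.map (Int.castRingHom κ)) h2
  rw [map_mul, map_sub, map_pow, coprime_thd_map] at h
  have h12 : PowerSeries.map (Int.castRingHom κ) (12 : PowerSeries ℤ) = 12 := map_ofNat _ 12
  rw [h12] at h
  exact h

theorem coprime_weight_apply (d : Fin 2 →₀ ℕ) : Finsupp.weight wt d = 4 * d 0 + 6 * d 1 := by
  rw [Finsupp.weight_apply, Finsupp.sum_fintype _ _ (by simp)]
  simp [Fin.sum_univ_two, wt, mul_comm]

theorem st_Coprime (hI : St_Inj) (hD : St_Del) (hH : St_HomogDvd) (h2 : St_Raman2) : St_Coprime := by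
  intro p hp hp5 κ _ _ a ha hev
  have hcast : ∀ m : ℕ, m ≠ 0 → m < p → (m : κ) ≠ 0 := by
    intro m hm hmp h0
    rw [CharP.cast_eq_zero_iff κ p] at h0
    exact absurd (Nat.le_of_dvd (Nat.pos_of_ne_zero hm) h0) (by omega)
  have hk2 : (2 : κ) ≠ 0 := by
    have := hcast 2 (by norm_num) (by omega)
    simpa using this
  have hk3 : (3 : κ) ≠ 0 := by
    have := hcast 3 (by norm_num) (by omega)
    simpa using this
  have hk12 : (12 : κ) ≠ 0 := by
    have : (12 : κ) = 2 * 2 * 3 := by norm_num
    rw [this]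
    exact mul_ne_zero (mul_ne_zero hk2 hk2) hk3
  have hpk : (p : κ) = 0 := CharP.cast_eq_zero κ p
  have ha0 : a ≠ 0 := by
    rintro rfl
    rw [map_zero] at hev
    exact zero_ne_one hev
  set b : MvPolynomial (Fin 2) κ := 12 * del κ a with hb
  obtain ⟨hda, heda⟩ := hD κ hk2 hk3 (p - 1) a ha
  have hC12 : (12 : MvPolynomial (Fin 2) κ) = MvPolynomial.C 12 := (map_ofNat _ 12).symm
  have hbw : b.IsWeightedHomogeneous wt (p + 1) := by
    have h := hda.C_mul 12
    have hpp : p - 1 + 2 = p + 1 := by omega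
    rw [hpp] at h
    rw [hb, hC12]
    exact h
  have hp1 : ((p - 1 : ℕ) : κ) = -1 := by
    rw [Nat.cast_sub (by omega), hpk]
    simp
  have hev12 : ev κ 12 = 12 := map_ofNat _ 12
  have hP12 : (12 : PowerSeries κ) = PowerSeries.C 12 := (map_ofNat _ 12).symm
  have hevb : ev κ b = E2R κ := by
    rw [hb, map_mul, heda, hev, coprime_thd_one, hp1, hev12, mul_one, zero_sub, hP12, mul_neg,
      ← mul_assoc, ← map_mul]
    have : (12 : κ) * (-1 / 12) = -1 := by field_simp
    rw [this, map_neg, map_one]
    ring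
  obtain ⟨hdb, hedb⟩ := hD κ hk2 hk3 (p + 1) b hbw
  have hrel : 12 * del κ b + MvPolynomial.X 0 * a = 0 := by
    apply hI κ hk2 hk3 (p + 1 + 2)
    · apply MvPolynomial.IsWeightedHomogeneous.add
      · rw [hC12]
        exact hdb.C_mul 12
      · have h := (MvPolynomial.isWeightedHomogeneous_X κ wt 0).mul ha
        have hw : wt 0 + (p - 1) = p + 1 + 2 := by
          simp only [wt, Matrix.cons_val_zero]
          omega
        rw [hw] at h
        exact h
    · have h12 : ev κ (12 * del κ b) = 12 * ev κ (del κ b) := by rw [map_mul, hev12]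
      have hp2 : ((p + 1 : ℕ) : κ) = 1 := by push_cast; rw [hpk, zero_add]
      have hr := coprime_raman (κ := κ) h2
      have hX : ev κ (MvPolynomial.X 0) = E4R κ := by
        rw [ev, MvPolynomial.aeval_X]
        rfl
      have hone : (12 : PowerSeries κ) * PowerSeries.C (1 / 12 : κ) = 1 := by
        rw [hP12, ← map_mul]
        have : (12 : κ) * (1 / 12) = 1 := by field_simp
        rw [this, map_one]
      rw [map_add, h12, hedb, hevb, map_mul, hX, hev, hp2]
      calc 12 * (thd (E2R κ) - PowerSeries.C (1 / 12 : κ) * E2R κ * E2R κ) + E4R κ * 1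
          = 12 * thd (E2R κ) - (12 * PowerSeries.C (1 / 12 : κ)) * E2R κ ^ 2 + E4R κ := by ring
        _ = 0 := by rw [hone, hr]; ring
  -- gcd
  let _ : GCDMonoid (MvPolynomial (Fin 2) κ) := UniqueFactorizationMonoid.toGCDMonoid _
  obtain ⟨a', b', haa, hbb, hu⟩ := extract_gcd a b
  set g := gcd a b with hg
  have hga : g ∣ a := gcd_dvd_left a b
  have hgb : g ∣ b := gcd_dvd_right a b
  have hunit12 : IsUnit (12 : MvPolynomial (Fin 2) κ) := by
    rw [hC12]
    exact (IsUnit.mk0 _ hk12).map MvPolynomial.C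
  have hgda : g ∣ del κ a := by
    have h : g ∣ 12 * del κ a := hgb
    exact (hunit12.dvd_mul_left).1 h
  have hgdb : g ∣ del κ b := by
    have h : g ∣ 12 * del κ b := by
      have h1 : 12 * del κ b = -(MvPolynomial.X 0 * a) := eq_neg_of_add_eq_zero_left hrel
      rw [h1]
      exact (dvd_neg).2 (dvd_mul_of_dvd_right hga _)
    exact (hunit12.dvd_mul_left).1 h
  have hleib : ∀ x y : MvPolynomial (Fin 2) κ, del κ (x * y) = x * del κ y + y * del κ x := by
    intro x y
    rw [Derivation.leibniz]
    simp [smul_eq_mul]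
  have hd1 : g ∣ del κ g * a' := by
    have h1 := hleib g a'
    rw [← haa] at h1
    have h2 : del κ g * a' = del κ a - g * del κ a' := by rw [h1]; ring
    rw [h2]
    exact dvd_sub hgda (dvd_mul_right _ _)
  have hd2 : g ∣ del κ g * b' := by
    have h1 := hleib g b'
    rw [← hbb] at h1
    have h2 : del κ g * b' = del κ b - g * del κ b' := by rw [h1]; ring
    rw [h2]
    exact dvd_sub hgdb (dvd_mul_right _ _)
  have hgdg : g ∣ del κ g := by
    have h1 : g ∣ gcd (del κ g * a') (del κ g * b') := dvd_gcd hd1 hd2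
    have h2 := (gcd_mul_left' (del κ g) a' b').dvd_iff_dvd_right (a := g)
    have h3 : g ∣ del κ g * gcd a' b' := h2.1 h1
    exact (hu.dvd_mul_right).1 h3
  obtain ⟨W', hW', hgw⟩ := hH κ (p - 1) a g ha ha0 hga
  have hg0 : g ≠ 0 := by
    rintro h0
    rw [h0] at hga
    exact ha0 (zero_dvd_iff.1 hga)
  obtain ⟨hdg, hedg⟩ := hD κ hk2 hk3 W' g hgw
  have hdg0 : del κ g = 0 := by
    by_contra hne
    obtain ⟨c, hc⟩ := hgdg
    have hc0 : c ≠ 0 := by
      rintro rfl
      rw [mul_zero] at hc
      exact hne hc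
    obtain ⟨W'', -, hcw⟩ := hH κ (W' + 2) (del κ g) c hdg hne ⟨g, by rw [hc]; ring⟩
    have h1 : (del κ g).IsWeightedHomogeneous wt (W' + W'') := by
      rw [hc]
      exact hgw.mul hcw
    have h2 := MvPolynomial.IsWeightedHomogeneous.inj_right hne hdg h1
    have h3 : W'' = 2 := by omega
    subst h3
    obtain ⟨d, hd⟩ := MvPolynomial.exists_coeff_ne_zero hc0
    have h4 := hcw hd
    rw [coprime_weight_apply] at h4
    omega
  have hcc : ((W' : ℕ) : κ) = 0 := by
    rw [hdg0, map_zero] at hedg
    have h1 := congrArg PowerSeries.constantCoeff hedg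
    rw [map_zero, map_sub, coprime_coeff0_thd, map_mul, map_mul, coprime_coeff0_E2,
      PowerSeries.constantCoeff_C, mul_one, zero_sub] at h1
    have h2 : PowerSeries.constantCoeff (ev κ g) ≠ 0 := by
      intro h3
      have h4 := congrArg (fun z => PowerSeries.constantCoeff (ev κ z)) haa
      simp only [map_mul, hev, h3, zero_mul, map_one] at h4
      exact one_ne_zero h4
    have h5 : (W' : κ) / 12 = 0 := by
      rcases mul_eq_zero.1 (neg_eq_zero.1 h1.symm) with h | h
      · exact h
      · exact absurd h h2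
    rcases div_eq_zero_iff.1 h5 with h | h
    · exact h
    · exact absurd h hk12
  have hW0 : W' = 0 := by
    by_contra h0
    exact hcast W' h0 (by omega) hcc
  subst hW0
  have hgC : g = MvPolynomial.C (MvPolynomial.coeff 0 g) := by
    ext d
    rw [MvPolynomial.coeff_C]
    by_cases hd : 0 = d
    · rw [if_pos hd, hd]
    · rw [if_neg hd]
      by_contra hne
      have h1 := hgw hne
      rw [coprime_weight_apply] at h1
      apply hd
      ext i
      fin_cases i
      · simp
        omega
      · simp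
        omega
  have hgu : IsUnit g := by
    rw [hgC]
    apply IsUnit.map
    apply IsUnit.mk0
    intro h0
    rw [h0, map_zero] at hgC
    exact hg0 hgC
  intro d hda' hdb'
  exact isUnit_of_dvd_unit (dvd_gcd hda' hdb') hgu

end Pool.Agent.D12
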