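import Pool.Agent.D12.Stmts

set_option autoImplicit false

/-!
# Lattices all of whose shells are spherical 12-designs: module Del
-/

namespace Pool.Agent.D12

open MvPolynomial

theorem DelAux_thd_add {R : Type*} [CommRing R] (a b : PowerSeries R) :
    thd (a + b) = thd a + thd b := by
  ext k
  simp only [thd, PowerSeries.coeff_mk, map_add]
  ring

theorem DelAux_thd_mul {R : Type*} [CommRing R] (a b : PowerSeries R) :
    thd (a * b) = thd a * b + a * thd b := by
  ext k
  simp only [thd, PowerSeries.coeff_mk, map_add, PowerSeries.coeff_mul]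
  rw [Finset.mul_sum, ← Finset.sum_add_distrib]
  apply Finset.sum_congr rfl
  intro x hx
  have hx' := Finset.HasAntidiagonal.mem_antidiagonal.1 hx
  rw [← hx']
  push_cast
  ring

theorem DelAux_thd_C {R : Type*} [CommRing R] (c : R) : thd (PowerSeries.C c) = 0 := by
  ext k
  simp only [thd, PowerSeries.coeff_mk, PowerSeries.coeff_C, map_zero]
  split_ifs with h
  · rw [h]
    simp
  · simp

theorem DelAux_thd_map {R S : Type*} [CommRing R] [CommRing S] (f : R →+* S)
    (a : PowerSeries R) : thd (a.map f) = (thd a).map f := by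
  ext k
  simp only [thd, PowerSeries.coeff_mk, PowerSeries.coeff_map, map_mul, map_natCast]

theorem DelAux_weight (κ : Type) [Field κ] (W m : ℕ) (i : Fin 2) (Φ g : MvPolynomial (Fin 2) κ)
    (hΦ : Φ.IsWeightedHomogeneous wt W) (hg : g.IsWeightedHomogeneous wt m)
    (hm : m = wt i + 2) : (g * pderiv i Φ).IsWeightedHomogeneous wt (W + 2) := by
  intro d hd
  rw [MvPolynomial.coeff_mul] at hd
  obtain ⟨x, hx, hne⟩ := Finset.exists_ne_zero_of_sum_ne_zero hd
  have hx' := Finset.HasAntidiagonal.mem_antidiagonal.1 hx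
  have h1 : MvPolynomial.coeff x.1 g ≠ 0 := left_ne_zero_of_mul hne
  have h2 : MvPolynomial.coeff x.2 (pderiv i Φ) ≠ 0 := right_ne_zero_of_mul hne
  rw [MvPolynomial.coeff_pderiv] at h2
  have h3 : MvPolynomial.coeff (x.2 + Finsupp.single i 1) Φ ≠ 0 := by
    intro h
    rw [h] at h2
    simp at h2
  have h4 := hg h1
  have h5 := hΦ h3
  rw [map_add] at h5
  have h6 : Finsupp.weight wt (Finsupp.single i 1) = wt i := by
    rw [Finsupp.weight_single]
    simp
  rw [h6] at h5
  rw [← hx', map_add, h4]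
  omega

/-- the derivation `∂` in terms of partial derivatives -/
noncomputable def DelAux_D (κ : Type) [Field κ] (p : MvPolynomial (Fin 2) κ) :
    MvPolynomial (Fin 2) κ :=
  -(C (1 / 3) * X 1) * pderiv 0 p + -(C (1 / 2) * X 0 ^ 2) * pderiv 1 p

/-- the weighted Euler operator -/
noncomputable def DelAux_E (κ : Type) [Field κ] (p : MvPolynomial (Fin 2) κ) :
    MvPolynomial (Fin 2) κ :=
  4 * (X 0 * pderiv 0 p) + 6 * (X 1 * pderiv 1 p)

section
variable (κ : Type) [Field κ] (p q : MvPolynomial (Fin 2) κ)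

theorem DelAux_D_add : DelAux_D κ (p + q) = DelAux_D κ p + DelAux_D κ q := by
  unfold DelAux_D
  rw [map_add, map_add]
  ring

theorem DelAux_E_add : DelAux_E κ (p + q) = DelAux_E κ p + DelAux_E κ q := by
  unfold DelAux_E
  rw [map_add, map_add]
  ring

theorem DelAux_D_C (a : κ) : DelAux_D κ (C a) = 0 := by
  unfold DelAux_D
  rw [pderiv_C, pderiv_C]
  ring

theorem DelAux_E_C (a : κ) : DelAux_E κ (C a) = 0 := by
  unfold DelAux_E
  rw [pderiv_C, pderiv_C]
  ring

theorem DelAux_D_X0 : DelAux_D κ (p * X 0) = DelAux_D κ p * X 0 - p * (C (1 / 3) * X 1) := by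
  unfold DelAux_D
  rw [pderiv_mul, pderiv_mul, pderiv_X_self, pderiv_X_of_ne (show (0 : Fin 2) ≠ 1 by decide)]
  ring

theorem DelAux_D_X1 :
    DelAux_D κ (p * X 1) = DelAux_D κ p * X 1 - p * (C (1 / 2) * X 0 ^ 2) := by
  unfold DelAux_D
  rw [pderiv_mul, pderiv_mul, pderiv_X_self, pderiv_X_of_ne (show (1 : Fin 2) ≠ 0 by decide)]
  ring

theorem DelAux_E_X0 : DelAux_E κ (p * X 0) = DelAux_E κ p * X 0 + p * (4 * X 0) := by
  unfold DelAux_E
  rw [pderiv_mul, pderiv_mul, pderiv_X_self, pderiv_X_of_ne (show (0 : Fin 2) ≠ 1 by decide)]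
  ring

theorem DelAux_E_X1 : DelAux_E κ (p * X 1) = DelAux_E κ p * X 1 + p * (6 * X 1) := by
  unfold DelAux_E
  rw [pderiv_mul, pderiv_mul, pderiv_X_self, pderiv_X_of_ne (show (1 : Fin 2) ≠ 0 by decide)]
  ring

end

theorem DelAux_del_eq (κ : Type) [Field κ] (Φ : MvPolynomial (Fin 2) κ) :
    del κ Φ = DelAux_D κ Φ := by
  induction Φ using MvPolynomial.induction_on with
  | C a =>
    rw [DelAux_D_C]
    exact Derivation.map_algebraMap _ a
  | add p q hp hq => rw [map_add, hp, hq, DelAux_D_add]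
  | mul_X p i hp =>
    rw [Derivation.leibniz, hp]
    fin_cases i
    · simp only [Fin.zero_eta, Fin.isValue]
      rw [DelAux_D_X0]
      have : del κ (X 0) = -(C (1 / 3) * X 1) := by
        unfold del
        rw [mkDerivation_X]
        rfl
      rw [this, smul_eq_mul, smul_eq_mul]
      ring
    · simp only [Fin.mk_one, Fin.isValue]
      rw [DelAux_D_X1]
      have : del κ (X 1) = -(C (1 / 2) * X 0 ^ 2) := by
        unfold del
        rw [mkDerivation_X]
        rfl
      rw [this, smul_eq_mul, smul_eq_mul]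
      ring

theorem st_Del (h46 : St_Raman46) : St_Del := by
  intro κ _ h2 h3 W Φ hΦ
  obtain ⟨hR4, hR6⟩ := h46
  constructor
  · rw [DelAux_del_eq]
    unfold DelAux_D
    apply MvPolynomial.IsWeightedHomogeneous.add
    · apply DelAux_weight κ W 6 0 Φ _ hΦ _ (by simp [wt])
      have : (-(C (1 / 3) * X 1) : MvPolynomial (Fin 2) κ) = C (-(1 / 3)) * X 1 := by
        rw [map_neg]
        ring
      rw [this]
      have h := (MvPolynomial.isWeightedHomogeneous_C wt (-(1 / 3) : κ)).mul
        (MvPolynomial.isWeightedHomogeneous_X κ wt (1 : Fin 2))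
      simpa [wt] using h
    · apply DelAux_weight κ W 8 1 Φ _ hΦ _ (by simp [wt])
      have : (-(C (1 / 2) * X 0 ^ 2) : MvPolynomial (Fin 2) κ) = C (-(1 / 2)) * X 0 ^ 2 := by
        rw [map_neg]
        ring
      rw [this]
      have h := (MvPolynomial.isWeightedHomogeneous_C wt (-(1 / 2) : κ)).mul
        ((MvPolynomial.isWeightedHomogeneous_X κ wt (0 : Fin 2)).pow 2)
      simpa [wt] using h
  · -- the identities of Ramanujan over κ
    have hm : ∀ a : PowerSeries ℤ, thd (a.map (Int.castRingHom κ)) =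
        (thd a).map (Int.castRingHom κ) := DelAux_thd_map _
    have h4 : 3 * thd (E4R κ) = E2R κ * E4R κ - E6R κ := by
      have h := congrArg (PowerSeries.map (Int.castRingHom κ)) hR4
      rw [map_mul, map_sub, map_mul, map_ofNat, ← hm] at h
      exact h
    have h6 : 2 * thd (E6R κ) = E2R κ * E6R κ - E4R κ ^ 2 := by
      have h := congrArg (PowerSeries.map (Int.castRingHom κ)) hR6
      rw [map_mul, map_sub, map_mul, map_pow, map_ofNat, ← hm] at h
      exact h
    have h12 : (12 : κ) ≠ 0 := by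
      have : (12 : κ) = 2 * 2 * 3 := by norm_num
      rw [this]
      exact mul_ne_zero (mul_ne_zero h2 h2) h3
    have hC3 : PowerSeries.C (1 / 3 : κ) * 3 = 1 := by
      rw [← map_ofNat (PowerSeries.C (R := κ)) 3, ← map_mul, one_div]
      change PowerSeries.C ((3 : κ)⁻¹ * 3) = 1
      rw [inv_mul_cancel₀ h3, map_one]
    have hC2 : PowerSeries.C (1 / 2 : κ) * 2 = 1 := by
      rw [← map_ofNat (PowerSeries.C (R := κ)) 2, ← map_mul, one_div]
      change PowerSeries.C ((2 : κ)⁻¹ * 2) = 1
      rw [inv_mul_cancel₀ h2, map_one]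
    have hC12 : PowerSeries.C (1 / 12 : κ) * 12 = 1 := by
      rw [← map_ofNat (PowerSeries.C (R := κ)) 12, ← map_mul, one_div]
      change PowerSeries.C ((12 : κ)⁻¹ * 12) = 1
      rw [inv_mul_cancel₀ h12, map_one]
    have hevC : ∀ c : κ, ev κ (C c) = PowerSeries.C c := by
      intro c
      unfold ev
      rw [MvPolynomial.aeval_C]
      rfl
    have hev0 : ev κ (X 0) = E4R κ := by
      unfold ev
      simp
    have hev1 : ev κ (X 1) = E6R κ := by
      unfold ev
      simp
    -- the identity with the Euler operator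
    have key : ∀ p : MvPolynomial (Fin 2) κ, ev κ (DelAux_D κ p) = thd (ev κ p) -
        PowerSeries.C (1 / 12) * E2R κ * ev κ (DelAux_E κ p) := by
      intro p
      induction p using MvPolynomial.induction_on with
      | C a =>
        rw [DelAux_D_C, DelAux_E_C, hevC, DelAux_thd_C, map_zero]
        ring
      | add p q hp hq =>
        rw [DelAux_D_add, DelAux_E_add, map_add, map_add, map_add, hp, hq, DelAux_thd_add]
        ring
      | mul_X p i hp =>
        fin_cases i
        · simp only [Fin.zero_eta, Fin.isValue]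
          rw [DelAux_D_X0, DelAux_E_X0, map_sub, map_mul (ev κ) (DelAux_D κ p), hp,
            map_mul (ev κ) p (C (1 / 3) * X 1), map_mul (ev κ) (C (1 / 3)), map_add,
            map_mul (ev κ) (DelAux_E κ p), map_mul (ev κ) p (4 * X 0), map_mul (ev κ) 4,
            map_mul (ev κ) p (X 0), DelAux_thd_mul, hevC, hev0, hev1, map_ofNat]
          linear_combination (-(ev κ p) * PowerSeries.C (1 / 3)) * h4 +
            (ev κ p * thd (E4R κ) - ev κ p * PowerSeries.C (1 / 12) * 4 * E2R κ * E4R κ) * hC3 +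
            (ev κ p * E2R κ * E4R κ * PowerSeries.C (1 / 3)) * hC12
        · simp only [Fin.mk_one, Fin.isValue]
          rw [DelAux_D_X1, DelAux_E_X1, map_sub, map_mul (ev κ) (DelAux_D κ p), hp,
            map_mul (ev κ) p (C (1 / 2) * X 0 ^ 2), map_mul (ev κ) (C (1 / 2)), map_pow, map_add,
            map_mul (ev κ) (DelAux_E κ p), map_mul (ev κ) p (6 * X 1), map_mul (ev κ) 6,
            map_mul (ev κ) p (X 1), DelAux_thd_mul, hevC, hev0, hev1, map_ofNat]
          linear_combination (-(ev κ p) * PowerSeries.C (1 / 2)) * h6 +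
            (ev κ p * thd (E6R κ) - ev κ p * PowerSeries.C (1 / 12) * 6 * E2R κ * E6R κ) * hC2 +
            (ev κ p * E2R κ * E6R κ * PowerSeries.C (1 / 2)) * hC12
    have hE := hΦ.sum_weight_X_mul_pderiv
    have hE2 : DelAux_E κ Φ = C (W : κ) * Φ := by
      rw [Fin.sum_univ_two] at hE
      have e0 : wt 0 = 4 := rfl
      have e1 : wt 1 = 6 := rfl
      rw [e0, e1, nsmul_eq_mul, nsmul_eq_mul, nsmul_eq_mul] at hE
      unfold DelAux_E
      rw [map_natCast]
      exact_mod_cast hE
    rw [DelAux_del_eq, key, hE2, map_mul, hevC]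
    have hCW : PowerSeries.C ((W : κ) / 12) = PowerSeries.C (1 / 12 : κ) *
        PowerSeries.C (W : κ) := by
      rw [← map_mul]
      congr 1
      ring
    rw [hCW]
    ring

end Pool.Agent.D12
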