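import Pool.Agent.D12.Stmts

set_option autoImplicit false

/-!
# Lattices all of whose shells are spherical 12-designs: module EisQ
-/

namespace Pool.Agent.D12

open UpperHalfPlane hiding I
open Complex
open scoped Real MatrixGroups ModularForm ArithmeticFunction.sigma

theorem eisQ_coeff2 (m : ℕ) : PowerSeries.coeff m (E2R ℂ) =
    (if m = 0 then 1 else -24 * ((σ 1 m : ℕ) : ℂ)) := by
  unfold E2R e2s
  rw [PowerSeries.coeff_map, PowerSeries.coeff_mk]
  split_ifs <;> simp

theorem eisQ_coeff4 (m : ℕ) : PowerSeries.coeff m (E4R ℂ) =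
    (if m = 0 then 1 else 240 * ((σ 3 m : ℕ) : ℂ)) := by
  unfold E4R e4s
  rw [PowerSeries.coeff_map, PowerSeries.coeff_mk]
  split_ifs <;> simp

theorem eisQ_coeff6 (m : ℕ) : PowerSeries.coeff m (E6R ℂ) =
    (if m = 0 then 1 else -504 * ((σ 5 m : ℕ) : ℂ)) := by
  unfold E6R e6s
  rw [PowerSeries.coeff_map, PowerSeries.coeff_mk]
  split_ifs <;> simp

theorem st_EisQ : St_EisQ := by
  refine ⟨?_, ?_, ?_⟩
  · intro τ
    have h := EisensteinSeries.hasSum_qExpansion_E2 (z := τ)
    have he : (fun k : ℕ => PowerSeries.coeff k (E2R ℂ) *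
        cexp (2 * π * I * (τ : ℂ) * k / ((1 : ℕ) : ℂ))) =
        (fun m : ℕ ↦ (if m = 0 then 1 else -24 * ((σ 1 m : ℕ) : ℂ) : ℂ) •
          cexp (2 * π * I * (τ : ℂ)) ^ m) := by
      funext k
      rw [eisQ_coeff2, smul_eq_mul, ← Complex.exp_nat_mul]
      congr 2
      push_cast
      ring
    rw [he]
    exact h
  · ext m
    rw [eisQ_coeff4]
    have h := EisensteinSeries.E_qExpansion_coeff (k := 4) (by norm_num) ⟨2, rfl⟩ m
    refine h.trans ?_
    split_ifs
    · rfl
    · norm_num [show bernoulli 4 = -1 / 30 by decide +kernel]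
  · ext m
    rw [eisQ_coeff6]
    have h := EisensteinSeries.E_qExpansion_coeff (k := 6) (by norm_num) ⟨3, rfl⟩ m
    refine h.trans ?_
    split_ifs
    · rfl
    · norm_num [show bernoulli 6 = 1 / 42 by decide +kernel]

end Pool.Agent.D12
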