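import Pool.Agent.D12.Stmts

set_option autoImplicit false

/-!
# Lattices all of whose shells are spherical 12-designs: module Est
-/

namespace Pool.Agent.D12

open UpperHalfPlane hiding I
open Complex Matrix
open scoped BigOperators

theorem est_int_le (A : ValuationSubring ℂ) (a : ℤ) : A.valuation (a : ℂ) ≤ 1 := by
  rw [ValuationSubring.valuation_le_one_iff]
  exact intCast_mem A a

theorem est_nat_le (A : ValuationSubring ℂ) (a : ℕ) : A.valuation (a : ℂ) ≤ 1 := by
  rw [ValuationSubring.valuation_le_one_iff]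
  exact natCast_mem A a

theorem est_unit (A : ValuationSubring ℂ) (p : ℕ) (hp : p.Prime) (hv : A.valuation (p : ℂ) < 1)
    (a : ℤ) (ha : ¬ (p : ℤ) ∣ a) : A.valuation (a : ℂ) = 1 := by
  refine le_antisymm (est_int_le A a) ?_
  by_contra hlt
  push Not at hlt
  have hc : IsCoprime (p : ℤ) a :=
    (Nat.prime_iff_prime_int.mp hp).coprime_iff_not_dvd.mpr ha
  obtain ⟨x, y, hxy⟩ := hc
  have h1 : A.valuation ((x : ℂ) * p + y * a) = 1 := by
    have : ((x : ℂ) * p + y * a) = 1 := by exact_mod_cast hxy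
    rw [this, map_one]
  have h2 : A.valuation ((x : ℂ) * p + y * a) < 1 := by
    apply Valuation.map_add_lt
    · rw [map_mul]
      exact lt_of_le_of_lt (mul_le_of_le_one_left' (est_int_le A x)) hv
    · rw [map_mul]
      exact lt_of_le_of_lt (mul_le_of_le_one_left' (est_int_le A y)) hlt
  exact absurd h1 h2.ne

theorem est_dvd (A : ValuationSubring ℂ) (p : ℕ) (a : ℤ) (ha : (p : ℤ) ∣ a) :
    A.valuation (a : ℂ) ≤ A.valuation (p : ℂ) := by
  obtain ⟨b, rfl⟩ := ha
  push_cast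
  rw [map_mul]
  exact mul_le_of_le_one_right' (est_int_le A b)

/-- a rational number has valuation at least one or at most `v(p)` -/
theorem est_rat (A : ValuationSubring ℂ) (p : ℕ) (hp : p.Prime) (hv : A.valuation (p : ℂ) < 1)
    (q : ℚ) : 1 ≤ A.valuation (q : ℂ) ∨ A.valuation (q : ℂ) ≤ A.valuation (p : ℂ) := by
  have hq : (q : ℂ) = (q.num : ℂ) / (q.den : ℂ) := by
    conv_lhs => rw [← Rat.num_div_den q]
    push_cast
    rfl
  have hden : (q.den : ℂ) ≠ 0 := by exact_mod_cast q.den_nz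
  have hvd : A.valuation (q.den : ℂ) ≠ 0 := by
    rw [Ne, map_eq_zero]; exact hden
  rw [hq, map_div₀]
  by_cases h : (p : ℤ) ∣ q.num
  · right
    have hnd : ¬ (p : ℤ) ∣ (q.den : ℤ) := by
      intro h'
      have := q.reduced
      have h1 : p ∣ q.num.natAbs := Int.natCast_dvd.mp h
      have h2 : p ∣ q.den := by exact_mod_cast h'
      exact Nat.not_coprime_of_dvd_of_dvd hp.one_lt h1 h2 this
    have h1 : A.valuation (((q.den : ℤ) : ℂ)) = 1 := est_unit A p hp hv _ hnd
    rw [Int.cast_natCast] at h1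
    rw [h1, div_one]
    exact est_dvd A p _ h
  · left
    rw [est_unit A p hp hv _ h]
    rw [one_div]
    exact (one_le_inv₀ (zero_lt_iff.mpr hvd)).mpr (est_nat_le A _)

theorem est_toNat (D : ℤ) (hD : 0 ≤ D) : ((D.toNat : ℕ) : ℂ) = (D : ℂ) := by
  have h := Int.toNat_of_nonneg hD
  exact_mod_cast congrArg (fun x : ℤ => (x : ℂ)) h

theorem est_mom (A : ValuationSubring ℂ) (n p j i : ℕ) (hn : 2 ≤ n) (hp : p.Prime) (hp13 : 13 ≤ p)
    (hv : A.valuation (p : ℂ) < 1) (hj : p ∣ n + 2 * j) (hji : j < i) (hi : i ≤ 6) :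
    ∀ x : A.ValueGroup, A.valuation ((mom n i : ℝ) : ℂ) * x ≤ 1 → x ≤ A.valuation (p : ℂ) := by
  intro x hx
  have hnum : ((mom n i : ℝ) : ℂ) * ∏ r ∈ Finset.range i, (((n + 2 * r : ℕ) : ℤ) : ℂ) =
      ∏ r ∈ Finset.range i, (((2 * r + 1 : ℕ) : ℤ) : ℂ) := by
    rw [mom]
    push_cast
    rw [← Finset.prod_mul_distrib]
    refine Finset.prod_congr rfl fun r _ => ?_
    have : ((n : ℂ) + 2 * r) ≠ 0 := by
      have : ((n + 2 * r : ℕ) : ℂ) ≠ 0 := by
        exact_mod_cast (by omega : n + 2 * r ≠ 0)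
      exact_mod_cast this
    field_simp
  have h1 : A.valuation (∏ r ∈ Finset.range i, (((2 * r + 1 : ℕ) : ℤ) : ℂ)) = 1 := by
    rw [map_prod]
    refine Finset.prod_eq_one fun r hr => ?_
    refine est_unit A p hp hv _ ?_
    have hr6 : r < 6 := lt_of_lt_of_le (Finset.mem_range.mp hr) hi
    intro hd
    have hd' : p ∣ 2 * r + 1 := by exact_mod_cast hd
    have := Nat.le_of_dvd (by omega) hd'
    omega
  have h2 : A.valuation (∏ r ∈ Finset.range i, (((n + 2 * r : ℕ) : ℤ) : ℂ)) ≤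
      A.valuation (p : ℂ) := by
    rw [← Finset.mul_prod_erase _ _ (Finset.mem_range.mpr hji), map_mul]
    refine le_trans (mul_le_of_le_one_right' ?_) (est_dvd A p _ (by exact_mod_cast hj))
    rw [map_prod]
    exact Finset.prod_le_one' fun r _ => est_int_le A _
  have h3 : A.valuation ((mom n i : ℝ) : ℂ) *
      A.valuation (∏ r ∈ Finset.range i, (((n + 2 * r : ℕ) : ℤ) : ℂ)) = 1 := by
    rw [← map_mul, hnum, h1]
  have hm : A.valuation ((mom n i : ℝ) : ℂ) ≠ 0 := by
    intro h0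
    rw [h0, zero_mul] at h3
    exact zero_ne_one h3
  refine le_trans ?_ h2
  have : A.valuation ((mom n i : ℝ) : ℂ) * x ≤ A.valuation ((mom n i : ℝ) : ℂ) *
      A.valuation (∏ r ∈ Finset.range i, (((n + 2 * r : ℕ) : ℤ) : ℂ)) := by
    rw [h3]; exact hx
  exact (mul_le_mul_iff_right₀ (zero_lt_iff.mpr hm)).mp this

theorem st_Est (hFF : St_FormFacts) (hGD : St_GaussDesign) (hG3 : St_Gauss3) : St_Est := by
  intro n G hG hD hn p j hp hp13 hj1 hj5 hpj hz A hv c hc a d
  obtain ⟨M, hM2, hM⟩ := hG3 n G hG A c hc a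
  have FF := hFF n G hG
  refine ⟨M, hM2, fun k => ?_⟩
  obtain ⟨z, hz⟩ := hz
  have hdet0 : ((G.det : ℤ) : ℂ) ≠ 0 := by
    exact_mod_cast FF.det_pos.ne'
  have hc0 : (c : ℂ) ≠ 0 := by exact_mod_cast hc.ne'
  have hfin : {w : Fin n → ℤ | qf G.adjugate w = (k : ℤ)}.Finite := FF.adj_fin k
  set X := hfin.toFinset with hX
  have hXm : ∀ w, w ∈ X ↔ qf G.adjugate w = (k : ℤ) := fun w => by
    rw [hX, Set.Finite.mem_toFinset]; rfl
  have hfs : ∀ f : (Fin n → ℤ) → ℂ, ∑ᶠ (w : Fin n → ℤ) (_ : qf G.adjugate w = (k : ℤ)), f w =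
      ∑ w ∈ X, f w := fun f => finsum_mem_eq_finite_toFinset_sum f hfin
  set S : ℂ := ∑ w ∈ X, gs G c a w with hS
  -- the phase
  set ph : ℂ := cexp (Real.pi * I * d * ((k : ℤ) : ℂ) / (c * ((G.det : ℤ) : ℂ))) with hph
  have hcf : PowerSeries.coeff k (cf G (nug G c a d)) = ph * S := by
    rw [cf, PowerSeries.coeff_mk, hfs, hS, Finset.mul_sum]
    refine Finset.sum_congr rfl fun w hw => ?_
    rw [nug, (hXm w).mp hw, mul_comm]
  have hphv : A.valuation ph = 1 := by
    have h1 : ph ^ (2 * c * G.det.toNat) = 1 := by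
      rw [hph, ← Complex.exp_nat_mul, Complex.exp_eq_one_iff]
      refine ⟨d * k, ?_⟩
      have := est_toNat G.det FF.det_pos.le
      revert this hdet0
      generalize G.det = D
      intro hD0 hD1
      push_cast
      rw [hD1]
      field_simp
    have hne : 2 * c * G.det.toNat ≠ 0 := by
      have : 0 < G.det.toNat := by
        have := FF.det_pos
        omega
      positivity
    have h2 : A.valuation ph ^ (2 * c * G.det.toNat) = 1 := by rw [← map_pow, h1, map_one]
    exact (pow_eq_one_iff_of_nonneg zero_le hne).mp h2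
  have hSM : A.valuation S ≤ M := Valuation.map_sum_le _ fun w _ => hM w
  have hcfv : A.valuation (PowerSeries.coeff k (cf G (nug G c a d))) = A.valuation S := by
    rw [hcf, map_mul, hphv, one_mul]
  -- the valuation of `q(z)`
  have hqz : A.valuation ((qf G z : ℤ) : ℂ) = 1 := est_unit A p hp hv _ hz
  have h2v : A.valuation (2 : ℂ) = 1 := by
    have := est_unit A p hp hv 2 (by
      intro h
      have h' : p ∣ 2 := by exact_mod_cast h
      have := Nat.le_of_dvd (by norm_num) h'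
      omega)
    simpa using this
  set m : ℚ := (k : ℚ) / (G.det : ℚ) with hm
  have hmC : ((m : ℚ) : ℂ) = (k : ℂ) / ((G.det : ℤ) : ℂ) := by
    rw [hm]; push_cast; rfl
  have hlev : ((lev G : ℕ) : ℂ) = 2 * ((G.det : ℤ) : ℂ) := by
    rw [lev, Nat.cast_mul, est_toNat G.det FF.det_pos.le, Nat.cast_two]
  have hkN : A.valuation ((k : ℂ) / (lev G : ℕ)) = A.valuation ((m : ℚ) : ℂ) := by
    rw [hlev, hmC, map_div₀, map_div₀, map_mul, h2v, one_mul]
  -- the moment identities
  have hkey : ∀ i ≤ 6, A.valuation ((mom n i : ℝ) : ℂ) * A.valuation ((m : ℚ) : ℂ) ^ i *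
      A.valuation S ≤ M := by
    intro i hi
    have h := hGD n G hG hD (by omega) c hc a k (fun t => (z t : ℝ)) i hi
    rw [hfs, hfs] at h
    have hpr : ∀ w : Fin n → ℤ, ((prR w (fun t => (z t : ℝ)) : ℝ) : ℂ) =
        (((∑ t, w t * z t : ℤ)) : ℂ) := by
      intro w; rw [prR]; push_cast; rfl
    have hqR : ((qfR G (fun t => (z t : ℝ)) : ℝ) : ℂ) = ((qf G z : ℤ) : ℂ) := by
      simp only [qfR, qf, dotProduct, Matrix.mulVec, Matrix.map_apply]
      push_cast; rfl
    rw [hqR] at h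
    have h' : ((mom n i : ℝ) : ℂ) * ((m : ℚ) : ℂ) ^ i * ((qf G z : ℤ) : ℂ) ^ i * S =
        ∑ w ∈ X, gs G c a w * (((∑ t, w t * z t : ℤ)) : ℂ) ^ (2 * i) := by
      rw [hmC, hS]
      rw [mul_pow, ← mul_assoc] at h
      rw [← h]
      exact Finset.sum_congr rfl fun w _ => by rw [hpr]
    have hv' := congrArg A.valuation h'
    rw [map_mul, map_mul, map_mul, map_pow, map_pow, hqz, one_pow, mul_one] at hv'
    rw [hv']
    refine Valuation.map_sum_le _ fun w _ => ?_
    rw [map_mul, map_pow]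
    refine le_trans (mul_le_of_le_one_right' ?_) (hM w)
    exact pow_le_one' (est_int_le A _) _
  have hbig : ∀ i, j < i → i ≤ 6 → A.valuation ((m : ℚ) : ℂ) ^ i * A.valuation S ≤
      A.valuation (p : ℂ) * M := by
    intro i hji hi6
    have h := hkey i hi6
    by_cases hM0 : M = 0
    · rw [hM0] at hSM h ⊢
      have : A.valuation S = 0 := le_antisymm hSM zero_le
      rw [this]; simp
    have h1 := est_mom A n p j i hn hp hp13 hv hpj hji hi6
      (A.valuation ((m : ℚ) : ℂ) ^ i * A.valuation S * M⁻¹) (by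
        rw [← mul_assoc, ← mul_assoc]
        exact (mul_inv_le_iff₀ (zero_lt_iff.mpr hM0)).mpr (by rw [one_mul]; exact h))
    exact (mul_inv_le_iff₀ (zero_lt_iff.mpr hM0)).mp h1
  refine ⟨by rw [hcfv]; exact hSM, fun r hr1 hr6 => ?_⟩
  rw [map_mul, map_pow, hkN, hcfv]
  by_cases hrj : j < r
  · exact hbig r hrj hr6
  · push Not at hrj
    rcases est_rat A p hp hv m with h | h
    · calc A.valuation ((m : ℚ) : ℂ) ^ r * A.valuation S
          ≤ A.valuation ((m : ℚ) : ℂ) ^ (j + 1) * A.valuation S :=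
            mul_le_mul_left (pow_le_pow_right₀ h (by omega)) _
        _ ≤ _ := hbig (j + 1) (by omega) (by omega)
    · have h1 : A.valuation ((m : ℚ) : ℂ) ^ r ≤ A.valuation (p : ℂ) := by
        calc A.valuation ((m : ℚ) : ℂ) ^ r ≤ A.valuation ((m : ℚ) : ℂ) ^ 1 :=
              pow_le_pow_right_of_le_one' (h.trans (est_nat_le A p)) hr1
          _ ≤ _ := by rw [pow_one]; exact h
      exact mul_le_mul' h1 hSM

end Pool.Agent.D12
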