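import Pool.Agent.D12.Stmts

set_option autoImplicit false

/-!
# Lattices all of whose shells are spherical 12-designs: module Ex
-/

namespace Pool.Agent.D12

theorem ex_eq_expand {R : Type} [CommRing R] (N : ℕ) (hN : N ≠ 0) (a : PowerSeries R) :
    ex N a = PowerSeries.expand N hN a := by
  ext k
  rw [ex, PowerSeries.coeff_mk, PowerSeries.coeff_expand]

theorem st_Ex : St_Ex := by
  intro R _ N hN
  have hN' : N ≠ 0 := Nat.pos_iff_ne_zero.mp hN
  refine ⟨?_, fun a b => ?_, fun a b => ?_⟩
  · rw [ex_eq_expand N hN', map_one]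
  · rw [ex_eq_expand N hN', ex_eq_expand N hN', ex_eq_expand N hN', map_add]
  · rw [ex_eq_expand N hN', ex_eq_expand N hN', ex_eq_expand N hN', map_mul]

end Pool.Agent.D12
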