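import Pool.Agent.D12.Stmts

set_option autoImplicit false

/-!
# Lattices all of whose shells are spherical 12-designs: module FinIndex
-/

namespace Pool.Agent.D12

open UpperHalfPlane hiding I
open Complex Matrix Derivative
open scoped BigOperators MatrixGroups Real Manifold ModularForm

theorem fi_D_smul (c : ℂ) (F : ℍ → ℂ) :
    normalizedDerivOfComplex (c • F) = c • normalizedDerivOfComplex F := by
  ext z
  simp only [normalizedDerivOfComplex, Pi.smul_apply, smul_eq_mul]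
  rw [show (c • F) ∘ ofComplex = fun w => c * (F ∘ ofComplex) w from rfl,
    deriv_const_mul_field]
  ring

theorem fi_serre_smul (k c : ℂ) (F : ℍ → ℂ) (τ : ℍ) :
    serreDerivative k (c • F) τ = c * serreDerivative k F τ := by
  simp only [serreDerivative]
  rw [fi_D_smul]
  simp only [Pi.smul_apply, smul_eq_mul]
  ring

theorem fi_hop_smul (k c : ℂ) (F : ℍ → ℂ) (i : ℕ) :
    Hop k i (c • F) = c • Hop k i F ∧ Hop k (i + 1) (c • F) = c • Hop k (i + 1) F := by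
  induction i with
  | zero =>
    refine ⟨rfl, ?_⟩
    funext τ
    simp only [Hop, Pi.smul_apply, smul_eq_mul, fi_serre_smul]
    ring
  | succ i ih =>
    refine ⟨ih.2, ?_⟩
    funext τ
    rw [Hop, Hop, ih.1, ih.2]
    simp only [Pi.smul_apply, smul_eq_mul, fi_serre_smul]
    ring

theorem fi_neg_slash (W : ℕ) (f : ℍ → ℂ) (γ : SL(2, ℤ)) :
    f ∣[((W : ℕ) : ℤ)] γ = ((-1 : ℂ) ^ W) • (f ∣[((W : ℕ) : ℤ)] (-γ)) := by
  funext τ
  rw [Pi.smul_apply, ModularForm.SL_slash_apply, ModularForm.SL_slash_apply,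
    ModularGroup.SL_neg_smul, ModularGroup.denom_apply, ModularGroup.denom_apply]
  have h : (((-γ) 1 0 : ℤ) : ℂ) * (τ : ℂ) + (((-γ) 1 1 : ℤ) : ℂ) =
      -(((γ 1 0 : ℤ) : ℂ) * (τ : ℂ) + ((γ 1 1 : ℤ) : ℂ)) := by
    have h1 : (-γ) 1 0 = -(γ 1 0) := by simp
    have h2 : (-γ) 1 1 = -(γ 1 1) := by simp
    rw [h1, h2]; push_cast; ring
  rw [h, _root_.zpow_neg, _root_.zpow_neg, zpow_natCast, zpow_natCast,
    neg_pow (((γ 1 0 : ℤ) : ℂ) * (τ : ℂ) + ((γ 1 1 : ℤ) : ℂ)) W, mul_inv, smul_eq_mul]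
  have h1 : ((-1 : ℂ) ^ W) * ((-1 : ℂ) ^ W)⁻¹ = 1 :=
    mul_inv_cancel₀ (pow_ne_zero _ (by norm_num))
  calc _ = f (γ • τ) * ((((γ 1 0 : ℤ) : ℂ) * (τ : ℂ) + ((γ 1 1 : ℤ) : ℂ)) ^ W)⁻¹ *
        (((-1 : ℂ) ^ W) * ((-1 : ℂ) ^ W)⁻¹) := by rw [h1, mul_one]
    _ = _ := by ring

/-- the lower triangular matrices -/
def fiLow (m : ℤ) : SL(2, ℤ) := ⟨!![1, 0; m, 1], by simp [Matrix.det_fin_two]⟩

theorem fiLow_mul (a b : ℤ) : fiLow a * fiLow b = fiLow (a + b) := by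
  apply Subtype.ext
  show (!![1, 0; a, 1] : Matrix (Fin 2) (Fin 2) ℤ) * !![1, 0; b, 1] = !![1, 0; a + b, 1]
  simp

theorem fiLow_zero : fiLow 0 = 1 := by
  apply Subtype.ext
  show (!![1, 0; 0, 1] : Matrix (Fin 2) (Fin 2) ℤ) = 1
  exact Matrix.one_fin_two.symm

theorem fiLow_pow (a : ℤ) (k : ℕ) : fiLow a ^ k = fiLow (k * a) := by
  induction k with
  | zero => simp [fiLow_zero]
  | succ k ih => rw [pow_succ, ih, fiLow_mul]; congr 1; push_cast; ring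

theorem fiLow_10 (a : ℤ) : fiLow a 1 0 = a := rfl

theorem fi_low_mul (a : ℤ) (γ : SL(2, ℤ)) : (fiLow a * γ) 1 0 = a * γ 0 0 + γ 1 0 := by
  show ((!![1, 0; a, 1] : Matrix (Fin 2) (Fin 2) ℤ) * γ.1) 1 0 = _
  rw [Matrix.mul_apply, Fin.sum_univ_two]
  simp

/-- `θ` does not vanish on the imaginary axis -/
theorem fi_th_ne (hFF : St_FormFacts) {n : ℕ} (G : Matrix (Fin n) (Fin n) ℤ) (hG : EvenForm G) :
    th G UpperHalfPlane.I ≠ 0 := by
  have FF := hFF n G hG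
  have hs := FF.exp_sum π Real.pi_pos
  have h1 : th G UpperHalfPlane.I =
      ((∑' z : Fin n → ℤ, Real.exp (-π * (qf G z : ℝ)) : ℝ) : ℂ) := by
    rw [th, Complex.ofReal_tsum]
    refine tsum_congr fun z => ?_
    rw [Complex.ofReal_exp]
    congr 1
    push_cast
    linear_combination (π : ℂ) * ((qf G z : ℤ) : ℂ) * Complex.I_mul_I
  rw [h1]
  have : 0 < ∑' z : Fin n → ℤ, Real.exp (-π * (qf G z : ℝ)) :=
    hs.tsum_pos (fun _ => (Real.exp_pos _).le) 0 (Real.exp_pos _)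
  exact_mod_cast this.ne'

theorem st_FinIndex (hFF : St_FormFacts) (hA : QAna) (hTQ : St_ThetaQ) (hTP : St_ThetaPrim)
    (hG4 : St_Gauss4) (hG5 : St_Gauss5) (hS : St_Slash) : St_FinIndex := by
  classical
  intro n G hG j
  have FF := hFF n G hG
  set D0 : ℕ := G.det.toNat with hD0
  have hdetD : (G.det : ℤ) = (D0 : ℤ) := (Int.toNat_of_nonneg FF.det_pos.le).symm
  have hD0pos : 0 < D0 := by have := FF.det_pos; omega
  have hD0c : (D0 : ℂ) ≠ 0 := by exact_mod_cast hD0pos.ne'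
  set N : ℕ := 2 * D0 with hN
  have hNpos : 0 < N := by omega
  have : NeZero N := ⟨hNpos.ne'⟩
  have hdetC : ((G.det : ℤ) : ℂ) = (D0 : ℂ) := by
    have := congrArg (fun x : ℤ => (x : ℂ)) hdetD
    simpa using this
  -- `F` is nonzero
  have hF0 : Fth G ≠ 0 := by
    intro h
    have h1 := congrFun h UpperHalfPlane.I
    rw [Fth, Pi.zero_apply, hdetC] at h1
    exact (mul_ne_zero hD0c (pow_ne_zero _ (fi_th_ne hFF G hG))) h1
  -- the case `c > 0`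
  have hpos : ∀ (γ : SL(2, ℤ)) (c : ℕ), 0 < c → γ 1 0 = (c : ℤ) → (N : ℤ) ∣ γ 1 0 →
      ∃ χ : ℂ, Fth G ∣[((n : ℕ) : ℤ)] γ = χ • Fth G ∧
        Tth G j ∣[((n + 4 * j : ℕ) : ℤ)] γ = χ • Tth G j ∧
        (starRingEnd ℂ) (χ ^ 2) = χ ^ 2 ∧ ‖χ‖ ≤ (D0 : ℝ) ^ n := by
    intro γ c hc hγ hdvd
    obtain ⟨hF, hT⟩ := hS n G hG j γ c hc hγ
    have hdet : γ 0 0 * γ 1 1 - γ 0 1 * (c : ℤ) = 1 := by
      have := γ.2
      rw [Matrix.det_fin_two] at this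
      rw [← hγ]; exact this
    have hdvd' : (2 * G.det) ∣ (c : ℤ) := by
      rw [← hγ, hdetD]
      have : ((N : ℕ) : ℤ) = 2 * (D0 : ℤ) := by rw [hN]; push_cast; ring
      rwa [this] at hdvd
    obtain ⟨g1, g2⟩ := hG4 n G hG c hc (γ 0 0) (γ 0 1) (γ 1 1) hdet hdvd'
    obtain ⟨g3, g4⟩ := hG5 n G hG c hc (γ 0 0) (γ 0 1) (γ 1 1) hdet
    have hprim := hTP n G hG (nug G c (γ 0 0) (γ 1 1)) (gs G c (γ 0 0) 0) g1 g2
    set g0 := gs G c (γ 0 0) 0 with hg0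
    have hcc : (c : ℂ) ≠ 0 := by exact_mod_cast hc.ne'
    refine ⟨(-I / c) ^ n * g0 ^ 2 / D0, ?_, ?_, ?_, ?_⟩
    · rw [hF, hprim]
      funext τ
      simp only [Fth, Pi.smul_apply, smul_eq_mul, hdetC]
      field_simp
    · rw [hT, hprim]
      funext τ
      rw [(fi_hop_smul ((n : ℂ) / 2) g0 (th G) j).1]
      simp only [Tth, Pi.smul_apply, smul_eq_mul, hdetC]
      field_simp
    · have h1 : ((-I / c) ^ n * g0 ^ 2 / D0) ^ 2 =
          ((-1 : ℂ) / (c : ℂ) ^ 2) ^ n * g0 ^ 4 / (D0 : ℂ) ^ 2 := by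
        have h2 : ((-I / c) ^ n) ^ 2 = ((-1 : ℂ) / (c : ℂ) ^ 2) ^ n := by
          rw [← pow_mul, mul_comm n 2, pow_mul, div_pow, neg_sq, I_sq]
        rw [div_pow, mul_pow, h2]
        ring
      have g5 : (starRingEnd ℂ) g0 ^ 4 = g0 ^ 4 := by rw [← map_pow]; exact g3.symm
      rw [h1]
      simp only [map_div₀, map_mul, map_pow, map_neg, map_one, Complex.conj_natCast, g5]
    · rw [norm_div, norm_mul, norm_pow, norm_pow, norm_div, norm_neg, Complex.norm_I,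
        Complex.norm_natCast, Complex.norm_natCast]
      have hcR : (0 : ℝ) < c := by exact_mod_cast hc
      have hDR : (1 : ℝ) ≤ D0 := by exact_mod_cast hD0pos
      have hg4 : ‖g0‖ ^ 2 ≤ (c : ℝ) ^ n * (D0 : ℝ) ^ n := by
        have h5 : ((G.det : ℤ) : ℝ) = (D0 : ℝ) := by
          have := congrArg (fun x : ℤ => (x : ℝ)) hdetD
          simpa using this
        rw [h5] at g4
        exact g4
      rw [div_pow, one_pow, div_le_iff₀ (by linarith)]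
      calc 1 / (c : ℝ) ^ n * ‖g0‖ ^ 2 ≤ 1 / (c : ℝ) ^ n * ((c : ℝ) ^ n * (D0 : ℝ) ^ n) :=
            mul_le_mul_of_nonneg_left hg4 (by positivity)
        _ = (D0 : ℝ) ^ n := by field_simp
        _ ≤ (D0 : ℝ) ^ n * D0 := le_mul_of_one_le_right (by positivity) hDR
  -- the case `c ≠ 0`
  have hne : ∀ (γ : SL(2, ℤ)), γ 1 0 ≠ 0 → (N : ℤ) ∣ γ 1 0 →
      ∃ χ : ℂ, Fth G ∣[((n : ℕ) : ℤ)] γ = χ • Fth G ∧
        Tth G j ∣[((n + 4 * j : ℕ) : ℤ)] γ = χ • Tth G j ∧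
        (starRingEnd ℂ) (χ ^ 2) = χ ^ 2 ∧ ‖χ‖ ≤ (D0 : ℝ) ^ n := by
    intro γ hγ hdvd
    rcases lt_or_gt_of_ne hγ with h | h
    · have h10 : (-γ) 1 0 = -(γ 1 0) := by simp
      obtain ⟨χ, h1, h2, h3, h4⟩ := hpos (-γ) ((-γ) 1 0).toNat (by rw [h10]; omega)
        (by rw [h10]; omega) (by rw [h10]; exact (dvd_neg).mpr hdvd)
      have hs4 : ((-1 : ℂ) ^ (n + 4 * j)) = (-1) ^ n := by
        rw [pow_add, pow_mul]; norm_num
      refine ⟨(-1) ^ n * χ, ?_, ?_, ?_, ?_⟩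
      · rw [fi_neg_slash n, h1, smul_smul]
      · rw [fi_neg_slash (n + 4 * j), h2, smul_smul, hs4]
      · have : ((-1 : ℂ) ^ n * χ) ^ 2 = χ ^ 2 := by
          rw [mul_pow, ← pow_mul, mul_comm n 2, pow_mul]; norm_num
        rw [this]; exact h3
      · rw [norm_mul, norm_pow, norm_neg, norm_one, one_pow, one_mul]; exact h4
    · exact hpos γ (γ 1 0).toNat (by omega) (by omega) hdvd
  -- the matrix `g0`
  have hg0 : fiLow N 1 0 ≠ 0 := by
    rw [fiLow_10]; exact_mod_cast hNpos.ne'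
  obtain ⟨χ0, a1, a2, a3, a4⟩ := hne (fiLow N) hg0 (by rw [fiLow_10])
  have hnz : ∀ (γ : SL(2, ℤ)) (χ : ℂ), Fth G ∣[((n : ℕ) : ℤ)] γ = χ • Fth G → χ ≠ 0 := by
    intro γ χ h hχ
    rw [hχ, zero_smul] at h
    exact hF0 ((SlashAction.slash_eq_zero_iff _ γ _).mp h)
  have hχ0 : χ0 ≠ 0 := hnz _ _ a1
  -- all elements of `Γ₀(N)`
  set K : ℝ := (D0 : ℝ) ^ n * (1 + ‖χ0‖⁻¹) with hK
  have hall : ∀ (γ : SL(2, ℤ)), (N : ℤ) ∣ γ 1 0 →
      ∃ χ : ℂ, Fth G ∣[((n : ℕ) : ℤ)] γ = χ • Fth G ∧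
        Tth G j ∣[((n + 4 * j : ℕ) : ℤ)] γ = χ • Tth G j ∧
        (starRingEnd ℂ) (χ ^ 2) = χ ^ 2 ∧ ‖χ‖ ≤ K := by
    intro γ hdvd
    have hDn : (0 : ℝ) ≤ (D0 : ℝ) ^ n := by positivity
    by_cases h : γ 1 0 = 0
    · have hd : γ 0 0 ≠ 0 := by
        intro h0
        have := γ.2
        rw [Matrix.det_fin_two] at this
        rw [show γ.1 1 0 = 0 from h, show γ.1 0 0 = 0 from h0] at this
        simp at this
      have hprod : (fiLow N * γ) 1 0 = N * γ 0 0 := by rw [fi_low_mul, h, add_zero]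
      obtain ⟨χ, h1, h2, h3, h4⟩ := hne (fiLow N * γ)
        (by rw [hprod]; exact mul_ne_zero (by exact_mod_cast hNpos.ne') hd)
        (by rw [hprod]; exact dvd_mul_right _ _)
      refine ⟨χ / χ0, ?_, ?_, ?_, ?_⟩
      · rw [SlashAction.slash_mul, a1, ModularForm.SL_smul_slash] at h1
        rw [div_eq_inv_mul, ← smul_smul, ← h1, smul_smul, inv_mul_cancel₀ hχ0, one_smul]
      · rw [SlashAction.slash_mul, a2, ModularForm.SL_smul_slash] at h2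
        rw [div_eq_inv_mul, ← smul_smul, ← h2, smul_smul, inv_mul_cancel₀ hχ0, one_smul]
      · rw [div_pow, map_div₀, h3, a3]
      · rw [norm_div, hK, div_eq_mul_inv]
        calc ‖χ‖ * ‖χ0‖⁻¹ ≤ (D0 : ℝ) ^ n * ‖χ0‖⁻¹ :=
              mul_le_mul_of_nonneg_right h4 (by positivity)
          _ ≤ (D0 : ℝ) ^ n * (1 + ‖χ0‖⁻¹) :=
              mul_le_mul_of_nonneg_left (by linarith) hDn
    · obtain ⟨χ, h1, h2, h3, h4⟩ := hne γ h hdvd
      refine ⟨χ, h1, h2, h3, h4.trans ?_⟩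
      rw [hK]
      exact le_mul_of_one_le_right hDn (by
        have : (0 : ℝ) ≤ ‖χ0‖⁻¹ := by positivity
        linarith)
  choose! χ c1 c2 c3 c4 using hall
  have huniq : ∀ (γ : SL(2, ℤ)) (x y : ℂ), Fth G ∣[((n : ℕ) : ℤ)] γ = x • Fth G →
      Fth G ∣[((n : ℕ) : ℤ)] γ = y • Fth G → x = y := by
    intro γ x y hx hy
    rw [hx] at hy
    exact smul_left_injective ℂ hF0 hy
  have hmem : ∀ γ : SL(2, ℤ), γ ∈ CongruenceSubgroup.Gamma0 N ↔ (N : ℤ) ∣ γ 1 0 := by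
    intro γ
    rw [CongruenceSubgroup.Gamma0_mem, ZMod.intCast_zmod_eq_zero_iff_dvd]
  have hmul : ∀ γ1 γ2 : SL(2, ℤ), (N : ℤ) ∣ γ1 1 0 → (N : ℤ) ∣ γ2 1 0 →
      χ (γ1 * γ2) = χ γ1 * χ γ2 := by
    intro γ1 γ2 h1 h2
    have h12 : (N : ℤ) ∣ (γ1 * γ2) 1 0 :=
      (hmem _).mp (mul_mem ((hmem _).mpr h1) ((hmem _).mpr h2))
    refine huniq (γ1 * γ2) _ _ (c1 _ h12) ?_
    rw [SlashAction.slash_mul, c1 _ h1, ModularForm.SL_smul_slash, c1 _ h2, smul_smul]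
  have hone : χ 1 = 1 := by
    have h1 : (N : ℤ) ∣ (1 : SL(2, ℤ)) 1 0 := by simp
    refine huniq 1 _ _ (c1 _ h1) ?_
    rw [SlashAction.slash_one, one_smul]
  have hpow : ∀ (γ : SL(2, ℤ)) (m : ℕ), (N : ℤ) ∣ γ 1 0 → χ (γ ^ m) = χ γ ^ m := by
    intro γ m h
    induction m with
    | zero => rw [pow_zero, pow_zero, hone]
    | succ m ih =>
      have hm : (N : ℤ) ∣ (γ ^ m) 1 0 := (hmem _).mp (pow_mem ((hmem _).mpr h) m)
      rw [pow_succ, pow_succ, hmul _ _ hm h, ih]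
  have hle1 : ∀ (γ : SL(2, ℤ)), (N : ℤ) ∣ γ 1 0 → ‖χ γ‖ ≤ 1 := by
    intro γ h
    by_contra hgt
    push Not at hgt
    obtain ⟨m, hm⟩ := pow_unbounded_of_one_lt K hgt
    have hm' : (N : ℤ) ∣ (γ ^ m) 1 0 := (hmem _).mp (pow_mem ((hmem _).mpr h) m)
    have := c4 _ hm'
    rw [hpow γ m h, norm_pow] at this
    exact absurd this (not_le.mpr hm)
  have hnorm : ∀ (γ : SL(2, ℤ)), (N : ℤ) ∣ γ 1 0 → ‖χ γ‖ = 1 := by
    intro γ h
    have hi : (N : ℤ) ∣ (γ⁻¹) 1 0 := (hmem _).mp (inv_mem ((hmem _).mpr h))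
    have h1 := hmul γ γ⁻¹ h hi
    rw [mul_inv_cancel, hone] at h1
    have h2 : ‖χ γ‖ * ‖χ γ⁻¹‖ = 1 := by rw [← norm_mul, ← h1, norm_one]
    have h3 := hle1 γ h
    have h4 := hle1 _ hi
    nlinarith [norm_nonneg (χ γ), norm_nonneg (χ γ⁻¹)]
  have hfour : ∀ (γ : SL(2, ℤ)), (N : ℤ) ∣ γ 1 0 → χ γ ^ 4 = 1 := by
    intro γ h
    have h1 : χ γ ^ 4 = χ γ ^ 2 * (starRingEnd ℂ) (χ γ ^ 2) := by
      rw [c3 γ h]; ring
    rw [h1, Complex.mul_conj, Complex.normSq_eq_norm_sq, norm_pow, hnorm γ h]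
    norm_num
  have hχnz : ∀ (γ : SL(2, ℤ)), (N : ℤ) ∣ γ 1 0 → χ γ ≠ 0 := fun γ h => hnz γ _ (c1 γ h)
  -- the character
  let X : CongruenceSubgroup.Gamma0 N →* ℂˣ :=
    { toFun := fun γ => Units.mk0 (χ γ.1) (hχnz γ.1 ((hmem _).mp γ.2))
      map_one' := by
        apply Units.ext
        exact hone
      map_mul' := fun a b => by
        apply Units.ext
        exact hmul a.1 b.1 ((hmem _).mp a.2) ((hmem _).mp b.2) }
  have hXfin : Finite X.range := by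
    have hsub : (X.range : Set ℂˣ) ⊆ {u : ℂˣ | u ^ 4 = 1} := by
      rintro u ⟨γ, rfl⟩
      apply Units.ext
      exact hfour γ.1 ((hmem _).mp γ.2)
    have hfin4 : {u : ℂˣ | u ^ 4 = 1}.Finite := by
      have : Finite (rootsOfUnity 4 ℂ) := inferInstance
      refine Set.Finite.subset (Set.toFinite (rootsOfUnity 4 ℂ : Set ℂˣ)) ?_
      intro u hu
      exact (_root_.mem_rootsOfUnity 4 u).mpr hu
    exact (hfin4.subset hsub).to_subtype
  let Γ' : Subgroup SL(2, ℤ) :=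
    { carrier := {γ | Fth G ∣[((n : ℕ) : ℤ)] γ = Fth G ∧
        Tth G j ∣[((n + 4 * j : ℕ) : ℤ)] γ = Tth G j}
      one_mem' := ⟨SlashAction.slash_one _ _, SlashAction.slash_one _ _⟩
      mul_mem' := by
        rintro a b ⟨ha1, ha2⟩ ⟨hb1, hb2⟩
        exact ⟨by rw [SlashAction.slash_mul, ha1, hb1], by rw [SlashAction.slash_mul, ha2, hb2]⟩
      inv_mem' := by
        rintro a ⟨ha1, ha2⟩
        refine ⟨?_, ?_⟩
        · conv_lhs => rw [← ha1]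
          rw [← SlashAction.slash_mul, mul_inv_cancel, SlashAction.slash_one]
        · conv_lhs => rw [← ha2]
          rw [← SlashAction.slash_mul, mul_inv_cancel, SlashAction.slash_one] }
  have hker : (X.ker).map (CongruenceSubgroup.Gamma0 N).subtype ≤ Γ' := by
    rintro _ ⟨γ, hγ, rfl⟩
    have h1 : (N : ℤ) ∣ γ.1 1 0 := (hmem _).mp γ.2
    have h2 : χ γ.1 = 1 := by
      have := congrArg Units.val (show X γ = 1 from hγ)
      exact this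
    refine ⟨?_, ?_⟩
    · show Fth G ∣[((n : ℕ) : ℤ)] γ.1 = Fth G
      rw [c1 _ h1, h2, one_smul]
    · show Tth G j ∣[((n + 4 * j : ℕ) : ℤ)] γ.1 = Tth G j
      rw [c2 _ h1, h2, one_smul]
  have hidx : ((X.ker).map (CongruenceSubgroup.Gamma0 N).subtype).FiniteIndex := by
    constructor
    rw [Subgroup.index_map_subtype]
    exact mul_ne_zero (Subgroup.finiteIndex_ker X).index_ne_zero
      (CongruenceSubgroup.instFiniteIndexGamma0 N).index_ne_zero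
  refine ⟨Γ', Subgroup.finiteIndex_of_le hker, fun γ hγ => hγ, ?_⟩
  intro γ hγ
  have h1 : (N : ℤ) ∣ fiLow N 1 0 := by rw [fiLow_10]
  have h4 : (N : ℤ) ∣ (fiLow N ^ 4) 1 0 := (hmem _).mp (pow_mem ((hmem _).mpr h1) 4)
  have hχ4 : χ (fiLow N ^ 4) = 1 := by rw [hpow _ 4 h1, hfour _ h1]
  refine ⟨fiLow N ^ 4, ⟨?_, ?_⟩, ?_⟩
  · show Fth G ∣[((n : ℕ) : ℤ)] (fiLow N ^ 4) = Fth G
    rw [c1 _ h4, hχ4, one_smul]
  · show Tth G j ∣[((n + 4 * j : ℕ) : ℤ)] (fiLow N ^ 4) = Tth G j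
    rw [c2 _ h4, hχ4, one_smul]
  · rw [fiLow_pow, fi_low_mul, hγ, add_zero]
    have hd : γ 0 0 ≠ 0 := by
      intro h0
      have := γ.2
      rw [Matrix.det_fin_two] at this
      rw [show γ.1 1 0 = 0 from hγ, show γ.1 0 0 = 0 from h0] at this
      simp at this
    refine mul_ne_zero ?_ hd
    have : (N : ℤ) ≠ 0 := by exact_mod_cast hNpos.ne'
    push_cast
    exact mul_ne_zero (by norm_num) this

end Pool.Agent.D12
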