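import Pool.Agent.D12.Stmts

set_option autoImplicit false

/-!
# Lattices all of whose shells are spherical 12-designs: module FormFacts
-/

namespace Pool.Agent.D12

open Matrix

variable {n : ℕ}

private theorem ffx_cast (M : Matrix (Fin n) (Fin n) ℤ) (z : Fin n → ℤ) :
    (qf M z : ℝ) = qfR M (fun i => (z i : ℝ)) := by
  simp [qf, qfR, dotProduct, mulVec]

private theorem ffx_smul (M : Matrix (Fin n) (Fin n) ℤ) (c : ℝ) (x : Fin n → ℝ) :
    qfR M (c • x) = c ^ 2 * qfR M x := by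
  simp only [qfR, mulVec_smul, dotProduct_smul, smul_dotProduct, smul_eq_mul]
  ring

private theorem ffx_zero (M : Matrix (Fin n) (Fin n) ℤ) : qfR M 0 = 0 := by
  simp [qfR]

private theorem ffx_cont (M : Matrix (Fin n) (Fin n) ℤ) : Continuous (qfR M) := by
  unfold qfR dotProduct mulVec dotProduct
  fun_prop

/-- a positive definite form is bounded below by a multiple of the sum of squares -/
private theorem ffx_lower (M : Matrix (Fin n) (Fin n) ℤ)
    (h : ∀ x : Fin n → ℝ, x ≠ 0 → 0 < qfR M x) :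
    ∃ l : ℝ, 0 < l ∧ ∀ x : Fin n → ℝ, l * ∑ i, x i ^ 2 ≤ qfR M x := by
  have hcl : IsClosed {x : Fin n → ℝ | ∑ i, x i ^ 2 = 1} :=
    isClosed_eq (by fun_prop) continuous_const
  have hbd : Bornology.IsBounded {x : Fin n → ℝ | ∑ i, x i ^ 2 = 1} := by
    refine Metric.isBounded_closedBall.subset (?_ : _ ⊆ Metric.closedBall (0 : Fin n → ℝ) 1)
    intro x hx
    rw [mem_closedBall_zero_iff, pi_norm_le_iff_of_nonneg zero_le_one]
    intro i
    have h1 : x i ^ 2 ≤ 1 := by
      rw [← (show ∑ i, x i ^ 2 = 1 from hx)]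
      exact Finset.single_le_sum (f := fun i => x i ^ 2) (fun j _ => sq_nonneg _)
        (Finset.mem_univ i)
    rw [Real.norm_eq_abs]
    exact abs_le_one_iff_mul_self_le_one.2 (by nlinarith)
  have hco := Metric.isCompact_of_isClosed_isBounded hcl hbd
  have key : ∃ l : ℝ, 0 < l ∧ ∀ x : Fin n → ℝ, ∑ i, x i ^ 2 = 1 → l ≤ qfR M x := by
    rcases Set.eq_empty_or_nonempty {x : Fin n → ℝ | ∑ i, x i ^ 2 = 1} with he | hne
    · refine ⟨1, one_pos, fun x hx => ?_⟩
      have : x ∈ {x : Fin n → ℝ | ∑ i, x i ^ 2 = 1} := hx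
      rw [he] at this
      exact this.elim
    · obtain ⟨x0, hx0, hmin⟩ := hco.exists_isMinOn hne (ffx_cont M).continuousOn
      refine ⟨qfR M x0, h x0 ?_, fun x hx => hmin hx⟩
      intro h0
      have : ∑ i, x0 i ^ 2 = 1 := hx0
      rw [h0] at this
      simp at this
  obtain ⟨l, hl, hk⟩ := key
  refine ⟨l, hl, fun x => ?_⟩
  by_cases hx : x = 0
  · rw [hx, ffx_zero]
    simp
  · have hr : 0 < ∑ i, x i ^ 2 := by
      obtain ⟨i, hi⟩ := Function.ne_iff.1 hx
      exact Finset.sum_pos' (fun j _ => sq_nonneg _) ⟨i, Finset.mem_univ i,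
        lt_of_le_of_ne (sq_nonneg _) (Ne.symm (pow_ne_zero 2 hi))⟩
    set r := Real.sqrt (∑ i, x i ^ 2) with hrd
    have hrp : 0 < r := Real.sqrt_pos.2 hr
    have hr2 : r ^ 2 = ∑ i, x i ^ 2 := Real.sq_sqrt hr.le
    have h1 : ∑ i, ((r⁻¹ • x) i) ^ 2 = 1 := by
      simp only [Pi.smul_apply, smul_eq_mul, mul_pow]
      rw [← Finset.mul_sum, ← hr2, ← mul_pow, inv_mul_cancel₀ hrp.ne', one_pow]
    have h2 := hk _ h1
    rw [ffx_smul] at h2
    rw [← hr2]
    have h3 : (r⁻¹) ^ 2 * qfR M x * r ^ 2 = qfR M x := by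
      field_simp
    nlinarith [mul_le_mul_of_nonneg_right h2 (sq_nonneg r)]

/-- finiteness of shells -/
private theorem ffx_fin (M : Matrix (Fin n) (Fin n) ℤ) {l : ℝ} (hl : 0 < l)
    (h : ∀ x : Fin n → ℝ, l * ∑ i, x i ^ 2 ≤ qfR M x) (k : ℤ) :
    {z : Fin n → ℤ | qf M z = k}.Finite := by
  obtain ⟨B, hB⟩ := exists_nat_ge ((k : ℝ) / l)
  refine (Set.finite_Icc (fun _ : Fin n => -(B : ℤ)) (fun _ => (B : ℤ))).subset ?_
  intro z hz
  have hz' : (qf M z : ℝ) = k := by
    have : qf M z = k := hz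
    exact_mod_cast this
  have h1 : ∀ i, (z i) ^ 2 ≤ (B : ℤ) := by
    intro i
    have h2 : ((z i : ℝ)) ^ 2 ≤ ∑ j, (z j : ℝ) ^ 2 :=
      Finset.single_le_sum (f := fun i => (z i : ℝ) ^ 2) (fun j _ => sq_nonneg _)
        (Finset.mem_univ i)
    have h3 := h (fun i => (z i : ℝ))
    rw [← ffx_cast, hz'] at h3
    have h4 : ∑ j, (z j : ℝ) ^ 2 ≤ (k : ℝ) / l := by
      rw [le_div_iff₀ hl]
      linarith
    have h5 : ((z i : ℝ)) ^ 2 ≤ (B : ℝ) := by linarith
    exact_mod_cast h5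
  constructor
  · intro i
    show -(B : ℤ) ≤ z i
    have h6 := h1 i
    have h7 : (0 : ℤ) ≤ B := Int.natCast_nonneg B
    by_contra h8
    have h9 : z i + B + 1 ≤ 0 := by omega
    nlinarith
  · intro i
    show z i ≤ (B : ℤ)
    have h6 := h1 i
    have h7 : (0 : ℤ) ≤ B := Int.natCast_nonneg B
    by_contra h8
    have h9 : (B : ℤ) + 1 ≤ z i := by omega
    nlinarith

/-- products of summable functions -/
private theorem ffx_prod {f : ℤ → ℝ} (hf : ∀ m, 0 ≤ f m) (hs : Summable f) :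
    Summable (fun z : Fin n → ℤ => ∏ i, f (z i)) := by
  classical
  refine summable_of_sum_le (c := (∑' m, f m) ^ n)
    (fun z => Finset.prod_nonneg fun i _ => hf _) ?_
  intro u
  have h1 : u ⊆ Fintype.piFinset (fun i => u.image (fun z => z i)) := by
    intro z hz
    rw [Fintype.mem_piFinset]
    intro i
    exact Finset.mem_image_of_mem _ hz
  calc ∑ z ∈ u, ∏ i, f (z i)
      ≤ ∑ z ∈ Fintype.piFinset (fun i => u.image (fun z => z i)), ∏ i, f (z i) :=
        Finset.sum_le_sum_of_subset_of_nonneg h1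
          (fun z _ _ => Finset.prod_nonneg fun i _ => hf _)
    _ = ∏ i : Fin n, ∑ m ∈ u.image (fun z => z i), f m := by
        rw [Finset.prod_univ_sum]
    _ ≤ ∏ _i : Fin n, ∑' m, f m := by
        refine Finset.prod_le_prod (fun i _ => Finset.sum_nonneg fun m _ => hf _) ?_
        intro i _
        exact hs.sum_le_tsum _ (fun m _ => hf m)
    _ = (∑' m, f m) ^ n := by simp

private theorem ffx_one {a : ℝ} (ha : 0 < a) :
    Summable (fun m : ℤ => Real.exp (-a * (m : ℝ) ^ 2)) := by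
  have h1 : Summable (fun m : ℕ => Real.exp (-a * (m : ℝ) ^ 2)) := by
    refine Real.summable_exp_nat_mul_of_ge (c := -a) (by linarith) (f := fun m => (m : ℝ) ^ 2) ?_
    intro i
    have : i ≤ i ^ 2 := by nlinarith [Nat.zero_le i, sq_nonneg (i : ℤ), Nat.le_self_pow (n := 2) (by norm_num) i]
    exact_mod_cast this
  refine Summable.of_nat_of_neg ?_ ?_
  · simpa using h1
  · simpa using h1

private theorem ffx_exp (M : Matrix (Fin n) (Fin n) ℤ) {l : ℝ} (hl : 0 < l)
    (h : ∀ x : Fin n → ℝ, l * ∑ i, x i ^ 2 ≤ qfR M x) {t : ℝ} (ht : 0 < t) :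
    Summable (fun z : Fin n → ℤ => Real.exp (-t * (qf M z : ℝ))) := by
  have h1 := ffx_prod (n := n) (f := fun m : ℤ => Real.exp (-(t * l) * (m : ℝ) ^ 2))
    (fun m => (Real.exp_pos _).le) (ffx_one (mul_pos ht hl))
  refine h1.of_nonneg_of_le (fun z => (Real.exp_pos _).le) fun z => ?_
  rw [← Real.exp_sum]
  apply Real.exp_le_exp.2
  rw [← Finset.mul_sum, ffx_cast]
  have h2 := h (fun i => (z i : ℝ))
  nlinarith [mul_le_mul_of_nonneg_left h2 ht.le]

private theorem ffx_even (G : Matrix (Fin n) (Fin n) ℤ) (hs : G.IsSymm)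
    (he : ∀ i, Even (G i i)) (z : Fin n → ℤ) : Even (qf G z) := by
  rw [← ZMod.intCast_eq_zero_iff_even]
  have h1 : ((qf G z : ℤ) : ZMod 2) =
      ∑ p : Fin n × Fin n, ((z p.1 * (G p.1 p.2 * z p.2) : ℤ) : ZMod 2) := by
    rw [Fintype.sum_prod_type]
    simp only [qf, dotProduct, mulVec, Finset.mul_sum]
    push_cast
    rfl
  rw [h1]
  refine Finset.sum_involution (fun p _ => (p.2, p.1)) ?_ ?_ (fun _ _ => Finset.mem_univ _)
    (fun _ _ => rfl)
  · intro p _
    have h2 : G p.2 p.1 = G p.1 p.2 := by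
      have := congrFun (congrFun hs p.1) p.2
      simpa [Matrix.transpose_apply] using this
    show ((z p.1 * (G p.1 p.2 * z p.2) : ℤ) : ZMod 2) +
      ((z p.2 * (G p.2 p.1 * z p.1) : ℤ) : ZMod 2) = 0
    rw [h2, ← Int.cast_add, ZMod.intCast_eq_zero_iff_even]
    exact ⟨z p.1 * (G p.1 p.2 * z p.2), by ring⟩
  · intro p _ hp hq
    apply hp
    have h3 : p.2 = p.1 := congrArg Prod.fst hq
    rw [ZMod.intCast_eq_zero_iff_even, h3]
    obtain ⟨c, hc⟩ := he p.1
    exact ⟨z p.1 * (c * z p.1), by rw [hc]; ring⟩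

theorem st_FormFacts : St_FormFacts := by
  intro n G hG
  classical
  set A : Matrix (Fin n) (Fin n) ℝ := G.map (fun a : ℤ => (a : ℝ)) with hA
  have hdet : (G.det : ℝ) = A.det := by
    have := (Int.castRingHom ℝ).map_det G
    simpa [hA, RingHom.mapMatrix_apply] using this
  have hpd : A.PosDef := by
    refine PosDef.of_dotProduct_mulVec_pos ?_ ?_
    · ext i j
      have h1 : G j i = G i j := by
        have := congrFun (congrFun hG.symm i) j
        simpa [Matrix.transpose_apply] using this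
      simp [hA, h1]
    · intro x hx
      have := hG.pos x hx
      simpa [qfR, hA] using this
  have hdp : 0 < A.det := hpd.det_pos
  have hadj : ∀ x : Fin n → ℝ, qfR G.adjugate (A *ᵥ x) = A.det * qfR G x := by
    intro x
    have h1 : G.adjugate.map (fun a : ℤ => (a : ℝ)) = A.adjugate := by
      have := (Int.castRingHom ℝ).map_adjugate G
      simpa [hA, RingHom.mapMatrix_apply] using this
    unfold qfR
    rw [h1, mulVec_mulVec, adjugate_mul, smul_mulVec, one_mulVec, dotProduct_smul, smul_eq_mul,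
      dotProduct_comm]
  have hinv : ∀ w : Fin n → ℝ, A *ᵥ (A⁻¹ *ᵥ w) = w := by
    intro w
    rw [mulVec_mulVec, mul_nonsing_inv _ (isUnit_iff_ne_zero.2 hdp.ne'), one_mulVec]
  have hap : ∀ w : Fin n → ℝ, w ≠ 0 → 0 < qfR G.adjugate w := by
    intro w hw
    rw [← hinv w, hadj]
    refine mul_pos hdp (hG.pos _ ?_)
    intro h0
    apply hw
    rw [← hinv w, h0, mulVec_zero]
  obtain ⟨l, hl, h⟩ := ffx_lower G hG.pos
  obtain ⟨l', hl', h'⟩ := ffx_lower G.adjugate hap
  have hnn : ∀ (M : Matrix (Fin n) (Fin n) ℤ), (∀ x : Fin n → ℝ, x ≠ 0 → 0 < qfR M x) →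
      ∀ z : Fin n → ℤ, 0 ≤ qf M z := by
    intro M hM z
    have h1 : 0 ≤ qfR M (fun i => (z i : ℝ)) := by
      by_cases hz : (fun i => (z i : ℝ)) = 0
      · rw [hz, ffx_zero]
      · exact (hM _ hz).le
    rw [← ffx_cast] at h1
    exact_mod_cast h1
  have hz0 : ∀ (M : Matrix (Fin n) (Fin n) ℤ), (∀ x : Fin n → ℝ, x ≠ 0 → 0 < qfR M x) →
      ∀ z : Fin n → ℤ, qf M z = 0 → z = 0 := by
    intro M hM z hz
    by_contra hne
    have h1 : (fun i => (z i : ℝ)) ≠ 0 := by
      intro h2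
      apply hne
      funext i
      have := congrFun h2 i
      simpa using this
    have h3 := hM _ h1
    rw [← ffx_cast, hz] at h3
    simp at h3
  refine ⟨?_, ffx_even G hG.symm hG.even, hnn G hG.pos, hnn G.adjugate hap, ffx_fin G hl h,
    ffx_fin G.adjugate hl' h', hz0 G.adjugate hap, hz0 G hG.pos, ?_, fun t ht => ffx_exp G hl h ht,
    fun t ht => ffx_exp G.adjugate hl' h' ht⟩
  · have h1 : (0 : ℝ) < (G.det : ℝ) := by rw [hdet]; exact hdp
    exact_mod_cast h1
  · intro z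
    unfold qf
    rw [mulVec_mulVec, adjugate_mul, smul_mulVec, one_mulVec, dotProduct_smul, smul_eq_mul,
      dotProduct_comm]

end Pool.Agent.D12
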