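import Pool.Agent.D12.Stmts

set_option autoImplicit false

/-!
# Lattices all of whose shells are spherical 12-designs: module Fourier
-/

namespace Pool.Agent.D12

open Complex Matrix MeasureTheory
open scoped BigOperators Real MatrixOrder

theorem fou_decomp {n : ℕ} (M : Matrix (Fin n) (Fin n) ℝ) (hM : M.PosDef) :
    ∃ B : Matrix (Fin n) (Fin n) ℝ, M = Bᵀ * B ∧ B.det ≠ 0 := by
  obtain ⟨B, hB⟩ := CStarAlgebra.nonneg_iff_eq_star_mul_self.mp hM.posSemidef.nonneg
  have hB' : M = Bᵀ * B := by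
    rw [hB, star_eq_conjTranspose, conjTranspose_eq_transpose_of_trivial]
  refine ⟨B, hB', ?_⟩
  intro h0
  have : M.det = 0 := by rw [hB', det_mul, h0, mul_zero]
  exact (hM.posSemidef.posDef_iff_det_ne_zero.mp hM) this

theorem fou_integral {n : ℕ} (B : Matrix (Fin n) (Fin n) ℝ) (hB : B.det ≠ 0)
    (f : (Fin n → ℝ) → ℂ) (hf : Continuous f) :
    ∫ x : Fin n → ℝ, f (B *ᵥ x) = ((|B.det|⁻¹ : ℝ) : ℂ) * ∫ y : Fin n → ℝ, f y := by
  have h := Real.map_matrix_volume_pi_eq_smul_volume_pi (M := B) hB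
  have hc : Continuous (fun x : Fin n → ℝ => (toLin' B) x) :=
    LinearMap.continuous_of_finiteDimensional _
  have h1 : ∫ y, f y ∂(Measure.map (toLin' B) volume) = ∫ x : Fin n → ℝ, f ((toLin' B) x) :=
    integral_map hc.aemeasurable hf.aestronglyMeasurable
  have h2 : ∀ x : Fin n → ℝ, (toLin' B) x = B *ᵥ x := fun x => toLin'_apply B x
  simp only [h2] at h1
  rw [← h1, h, integral_smul_measure, abs_inv, ENNReal.toReal_ofReal (by positivity)]
  simp

theorem fou_integrable {n : ℕ} (B : Matrix (Fin n) (Fin n) ℝ) (hB : B.det ≠ 0)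
    (f : (Fin n → ℝ) → ℂ) (hf : Integrable f) :
    Integrable (fun x : Fin n → ℝ => f (B *ᵥ x)) := by
  have h := Real.map_matrix_volume_pi_eq_smul_volume_pi (M := B) hB
  have hc : Continuous (fun x : Fin n → ℝ => (toLin' B) x) :=
    LinearMap.continuous_of_finiteDimensional _
  have h0 : Integrable f (Measure.map (toLin' B) volume) := by
    rw [h]
    exact hf.smul_measure ENNReal.ofReal_ne_top
  have h1 := h0.comp_measurable hc.measurable
  have h2 : ∀ x : Fin n → ℝ, (toLin' B) x = B *ᵥ x := fun x => toLin'_apply B x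
  simpa only [Function.comp_def, h2] using h1

theorem st_Fourier : St_Fourier := by
  intro n G hG s hs v
  set M : Matrix (Fin n) (Fin n) ℝ := G.map (fun a : ℤ => (a : ℝ)) with hMdef
  have hMpos : M.PosDef := by
    refine PosDef.of_dotProduct_mulVec_pos ?_ ?_
    · rw [IsHermitian, conjTranspose_eq_transpose_of_trivial, hMdef, ← transpose_map, hG.symm]
    · intro x hx
      rw [star_trivial]
      exact hG.pos x hx
  obtain ⟨B, hB, hdet⟩ := fou_decomp M hMpos
  have hMdet : M.det = (G.det : ℝ) := by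
    rw [hMdef]
    have := (Int.castRingHom ℝ).map_det G
    simpa using this.symm
  have hdet2 : M.det = B.det ^ 2 := by rw [hB, det_mul, det_transpose, sq]
  have hMadj : (G.adjugate).map (fun a : ℤ => (a : ℝ)) = M.adjugate := by
    rw [hMdef]
    have := (Int.castRingHom ℝ).map_adjugate G
    simpa using this
  have hq : ∀ x : Fin n → ℝ, qfR G x = ∑ i, ((B *ᵥ x) i) ^ 2 := by
    intro x
    have : qfR G x = x ⬝ᵥ (M *ᵥ x) := rfl
    rw [this, hB, ← mulVec_mulVec, dotProduct_mulVec, vecMul_transpose]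
    simp [dotProduct, sq]
  -- the dual vector
  set w : Fin n → ℝ := (B⁻¹)ᵀ *ᵥ v with hw
  have hBu : IsUnit B.det := isUnit_iff_ne_zero.mpr hdet
  have hpair : ∀ x : Fin n → ℝ, ∑ i, v i * x i = ∑ i, w i * (B *ᵥ x) i := by
    intro x
    have h1 : (∑ i, w i * (B *ᵥ x) i) = w ⬝ᵥ (B *ᵥ x) := rfl
    have h2 : (∑ i, v i * x i) = v ⬝ᵥ x := rfl
    rw [h1, h2, hw, dotProduct_mulVec, ← vecMul_transpose, transpose_transpose, vecMul_vecMul,
      nonsing_inv_mul B hBu, vecMul_one]
  have hdual : ∑ i, w i ^ 2 = qfR G.adjugate v / (G.det : ℝ) := by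
    have h1 : qfR G.adjugate v = v ⬝ᵥ (M.adjugate *ᵥ v) := by
      rw [← hMadj]; rfl
    have h2 : (∑ i, w i ^ 2) = w ⬝ᵥ w := by simp [dotProduct, sq]
    have h3 : M⁻¹ = B⁻¹ * (B⁻¹)ᵀ := by
      rw [hB, Matrix.mul_inv_rev, transpose_nonsing_inv]
    have hMu : M.det ≠ 0 := by rw [hdet2]; exact pow_ne_zero 2 hdet
    have h4 : M.adjugate = M.det • M⁻¹ := by
      rw [Matrix.inv_def, smul_smul, Ring.inverse_eq_inv', mul_inv_cancel₀ hMu, one_smul]
    rw [h1, h2, h4, ← hMdet, smul_mulVec, dotProduct_smul, smul_eq_mul,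
      mul_div_cancel_left₀ _ hMu, h3, ← mulVec_mulVec, ← hw, dotProduct_mulVec v B⁻¹ w,
      ← mulVec_transpose B⁻¹ v]
  constructor
  · have h0 := GaussianFourier.integrable_cexp_neg_mul_sum_add (ι := Fin n) (b := π * s)
      (by simpa using mul_pos Real.pi_pos hs) 0
    have h1 := fou_integrable B hdet _ h0
    refine h1.congr (Filter.Eventually.of_forall fun x => ?_)
    simp only [hq x]
    congr 1
    simp
  · have h0 := GaussianFourier.integral_cexp_neg_mul_sum_add (ι := Fin n) (b := π * s)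
      (by simpa using mul_pos Real.pi_pos hs) (fun i => -2 * π * I * w i)
    have h1 := fou_integral B hdet (fun y : Fin n → ℝ =>
      cexp (-(π * s) * ∑ i, (y i : ℂ) ^ 2 + ∑ i, (-2 * π * I * w i) * y i)) (by fun_prop)
    rw [h0] at h1
    have h2 : ∀ x : Fin n → ℝ, cexp (-π * s * (qfR G x : ℂ) - 2 * π * I * ((∑ i, v i * x i : ℝ) : ℂ))
        = cexp (-(π * s) * ∑ i, ((B *ᵥ x) i : ℂ) ^ 2 + ∑ i, (-2 * π * I * w i) * ((B *ᵥ x) i : ℂ)) := by
      intro x
      rw [hq x, hpair x]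
      congr 1
      push_cast
      rw [Finset.mul_sum, Finset.mul_sum, Finset.mul_sum, ← Finset.sum_sub_distrib,
        ← Finset.sum_add_distrib]
      refine Finset.sum_congr rfl fun i _ => ?_
      ring
    simp only [h2]
    rw [h1]
    have hs0 : s ≠ 0 := by
      rintro rfl
      simp at hs
    have hpi : (π : ℂ) ≠ 0 := by exact_mod_cast Real.pi_ne_zero
    have h3 : (π : ℂ) / (π * s) = s⁻¹ := by field_simp
    have h4 : ((∑ i : Fin n, (-2 * π * I * (w i : ℂ)) ^ 2) / (4 * (π * s)) : ℂ)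
        = -π * ((qfR G.adjugate v / (G.det : ℝ) : ℝ) : ℂ) / s := by
      rw [← hdual]
      push_cast
      have : ∀ i : Fin n, (-2 * π * I * (w i : ℂ)) ^ 2 = (-4 * π ^ 2) * (w i : ℂ) ^ 2 := by
        intro i
        have := I_sq
        linear_combination (4 * (π : ℂ) ^ 2 * (w i : ℂ) ^ 2) * this
      simp only [this]
      rw [← Finset.mul_sum]
      field_simp
    have h5 : Real.sqrt (G.det : ℝ) = |B.det| := by
      rw [← hMdet, hdet2, Real.sqrt_sq_eq_abs]
    have h6 : (s⁻¹ : ℂ) ^ ((Fintype.card (Fin n) : ℂ) / 2) = s ^ (-(n : ℂ) / 2) := by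
      rw [Fintype.card_fin, Complex.inv_cpow, ← Complex.cpow_neg, neg_div]
      intro harg
      have := Complex.abs_arg_lt_pi_div_two_iff.mpr (Or.inl hs)
      rw [harg, abs_of_pos Real.pi_pos] at this
      linarith [Real.pi_pos]
    rw [h3, h4, h5, h6]
    push_cast
    ring

end Pool.Agent.D12
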