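import Pool.Agent.D12.Stmts

set_option autoImplicit false

/-!
# Lattices all of whose shells are spherical 12-designs: module Gauss2

Section (4.2): `g(x)^4 = ∏_l conj g(t_l x)`, by the substitution `Y ↦ R Y` on four vectors, where `R`
is the integral matrix of multiplication by a quaternion of norm `2c - 1`.
-/

namespace Pool.Agent.D12

open Complex Matrix
open scoped BigOperators Real ComplexConjugate

noncomputable section

/-- `e(m/c)` -/
def g2E (c : ℕ) (m : ℤ) : ℂ := cexp (2 * π * I * (m : ℂ) / c)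

theorem g2E_add (c : ℕ) (m m' : ℤ) : g2E c (m + m') = g2E c m * g2E c m' := by
  unfold g2E
  rw [← Complex.exp_add]
  congr 1
  push_cast
  ring

theorem g2E_conj (c : ℕ) (m : ℤ) : conj (g2E c m) = g2E c (-m) := by
  unfold g2E
  rw [← Complex.exp_conj]
  congr 1
  simp only [map_div₀, map_mul, Complex.conj_ofReal, Complex.conj_I, map_ofNat, map_natCast,
    map_intCast]
  push_cast
  ring

theorem g2E_cong {c : ℕ} (hc : 0 < c) {m m' : ℤ} (h : (c : ℤ) ∣ m - m') : g2E c m = g2E c m' := by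
  obtain ⟨k, hk⟩ := h
  unfold g2E
  rw [Complex.exp_eq_exp_iff_exists_int]
  refine ⟨k, ?_⟩
  have h1 : (m : ℂ) = m' + c * k := by
    have : m = m' + c * k := by omega
    rw [this]
    push_cast
    ring
  have hc' : (c : ℂ) ≠ 0 := by exact_mod_cast hc.ne'
  rw [h1]
  field_simp

theorem g2E_sum {ι : Type*} (c : ℕ) (s : Finset ι) (f : ι → ℤ) :
    g2E c (∑ i ∈ s, f i) = ∏ i ∈ s, g2E c (f i) := by
  classical
  induction s using Finset.induction_on with
  | empty => simp [g2E]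
  | insert a s ha ih => rw [Finset.sum_insert ha, Finset.prod_insert ha, g2E_add, ih]

variable {n : ℕ}

theorem g2_qf_add {G : Matrix (Fin n) (Fin n) ℤ} (hG : G.IsSymm) (y z : Fin n → ℤ) :
    qf G (y + z) = qf G y + qf G z + 2 * (y ⬝ᵥ (G *ᵥ z)) := by
  unfold qf
  rw [Matrix.mulVec_add, dotProduct_add, add_dotProduct, add_dotProduct]
  have h : z ⬝ᵥ (G *ᵥ y) = y ⬝ᵥ (G *ᵥ z) := by
    rw [Matrix.dotProduct_mulVec, ← Matrix.mulVec_transpose, hG.eq, dotProduct_comm]
  rw [h]
  ring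

theorem g2_qf_even {G : Matrix (Fin n) (Fin n) ℤ} (hG : EvenForm G) (z : Fin n → ℤ) :
    Even (qf G z) := by
  rw [← ZMod.intCast_eq_zero_iff_even]
  unfold qf
  simp only [dotProduct, Matrix.mulVec]
  push_cast
  simp only [Finset.mul_sum]
  rw [← Finset.sum_product']
  refine Finset.sum_involution (fun x _ => (x.2, x.1)) ?_ ?_ (fun x _ => Finset.mem_product.2
    ⟨Finset.mem_univ _, Finset.mem_univ _⟩) (fun x _ => rfl)
  · rintro ⟨i, j⟩ -
    have hs : G j i = G i j := hG.symm.apply i j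
    simp only
    rw [hs]
    have h2 : (2 : ZMod 2) = 0 := by decide
    linear_combination ((z i : ZMod 2) * ((G i j : ZMod 2) * (z j : ZMod 2))) * h2
  · rintro ⟨i, j⟩ - hne hij
    simp only [Prod.mk.injEq] at hij
    apply hne
    have h1 : i = j := hij.2
    subst h1
    have h3 : ((G i i : ℤ) : ZMod 2) = 0 := (ZMod.intCast_eq_zero_iff_even).2 (hG.even i)
    simp only [h3]
    ring

/-- the exponent: `a q(y)/2 + w·y` -/
def g2m (G : Matrix (Fin n) (Fin n) ℤ) (a : ℤ) (w y : Fin n → ℤ) : ℤ :=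
  a * (qf G y / 2) + w ⬝ᵥ y

theorem g2_two {G : Matrix (Fin n) (Fin n) ℤ} (hG : EvenForm G) (y : Fin n → ℤ) :
    2 * (qf G y / 2) = qf G y := Int.mul_ediv_cancel' (g2_qf_even hG y).two_dvd

theorem g2_term {G : Matrix (Fin n) (Fin n) ℤ} (hG : EvenForm G) (c : ℕ) (a : ℤ)
    (w y : Fin n → ℤ) :
    cexp (2 * π * I * (((a * qf G y : ℤ) : ℂ) / 2 + ((w ⬝ᵥ y : ℤ) : ℂ)) / c) =
      g2E c (g2m G a w y) := by
  unfold g2E g2m
  congr 1
  have h := g2_two hG y
  have h' : ((qf G y : ℤ) : ℂ) = 2 * ((qf G y / 2 : ℤ) : ℂ) := by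
    exact_mod_cast h.symm
  push_cast at h' ⊢
  rw [h']
  ring

theorem g2_gs {G : Matrix (Fin n) (Fin n) ℤ} (hG : EvenForm G) (c : ℕ) (a : ℤ)
    (w : Fin n → ℤ) :
    gs G c a w = ∑ y : Fin n → Fin c, g2E c (g2m G a w (fun i => ((y i : ℕ) : ℤ))) := by
  unfold gs
  exact Finset.sum_congr rfl fun y _ => g2_term hG c a w _

/-- the exponent modulo `c` depends on `y` modulo `c` -/
theorem g2m_cong {G : Matrix (Fin n) (Fin n) ℤ} (hG : EvenForm G) (c : ℕ) (a : ℤ)
    (w y y' : Fin n → ℤ) (h : ∀ i, (c : ℤ) ∣ y' i - y i) :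
    (c : ℤ) ∣ g2m G a w y' - g2m G a w y := by
  choose z hz using h
  have hy : y' = y + (c : ℤ) • z := by
    funext i
    simp only [Pi.add_apply, Pi.smul_apply, smul_eq_mul]
    have := hz i
    omega
  rw [hy]
  unfold g2m
  have h1 : qf G (y + (c : ℤ) • z) = qf G y + (c : ℤ) * (2 * ((c : ℤ) * (qf G z / 2) +
      y ⬝ᵥ (G *ᵥ z))) := by
    rw [g2_qf_add hG.symm]
    have h2 : qf G ((c : ℤ) • z) = (c : ℤ) * ((c : ℤ) * qf G z) := by
      unfold qf
      rw [Matrix.mulVec_smul, smul_dotProduct, dotProduct_smul]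
      simp only [smul_eq_mul]
    rw [h2, Matrix.mulVec_smul, dotProduct_smul, smul_eq_mul]
    have h3 := g2_two hG z
    linear_combination (-(c : ℤ) * c) * h3
  have h4 : qf G (y + (c : ℤ) • z) / 2 = qf G y / 2 + (c : ℤ) * ((c : ℤ) * (qf G z / 2) +
      y ⬝ᵥ (G *ᵥ z)) := by
    have h5 := g2_two hG y
    have h6 := g2_two hG (y + (c : ℤ) • z)
    have h7 : 2 * (qf G (y + (c : ℤ) • z) / 2) = 2 * (qf G y / 2 + (c : ℤ) * ((c : ℤ) *
        (qf G z / 2) + y ⬝ᵥ (G *ᵥ z))) := by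
      rw [h6, h1]
      linear_combination -h5
    omega
  rw [h4, dotProduct_add, dotProduct_smul, smul_eq_mul]
  refine ⟨a * ((c : ℤ) * (qf G z / 2) + y ⬝ᵥ (G *ᵥ z)) + w ⬝ᵥ z, ?_⟩
  ring

theorem g2_per {G : Matrix (Fin n) (Fin n) ℤ} (hG : EvenForm G) {c : ℕ} (hc : 0 < c) (a : ℤ)
    (w y y' : Fin n → ℤ) (h : ∀ i, (c : ℤ) ∣ y' i - y i) :
    g2E c (g2m G a w y') = g2E c (g2m G a w y) :=
  g2E_cong hc (g2m_cong hG c a w y y' h)

/-- bilinear expansion of the form at an integral combination of four vectors -/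
theorem g2_qf_sum (G : Matrix (Fin n) (Fin n) ℤ) (r : Fin 4 → ℤ) (Y : Fin 4 → Fin n → ℤ) :
    qf G (∑ l, r l • Y l) = ∑ l, ∑ m, r l * r m * (Y l ⬝ᵥ (G *ᵥ Y m)) := by
  unfold qf
  rw [sum_dotProduct]
  refine Finset.sum_congr rfl fun l _ => ?_
  rw [Matrix.mulVec_sum, dotProduct_sum]
  refine Finset.sum_congr rfl fun m _ => ?_
  rw [Matrix.mulVec_smul, smul_dotProduct, dotProduct_smul]
  simp only [smul_eq_mul]
  ring

/-- the matrix of a quaternion -/
theorem g2_mat (c : ℕ) (hc : 0 < c) : ∃ R : Matrix (Fin 4) (Fin 4) ℤ,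
    ∀ l m, ∑ k, R k l * R k m = if l = m then 2 * (c : ℤ) - 1 else 0 := by
  obtain ⟨p, q, r, s, h⟩ := Nat.sum_four_squares (2 * c - 1)
  have h' : (p : ℤ) ^ 2 + (q : ℤ) ^ 2 + (r : ℤ) ^ 2 + (s : ℤ) ^ 2 = 2 * (c : ℤ) - 1 := by
    have h2 : ((p ^ 2 + q ^ 2 + r ^ 2 + s ^ 2 : ℕ) : ℤ) = ((2 * c - 1 : ℕ) : ℤ) := by rw [h]
    rw [Nat.cast_sub (by omega)] at h2
    push_cast at h2
    exact h2
  refine ⟨!![(p : ℤ), -q, -r, -s; q, p, -s, r; r, s, p, -q; s, -r, q, p], ?_⟩
  intro l m
  fin_cases l <;> fin_cases m <;> simp [Fin.sum_univ_four] <;> linarith [h']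

end

open Complex Matrix
open scoped BigOperators Real ComplexConjugate

theorem st_Gauss2 : St_Gauss2 := by
  intro n G hG c hc a
  refine ⟨?_, ?_⟩
  · intro x y
    rw [g2_gs hG, g2_gs hG]
    refine Finset.sum_congr rfl fun z _ => g2E_cong hc ?_
    unfold g2m
    rw [add_dotProduct, smul_dotProduct, smul_eq_mul]
    exact ⟨y ⬝ᵥ (fun i => ((z i : ℕ) : ℤ)), by ring⟩
  · obtain ⟨R, hR⟩ := g2_mat c hc
    obtain ⟨c', rfl⟩ : ∃ c', c = c' + 1 := ⟨c - 1, by omega⟩
    refine ⟨fun l => -∑ k, R k l, fun x => ?_⟩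
    -- lifting
    let lift : (Fin n → Fin (c' + 1)) → Fin n → ℤ := fun y i => ((y i : ℕ) : ℤ)
    have hgs : ∀ w, gs G (c' + 1) a w =
        ∑ y : Fin n → Fin (c' + 1), g2E (c' + 1) (g2m G a w (lift y)) := fun w => g2_gs hG _ a w
    let T : (Fin 4 → Fin n → ZMod (c' + 1)) → (Fin 4 → Fin n → ZMod (c' + 1)) :=
      fun Y k i => ∑ l, (R k l : ZMod (c' + 1)) * Y l i
    have hTinj : Function.Injective T := by
      intro Y Y' hYY
      funext m i
      have h1 : ∀ Z : Fin 4 → Fin n → ZMod (c' + 1),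
          ∑ k, (R k m : ZMod (c' + 1)) * T Z k i = - Z m i := by
        intro Z
        simp only [T, Finset.mul_sum]
        rw [Finset.sum_comm]
        have h2 : ∀ l, ∑ k, (R k m : ZMod (c' + 1)) * ((R k l : ZMod (c' + 1)) * Z l i) =
            (if m = l then -1 else 0) * Z l i := by
          intro l
          have h3 := hR m l
          have h4 : ((∑ k, R k m * R k l : ℤ) : ZMod (c' + 1)) =
              ((if m = l then 2 * ((c' + 1 : ℕ) : ℤ) - 1 else 0 : ℤ) : ZMod (c' + 1)) := by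
            rw [h3]
          have h5 : ((if m = l then 2 * ((c' + 1 : ℕ) : ℤ) - 1 else 0 : ℤ) : ZMod (c' + 1)) =
              if m = l then -1 else 0 := by
            split_ifs
            · push_cast
              have : ((c' : ZMod (c' + 1)) + 1) = 0 := by
                have := ZMod.natCast_self (c' + 1)
                push_cast at this
                exact this
              rw [this]
              ring
            · simp
          rw [h5] at h4
          push_cast at h4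
          rw [← h4, Finset.sum_mul]
          exact Finset.sum_congr rfl fun k _ => by ring
        simp only [h2]
        simp
      have h6 := h1 Y
      have h7 := h1 Y'
      rw [hYY, h7] at h6
      exact (neg_injective h6).symm
    have hTbij : Function.Bijective T := Finite.injective_iff_bijective.1 hTinj
    have hpow : gs G (c' + 1) a x ^ 4 = ∑ Y : Fin 4 → Fin n → ZMod (c' + 1),
        ∏ k, g2E (c' + 1) (g2m G a x (lift (Y k))) := by
      rw [hgs]
      exact Fintype.sum_pow _ 4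
    rw [hpow, ← hTbij.sum_comp (fun Y => ∏ k, g2E (c' + 1) (g2m G a x (lift (Y k))))]
    have hprod : (∏ l : Fin 4, conj (gs G (c' + 1) a ((-∑ k, R k l) • x))) =
        ∑ Y : Fin 4 → Fin n → ZMod (c' + 1),
          ∏ l, g2E (c' + 1) (-(g2m G a ((-∑ k, R k l) • x) (lift (Y l)))) := by
      have h1 : ∀ l : Fin 4, conj (gs G (c' + 1) a ((-∑ k, R k l) • x)) =
          ∑ y : Fin n → ZMod (c' + 1),
            g2E (c' + 1) (-(g2m G a ((-∑ k, R k l) • x) (lift y))) := by
        intro l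
        rw [hgs, map_sum]
        exact Finset.sum_congr rfl fun y _ => g2E_conj _ _
      simp only [h1]
      rw [Finset.prod_univ_sum]
      simp only [Fintype.piFinset_univ]
    rw [hprod]
    refine Finset.sum_congr rfl fun Y _ => ?_
    -- the exponents
    have hper : ∀ k, g2E (c' + 1) (g2m G a x (lift (T Y k))) =
        g2E (c' + 1) (g2m G a x (∑ l, R k l • lift (Y l))) := by
      intro k
      refine g2_per hG (Nat.succ_pos c') a x _ _ fun i => ?_
      rw [← ZMod.intCast_zmod_eq_zero_iff_dvd]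
      push_cast
      have e1 : ∀ y : Fin n → ZMod (c' + 1), ((lift y i : ℤ) : ZMod (c' + 1)) = y i := by
        intro y
        show (((ZMod.val (y i) : ℕ) : ℤ) : ZMod (c' + 1)) = y i
        rw [Int.cast_natCast, ZMod.natCast_zmod_val]
      rw [e1, Finset.sum_apply]
      push_cast
      simp only [Pi.smul_apply, smul_eq_mul]
      push_cast
      simp only [e1]
      simp [T]
    simp only [hper]
    rw [← g2E_sum, ← g2E_sum]
    refine g2E_cong (Nat.succ_pos c') ?_
    -- compute both sides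
    have hq : ∑ k, qf G (∑ l, R k l • lift (Y l)) =
        (2 * ((c' + 1 : ℕ) : ℤ) - 1) * ∑ l, qf G (lift (Y l)) := by
      simp only [g2_qf_sum]
      rw [Finset.sum_comm]
      rw [Finset.mul_sum]
      refine Finset.sum_congr rfl fun l _ => ?_
      rw [Finset.sum_comm]
      have h2 : ∀ m, ∑ k, R k l * R k m * (lift (Y l) ⬝ᵥ (G *ᵥ lift (Y m))) =
          (if l = m then 2 * ((c' + 1 : ℕ) : ℤ) - 1 else 0) *
            (lift (Y l) ⬝ᵥ (G *ᵥ lift (Y m))) := by
        intro m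
        rw [← Finset.sum_mul, hR l m]
      simp only [h2]
      simp [qf]
    have hq2 : ∑ k, (qf G (∑ l, R k l • lift (Y l)) / 2) =
        (2 * ((c' + 1 : ℕ) : ℤ) - 1) * ∑ l, (qf G (lift (Y l)) / 2) := by
      have e1 : 2 * ∑ k, (qf G (∑ l, R k l • lift (Y l)) / 2) =
          ∑ k, qf G (∑ l, R k l • lift (Y l)) := by
        rw [Finset.mul_sum]
        exact Finset.sum_congr rfl fun k _ => g2_two hG _
      have e2 : 2 * ∑ l, (qf G (lift (Y l)) / 2) = ∑ l, qf G (lift (Y l)) := by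
        rw [Finset.mul_sum]
        exact Finset.sum_congr rfl fun k _ => g2_two hG _
      have e3 : 2 * ∑ k, (qf G (∑ l, R k l • lift (Y l)) / 2) =
          2 * ((2 * ((c' + 1 : ℕ) : ℤ) - 1) * ∑ l, (qf G (lift (Y l)) / 2)) := by
        rw [e1, hq, ← e2]
        ring
      exact mul_left_cancel₀ two_ne_zero e3
    have hx : ∑ k, x ⬝ᵥ (∑ l, R k l • lift (Y l)) =
        ∑ l, (∑ k, R k l) * (x ⬝ᵥ lift (Y l)) := by
      have e1 : ∀ k, x ⬝ᵥ (∑ l, R k l • lift (Y l)) = ∑ l, R k l * (x ⬝ᵥ lift (Y l)) := by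
        intro k
        rw [dotProduct_sum]
        refine Finset.sum_congr rfl fun l _ => ?_
        rw [dotProduct_smul, smul_eq_mul]
      simp only [e1]
      rw [Finset.sum_comm]
      exact Finset.sum_congr rfl fun l _ => by rw [Finset.sum_mul]
    unfold g2m
    rw [Finset.sum_add_distrib, ← Finset.mul_sum, hq2, hx, Finset.sum_neg_distrib,
      Finset.sum_add_distrib, ← Finset.mul_sum]
    have hy : ∑ l, ((-∑ k, R k l) • x) ⬝ᵥ lift (Y l) =
        - ∑ l, (∑ k, R k l) * (x ⬝ᵥ lift (Y l)) := by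
      rw [← Finset.sum_neg_distrib]
      refine Finset.sum_congr rfl fun l _ => ?_
      rw [smul_dotProduct, smul_eq_mul]
      ring
    rw [hy]
    refine ⟨2 * a * ∑ l, (qf G (lift (Y l)) / 2), ?_⟩
    ring

end Pool.Agent.D12
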