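import Pool.Agent.D12.Stmts
import Pool.Agent.D12.Gauss2

set_option autoImplicit false

/-!
# Lattices all of whose shells are spherical 12-designs: module Gauss4

Section (4.4): for `γ ∈ Γ₀(2 det G)` the coefficients at the cusp are supported on `G ℤⁿ` and constant
there.
-/

namespace Pool.Agent.D12

open Complex Matrix
open scoped BigOperators Real ComplexConjugate

noncomputable section

variable {n : ℕ}

/-- shift invariance of sums of periodic functions -/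
theorem g4_shift {c : ℕ} (hc : 0 < c) (f : (Fin n → ℤ) → ℂ)
    (hf : ∀ y y' : Fin n → ℤ, (∀ i, (c : ℤ) ∣ y' i - y i) → f y' = f y) (v : Fin n → ℤ) :
    ∑ y : Fin n → Fin c, f ((fun i => ((y i : ℕ) : ℤ)) + v) =
      ∑ y : Fin n → Fin c, f (fun i => ((y i : ℕ) : ℤ)) := by
  obtain ⟨c', rfl⟩ : ∃ c', c = c' + 1 := ⟨c - 1, by omega⟩
  have hbij : Function.Bijective (fun y : Fin n → ZMod (c' + 1) =>
      y + (fun i => ((v i : ℤ) : ZMod (c' + 1)))) := (Equiv.addRight _).bijective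
  have h1 := hbij.sum_comp (fun y : Fin n → ZMod (c' + 1) =>
    f (fun i => ((ZMod.val (y i) : ℕ) : ℤ)))
  refine Eq.trans ?_ h1
  refine Finset.sum_congr rfl fun y _ => ?_
  refine hf _ _ fun i => ?_
  show ((c' + 1 : ℕ) : ℤ) ∣ ((ZMod.val (show ZMod (c' + 1) from y i) : ℕ) : ℤ) + v i -
    ((ZMod.val ((show ZMod (c' + 1) from y i) + ((v i : ℤ) : ZMod (c' + 1))) : ℕ) : ℤ)
  rw [← ZMod.intCast_zmod_eq_zero_iff_dvd]
  push_cast
  rw [ZMod.natCast_zmod_val, ZMod.natCast_zmod_val]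
  ring

theorem g4_one {c : ℕ} (hc : 0 < c) {m : ℤ} (h : g2E c m = 1) : (c : ℤ) ∣ m := by
  unfold g2E at h
  rw [Complex.exp_eq_one_iff] at h
  obtain ⟨k, hk⟩ := h
  refine ⟨k, ?_⟩
  have hc' : (c : ℂ) ≠ 0 := by exact_mod_cast hc.ne'
  have h1 : (2 * π * I : ℂ) ≠ 0 := Complex.two_pi_I_ne_zero
  have h2 : (m : ℂ) = c * k := by
    have h3 : (2 * π * I : ℂ) * m = (2 * π * I) * (c * k) := by
      rw [div_eq_iff hc'] at hk
      rw [hk]
      ring
    exact mul_left_cancel₀ h1 h3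
  exact_mod_cast h2

theorem g4_half_add {G : Matrix (Fin n) (Fin n) ℤ} (hG : EvenForm G) (y z : Fin n → ℤ) :
    qf G (y + z) / 2 = qf G y / 2 + qf G z / 2 + y ⬝ᵥ (G *ᵥ z) := by
  have h1 := g2_qf_add hG.symm y z
  have h2 := g2_two hG y
  have h3 := g2_two hG z
  have h4 := g2_two hG (y + z)
  have h5 : 2 * (qf G (y + z) / 2) = 2 * (qf G y / 2 + qf G z / 2 + y ⬝ᵥ (G *ᵥ z)) := by
    rw [h4, h1]
    linear_combination -h2 - h3
  omega

theorem g4_half_smul {G : Matrix (Fin n) (Fin n) ℤ} (hG : EvenForm G) (t : ℤ) (z : Fin n → ℤ) :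
    qf G (t • z) / 2 = t ^ 2 * (qf G z / 2) := by
  have h3 := g2_two hG z
  have h4 := g2_two hG (t • z)
  have h2 : qf G (t • z) = t ^ 2 * qf G z := by
    unfold qf
    rw [Matrix.mulVec_smul, smul_dotProduct, dotProduct_smul]
    simp only [smul_eq_mul]
    ring
  have h5 : 2 * (qf G (t • z) / 2) = 2 * (t ^ 2 * (qf G z / 2)) := by
    rw [h4, h2]
    linear_combination -(t ^ 2) * h3
  omega

theorem g4_gs_per {G : Matrix (Fin n) (Fin n) ℤ} (hG : EvenForm G) {c : ℕ} (hc : 0 < c) (a : ℤ)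
    (w v : Fin n → ℤ) :
    gs G c a w = ∑ y : Fin n → Fin c, g2E c (g2m G a w ((fun i => ((y i : ℕ) : ℤ)) + v)) := by
  rw [g2_gs hG]
  exact (g4_shift hc (fun y => g2E c (g2m G a w y)) (fun y y' h => g2_per hG hc a w y y' h) v).symm

/-- completing the square -/
theorem g4_prim {G : Matrix (Fin n) (Fin n) ℤ} (hG : EvenForm G) {c : ℕ} (hc : 0 < c)
    (a b d : ℤ) (h : a * d - b * c = 1) (z : Fin n → ℤ) :
    gs G c a (G *ᵥ z) = g2E c (-(d * (qf G z / 2))) * gs G c a 0 := by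
  rw [g4_gs_per hG hc a (G *ᵥ z) ((-d) • z), g2_gs hG, Finset.mul_sum]
  refine Finset.sum_congr rfl fun y _ => ?_
  rw [← g2E_add]
  refine g2E_cong hc ?_
  set u : Fin n → ℤ := fun i => ((y i : ℕ) : ℤ) with hu
  unfold g2m
  rw [g4_half_add hG, g4_half_smul hG, Matrix.mulVec_smul, dotProduct_smul, dotProduct_add,
    dotProduct_smul, zero_dotProduct]
  have h1 : (G *ᵥ z) ⬝ᵥ u = u ⬝ᵥ (G *ᵥ z) := dotProduct_comm _ _
  have h2 : (G *ᵥ z) ⬝ᵥ z = 2 * (qf G z / 2) := by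
    rw [g2_two hG, dotProduct_comm]
    rfl
  rw [h1, h2]
  simp only [smul_eq_mul]
  refine ⟨-b * (u ⬝ᵥ (G *ᵥ z)) + b * d * (qf G z / 2), ?_⟩
  linear_combination (-(u ⬝ᵥ (G *ᵥ z)) + d * (qf G z / 2)) * h

/-- vanishing off `G ℤⁿ` -/
theorem g4_van {G : Matrix (Fin n) (Fin n) ℤ} (hG : EvenForm G) (hD : 0 < G.det) {c : ℕ}
    (hc : 0 < c) (a : ℤ) (hN : 2 * G.det ∣ (c : ℤ)) (w : Fin n → ℤ) (hw : ∀ z, w ≠ G *ᵥ z) :
    gs G c a w = 0 := by
  by_contra hne
  obtain ⟨c1, hc1⟩ := hN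
  -- all values `w·Hu` are divisible by `det G`
  have hdiv : ∀ u : Fin n → ℤ, G.det ∣ w ⬝ᵥ (G.adjugate *ᵥ u) := by
    intro u
    have hGv : G *ᵥ ((2 * c1) • (G.adjugate *ᵥ u)) = (c : ℤ) • u := by
      rw [Matrix.mulVec_smul, Matrix.mulVec_mulVec, Matrix.mul_adjugate, Matrix.smul_mulVec,
        Matrix.one_mulVec, smul_smul, hc1]
      congr 1
      ring
    have h1 : gs G c a w = g2E c ((2 * c1) * (w ⬝ᵥ (G.adjugate *ᵥ u))) * gs G c a w := by
      conv_lhs => rw [g4_gs_per hG hc a w ((2 * c1) • (G.adjugate *ᵥ u))]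
      rw [g2_gs hG, Finset.mul_sum]
      refine Finset.sum_congr rfl fun y _ => ?_
      rw [← g2E_add]
      refine g2E_cong hc ?_
      set t : Fin n → ℤ := fun i => ((y i : ℕ) : ℤ) with ht
      have h2 : qf G ((2 * c1) • (G.adjugate *ᵥ u)) / 2 =
          (c : ℤ) * (c1 * ((G.adjugate *ᵥ u) ⬝ᵥ u)) := by
        have h3 := g2_two hG ((2 * c1) • (G.adjugate *ᵥ u))
        have h4 : qf G ((2 * c1) • (G.adjugate *ᵥ u)) =
            2 * ((c : ℤ) * (c1 * ((G.adjugate *ᵥ u) ⬝ᵥ u))) := by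
          unfold qf
          rw [hGv, smul_dotProduct, dotProduct_smul]
          simp only [smul_eq_mul]
          ring
        omega
      unfold g2m
      rw [g4_half_add hG, h2, hGv, dotProduct_smul, dotProduct_add, dotProduct_smul]
      simp only [smul_eq_mul]
      exact ⟨a * (c1 * ((G.adjugate *ᵥ u) ⬝ᵥ u)) + a * (t ⬝ᵥ u), by ring⟩
    have h5 : g2E c ((2 * c1) * (w ⬝ᵥ (G.adjugate *ᵥ u))) = 1 := by
      have h6 : (g2E c ((2 * c1) * (w ⬝ᵥ (G.adjugate *ᵥ u))) - 1) * gs G c a w = 0 := by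
        rw [sub_mul, one_mul, ← h1, sub_self]
      rcases mul_eq_zero.1 h6 with h7 | h7
      · exact sub_eq_zero.1 h7
      · exact absurd h7 hne
    obtain ⟨k, hk⟩ := g4_one hc h5
    have hc1ne : (2 * c1 : ℤ) ≠ 0 := by
      intro h0
      have : (c : ℤ) = 0 := by
        rw [hc1]
        linear_combination G.det * h0
      omega
    refine ⟨k, ?_⟩
    refine mul_left_cancel₀ hc1ne ?_
    rw [hk, hc1]
    ring
  -- hence `w ∈ G ℤⁿ`
  have hz : ∀ i, ∃ z : ℤ, (w ᵥ* G.adjugate) i = G.det * z := by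
    intro i
    obtain ⟨z, hz⟩ := hdiv (Pi.single i 1)
    refine ⟨z, ?_⟩
    rw [← hz, Matrix.dotProduct_mulVec]
    simp
  choose z hz using hz
  apply hw z
  have h1 : w ᵥ* G.adjugate = G.det • z := by
    funext i
    rw [hz i]
    rfl
  have h2 : G.det • (G *ᵥ z) = G.det • w := by
    rw [← Matrix.mulVec_smul, ← h1, ← Matrix.vecMul_transpose, hG.symm.eq, Matrix.vecMul_vecMul,
      Matrix.adjugate_mul, Matrix.vecMul_smul, Matrix.vecMul_one]
  funext i
  have h3 := congrFun h2 i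
  simp only [Pi.smul_apply, smul_eq_mul] at h3
  exact (mul_left_cancel₀ hD.ne' h3).symm

end

theorem st_Gauss4 (hFF : St_FormFacts) : St_Gauss4 := by
  intro n G hG c hc a b d had hN
  have hF := hFF n G hG
  have hc' : (c : ℂ) ≠ 0 := by exact_mod_cast hc.ne'
  have hD' : ((G.det : ℤ) : ℂ) ≠ 0 := by
    have := hF.det_pos.ne'
    exact_mod_cast this
  refine ⟨?_, ?_⟩
  · intro z
    unfold nug
    rw [g4_prim hG hc a b d had z, hF.adj_mul]
    have h1 : Complex.exp (π * I * d * ((G.det * qf G z : ℤ) : ℂ) / (c * ((G.det : ℤ) : ℂ))) =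
        g2E c (d * (qf G z / 2)) := by
      unfold g2E
      congr 1
      have h2 : ((qf G z : ℤ) : ℂ) = 2 * ((qf G z / 2 : ℤ) : ℂ) := by
        exact_mod_cast (g2_two hG z).symm
      rw [Int.cast_mul, h2, Int.cast_mul]
      generalize ((G.det : ℤ) : ℂ) = D at hD' ⊢
      field_simp
    rw [h1, mul_right_comm, ← g2E_add]
    have h3 : g2E c (-(d * (qf G z / 2)) + d * (qf G z / 2)) = 1 := by
      rw [neg_add_cancel]
      simp [g2E]
    rw [h3, one_mul]
  · intro w hw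
    unfold nug
    rw [g4_van hG hF.det_pos hc a hN w hw, zero_mul]

end Pool.Agent.D12
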