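import Pool.Agent.D12.Stmts

set_option autoImplicit false

/-!
# Lattices all of whose shells are spherical 12-designs: module Normalize

The constants of proportionality `K_i` in `∑_w g(w) (w·β)^{2i} = K_i q(β)^i`: take the second derivative
in the directions of a `G`-orthonormal basis.
-/

namespace Pool.Agent.D12

open Complex Matrix
open scoped BigOperators MatrixOrder

noncomputable section

variable {n : ℕ}

/-- second derivative of a power at `0` -/
theorem nrm_dd (p : Polynomial ℂ) (j : ℕ) :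
    (Polynomial.derivative (Polynomial.derivative (p ^ (j + 1)))).eval 0 =
      ((j : ℂ) + 1) * ((j : ℂ) * p.eval 0 ^ (j - 1) * (Polynomial.derivative p).eval 0 ^ 2 +
        p.eval 0 ^ j * (Polynomial.derivative (Polynomial.derivative p)).eval 0) := by
  rw [Polynomial.derivative_pow, Nat.add_sub_cancel, Polynomial.derivative_mul,
    Polynomial.derivative_mul, Polynomial.derivative_C, Polynomial.derivative_pow]
  simp only [Polynomial.eval_add, Polynomial.eval_mul, Polynomial.eval_C, Polynomial.eval_pow,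
    Polynomial.eval_zero]
  push_cast
  ring

/-- comparison of the coefficients of `t²` -/
theorem nrm_coeff {ι : Type*} (X : Finset ι) (g : ι → ℂ) (α β : ι → ℂ) (K q0 B1 q1 : ℂ) (j : ℕ)
    (h : ∀ t : ℝ, ∑ w ∈ X, g w * (α w + t * β w) ^ (2 * (j + 1)) =
      K * (q0 + 2 * t * B1 + t ^ 2 * q1) ^ (j + 1)) :
    (2 * (j : ℂ) + 1) * ∑ w ∈ X, g w * α w ^ (2 * j) * β w ^ 2 =
      K * (2 * j * q0 ^ (j - 1) * B1 ^ 2 + q0 ^ j * q1) := by
  set F : Polynomial ℂ := ∑ w ∈ X, Polynomial.C (g w) *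
    (Polynomial.C (α w) + Polynomial.C (β w) * Polynomial.X) ^ (2 * j + 1 + 1) with hF
  set R : Polynomial ℂ := Polynomial.C K * (Polynomial.C q0 + Polynomial.C (2 * B1) *
    Polynomial.X + Polynomial.C q1 * Polynomial.X ^ 2) ^ (j + 1) with hR
  have hFR : F = R := by
    apply Polynomial.eq_of_infinite_eval_eq
    refine Set.Infinite.mono (s := Set.range (fun t : ℝ => (t : ℂ))) ?_
      (Set.infinite_range_of_injective Complex.ofReal_injective)
    rintro _ ⟨t, rfl⟩
    simp only [Set.mem_ofPred_eq, hF, hR, Polynomial.eval_finsetSum, Polynomial.eval_mul,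
      Polynomial.eval_C, Polynomial.eval_pow, Polynomial.eval_add, Polynomial.eval_X]
    have h1 := h t
    rw [show 2 * (j + 1) = 2 * j + 1 + 1 by ring] at h1
    calc ∑ w ∈ X, g w * (α w + β w * (t : ℂ)) ^ (2 * j + 1 + 1)
        = ∑ w ∈ X, g w * (α w + t * β w) ^ (2 * j + 1 + 1) :=
          Finset.sum_congr rfl fun w _ => by rw [mul_comm (β w)]
      _ = K * (q0 + 2 * t * B1 + t ^ 2 * q1) ^ (j + 1) := h1
      _ = _ := by
          congr 2
          ring
  have hd := congrArg (fun p : Polynomial ℂ =>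
    (Polynomial.derivative (Polynomial.derivative p)).eval 0) hFR
  have hd1 : (Polynomial.derivative (Polynomial.derivative F)).eval 0 =
      (2 * (j : ℂ) + 2) * ((2 * (j : ℂ) + 1) * ∑ w ∈ X, g w * α w ^ (2 * j) * β w ^ 2) := by
    rw [hF]
    simp only [Polynomial.derivative_sum, Polynomial.eval_finsetSum,
      Polynomial.derivative_C_mul, Polynomial.eval_mul, Polynomial.eval_C, nrm_dd]
    rw [Finset.mul_sum, Finset.mul_sum]
    refine Finset.sum_congr rfl fun w _ => ?_
    simp only [Polynomial.derivative_add, Polynomial.derivative_C, Polynomial.derivative_C_mul,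
      Polynomial.derivative_X, Polynomial.eval_add, Polynomial.eval_mul, Polynomial.eval_C,
      Polynomial.eval_X, Polynomial.eval_zero, mul_one, mul_zero, add_zero,
      zero_add, Nat.add_sub_cancel]
    push_cast
    ring
  have hd2 : (Polynomial.derivative (Polynomial.derivative R)).eval 0 =
      K * (((j : ℂ) + 1) * ((j : ℂ) * q0 ^ (j - 1) * (2 * B1) ^ 2 + q0 ^ j * (2 * q1))) := by
    have e0 : (Polynomial.C q0 + Polynomial.C (2 * B1) *
        Polynomial.X + Polynomial.C q1 * Polynomial.X ^ 2).eval 0 = q0 := by simp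
    have e1 : (Polynomial.derivative (Polynomial.C q0 + Polynomial.C (2 * B1) *
        Polynomial.X + Polynomial.C q1 * Polynomial.X ^ 2)).eval 0 = 2 * B1 := by simp
    have e2 : (Polynomial.derivative (Polynomial.derivative (Polynomial.C q0 +
        Polynomial.C (2 * B1) * Polynomial.X + Polynomial.C q1 * Polynomial.X ^ 2))).eval 0 =
          2 * q1 := by
      simp
      ring
    rw [hR, Polynomial.derivative_C_mul, Polynomial.derivative_C_mul, Polynomial.eval_mul,
      Polynomial.eval_C, nrm_dd, e0, e1, e2]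
  rw [hd1, hd2] at hd
  have hj : (2 * (j : ℂ) + 2) ≠ 0 := by
    have : ((2 * j + 2 : ℕ) : ℂ) ≠ 0 := by
      exact_mod_cast (by omega : 2 * j + 2 ≠ 0)
    push_cast at this
    exact this
  refine mul_left_cancel₀ hj ?_
  rw [hd]
  ring

/-- a `G`-orthonormal basis -/
theorem nrm_basis (G : Matrix (Fin n) (Fin n) ℤ) (hG : EvenForm G) :
    0 < (G.det : ℝ) ∧ ∃ B : Matrix (Fin n) (Fin n) ℝ,
      (∀ w : Fin n → ℤ, ∑ l, (prR w (B l)) ^ 2 = (qf G.adjugate w : ℝ) / (G.det : ℝ)) ∧
      ∑ l, qfR G (B l) = n ∧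
      ∀ b : Fin n → ℝ, ∑ l, (b ⬝ᵥ ((G.map (fun a : ℤ => (a : ℝ))) *ᵥ B l)) ^ 2 = qfR G b := by
  set Gr : Matrix (Fin n) (Fin n) ℝ := G.map (fun a : ℤ => (a : ℝ)) with hGr
  have hGr' : Gr = (Int.castRingHom ℝ).mapMatrix G := rfl
  have hsym : Gr.IsSymm := by
    rw [hGr]
    exact hG.symm.map _
  have hPD : Gr.PosDef := by
    refine Matrix.PosDef.of_dotProduct_mulVec_pos ?_ ?_
    · rw [Matrix.IsHermitian, Matrix.conjTranspose_eq_transpose_of_trivial]
      exact hsym
    · intro x hx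
      have := hG.pos x hx
      unfold qfR at this
      simpa using this
  have hdet : Gr.det = (G.det : ℝ) := by
    rw [hGr', ← RingHom.map_det]
    rfl
  have hdpos : 0 < (G.det : ℝ) := by
    rw [← hdet]
    exact hPD.det_pos
  have hU : IsUnit Gr.det := by
    rw [hdet]
    exact isUnit_iff_ne_zero.2 hdpos.ne'
  have hadj : Gr.adjugate = G.adjugate.map (fun a : ℤ => (a : ℝ)) := by
    rw [hGr', ← RingHom.map_adjugate]
    rfl
  obtain ⟨B, hB⟩ : ∃ B : Matrix (Fin n) (Fin n) ℝ, Gr⁻¹ = Bᵀ * B := by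
    have h0 : 0 ≤ Gr⁻¹ := (Matrix.nonneg_iff_posSemidef).2 hPD.inv.posSemidef
    obtain ⟨B, hB⟩ := CStarAlgebra.nonneg_iff_eq_star_mul_self.mp h0
    refine ⟨B, ?_⟩
    rw [hB, Matrix.star_eq_conjTranspose, Matrix.conjTranspose_eq_transpose_of_trivial]
  have hsq : ∀ y : Fin n → ℝ, ∑ l, (B l ⬝ᵥ y) ^ 2 = y ⬝ᵥ (Gr⁻¹ *ᵥ y) := by
    intro y
    rw [hB, ← Matrix.mulVec_mulVec, Matrix.dotProduct_mulVec, Matrix.vecMul_transpose]
    simp only [dotProduct, Matrix.mulVec, sq]
  refine ⟨hdpos, B, ?_, ?_, ?_⟩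
  · intro w
    have h1 : ∀ l, prR w (B l) = B l ⬝ᵥ (fun i => (w i : ℝ)) := by
      intro l
      unfold prR dotProduct
      exact Finset.sum_congr rfl fun i _ => mul_comm _ _
    simp only [h1]
    rw [hsq, Matrix.inv_def, hdet, Ring.inverse_eq_inv', Matrix.smul_mulVec, dotProduct_smul,
      hadj, smul_eq_mul, div_eq_inv_mul]
    congr 1
    unfold qf
    simp only [dotProduct, Matrix.mulVec, Matrix.map_apply]
    push_cast
    rfl
  · have h1 : ∑ l, qfR G (B l) = Matrix.trace (B * Gr * Bᵀ) := by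
      unfold qfR
      rw [Matrix.trace]
      refine Finset.sum_congr rfl fun l _ => ?_
      rw [Matrix.diag_apply, Matrix.mul_assoc, Matrix.mul_apply]
      simp only [dotProduct, Matrix.mulVec, Matrix.mul_apply, Matrix.transpose_apply]
      rfl
    rw [h1, Matrix.mul_assoc, Matrix.trace_mul_comm, Matrix.mul_assoc, ← hB,
      Matrix.mul_nonsing_inv _ hU, Matrix.trace_one, Fintype.card_fin]
  · intro b
    have h1 : ∀ l, b ⬝ᵥ (Gr *ᵥ B l) = B l ⬝ᵥ (Gr *ᵥ b) := by
      intro l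
      rw [Matrix.dotProduct_mulVec, ← Matrix.mulVec_transpose, hsym.eq, dotProduct_comm]
    simp only [h1]
    rw [hsq, Matrix.mulVec_mulVec, Matrix.nonsing_inv_mul _ hU, Matrix.one_mulVec,
      dotProduct_comm]
    rfl

theorem nrm_qfR_add {G : Matrix (Fin n) (Fin n) ℤ} (hG : G.IsSymm) (b v : Fin n → ℝ) (t : ℝ) :
    qfR G (b + t • v) = qfR G b + 2 * t * (b ⬝ᵥ ((G.map (fun a : ℤ => (a : ℝ))) *ᵥ v)) +
      t ^ 2 * qfR G v := by
  unfold qfR
  set Gr : Matrix (Fin n) (Fin n) ℝ := G.map (fun a : ℤ => (a : ℝ)) with hGr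
  have hsym : Gr.IsSymm := by
    rw [hGr]
    exact hG.map _
  have h1 : v ⬝ᵥ (Gr *ᵥ b) = b ⬝ᵥ (Gr *ᵥ v) := by
    rw [Matrix.dotProduct_mulVec, ← Matrix.mulVec_transpose, hsym.eq, dotProduct_comm]
  rw [Matrix.mulVec_add, Matrix.mulVec_smul, dotProduct_add, add_dotProduct, add_dotProduct,
    dotProduct_smul, smul_dotProduct, smul_dotProduct, dotProduct_smul, h1]
  simp only [smul_eq_mul]
  ring

end

theorem st_Normalize : St_Normalize := by
  intro n G hG hn X k hX g K m hK
  obtain ⟨hdpos, B, hB1, hB2, hB3⟩ := nrm_basis G hG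
  -- a vector with nonzero form
  obtain ⟨b0, hb0⟩ : ∃ b0 : Fin n → ℝ, 0 < qfR G b0 := by
    refine ⟨fun _ => 1, hG.pos _ ?_⟩
    intro h
    have := congrFun h ⟨0, hn⟩
    simp at this
  have hstep : ∀ j, j + 1 ≤ m → (2 * (j : ℂ) + 1) * ((k : ℂ) / ((G.det : ℤ) : ℂ)) * K j =
      K (j + 1) * ((n : ℂ) + 2 * j) := by
    intro j hj
    have hco : ∀ l : Fin n, (2 * (j : ℂ) + 1) * ∑ w ∈ X, g w * (prR w b0 : ℂ) ^ (2 * j) *
        (prR w (B l) : ℂ) ^ 2 = K (j + 1) * (2 * j * (qfR G b0 : ℂ) ^ (j - 1) *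
          ((b0 ⬝ᵥ ((G.map (fun a : ℤ => (a : ℝ))) *ᵥ B l) : ℝ) : ℂ) ^ 2 +
            (qfR G b0 : ℂ) ^ j * (qfR G (B l) : ℂ)) := by
      intro l
      refine nrm_coeff X g (fun w => (prR w b0 : ℂ)) (fun w => (prR w (B l) : ℂ)) (K (j + 1)) _ _ _
        j ?_
      intro t
      have h1 := hK (j + 1) hj (b0 + t • B l)
      rw [nrm_qfR_add hG.symm] at h1
      push_cast at h1
      rw [← h1]
      refine Finset.sum_congr rfl fun w _ => ?_
      congr 2
      have : prR w (b0 + t • B l) = prR w b0 + t * prR w (B l) := by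
        unfold prR
        rw [Finset.mul_sum, ← Finset.sum_add_distrib]
        refine Finset.sum_congr rfl fun i _ => ?_
        simp only [Pi.add_apply, Pi.smul_apply, smul_eq_mul]
        ring
      rw [this]
      push_cast
      ring
    have hsum := Finset.sum_congr (rfl : (Finset.univ : Finset (Fin n)) = Finset.univ)
      (fun l _ => hco l)
    rw [← Finset.mul_sum, ← Finset.mul_sum, Finset.sum_comm, Finset.sum_add_distrib,
      ← Finset.mul_sum, ← Finset.mul_sum] at hsum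
    have e1 : ∀ w ∈ X, ∑ l : Fin n, g w * (prR w b0 : ℂ) ^ (2 * j) * (prR w (B l) : ℂ) ^ 2 =
        ((k : ℂ) / ((G.det : ℤ) : ℂ)) * (g w * (prR w b0 : ℂ) ^ (2 * j)) := by
      intro w hw
      rw [← Finset.mul_sum]
      have h2 : (∑ l : Fin n, (prR w (B l) : ℂ) ^ 2) = (k : ℂ) / ((G.det : ℤ) : ℂ) := by
        have h3 := hB1 w
        rw [hX w hw] at h3
        have h4 : ((∑ l : Fin n, (prR w (B l)) ^ 2 : ℝ) : ℂ) =
            (((k : ℝ) / (G.det : ℝ) : ℝ) : ℂ) := by rw [h3]
        rw [Complex.ofReal_sum] at h4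
        simpa only [Complex.ofReal_pow, Complex.ofReal_div, Complex.ofReal_intCast] using h4
      rw [h2]
      ring
    rw [Finset.sum_congr rfl e1, ← Finset.mul_sum, hK j (by omega) b0] at hsum
    have e2 : (∑ l : Fin n, ((b0 ⬝ᵥ ((G.map (fun a : ℤ => (a : ℝ))) *ᵥ B l) : ℝ) : ℂ) ^ 2) =
        (qfR G b0 : ℂ) := by
      have h4 := congrArg (fun x : ℝ => (x : ℂ)) (hB3 b0)
      push_cast at h4
      exact h4
    have e3 : (∑ l : Fin n, (qfR G (B l) : ℂ)) = (n : ℂ) := by
      have h4 := congrArg (fun x : ℝ => (x : ℂ)) hB2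
      push_cast at h4
      exact h4
    rw [e2, e3] at hsum
    have hq0 : (qfR G b0 : ℂ) ≠ 0 := by
      exact_mod_cast hb0.ne'
    have hqj : (2 * (j : ℂ) * (qfR G b0 : ℂ) ^ (j - 1)) * (qfR G b0 : ℂ) =
        2 * (j : ℂ) * (qfR G b0 : ℂ) ^ j := by
      rcases Nat.eq_zero_or_pos j with h | h
      · subst h
        simp
      · obtain ⟨i, rfl⟩ : ∃ i, j = i + 1 := ⟨j - 1, by omega⟩
        rw [Nat.add_sub_cancel, pow_succ]
        ring
    rw [hqj] at hsum
    have hne : (qfR G b0 : ℂ) ^ j ≠ 0 := pow_ne_zero _ hq0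
    refine mul_right_cancel₀ hne ?_
    linear_combination hsum
  -- induction
  intro i
  induction i with
  | zero =>
    intro _
    have h1 := hK 0 (Nat.zero_le _) b0
    simp only [mul_zero, pow_zero, mul_one] at h1
    simp only [mom, Finset.range_zero, Finset.prod_empty, Complex.ofReal_one, pow_zero, one_mul,
      mul_one]
    exact h1.symm
  | succ j ih =>
    intro hj
    have h1 := hstep j hj
    have h2 := ih (by omega)
    have hn0 : ((n : ℂ) + 2 * j) ≠ 0 := by
      have : ((n + 2 * j : ℕ) : ℂ) ≠ 0 := by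
        exact_mod_cast (by omega : n + 2 * j ≠ 0)
      push_cast at this
      exact this
    have h3 : K (j + 1) = (2 * (j : ℂ) + 1) / ((n : ℂ) + 2 * j) *
        ((k : ℂ) / ((G.det : ℤ) : ℂ)) * K j := by
      field_simp
      rw [← h1]
      ring
    rw [h3, h2]
    have h4 : (mom n (j + 1) : ℂ) = (mom n j : ℂ) * ((2 * (j : ℂ) + 1) / ((n : ℂ) + 2 * j)) := by
      unfold mom
      rw [Finset.prod_range_succ]
      push_cast
      ring
    rw [h4, pow_succ]
    ring

end Pool.Agent.D12
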