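import Pool.Agent.D12.Stmts
import Pool.Agent.D12.Gauss4
import Pool.Agent.D12.Normalize

set_option autoImplicit false

/-!
# Lattices all of whose shells are spherical 12-designs: module Gauss5

Section (4.5): `g(0)^4` is real and `|g(0)|² ≤ cⁿ (det G)ⁿ`.
-/

namespace Pool.Agent.D12

open Complex Matrix
open scoped BigOperators Real ComplexConjugate

noncomputable section

variable {n : ℕ}

/-- orthogonality -/
theorem g5_orth {c : ℕ} (hc : 0 < c) (m : ℤ) (h : ¬ (c : ℤ) ∣ m) :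
    ∑ t : Fin c, g2E c (m * ((t : ℕ) : ℤ)) = 0 := by
  have h1 : ∀ t : Fin c, g2E c (m * ((t : ℕ) : ℤ)) = g2E c m ^ (t : ℕ) := by
    intro t
    induction (t : ℕ) with
    | zero => simp [g2E]
    | succ k ih =>
      rw [pow_succ, ← ih, ← g2E_add]
      congr 1
      push_cast
      ring
  simp only [h1]
  rw [Fin.sum_univ_eq_sum_range (fun t => g2E c m ^ t) c]
  have hne : g2E c m ≠ 1 := fun h2 => h (g4_one hc h2)
  rw [geom_sum_eq hne]
  have h3 : g2E c m ^ c = 1 := by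
    have h4 : g2E c m ^ c = g2E c (m * c) := by
      have : ∀ k : ℕ, g2E c m ^ k = g2E c (m * k) := by
        intro k
        induction k with
        | zero => simp [g2E]
        | succ k ih =>
          rw [pow_succ, ih, ← g2E_add]
          congr 1
          push_cast
          ring
      exact this c
    rw [h4]
    have h5 : g2E c (m * c) = g2E c 0 := g2E_cong hc ⟨m, by ring⟩
    rw [h5]
    simp [g2E]
  rw [h3, sub_self, zero_div]

/-- the number of `t` modulo `c` with `c ∣ D t` -/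
theorem g5_card {c : ℕ} (D : ℤ) (hD : 0 < D) :
    (((Finset.univ : Finset (Fin c)).filter (fun t : Fin c => (c : ℤ) ∣ D * ((t : ℕ) : ℤ))).card : ℤ) ≤
      D := by
  have h1 : ((Finset.univ : Finset (Fin c)).filter
      (fun t : Fin c => (c : ℤ) ∣ D * ((t : ℕ) : ℤ))).card ≤ (Finset.Ico (0 : ℤ) D).card := by
    refine Finset.card_le_card_of_injOn (fun t : Fin c => D * ((t : ℕ) : ℤ) / c) ?_ ?_
    · intro t ht
      have htc : ((t : ℕ) : ℤ) < c := by exact_mod_cast t.2
      have hc : (0 : ℤ) < c := by omega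
      rw [Finset.mem_coe, Finset.mem_Ico]
      refine ⟨Int.ediv_nonneg (by positivity) hc.le, ?_⟩
      refine Int.ediv_lt_of_lt_mul hc ?_
      exact mul_lt_mul_of_pos_left htc hD
    · intro t ht t' ht' htt
      rw [Finset.mem_coe, Finset.mem_filter] at ht ht'
      simp only at htt
      have e1 := Int.ediv_mul_cancel ht.2
      have e2 := Int.ediv_mul_cancel ht'.2
      rw [htt, e2] at e1
      have e3 : ((t' : ℕ) : ℤ) = ((t : ℕ) : ℤ) := mul_left_cancel₀ hD.ne' e1
      exact Fin.ext (by exact_mod_cast e3.symm)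
  rw [Int.card_Ico, sub_zero] at h1
  have h2 : (((Finset.univ : Finset (Fin c)).filter
      (fun t : Fin c => (c : ℤ) ∣ D * ((t : ℕ) : ℤ))).card : ℤ) ≤ (D.toNat : ℤ) := by exact_mod_cast h1
  rwa [Int.toNat_of_nonneg hD.le] at h2

theorem g5_main (G : Matrix (Fin n) (Fin n) ℤ) (hG : EvenForm G) (hD : 0 < G.det) {c : ℕ}
    (hc : 0 < c) (a b d : ℤ) (had : a * d - b * c = 1) :
    ‖gs G c a 0‖ ^ 2 ≤ (c : ℝ) ^ n * (G.det : ℝ) ^ n := by
  classical
  set lf : (Fin n → Fin c) → Fin n → ℤ := fun y i => ((y i : ℕ) : ℤ) with hlf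
  have hgs : gs G c a 0 = ∑ y, g2E c (g2m G a 0 (lf y)) := g2_gs hG c a 0
  -- the square
  have h1 : gs G c a 0 * conj (gs G c a 0) =
      ∑ u, g2E c (g2m G a 0 (lf u)) * ∑ y', g2E c ((a • (G *ᵥ lf u)) ⬝ᵥ lf y') := by
    have e1 : gs G c a 0 * conj (gs G c a 0) =
        ∑ y', ∑ y, g2E c (g2m G a 0 (lf y) - g2m G a 0 (lf y')) := by
      conv_lhs => rw [hgs, map_sum, Finset.sum_mul_sum]
      rw [Finset.sum_comm]
      refine Finset.sum_congr rfl fun y' _ => Finset.sum_congr rfl fun y _ => ?_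
      rw [g2E_conj, ← g2E_add, sub_eq_add_neg]
    have e2 : ∀ y', ∑ y, g2E c (g2m G a 0 (lf y) - g2m G a 0 (lf y')) =
        ∑ u, g2E c (g2m G a 0 (lf u + lf y') - g2m G a 0 (lf y')) := by
      intro y'
      refine (g4_shift hc (fun y => g2E c (g2m G a 0 y - g2m G a 0 (lf y'))) ?_ (lf y')).symm
      intro y z h
      refine g2E_cong hc ?_
      have := g2m_cong hG c a 0 y z h
      rwa [show g2m G a 0 z - g2m G a 0 (lf y') - (g2m G a 0 y - g2m G a 0 (lf y')) =
        g2m G a 0 z - g2m G a 0 y by ring]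
    rw [e1]
    simp only [e2]
    rw [Finset.sum_comm]
    refine Finset.sum_congr rfl fun u _ => ?_
    rw [Finset.mul_sum]
    refine Finset.sum_congr rfl fun y' _ => ?_
    rw [← g2E_add]
    congr 1
    unfold g2m
    rw [g4_half_add hG, zero_dotProduct, zero_dotProduct, zero_dotProduct, smul_dotProduct,
      smul_eq_mul]
    have e3 : (G *ᵥ lf u) ⬝ᵥ lf y' = lf u ⬝ᵥ (G *ᵥ lf y') := by
      rw [Matrix.dotProduct_mulVec, ← Matrix.mulVec_transpose, hG.symm.eq]
    rw [e3]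
    ring
  -- inner sums
  have h2 : ∀ v : Fin n → ℤ, ∑ y', g2E c (v ⬝ᵥ lf y') =
      ∏ i, ∑ t : Fin c, g2E c (v i * ((t : ℕ) : ℤ)) := by
    intro v
    rw [Finset.prod_univ_sum]
    simp only [Fintype.piFinset_univ]
    refine Finset.sum_congr rfl fun y _ => ?_
    rw [← g2E_sum]
    rfl
  set S : Finset (Fin n → Fin c) :=
    Finset.univ.filter (fun u => ∀ i, (c : ℤ) ∣ a * (G *ᵥ lf u) i) with hS
  have h3 : ∀ u, u ∉ S → ∑ y', g2E c ((a • (G *ᵥ lf u)) ⬝ᵥ lf y') = 0 := by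
    intro u hu
    rw [hS, Finset.mem_filter] at hu
    push Not at hu
    obtain ⟨i, hi⟩ := hu (Finset.mem_univ _)
    rw [h2]
    refine Finset.prod_eq_zero (Finset.mem_univ i) ?_
    exact g5_orth hc _ (by simpa using hi)
  have hnorm : ∀ m : ℤ, ‖g2E c m‖ = 1 := by
    intro m
    unfold g2E
    rw [Complex.norm_exp]
    have : (2 * π * I * (m : ℂ) / c).re = 0 := by
      rw [show (2 * π * I * (m : ℂ) / c : ℂ) = ((2 * π * m / c : ℝ) : ℂ) * I by push_cast; ring]
      simp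
    rw [this, Real.exp_zero]
  have h4 : ∀ u, ‖∑ y', g2E c ((a • (G *ᵥ lf u)) ⬝ᵥ lf y')‖ ≤ (c : ℝ) ^ n := by
    intro u
    refine (norm_sum_le _ _).trans ?_
    simp only [hnorm]
    simp
  have h5 : ‖gs G c a 0‖ ^ 2 ≤ ∑ u ∈ S, (c : ℝ) ^ n := by
    have e1 : ‖gs G c a 0‖ ^ 2 = ‖gs G c a 0 * conj (gs G c a 0)‖ := by
      rw [norm_mul, RCLike.norm_conj, sq]
    rw [e1, h1]
    have e2 : ∑ u, g2E c (g2m G a 0 (lf u)) * ∑ y', g2E c ((a • (G *ᵥ lf u)) ⬝ᵥ lf y') =
        ∑ u ∈ S, g2E c (g2m G a 0 (lf u)) * ∑ y', g2E c ((a • (G *ᵥ lf u)) ⬝ᵥ lf y') := by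
      symm
      refine Finset.sum_subset (Finset.subset_univ S) fun u _ hu => ?_
      rw [h3 u hu, mul_zero]
    rw [e2]
    refine (norm_sum_le _ _).trans (Finset.sum_le_sum fun u _ => ?_)
    rw [norm_mul, hnorm, one_mul]
    exact h4 u
  -- the number of `u`
  have h6 : (S.card : ℝ) ≤ (G.det : ℝ) ^ n := by
    set Q : Finset (Fin c) := Finset.univ.filter (fun t : Fin c => (c : ℤ) ∣ G.det * ((t : ℕ) : ℤ)) with hQ
    have e1 : S ⊆ Fintype.piFinset (fun _ : Fin n => Q) := by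
      intro u hu
      rw [hS, Finset.mem_filter] at hu
      rw [Fintype.mem_piFinset]
      intro i
      rw [hQ, Finset.mem_filter]
      refine ⟨Finset.mem_univ _, ?_⟩
      -- `c ∣ (G u)_k`
      have e2 : ∀ k, (c : ℤ) ∣ (G *ᵥ lf u) k := by
        intro k
        have e3 := hu.2 k
        have e4 : (G *ᵥ lf u) k = d * (a * (G *ᵥ lf u) k) - (c : ℤ) * (b * (G *ᵥ lf u) k) := by
          linear_combination (-(G *ᵥ lf u) k) * had
        rw [e4]
        exact dvd_sub (e3.mul_left d) (Dvd.intro _ rfl)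
      have e5 : G.det * lf u i = (G.adjugate *ᵥ (G *ᵥ lf u)) i := by
        rw [Matrix.mulVec_mulVec, Matrix.adjugate_mul, Matrix.smul_mulVec, Matrix.one_mulVec]
        rfl
      show (c : ℤ) ∣ G.det * lf u i
      rw [e5]
      show (c : ℤ) ∣ ∑ k, G.adjugate i k * (G *ᵥ lf u) k
      exact Finset.dvd_sum fun k _ => (e2 k).mul_left _
    have e6 : (S.card : ℤ) ≤ G.det ^ n := by
      have e7 := Finset.card_le_card e1
      rw [Fintype.card_piFinset, Finset.prod_const, Finset.card_univ, Fintype.card_fin] at e7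
      have e8 : (Q.card : ℤ) ≤ G.det := g5_card G.det hD
      calc (S.card : ℤ) ≤ ((Q.card ^ n : ℕ) : ℤ) := by exact_mod_cast e7
        _ = (Q.card : ℤ) ^ n := by push_cast; ring
        _ ≤ G.det ^ n := pow_le_pow_left₀ (by positivity) e8 n
    exact_mod_cast e6
  rw [Finset.sum_const, nsmul_eq_mul] at h5
  calc ‖gs G c a 0‖ ^ 2 ≤ (S.card : ℝ) * (c : ℝ) ^ n := h5
    _ ≤ (G.det : ℝ) ^ n * (c : ℝ) ^ n := mul_le_mul_of_nonneg_right h6 (by positivity)
    _ = _ := mul_comm _ _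

end

theorem st_Gauss5 (_h1 : St_Gauss1) (h2 : St_Gauss2) : St_Gauss5 := by
  intro n G hG c hc a b d had
  refine ⟨?_, ?_⟩
  · obtain ⟨-, t, ht⟩ := h2 n G hG c hc a
    have h3 := ht 0
    simp only [smul_zero, Finset.prod_const, Finset.card_univ, Fintype.card_fin] at h3
    rw [h3, map_pow, Complex.conj_conj]
    exact h3.symm
  · have hD : 0 < G.det := by
      have := (nrm_basis G hG).1
      exact_mod_cast this
    exact g5_main G hG hD hc a b d had

end Pool.Agent.D12
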