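import Pool.Agent.D12.Stmts
import Pool.Agent.D12.Gauss5

set_option autoImplicit false

/-!
# Lattices all of whose shells are spherical 12-designs: module Gauss1

Section (4.1).
-/

namespace Pool.Agent.D12

open Complex Matrix
open scoped BigOperators Real ComplexConjugate

noncomputable section

variable {n : ℕ}

theorem g1_integral {c : ℕ} (hc : 0 < c) (m : ℤ) : IsIntegral ℤ (g2E c m) := by
  have h : g2E c m ^ c = 1 := by
    unfold g2E
    rw [← Complex.exp_nat_mul, Complex.exp_eq_one_iff]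
    refine ⟨m, ?_⟩
    have : (c : ℂ) ≠ 0 := by exact_mod_cast hc.ne'
    field_simp
  refine IsIntegral.of_pow hc ?_
  rw [h]
  exact isIntegral_one

theorem st_Gauss1 : St_Gauss1 := by
  classical
  intro n G hG c hc a x x'
  set lf : (Fin n → Fin c) → Fin n → ℤ := fun y i => ((y i : ℕ) : ℤ) with hlf
  have hgs : ∀ x, gs G c a x = ∑ y, g2E c (g2m G a x (lf y)) := fun x => g2_gs hG c a x
  -- the square
  have h1 : gs G c a x * conj (gs G c a x') =
      ∑ u, g2E c (g2m G a x (lf u)) * ∑ y', g2E c ((a • (G *ᵥ lf u) + (x - x')) ⬝ᵥ lf y') := by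
    have e1 : gs G c a x * conj (gs G c a x') =
        ∑ y', ∑ y, g2E c (g2m G a x (lf y) - g2m G a x' (lf y')) := by
      conv_lhs => rw [hgs, hgs, map_sum, Finset.sum_mul_sum]
      rw [Finset.sum_comm]
      refine Finset.sum_congr rfl fun y' _ => Finset.sum_congr rfl fun y _ => ?_
      rw [g2E_conj, ← g2E_add, sub_eq_add_neg]
    have e2 : ∀ y', ∑ y, g2E c (g2m G a x (lf y) - g2m G a x' (lf y')) =
        ∑ u, g2E c (g2m G a x (lf u + lf y') - g2m G a x' (lf y')) := by
      intro y'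
      refine (g4_shift hc (fun y => g2E c (g2m G a x y - g2m G a x' (lf y'))) ?_ (lf y')).symm
      intro y z h
      refine g2E_cong hc ?_
      have := g2m_cong hG c a x y z h
      rwa [show g2m G a x z - g2m G a x' (lf y') - (g2m G a x y - g2m G a x' (lf y')) =
        g2m G a x z - g2m G a x y by ring]
    rw [e1]
    simp only [e2]
    rw [Finset.sum_comm]
    refine Finset.sum_congr rfl fun u _ => ?_
    rw [Finset.mul_sum]
    refine Finset.sum_congr rfl fun y' _ => ?_
    rw [← g2E_add]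
    congr 1
    unfold g2m
    rw [g4_half_add hG, add_dotProduct, smul_dotProduct, sub_dotProduct, dotProduct_add,
      smul_eq_mul]
    have e3 : (G *ᵥ lf u) ⬝ᵥ lf y' = lf u ⬝ᵥ (G *ᵥ lf y') := by
      rw [Matrix.dotProduct_mulVec, ← Matrix.mulVec_transpose, hG.symm.eq]
    rw [e3]
    ring
  -- inner sums
  have h2 : ∀ v : Fin n → ℤ, ∑ y', g2E c (v ⬝ᵥ lf y') =
      ∏ i, ∑ t : Fin c, g2E c (v i * ((t : ℕ) : ℤ)) := by
    intro v
    rw [Finset.prod_univ_sum]
    simp only [Fintype.piFinset_univ]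
    refine Finset.sum_congr rfl fun y _ => ?_
    rw [← g2E_sum]
    rfl
  have h3 : ∀ v : Fin n → ℤ, ∑ y', g2E c (v ⬝ᵥ lf y') = 0 ∨
      ∑ y', g2E c (v ⬝ᵥ lf y') = (c : ℂ) ^ n := by
    intro v
    by_cases hv : ∀ i, (c : ℤ) ∣ v i
    · right
      have : ∀ y', g2E c (v ⬝ᵥ lf y') = 1 := by
        intro y'
        have h0 : g2E c (v ⬝ᵥ lf y') = g2E c 0 := by
          refine g2E_cong hc ?_
          rw [sub_zero]
          exact Finset.dvd_sum fun i _ => (hv i).mul_right _
        rw [h0]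
        simp [g2E]
      simp only [this]
      simp
    · left
      push Not at hv
      obtain ⟨i, hi⟩ := hv
      rw [h2]
      exact Finset.prod_eq_zero (Finset.mem_univ i) (g5_orth hc _ hi)
  have h4 : ∀ v : Fin n → ℤ, ∃ e : ℂ, IsIntegral ℤ e ∧
      ∑ y', g2E c (v ⬝ᵥ lf y') = (c : ℂ) ^ n * e := by
    intro v
    rcases h3 v with h | h
    · exact ⟨0, isIntegral_zero, by rw [h, mul_zero]⟩
    · exact ⟨1, isIntegral_one, by rw [h, mul_one]⟩
  choose e he1 he2 using h4
  refine ⟨∑ u, g2E c (g2m G a x (lf u)) * e (a • (G *ᵥ lf u) + (x - x')), ?_, ?_⟩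
  · exact IsIntegral.sum _ fun u _ => (g1_integral hc _).mul (he1 _)
  · rw [h1, Finset.mul_sum]
    refine Finset.sum_congr rfl fun u _ => ?_
    rw [he2]
    ring

end

end Pool.Agent.D12
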