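import Pool.Agent.D12.Stmts

set_option autoImplicit false

/-!
# Lattices all of whose shells are spherical 12-designs: module Gauss3
-/

namespace Pool.Agent.D12

theorem gauss3_finite (h2 : St_Gauss2) (n : ℕ) (G : Matrix (Fin n) (Fin n) ℤ) (hG : EvenForm G)
    (c : ℕ) (hc : 0 < c) (a : ℤ) : (Set.range (fun x : Fin n → ℤ => gs G c a x)).Finite := by
  have hfin : (Set.range (fun y : Fin n → Fin c =>
      gs G c a (fun i => (((y i : ℕ)) : ℤ)))).Finite := Set.finite_range _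
  refine hfin.subset ?_
  rintro _ ⟨x, rfl⟩
  have hc' : (0 : ℤ) < c := by exact_mod_cast hc
  have hlt : ∀ i, (x i % (c : ℤ)).toNat < c := by
    intro i
    have h1 := Int.emod_lt_of_pos (x i) hc'
    have h2 := Int.emod_nonneg (x i) hc'.ne'
    omega
  refine ⟨fun i => ⟨(x i % (c : ℤ)).toNat, hlt i⟩, ?_⟩
  have h3 := (h2 n G hG c hc a).1 (fun i => x i % (c : ℤ)) (fun i => x i / (c : ℤ))
  have h4 : (fun i => x i % (c : ℤ)) + (c : ℤ) • (fun i => x i / (c : ℤ)) = x := by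
    funext i
    simp only [Pi.add_apply, Pi.smul_apply, smul_eq_mul]
    exact Int.emod_add_mul_ediv (x i) c
  rw [h4] at h3
  have h5 : (fun i => (((x i % (c : ℤ)).toNat : ℕ) : ℤ)) = fun i => x i % (c : ℤ) := by
    funext i
    exact Int.toNat_of_nonneg (Int.emod_nonneg (x i) hc'.ne')
  show gs G c a (fun i => (((x i % (c : ℤ)).toNat : ℕ) : ℤ)) = gs G c a x
  rw [h5, ← h3]

theorem st_Gauss3 (h1 : St_Gauss1) (h2 : St_Gauss2) : St_Gauss3 := by
  intro n G hG A c hc a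
  have hfin := gauss3_finite h2 n G hG c hc a
  have hne : (Set.range (fun x : Fin n → ℤ => gs G c a x)).Nonempty := ⟨_, ⟨0, rfl⟩⟩
  obtain ⟨_, ⟨x0, rfl⟩, hx0⟩ := Set.exists_max_image _ (fun z => A.valuation z) hfin hne
  obtain ⟨_, ⟨x1, rfl⟩, hx1⟩ := Set.exists_max_image _
    (fun z => A.valuation ((starRingEnd ℂ) z)) hfin hne
  have hmax0 : ∀ x, A.valuation (gs G c a x) ≤ A.valuation (gs G c a x0) := fun x =>
    hx0 _ ⟨x, rfl⟩
  have hmax1 : ∀ x, A.valuation ((starRingEnd ℂ) (gs G c a x)) ≤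
      A.valuation ((starRingEnd ℂ) (gs G c a x1)) := fun x => hx1 _ ⟨x, rfl⟩
  refine ⟨A.valuation (gs G c a x0), ?_, hmax0⟩
  set M := A.valuation (gs G c a x0) with hM
  set M' := A.valuation ((starRingEnd ℂ) (gs G c a x1)) with hM'
  have hMM' : M ≤ M' := by
    obtain ⟨t, ht⟩ := (h2 n G hG c hc a).2
    have h3 := congrArg A.valuation (ht x0)
    rw [map_pow, map_prod] at h3
    have h4 : (∏ l : Fin 4, A.valuation ((starRingEnd ℂ) (gs G c a (t l • x0)))) ≤ M' ^ 4 := by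
      rw [Fin.prod_univ_four]
      have := fun l : Fin 4 => hmax1 (t l • x0)
      calc _ ≤ M' * M' * M' * M' :=
            mul_le_mul' (mul_le_mul' (mul_le_mul' (this 0) (this 1)) (this 2)) (this 3)
        _ = M' ^ 4 := by rw [pow_succ, pow_succ, pow_succ, pow_one]
    have h5 : M ^ 4 ≤ M' ^ 4 := by
      rw [hM, h3]; exact h4
    exact le_of_pow_le_pow_left₀ (by norm_num) zero_le h5
  obtain ⟨ζ, hζ, hprod⟩ := h1 n G hG c hc a x0 x1
  have hζ1 : A.valuation ζ ≤ 1 := by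
    rw [ValuationSubring.valuation_le_one_iff]
    have h3 : IsIntegral A ζ := hζ.tower_top
    obtain ⟨y, hy⟩ := IsIntegrallyClosed.isIntegral_iff.mp h3
    rw [← hy]
    exact y.2
  have h3 := congrArg A.valuation hprod
  rw [map_mul, map_mul, map_pow] at h3
  calc M ^ 2 = M * M := sq M
    _ ≤ M * M' := mul_le_mul_right hMM' M
    _ = A.valuation (c : ℂ) ^ n * A.valuation ζ := h3
    _ ≤ A.valuation (c : ℂ) ^ n * 1 := mul_le_mul_right hζ1 _
    _ = _ := mul_one _

end Pool.Agent.D12
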