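import Pool.Agent.D12.Stmts

set_option autoImplicit false

/-!
# Lattices all of whose shells are spherical 12-designs: module GaussDesign
-/

namespace Pool.Agent.D12

open UpperHalfPlane hiding I
open Complex Matrix
open scoped BigOperators

theorem st_GaussDesign (hFF : St_FormFacts) (hP : St_Prop) (hN : St_Normalize) :
    St_GaussDesign := by
  classical
  intro n G hG hD hn c hc a k b i hi
  have FF := hFF n G hG
  have hfin : {w : Fin n → ℤ | qf G.adjugate w = (k : ℤ)}.Finite := FF.adj_fin k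
  set X := hfin.toFinset with hX
  have hXm : ∀ w, w ∈ X ↔ qf G.adjugate w = (k : ℤ) := fun w => by
    rw [hX, Set.Finite.mem_toFinset]; rfl
  have hfs : ∀ f : (Fin n → ℤ) → ℂ, ∑ᶠ (w : Fin n → ℤ) (_ : qf G.adjugate w = (k : ℤ)), f w =
      ∑ w ∈ X, f w := fun f => finsum_mem_eq_finite_toFinset_sum f hfin
  have hK : ∀ i : ℕ, ∃ K : ℂ, i ≤ 6 → ∀ b : Fin n → ℝ,
      ∑ w ∈ X, gs G c a w * (prR w b : ℂ) ^ (2 * i) = K * (qfR G b : ℂ) ^ i := by
    intro i
    by_cases hi : i ≤ 6
    · obtain ⟨K, hK⟩ := hP n G hG hD hn c hc a k i hi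
      exact ⟨K, fun _ b => by rw [← hfs]; exact hK b⟩
    · exact ⟨0, fun h => absurd h hi⟩
  choose K hK using hK
  have h1 := hN n G hG hn X k (fun w hw => (hXm w).mp hw) (gs G c a) K 6
    (fun i hi b => hK i hi b) i hi
  rw [hfs, hfs, hK i hi b, h1, mul_pow]
  push_cast
  ring

end Pool.Agent.D12
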