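import Pool.Agent.D12.Stmts

set_option autoImplicit false

/-!
# Lattices all of whose shells are spherical 12-designs: module Generic
-/

namespace Pool.Agent.D12

/-- the residue field of a valuation subring of an algebraically closed field is infinite -/
theorem generic_infinite (A : ValuationSubring ℂ) : Infinite (IsLocalRing.ResidueField A) := by
  by_contra hfin
  rw [not_infinite_iff_finite] at hfin
  have _ := Fintype.ofFinite (IsLocalRing.ResidueField A)
  set q := Fintype.card (IsLocalRing.ResidueField A) with hq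
  have hq2 : 2 ≤ q := by
    have := Fintype.one_lt_card (α := IsLocalRing.ResidueField A)
    omega
  obtain ⟨z, hz⟩ : ∃ z : ℂ, z ^ q = z + 1 := by
    let P : Polynomial ℂ := Polynomial.X ^ q - Polynomial.X - 1
    have hdeg : P.degree ≠ 0 := by
      have h1 : P = Polynomial.X ^ q - (Polynomial.X + Polynomial.C 1) := by
        simp only [P, map_one]
        ring
      have h2 : (Polynomial.X + Polynomial.C (1 : ℂ)).degree < (Polynomial.X ^ q : Polynomial ℂ).degree := by
        rw [Polynomial.degree_X_add_C, Polynomial.degree_X_pow]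
        exact_mod_cast (by omega : 1 < q)
      rw [h1, Polynomial.degree_sub_eq_left_of_degree_lt h2, Polynomial.degree_X_pow]
      intro h
      have : q = 0 := by exact_mod_cast h
      omega
    obtain ⟨z, hz⟩ := IsAlgClosed.exists_root P hdeg
    refine ⟨z, ?_⟩
    have : z ^ q - z - 1 = 0 := by
      have h3 := hz
      simp only [P, Polynomial.IsRoot.def, Polynomial.eval_sub, Polynomial.eval_pow,
        Polynomial.eval_X, Polynomial.eval_one] at h3
      exact h3
    linear_combination this
  have hzA : A.valuation z ≤ 1 := by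
    by_contra hgt
    rw [not_le] at hgt
    have h1 : A.valuation (z ^ q) ≤ A.valuation z := by
      rw [hz]
      calc A.valuation (z + 1) ≤ max (A.valuation z) (A.valuation 1) := A.valuation.map_add z 1
        _ ≤ A.valuation z := by
          rw [map_one]
          exact max_le le_rfl hgt.le
    rw [map_pow] at h1
    have h2 : A.valuation z ^ 2 ≤ A.valuation z ^ q := pow_le_pow_right₀ hgt.le hq2
    have h3 : A.valuation z * A.valuation z ≤ A.valuation z * 1 := by
      rw [mul_one, ← pow_two]
      exact h2.trans h1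
    have h4 : (0 : A.ValueGroup) < A.valuation z := lt_trans zero_lt_one hgt
    have h5 : A.valuation z ≤ 1 := le_of_mul_le_mul_left h3 h4
    exact absurd h5 (not_le.mpr hgt)
  have hzm : z ∈ A := (A.valuation_le_one_iff z).mp hzA
  let zA : A := ⟨z, hzm⟩
  have h6 : zA ^ q = zA + 1 := by
    apply Subtype.ext
    push_cast
    exact hz
  have h7 : (IsLocalRing.residue A zA) ^ q = IsLocalRing.residue A zA + 1 := by
    rw [← map_pow, h6, map_add, map_one]
  rw [hq, FiniteField.pow_card] at h7
  have h8 : (1 : IsLocalRing.ResidueField A) = 0 := by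
    have h9 := h7
    linear_combination -h9
  exact one_ne_zero h8

theorem st_Generic : St_Generic := by
  classical
  intro A C _ _ a ha1 ⟨s1, hs1⟩
  have _ := generic_infinite A
  have hmem : ∀ s, a s ∈ A := fun s => (A.valuation_le_one_iff (a s)).mp (ha1 s)
  let aA : C → A := fun s => ⟨a s, hmem s⟩
  let ab : C → IsLocalRing.ResidueField A := fun s => IsLocalRing.residue A (aA s)
  have hab1 : ab s1 ≠ 0 := by
    intro h
    have h1 : aA s1 ∈ IsLocalRing.maximalIdeal A := (IsLocalRing.residue_eq_zero_iff _).mp h
    have h2 : ¬ IsUnit (aA s1) := (IsLocalRing.mem_maximalIdeal _).mp h1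
    exact h2 ((A.valuation_eq_one_iff (aA s1)).mpr hs1)
  let Lf : C → MvPolynomial C (IsLocalRing.ResidueField A) := fun r =>
    ∑ s, MvPolynomial.C (ab (s * r)) * MvPolynomial.X s
  have hL : ∀ r, Lf r ≠ 0 := by
    intro r h
    have h1 := congrArg (MvPolynomial.eval (Pi.single (s1 * r⁻¹) 1)) h
    simp only [Lf, map_sum, map_mul, MvPolynomial.eval_C, MvPolynomial.eval_X, map_zero] at h1
    rw [Finset.sum_eq_single (s1 * r⁻¹)] at h1
    · rw [Pi.single_eq_same, mul_one, inv_mul_cancel_right] at h1
      exact hab1 h1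
    · intro s _ hne
      rw [Pi.single_eq_of_ne hne, mul_zero]
    · intro h2
      exact absurd (Finset.mem_univ _) h2
  have hP : (∏ r, Lf r) ≠ 0 := Finset.prod_ne_zero_iff.mpr (fun r _ => hL r)
  obtain ⟨xb, hxb⟩ : ∃ xb : C → IsLocalRing.ResidueField A, MvPolynomial.eval xb (∏ r, Lf r) ≠ 0 := by
    by_contra hcon
    push Not at hcon
    apply hP
    apply MvPolynomial.funext
    intro x
    rw [hcon x, map_zero]
  rw [map_prod] at hxb
  have hxr : ∀ r, ∑ s, xb s * ab (s * r) ≠ 0 := by
    intro r
    have h1 := Finset.prod_ne_zero_iff.mp hxb r (Finset.mem_univ r)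
    simp only [Lf, map_sum, map_mul, MvPolynomial.eval_C, MvPolynomial.eval_X] at h1
    intro h2
    apply h1
    rw [← h2]
    exact Finset.sum_congr rfl (fun s _ => mul_comm _ _)
  have hsurj : Function.Surjective (IsLocalRing.residue A) := IsLocalRing.residue_surjective
  choose xA hxA using (fun s => hsurj (xb s))
  refine ⟨fun s => (xA s : ℂ), fun s => (A.valuation_le_one_iff _).mpr (xA s).2, fun r => ?_⟩
  have h3 : (∑ s, ((xA s : A) : ℂ) * a (s * r)) = ((∑ s, xA s * aA (s * r) : A) : ℂ) := by
    push_cast
    rfl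
  rw [h3]
  apply (A.valuation_eq_one_iff _).mp
  by_contra hnu
  have h4 : (∑ s, xA s * aA (s * r)) ∈ IsLocalRing.maximalIdeal A :=
    (IsLocalRing.mem_maximalIdeal _).mpr hnu
  have h5 := (IsLocalRing.residue_eq_zero_iff _).mpr h4
  rw [map_sum] at h5
  apply hxr r
  rw [← h5]
  refine Finset.sum_congr rfl (fun s _ => ?_)
  rw [map_mul, hxA]

end Pool.Agent.D12
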