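import Pool.Agent.D12.Stmts

set_option autoImplicit false

/-!
# Lattices all of whose shells are spherical 12-designs: module HomogDvd
-/

namespace Pool.Agent.D12

open MvPolynomial in
/-- grading homomorphism `x_i ↦ x_i t^{w_i}` -/
noncomputable def homogDvdPhi (κ : Type) [Field κ] :
    MvPolynomial (Fin 2) κ →ₐ[κ] Polynomial (MvPolynomial (Fin 2) κ) :=
  MvPolynomial.aeval (fun i => Polynomial.C (MvPolynomial.X i) * Polynomial.X ^ (wt i))

theorem homogDvd_phi_monomial (κ : Type) [Field κ] (e : Fin 2 →₀ ℕ) (c : κ) :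
    homogDvdPhi κ (MvPolynomial.monomial e c) =
      Polynomial.C (MvPolynomial.monomial e c) * Polynomial.X ^ (Finsupp.weight wt e) := by
  have h1 : (MvPolynomial.monomial e c : MvPolynomial (Fin 2) κ) =
      MvPolynomial.C c * (MvPolynomial.X 0 ^ (e 0) * MvPolynomial.X 1 ^ (e 1)) := by
    rw [MvPolynomial.monomial_eq]
    congr 1
    rw [Finsupp.prod_fintype _ _ (by simp)]
    simp [Fin.prod_univ_two]
  have h2 : Finsupp.weight wt e = e 0 * wt 0 + e 1 * wt 1 := by
    rw [Finsupp.weight_apply, Finsupp.sum_fintype _ _ (by simp)]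
    simp [Fin.sum_univ_two]
  rw [h1, h2]
  simp only [homogDvdPhi, map_mul, map_pow, MvPolynomial.aeval_X, MvPolynomial.algHom_C]
  rw [IsScalarTower.algebraMap_apply κ (MvPolynomial (Fin 2) κ)
    (Polynomial (MvPolynomial (Fin 2) κ))]
  rw [MvPolynomial.algebraMap_eq, Polynomial.algebraMap_eq]
  ring

theorem homogDvd_coeff (κ : Type) [Field κ] (g : MvPolynomial (Fin 2) κ) (m : ℕ)
    (d : Fin 2 →₀ ℕ) :
    MvPolynomial.coeff d ((homogDvdPhi κ g).coeff m) =
      if Finsupp.weight wt d = m then MvPolynomial.coeff d g else 0 := by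
  induction g using MvPolynomial.induction_on' with
  | monomial e c =>
    rw [homogDvd_phi_monomial, Polynomial.coeff_C_mul, Polynomial.coeff_X_pow]
    by_cases hm : m = Finsupp.weight wt e
    · rw [if_pos hm, mul_one]
      by_cases hd : e = d
      · subst hd
        rw [if_pos hm.symm]
      · rw [MvPolynomial.coeff_monomial, if_neg hd]
        simp
    · rw [if_neg hm, mul_zero, MvPolynomial.coeff_zero]
      by_cases hd : e = d
      · subst hd
        rw [if_neg (fun h => hm h.symm)]
      · rw [MvPolynomial.coeff_monomial, if_neg hd]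
        simp
  | add p q hp hq =>
    rw [map_add, Polynomial.coeff_add, MvPolynomial.coeff_add, hp, hq, MvPolynomial.coeff_add]
    split_ifs <;> simp

theorem homogDvd_ne_zero (κ : Type) [Field κ] {g : MvPolynomial (Fin 2) κ} (hg : g ≠ 0) :
    homogDvdPhi κ g ≠ 0 := by
  intro h
  apply hg
  ext d
  have := homogDvd_coeff κ g (Finsupp.weight wt d) d
  rw [h] at this
  simpa using this.symm

theorem st_HomogDvd : St_HomogDvd := by
  intro κ _ W f g hf hf0 hgf
  obtain ⟨h, rfl⟩ := hgf
  have hg0 : g ≠ 0 := left_ne_zero_of_mul hf0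
  have hh0 : h ≠ 0 := right_ne_zero_of_mul hf0
  have hφ : homogDvdPhi κ (g * h) = Polynomial.monomial W (g * h) := by
    ext m d
    rw [homogDvd_coeff, Polynomial.coeff_monomial]
    by_cases hc : MvPolynomial.coeff d (g * h) = 0
    · rw [hc]
      split_ifs <;> simp [hc]
    · have hw := hf hc
      rw [hw]
      split_ifs <;> simp
  have hgφ := homogDvd_ne_zero κ hg0
  have hhφ := homogDvd_ne_zero κ hh0
  have hdeg : (homogDvdPhi κ g).natDegree + (homogDvdPhi κ h).natDegree = W := by
    rw [← Polynomial.natDegree_mul hgφ hhφ, ← map_mul, hφ,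
      Polynomial.natDegree_monomial_eq _ hf0]
  have htr : (homogDvdPhi κ g).natTrailingDegree + (homogDvdPhi κ h).natTrailingDegree = W := by
    rw [← Polynomial.natTrailingDegree_mul hgφ hhφ, ← map_mul, hφ,
      Polynomial.natTrailingDegree_monomial hf0]
  have h1 := Polynomial.natTrailingDegree_le_natDegree (homogDvdPhi κ g)
  have h2 := Polynomial.natTrailingDegree_le_natDegree (homogDvdPhi κ h)
  have h3 : (homogDvdPhi κ g).natTrailingDegree = (homogDvdPhi κ g).natDegree := by omega
  refine ⟨(homogDvdPhi κ g).natDegree, by omega, ?_⟩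
  intro d hd
  have h4 := homogDvd_coeff κ g (Finsupp.weight wt d) d
  rw [if_pos rfl] at h4
  have h5 : (homogDvdPhi κ g).coeff (Finsupp.weight wt d) ≠ 0 := by
    intro h0
    rw [h0, MvPolynomial.coeff_zero] at h4
    exact hd h4.symm
  have h6 := Polynomial.le_natDegree_of_ne_zero h5
  have h7 := Polynomial.natTrailingDegree_le_of_ne_zero h5
  omega

end Pool.Agent.D12
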