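import Pool.Agent.D12.Stmts

set_option autoImplicit false

/-!
# Lattices all of whose shells are spherical 12-designs: module HopCov
-/

namespace Pool.Agent.D12

open UpperHalfPlane hiding I
open Complex Matrix Derivative
open scoped BigOperators MatrixGroups Real Manifold ModularForm Topology

/-- the function `τ ↦ c τ + d` -/
private noncomputable def hcj (γ : SL(2, ℤ)) (τ : ℍ) : ℂ := denom γ τ

private theorem hc_hasDeriv (γ : SL(2, ℤ)) (τ : ℍ) :
    HasDerivAt (hcj γ ∘ ofComplex) ((γ 1 0 : ℤ) : ℂ) (τ : ℂ) := by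
  have h1 : HasDerivAt (fun z : ℂ => ((γ 1 0 : ℤ) : ℂ) * z + ((γ 1 1 : ℤ) : ℂ))
      ((γ 1 0 : ℤ) : ℂ) (τ : ℂ) := by
    simpa using (hasDerivAt_id (τ : ℂ)).const_mul ((γ 1 0 : ℤ) : ℂ) |>.add_const
      ((γ 1 1 : ℤ) : ℂ)
  refine h1.congr_of_eventuallyEq ?_
  filter_upwards [isOpen_upperHalfPlaneSet.mem_nhds τ.im_pos] with w hw
  simp only [Function.comp_apply, hcj]
  rw [ofComplex_apply_of_im_pos hw, ModularGroup.denom_apply]

private theorem hc_mdiff (γ : SL(2, ℤ)) : MDiff (hcj γ) := fun τ =>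
  UpperHalfPlane.mdifferentiableAt_iff.mpr (hc_hasDeriv γ τ).differentiableAt

private theorem hc_D (γ : SL(2, ℤ)) (τ : ℍ) :
    normalizedDerivOfComplex (hcj γ) τ = ((γ 1 0 : ℤ) : ℂ) / (2 * π * I) := by
  unfold normalizedDerivOfComplex
  rw [(hc_hasDeriv γ τ).deriv]
  field_simp

private theorem hc_ne (γ : SL(2, ℤ)) (τ : ℍ) : denom γ τ ≠ 0 := denom_ne_zero _ _

/-- chain rule -/
private theorem hc_chain (γ : SL(2, ℤ)) {f g r : ℍ → ℂ} (hf : MDiff f) (hg : MDiff g)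
    (hr : MDiff r) (h : ∀ τ : ℍ, f (γ • τ) = r τ * g τ) (τ : ℍ) :
    normalizedDerivOfComplex f (γ • τ) = denom γ τ ^ 2 *
      (normalizedDerivOfComplex r τ * g τ + r τ * normalizedDerivOfComplex g τ) := by
  have h1 := congrFun (normalizedDerivOfComplex_SL_slash (k := 0) hf (γ := γ)) τ
  have h2 : (f ∣[(0 : ℤ)] γ) = r * g := by
    ext z
    rw [ModularForm.SL_slash_apply, h z, neg_zero, zpow_zero, mul_one]
    rfl
  rw [h2, normalizedDerivOfComplex_mul r g hr hg] at h1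
  simp only [Pi.sub_apply, ModularForm.SL_slash_apply, Pi.add_apply, Pi.mul_apply, Int.cast_zero,
    zero_mul, sub_zero] at h1
  have h3 := hc_ne γ τ
  rw [h1]
  have h4 : (denom γ τ) ^ (-((0 : ℤ) + 2)) = (denom γ τ ^ 2)⁻¹ := by
    rw [show -((0 : ℤ) + 2) = -((2 : ℕ) : ℤ) by norm_num, _root_.zpow_neg, zpow_natCast]
  rw [h4]
  field_simp

private theorem hc_E2 (γ : SL(2, ℤ)) (τ : ℍ) :
    EisensteinSeries.E2 (γ • τ) = denom γ τ ^ 2 * (EisensteinSeries.E2 τ +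
      12 * (((γ 1 0 : ℤ) : ℂ) / (2 * π * I * denom γ τ))) := by
  have h1 := congrFun (EisensteinSeries.E2_slash_action γ) τ
  rw [ModularForm.SL_slash_apply] at h1
  have h3 := hc_ne γ τ
  have h4 : (denom γ τ) ^ (-(2 : ℤ)) = (denom γ τ ^ 2)⁻¹ := by
    rw [show -(2 : ℤ) = -((2 : ℕ) : ℤ) by norm_num, _root_.zpow_neg, zpow_natCast]
  rw [h4] at h1
  have h5 : EisensteinSeries.E2 (γ • τ) = denom γ τ ^ 2 *
      (EisensteinSeries.E2 (γ • τ) * (denom γ τ ^ 2)⁻¹) := by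
    field_simp
  rw [h5, h1]
  simp only [Pi.sub_apply, Pi.smul_apply, EisensteinSeries.D2, smul_eq_mul, riemannZeta_two]
  congr 2
  have hpi : (π : ℂ) ≠ 0 := by exact_mod_cast Real.pi_ne_zero
  have hI := I_ne_zero
  field_simp
  ring_nf
  simp only [I_sq]
  ring

private theorem hc_serre (γ : SL(2, ℤ)) (m : ℂ) {f g r : ℍ → ℂ} (hf : MDiff f) (hg : MDiff g)
    (hr : MDiff r) (hD : ∀ τ : ℍ, normalizedDerivOfComplex r τ =
      m * (((γ 1 0 : ℤ) : ℂ) / (2 * π * I * denom γ τ)) * r τ)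
    (h : ∀ τ : ℍ, f (γ • τ) = r τ * g τ) (τ : ℍ) :
    serreDerivative m f (γ • τ) = r τ * denom γ τ ^ 2 * serreDerivative m g τ := by
  rw [serreDerivative_apply, serreDerivative_apply, hc_chain γ hf hg hr h τ, hD τ, hc_E2 γ τ, h τ]
  ring

private theorem hc_mdiff_hop (k : ℂ) {φ : ℍ → ℂ} (hφ : MDiff φ) (i : ℕ) :
    MDiff (Hop k i φ) ∧ MDiff (Hop k (i + 1) φ) := by
  induction i with
  | zero =>
    refine ⟨hφ, ?_⟩
    have : MDiff (fun τ => -(12 / k) * serreDerivative k φ τ) :=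
      mdifferentiable_const.mul (serreDerivative_mdifferentiable k hφ)
    exact this
  | succ i ih =>
    refine ⟨ih.2, ?_⟩
    have hE : MDiff (ModularForm.E₄ : ℍ → ℂ) := ModularForm.E₄.holo'
    have h1 := serreDerivative_mdifferentiable (k + 2 * (i + 1)) ih.2
    have h2 : MDiff (fun τ => (((i : ℂ) + 1) / 12) * (ModularForm.E₄ : ℍ → ℂ) τ * Hop k i φ τ) :=
      (mdifferentiable_const.mul hE).mul ih.1
    have h3 : MDiff (fun τ => -(12 / (k + (i + 1))) *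
      (serreDerivative (k + 2 * (i + 1)) (Hop k (i + 1) φ) τ +
        (((i : ℂ) + 1) / 12) * (ModularForm.E₄ : ℍ → ℂ) τ * Hop k i φ τ)) :=
      mdifferentiable_const.mul (h1.add h2)
    exact h3

private theorem hc_E4 (γ : SL(2, ℤ)) (τ : ℍ) :
    (ModularForm.E₄ : ℍ → ℂ) (γ • τ) = denom γ τ ^ 4 * (ModularForm.E₄ : ℍ → ℂ) τ := by
  have h1 := SlashInvariantForm.slash_action_eqn'' (Γ := 𝒮ℒ) ModularForm.E₄
    (γ := (γ : GL (Fin 2) ℝ)) ⟨γ, rfl⟩ τ
  have h2 : (denom γ τ) ^ (4 : ℤ) = denom γ τ ^ 4 := by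
    rw [show (4 : ℤ) = ((4 : ℕ) : ℤ) by norm_num, zpow_natCast]
  rw [h2] at h1
  exact h1

theorem st_HopCov : St_HopCov := by
  intro k γ φ ψ ρ hφ hψ hρ hD h
  have key : ∀ i : ℕ, (∀ τ : ℍ, Hop k i φ (γ • τ) = ρ τ * denom γ τ ^ (2 * i) * Hop k i ψ τ) ∧
      ∀ τ : ℍ, Hop k (i + 1) φ (γ • τ) = ρ τ * denom γ τ ^ (2 * (i + 1)) * Hop k (i + 1) ψ τ := by
    intro i
    induction i with
    | zero =>
      constructor
      · intro τ
        have := h τ
        change φ (γ • τ) = ρ τ * denom γ τ ^ (2 * 0) * ψ τ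
        rw [this]
        ring
      · intro τ
        change -(12 / k) * serreDerivative k φ (γ • τ) =
          ρ τ * denom γ τ ^ (2 * (0 + 1)) * (-(12 / k) * serreDerivative k ψ τ)
        rw [hc_serre γ k hφ hψ hρ hD h τ]
        ring
    | succ i ih =>
      refine ⟨ih.2, ?_⟩
      intro τ
      have hr : MDiff (ρ * (hcj γ) ^ (2 * (i + 1))) := hρ.mul ((hc_mdiff γ).pow _)
      have hD' : ∀ τ : ℍ, normalizedDerivOfComplex (ρ * (hcj γ) ^ (2 * (i + 1))) τ =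
          (k + 2 * (i + 1)) * (((γ 1 0 : ℤ) : ℂ) / (2 * π * I * denom γ τ)) *
            (ρ * (hcj γ) ^ (2 * (i + 1))) τ := by
        intro τ
        rw [normalizedDerivOfComplex_mul _ _ hρ ((hc_mdiff γ).pow _),
          normalizedDerivOfComplex_pow _ _ (hc_mdiff γ)]
        simp only [Pi.add_apply, Pi.mul_apply, Pi.pow_apply, hc_D, hD τ]
        have h3 : hcj γ τ ≠ 0 := hc_ne γ τ
        change _ = (k + 2 * (i + 1)) * (((γ 1 0 : ℤ) : ℂ) / (2 * π * I * hcj γ τ)) * _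
        change k * (((γ 1 0 : ℤ) : ℂ) / (2 * π * I * hcj γ τ)) * ρ τ * hcj γ τ ^ (2 * (i + 1)) +
          _ = _
        have h5 : hcj γ τ ^ (2 * (i + 1)) = hcj γ τ ^ (2 * (i + 1) - 1) * hcj γ τ := by
          rw [← pow_succ]
          congr 1

        have h6 : ((2 * (i + 1) : ℕ) : ℍ → ℂ) τ = 2 * ((i : ℂ) + 1) := by
          simp
        rw [h5, h6]
        have hpi : (π : ℂ) ≠ 0 := by exact_mod_cast Real.pi_ne_zero
        have hI := I_ne_zero
        field_simp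
      have h1 := hc_serre γ (k + 2 * (i + 1)) (hc_mdiff_hop k hφ i).2 (hc_mdiff_hop k hψ i).2
        hr hD' (fun τ => ih.2 τ) τ
      change -(12 / (k + (i + 1))) *
        (serreDerivative (k + 2 * (i + 1)) (Hop k (i + 1) φ) (γ • τ) +
        (((i : ℂ) + 1) / 12) * (ModularForm.E₄ : ℍ → ℂ) (γ • τ) * Hop k i φ (γ • τ)) =
        ρ τ * denom γ τ ^ (2 * (i + 1 + 1)) * (-(12 / (k + (i + 1))) *
        (serreDerivative (k + 2 * (i + 1)) (Hop k (i + 1) ψ) τ +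
        (((i : ℂ) + 1) / 12) * (ModularForm.E₄ : ℍ → ℂ) τ * Hop k i ψ τ))
      rw [h1, hc_E4, ih.1 τ]
      change -(12 / (k + (i + 1))) * (ρ τ * denom γ τ ^ (2 * (i + 1)) * denom γ τ ^ 2 * _ + _) = _
      ring
  intro i τ
  exact (key i).1 τ

end Pool.Agent.D12
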