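import Pool.Agent.D12.Stmts

set_option autoImplicit false

/-!
# Lattices all of whose shells are spherical 12-designs: module HopEst
-/

namespace Pool.Agent.D12

open UpperHalfPlane hiding I
open Complex Matrix Derivative
open scoped BigOperators MatrixGroups Real Manifold ModularForm

theorem hopest_int_le (A : ValuationSubring ℂ) (a : ℤ) : A.valuation (a : ℂ) ≤ 1 := by
  rw [ValuationSubring.valuation_le_one_iff]
  exact intCast_mem A a

theorem hopest_unit (A : ValuationSubring ℂ) (p : ℕ) (hp : p.Prime) (hv : A.valuation (p : ℂ) < 1)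
    (a : ℤ) (ha : ¬ (p : ℤ) ∣ a) : A.valuation (a : ℂ) = 1 := by
  refine le_antisymm (hopest_int_le A a) ?_
  by_contra hlt
  push Not at hlt
  have hc : IsCoprime (p : ℤ) a :=
    (Nat.prime_iff_prime_int.mp hp).coprime_iff_not_dvd.mpr ha
  obtain ⟨x, y, hxy⟩ := hc
  have h1 : A.valuation ((x : ℂ) * p + y * a) = 1 := by
    have : ((x : ℂ) * p + y * a) = 1 := by exact_mod_cast hxy
    rw [this, map_one]
  have h2 : A.valuation ((x : ℂ) * p + y * a) < 1 := by
    apply Valuation.map_add_lt
    · rw [map_mul]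
      exact lt_of_le_of_lt (mul_le_of_le_one_left' (hopest_int_le A x)) hv
    · rw [map_mul]
      exact lt_of_le_of_lt (mul_le_of_le_one_left' (hopest_int_le A y)) hlt
  exact absurd h1 h2.ne

theorem hopest_dN_add (N : ℕ) (a b : PowerSeries ℂ) : dN N (a + b) = dN N a + dN N b := by
  ext k
  simp only [dN, PowerSeries.coeff_mk, map_add]
  ring

theorem hopest_dN_C_mul (N : ℕ) (c : ℂ) (a : PowerSeries ℂ) :
    dN N (PowerSeries.C c * a) = PowerSeries.C c * dN N a := by
  ext k
  simp only [dN, PowerSeries.coeff_mk, PowerSeries.coeff_C_mul]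
  ring

theorem hopest_dN_mul (N : ℕ) (a b : PowerSeries ℂ) :
    dN N (a * b) = dN N a * b + a * dN N b := by
  ext k
  simp only [dN, PowerSeries.coeff_mk, map_add, PowerSeries.coeff_mul]
  rw [Finset.mul_sum, ← Finset.sum_add_distrib]
  refine Finset.sum_congr rfl fun q hq => ?_
  have : (k : ℂ) = (q.1 : ℂ) + (q.2 : ℂ) := by
    rw [← Finset.HasAntidiagonal.mem_antidiagonal.mp hq]; push_cast; rfl
  rw [this]
  ring

theorem hopest_dN_pow (N : ℕ) (a : PowerSeries ℂ) (i : ℕ) :
    dN N (a ^ (i + 1)) = PowerSeries.C ((i : ℂ) + 1) * a ^ i * dN N a := by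
  induction i with
  | zero => simp
  | succ i ih =>
    rw [pow_succ, hopest_dN_mul, ih]
    have : PowerSeries.C (((i + 1 : ℕ) : ℂ) + 1) = PowerSeries.C ((i : ℂ) + 1) + 1 := by
      rw [← map_one (PowerSeries.C (R := ℂ)), ← map_add]; push_cast; rfl
    rw [this]
    ring

theorem hopest_dN_ex (N : ℕ) (hN : 0 < N) (b : PowerSeries ℂ) :
    dN N (ex N b) = ex N (thd b) := by
  ext k
  simp only [dN, ex, thd, PowerSeries.coeff_mk]
  split_ifs with h
  · obtain ⟨m, rfl⟩ := h
    rw [Nat.mul_div_cancel_left m hN]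
    have : (N : ℂ) ≠ 0 := by exact_mod_cast hN.ne'
    push_cast
    field_simp
  · ring

/-- series in `q = q_N^N` with coefficients in `A` -/
def HEr (A : ValuationSubring ℂ) (N : ℕ) (s : PowerSeries ℂ) : Prop :=
  ∃ b : PowerSeries ℂ, (∀ k, A.valuation (PowerSeries.coeff k b) ≤ 1) ∧ s = ex N b

theorem hopest_r_add (hX : St_Ex) (A : ValuationSubring ℂ) (N : ℕ) (hN : 0 < N)
    (s t : PowerSeries ℂ) (hs : HEr A N s) (ht : HEr A N t) : HEr A N (s + t) := by
  obtain ⟨b, hb, rfl⟩ := hs
  obtain ⟨c, hc, rfl⟩ := ht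
  refine ⟨b + c, fun k => ?_, ((hX ℂ N hN).2.1 b c).symm⟩
  rw [map_add]
  exact (Valuation.map_add _ _ _).trans (max_le (hb k) (hc k))

theorem hopest_r_mul (hX : St_Ex) (A : ValuationSubring ℂ) (N : ℕ) (hN : 0 < N)
    (s t : PowerSeries ℂ) (hs : HEr A N s) (ht : HEr A N t) : HEr A N (s * t) := by
  obtain ⟨b, hb, rfl⟩ := hs
  obtain ⟨c, hc, rfl⟩ := ht
  refine ⟨b * c, fun k => ?_, ((hX ℂ N hN).2.2 b c).symm⟩
  rw [PowerSeries.coeff_mul]
  refine Valuation.map_sum_le _ fun q _ => ?_
  rw [map_mul]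
  exact mul_le_one' (hb _) (hc _)

theorem hopest_r_C (A : ValuationSubring ℂ) (N : ℕ) (hN : 0 < N)
    (c : ℂ) (hc : A.valuation c ≤ 1) : HEr A N (PowerSeries.C c) := by
  refine ⟨PowerSeries.C c, fun k => ?_, ?_⟩
  · rw [PowerSeries.coeff_C]
    split_ifs
    · exact hc
    · simp
  · ext k
    simp only [ex, PowerSeries.coeff_mk, PowerSeries.coeff_C]
    by_cases h : k = 0
    · subst h; simp
    · rw [if_neg h]
      split_ifs with h1 h2
      · exfalso
        obtain ⟨m, rfl⟩ := h1
        rw [Nat.mul_div_cancel_left m hN] at h2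
        subst h2
        simp at h
      · rfl
      · rfl

theorem hopest_r_dN (A : ValuationSubring ℂ) (N : ℕ) (hN : 0 < N)
    (s : PowerSeries ℂ) (hs : HEr A N s) : HEr A N (dN N s) := by
  obtain ⟨b, hb, rfl⟩ := hs
  refine ⟨thd b, fun k => ?_, hopest_dN_ex N hN b⟩
  rw [thd, PowerSeries.coeff_mk, map_mul]
  have := hopest_int_le A k
  rw [Int.cast_natCast] at this
  exact mul_le_one' this (hb k)

theorem hopest_r_map (A : ValuationSubring ℂ) (N : ℕ) (b : PowerSeries ℤ) :
    HEr A N (ex N (b.map (Int.castRingHom ℂ))) := by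
  refine ⟨_, fun k => ?_, rfl⟩
  rw [PowerSeries.coeff_map]
  exact hopest_int_le A _

/-- combinations of the derivatives `D^{r+1} a`, `r < i` -/
def HEm (A : ValuationSubring ℂ) (N : ℕ) (a : PowerSeries ℂ) (i : ℕ) (s : PowerSeries ℂ) : Prop :=
  ∃ Q : ℕ → PowerSeries ℂ, (∀ r, HEr A N (Q r)) ∧
    s = ∑ r ∈ Finset.range i, Q r * (dN N)^[r + 1] a

theorem hopest_r_zero (A : ValuationSubring ℂ) (N : ℕ) (hN : 0 < N) : HEr A N 0 := by
  have := hopest_r_C A N hN 0 (by simp)
  rwa [map_zero] at this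

theorem hopest_m_mono (A : ValuationSubring ℂ) (N : ℕ) (hN : 0 < N) (a : PowerSeries ℂ)
    (i : ℕ) (s : PowerSeries ℂ) (hs : HEm A N a i s) : HEm A N a (i + 1) s := by
  obtain ⟨Q, hQ, rfl⟩ := hs
  refine ⟨fun r => if r < i then Q r else 0, fun r => ?_, ?_⟩
  · show HEr A N (if r < i then Q r else 0)
    split_ifs
    · exact hQ r
    · exact hopest_r_zero A N hN
  · rw [Finset.sum_range_succ]
    simp only [lt_irrefl, if_false, zero_mul, add_zero]
    refine Finset.sum_congr rfl fun r hr => ?_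
    rw [if_pos (Finset.mem_range.mp hr)]

theorem hopest_m_add (hX : St_Ex) (A : ValuationSubring ℂ) (N : ℕ) (hN : 0 < N)
    (a : PowerSeries ℂ)
    (i : ℕ) (s t : PowerSeries ℂ) (hs : HEm A N a i s) (ht : HEm A N a i t) :
    HEm A N a i (s + t) := by
  obtain ⟨Q, hQ, rfl⟩ := hs
  obtain ⟨R, hR, rfl⟩ := ht
  refine ⟨fun r => Q r + R r, fun r => hopest_r_add hX A N hN _ _ (hQ r) (hR r), ?_⟩
  rw [← Finset.sum_add_distrib]
  exact Finset.sum_congr rfl fun r _ => by ring

theorem hopest_m_mul (hX : St_Ex) (A : ValuationSubring ℂ) (N : ℕ) (hN : 0 < N)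
    (a : PowerSeries ℂ)
    (i : ℕ) (c s : PowerSeries ℂ) (hc : HEr A N c) (hs : HEm A N a i s) :
    HEm A N a i (c * s) := by
  obtain ⟨Q, hQ, rfl⟩ := hs
  refine ⟨fun r => c * Q r, fun r => hopest_r_mul hX A N hN _ _ hc (hQ r), ?_⟩
  rw [Finset.mul_sum]
  exact Finset.sum_congr rfl fun r _ => by ring

theorem hopest_dN_sum (N : ℕ) (i : ℕ) (f : ℕ → PowerSeries ℂ) :
    dN N (∑ r ∈ Finset.range i, f r) = ∑ r ∈ Finset.range i, dN N (f r) := by
  induction i with
  | zero => ext k; simp [dN]
  | succ i ih => rw [Finset.sum_range_succ, Finset.sum_range_succ, hopest_dN_add, ih]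

theorem hopest_m_dN (hX : St_Ex) (A : ValuationSubring ℂ) (N : ℕ) (hN : 0 < N)
    (a : PowerSeries ℂ)
    (i : ℕ) (s : PowerSeries ℂ) (hs : HEm A N a i s) :
    HEm A N a (i + 1) (dN N s) := by
  obtain ⟨Q, hQ, rfl⟩ := hs
  have h : dN N (∑ r ∈ Finset.range i, Q r * (dN N)^[r + 1] a) =
      (∑ r ∈ Finset.range i, dN N (Q r) * (dN N)^[r + 1] a) +
      ∑ r ∈ Finset.range i, Q r * (dN N)^[r + 2] a := by
    rw [hopest_dN_sum, ← Finset.sum_add_distrib]
    refine Finset.sum_congr rfl fun r _ => ?_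
    rw [hopest_dN_mul, ← Function.iterate_succ_apply' (dN N) (r + 1) a]
  rw [h]
  refine hopest_m_add hX A N hN a (i + 1) _ _ ?_ ?_
  · exact hopest_m_mono A N hN a i _ ⟨fun r => dN N (Q r),
      fun r => hopest_r_dN A N hN _ (hQ r), rfl⟩
  · refine ⟨fun r => if r = 0 then 0 else Q (r - 1), fun r => ?_, ?_⟩
    · show HEr A N (if r = 0 then 0 else Q (r - 1))
      split_ifs
      · exact hopest_r_zero A N hN
      · exact hQ _
    · rw [Finset.sum_range_succ']
      simp

theorem hopest_m_D (A : ValuationSubring ℂ) (N : ℕ) (hN : 0 < N)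
    (a : PowerSeries ℂ) (i : ℕ) (c : PowerSeries ℂ) (hc : HEr A N c) :
    HEm A N a (i + 1) (c * dN N a) := by
  refine ⟨fun r => if r = 0 then c else 0, fun r => ?_, ?_⟩
  · show HEr A N (if r = 0 then c else 0)
    split_ifs
    · exact hc
    · exact hopest_r_zero A N hN
  · rw [Finset.sum_range_succ']
    simp

theorem st_HopEst (h2 : St_Raman2) (hX : St_Ex) : St_HopEst := by
  intro p hp hp5 A hv N n j hN hhalf M a haM hapM
  set E : PowerSeries ℂ := ex N (E2R ℂ) with hE
  set E4 : PowerSeries ℂ := ex N (E4R ℂ) with hE4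
  have hEr : HEr A N E := hopest_r_map A N e2s
  have hE4r : HEr A N E4 := hopest_r_map A N e4s
  have hEp : ∀ i, HEr A N (E ^ i) := by
    intro i
    induction i with
    | zero =>
      rw [pow_zero]
      have := hopest_r_C A N hN 1 (by simp)
      rwa [map_one] at this
    | succ i ih => rw [pow_succ]; exact hopest_r_mul hX A N hN _ _ ih hEr
  -- `12 D E = E^2 - E4`
  have hDE : PowerSeries.C 12 * dN N E = E ^ 2 - E4 := by
    have h3 : 12 * thd (E2R ℂ) = E2R ℂ ^ 2 - E4R ℂ := by
      have := congrArg (PowerSeries.map (Int.castRingHom ℂ)) h2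
      rw [map_mul, map_sub, map_pow] at this
      have h4 : PowerSeries.map (Int.castRingHom ℂ) (thd e2s) = thd (E2R ℂ) := by
        ext k
        simp [thd, E2R]
      rw [h4] at this
      have h12 : PowerSeries.map (Int.castRingHom ℂ) 12 = 12 := map_ofNat _ 12
      rw [h12] at this
      exact this
    have h5 := (hX ℂ N hN)
    have h6 : ex N (12 * thd (E2R ℂ)) = PowerSeries.C 12 * ex N (thd (E2R ℂ)) := by
      ext k
      have h12 : (12 : PowerSeries ℂ) = PowerSeries.C 12 := (map_ofNat PowerSeries.C 12).symm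
      rw [h12]
      simp only [ex, PowerSeries.coeff_mk, PowerSeries.coeff_C_mul]
      split_ifs <;> simp
    have h7 : ex N (E2R ℂ ^ 2 - E4R ℂ) = E ^ 2 - E4 := by
      have h8 : ex N (E2R ℂ ^ 2) = ex N (E2R ℂ ^ 2 - E4R ℂ) + ex N (E4R ℂ) := by
        rw [← h5.2.1, sub_add_cancel]
      have h9 : ex N (E2R ℂ ^ 2) = ex N (E2R ℂ) ^ 2 := by rw [pow_two, h5.2.2, pow_two]
      rw [hE, hE4, ← h9, h8, add_sub_cancel_right]
    rw [hE, hopest_dN_ex N hN, ← h6, h3, h7]
  -- constants
  have h12v : A.valuation (12 : ℂ) = 1 := by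
    have := hopest_unit A p hp hv 12 (by
      intro h
      have h' : p ∣ 12 := by exact_mod_cast h
      have h'' : p ∣ 2 ^ 2 * 3 := by norm_num; exact h'
      rcases (Nat.Prime.dvd_mul hp).mp h'' with h3 | h3
      · have := Nat.le_of_dvd (by norm_num) (hp.dvd_of_dvd_pow h3)
        omega
      · have := Nat.le_of_dvd (by norm_num) h3
        omega)
    simpa using this
  have h2v : A.valuation (2 : ℂ) = 1 := by
    have := hopest_unit A p hp hv 2 (by
      intro h
      have h' : p ∣ 2 := by exact_mod_cast h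
      have := Nat.le_of_dvd (by norm_num) h'
      omega)
    simpa using this
  set k : ℂ := (n : ℂ) / 2 with hk
  have hnat : ∀ m : ℕ, A.valuation (m : ℂ) ≤ 1 := fun m => by
    have := hopest_int_le A m
    rwa [Int.cast_natCast] at this
  have hkv : A.valuation k ≤ 1 := by
    rw [hk, map_div₀, h2v, div_one]; exact hnat n
  have hCr : ∀ c : ℂ, A.valuation c ≤ 1 → HEr A N (PowerSeries.C c) :=
    fun c hc => hopest_r_C A N hN c hc
  have key : ∀ i : ℕ, (i ≤ j → HEm A N a i (HopS N k i a - E ^ i * a)) ∧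
      (i + 1 ≤ j → HEm A N a (i + 1) (HopS N k (i + 1) a - E ^ (i + 1) * a)) := by
    intro i
    induction i with
    | zero =>
      constructor
      · intro _
        refine ⟨fun _ => 0, fun _ => hopest_r_zero A N hN, ?_⟩
        simp [HopS]
      · intro hj
        have hk1 : A.valuation k = 1 := by
          have := hhalf 0 (by omega)
          simpa using this
        have hk0 : k ≠ 0 := by
          intro h; rw [h, map_zero] at hk1; exact zero_ne_one hk1
        have heq : HopS N k (0 + 1) a - E ^ (0 + 1) * a =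
            PowerSeries.C (-(12 / k)) * dN N a := by
          have : PowerSeries.C (-(12 / k)) * PowerSeries.C (k / 12) = -1 := by
            rw [← map_mul, ← map_one (PowerSeries.C (R := ℂ)), ← map_neg]
            congr 1
            field_simp
          simp only [HopS, zero_add, pow_one, ← hE]
          linear_combination (-(E * a)) * this
        rw [heq]
        refine hopest_m_D A N hN a 0 _ (hCr _ ?_)
        rw [Valuation.map_neg, map_div₀, hk1, h12v, div_one]
    | succ i ih =>
      refine ⟨ih.2, fun hj => ?_⟩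
      have hki : A.valuation (k + (i + 1)) = 1 := by
        have := hhalf (i + 1) (by omega)
        push_cast at this
        exact this
      have hk0 : k + (i + 1) ≠ 0 := by
        intro h; rw [h, map_zero] at hki; exact zero_ne_one hki
      have m1 := ih.1 (by omega)
      have m2 := ih.2 (by omega)
      set s1 := HopS N k i a - E ^ i * a with hs1
      set s2 := HopS N k (i + 1) a - E ^ (i + 1) * a with hs2
      have e1 : HopS N k i a = E ^ i * a + s1 := by rw [hs1]; ring
      have e2 : HopS N k (i + 1) a = E ^ (i + 1) * a + s2 := by rw [hs2]; ring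
      have heq : HopS N k (i + 1 + 1) a - E ^ (i + 1 + 1) * a =
          PowerSeries.C (-(12 / (k + (i + 1)))) * (E ^ (i + 1) * dN N a + dN N s2 +
            (PowerSeries.C (-((k + 2 * (i + 1)) / 12)) * (E * s2) +
            PowerSeries.C (((i : ℂ) + 1) / 12) * (E4 * s1))) := by
        have hstep : HopS N k (i + 1 + 1) a = PowerSeries.C (-(12 / (k + (i + 1)))) *
          (dN N (HopS N k (i + 1) a) -
            PowerSeries.C ((k + 2 * (i + 1)) / 12) * E * HopS N k (i + 1) a +
            PowerSeries.C (((i : ℂ) + 1) / 12) * E4 * HopS N k i a) := rfl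
        rw [hstep, e1, e2, hopest_dN_add, hopest_dN_mul, hopest_dN_pow, map_neg (PowerSeries.C)
          ((k + 2 * (i + 1)) / 12)]
        have c1 : PowerSeries.C (-(12 / (k + (i + 1)))) *
            PowerSeries.C ((k + (i + 1)) / 12) = -1 := by
          rw [← map_mul, ← map_one (PowerSeries.C (R := ℂ)), ← map_neg]
          congr 1
          field_simp
        have c2 : PowerSeries.C ((i : ℂ) + 1) = PowerSeries.C (((i : ℂ) + 1) / 12) *
            PowerSeries.C 12 := by
          rw [← map_mul]; congr 1; field_simp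
        have c3 : PowerSeries.C ((k + 2 * (i + 1)) / 12) =
            PowerSeries.C ((k + (i + 1)) / 12) + PowerSeries.C (((i : ℂ) + 1) / 12) := by
          rw [← map_add]; congr 1; ring
        rw [c2, c3]
        have hp : E ^ (i + 1) = E ^ i * E := pow_succ _ _
        have hp2 : E ^ (i + 1 + 1) = E ^ i * E ^ 2 := by rw [pow_succ, pow_succ]; ring
        rw [hp2, hp]
        linear_combination (PowerSeries.C (-(12 / (k + (i + 1)))) *
          PowerSeries.C (((i : ℂ) + 1) / 12) * E ^ i * a) * hDE - (E ^ i * E ^ 2 * a) * c1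
      rw [heq]
      have hc1 : A.valuation (-(12 / (k + (i + 1)))) ≤ 1 := by
        rw [Valuation.map_neg, map_div₀, hki, h12v, div_one]
      have hi1 : A.valuation ((i : ℂ) + 1) ≤ 1 := by
        have := hnat (i + 1)
        push_cast at this
        exact this
      have hc2 : A.valuation (-((k + 2 * (i + 1)) / 12)) ≤ 1 := by
        rw [Valuation.map_neg, map_div₀, h12v, div_one]
        refine (Valuation.map_add _ _ _).trans (max_le hkv ?_)
        rw [map_mul, h2v, one_mul]
        exact hi1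
      have hc3 : A.valuation (((i : ℂ) + 1) / 12) ≤ 1 := by
        rw [map_div₀, h12v, div_one]; exact hi1
      refine hopest_m_mul hX A N hN a _ _ _ (hCr _ hc1) ?_
      refine hopest_m_add hX A N hN a _ _ _ (hopest_m_add hX A N hN a _ _ _ ?_ ?_)
        (hopest_m_add hX A N hN a _ _ _ ?_ ?_)
      · exact hopest_m_D A N hN a (i + 1) _ (hEp _)
      · exact hopest_m_dN hX A N hN a (i + 1) _ m2
      · exact hopest_m_mono A N hN a _ _ (hopest_m_mul hX A N hN a _ _ _ (hCr _ hc2)
          (hopest_m_mul hX A N hN a _ _ _ hEr m2))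
      · exact hopest_m_mono A N hN a _ _ (hopest_m_mono A N hN a _ _
          (hopest_m_mul hX A N hN a _ _ _ (hCr _ hc3)
          (hopest_m_mul hX A N hN a _ _ _ hE4r m1)))
  obtain ⟨Q, hQ, hs⟩ := (key j).1 le_rfl
  intro m
  rw [hs, map_sum]
  refine Valuation.map_sum_le _ fun r hr => ?_
  obtain ⟨b, hb, hbe⟩ := hQ r
  rw [PowerSeries.coeff_mul]
  refine Valuation.map_sum_le _ fun q _ => ?_
  rw [map_mul]
  have h1 : A.valuation (PowerSeries.coeff q.1 (Q r)) ≤ 1 := by
    rw [hbe, ex, PowerSeries.coeff_mk]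
    split_ifs
    · exact hb _
    · simp
  have h2 : A.valuation (PowerSeries.coeff q.2 ((dN N)^[r + 1] a)) ≤ A.valuation (p : ℂ) * M := by
    have hit : ∀ s : ℕ, ∀ t : ℕ, PowerSeries.coeff t ((dN N)^[s] a) =
        ((t : ℂ) / N) ^ s * PowerSeries.coeff t a := by
      intro s
      induction s with
      | zero => intro t; simp
      | succ s ihs =>
        intro t
        rw [Function.iterate_succ_apply', dN, PowerSeries.coeff_mk, ihs, pow_succ]
        ring
    rw [hit]
    exact hapM (r + 1) (by omega) (by have := Finset.mem_range.mp hr; omega) _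
  calc _ ≤ 1 * (A.valuation (p : ℂ) * M) := mul_le_mul' h1 h2
    _ = _ := one_mul _

end Pool.Agent.D12
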