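import Pool.Agent.D12.Stmts

set_option autoImplicit false

/-!
# Lattices all of whose shells are spherical 12-designs: module HopQ
-/

namespace Pool.Agent.D12

open UpperHalfPlane hiding I
open Complex Matrix Derivative
open scoped BigOperators MatrixGroups Real Manifold ModularForm

theorem hopq_ext (N : ℕ) (φ ψ : ℍ → ℂ) (a b : PowerSeries ℂ) (h : HasQ N φ a) (h1 : ψ = φ)
    (h2 : b = a) : HasQ N ψ b := by rw [h1, h2]; exact h

/-- the expansion of the Serre derivative -/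
theorem hopq_serre (hQ : QAlg) (hA : QAna) (hE : St_EisQ) (N : ℕ) (hN : 0 < N) (k : ℂ)
    (φ : ℍ → ℂ) (a : PowerSeries ℂ) (h : HasQ N φ a) :
    HasQ N (serreDerivative k φ)
      (dN N a - PowerSeries.C (k / 12) * ex N (E2R ℂ) * a) := by
  have h2 := hQ.expand N hN _ _ hE.1
  have hd := hA.deriv N hN _ _ h
  have h3 := hQ.smul N (-(k / 12)) _ _ (hQ.mul N hN _ _ _ _ h2 h)
  refine hopq_ext N _ _ _ _ (hQ.add N _ _ _ _ hd h3) ?_ ?_
  · funext τ
    simp only [serreDerivative, Pi.add_apply, Pi.smul_apply, Pi.mul_apply, smul_eq_mul]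
    ring
  · rw [map_neg]; ring

theorem st_HopQ (hQ : QAlg) (hA : QAna) (hE : St_EisQ) : St_HopQ := by
  intro N hN k φ a h
  have h4 : HasQ N (ModularForm.E₄ : ℍ → ℂ) (ex N (E4R ℂ)) := by
    have := hQ.expand N hN _ _ (hQ.ofForm 4 ModularForm.E₄)
    rw [hE.2.1] at this
    exact this
  have key : ∀ i : ℕ, HasQ N (Hop k i φ) (HopS N k i a) ∧
      HasQ N (Hop k (i + 1) φ) (HopS N k (i + 1) a) := by
    intro i
    induction i with
    | zero =>
      refine ⟨h, ?_⟩
      refine hopq_ext N _ _ _ _ (hQ.smul N (-(12 / k)) _ _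
        (hopq_serre hQ hA hE N hN k φ a h)) ?_ ?_
      · rfl
      · rfl
    | succ i ih =>
      refine ⟨ih.2, ?_⟩
      have h1 := hopq_serre hQ hA hE N hN (k + 2 * (i + 1)) _ _ ih.2
      have h2 := hQ.smul N (((i : ℂ) + 1) / 12) _ _ (hQ.mul N hN _ _ _ _ h4 ih.1)
      refine hopq_ext N _ _ _ _ (hQ.smul N (-(12 / (k + (i + 1)))) _ _
        (hQ.add N _ _ _ _ h1 h2)) ?_ ?_
      · funext τ
        simp only [Hop, Pi.add_apply, Pi.smul_apply, Pi.mul_apply, smul_eq_mul]
        ring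
      · rw [HopS]; ring
  exact fun i => (key i).1

end Pool.Agent.D12
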