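import Pool.Agent.D12.Stmts

set_option autoImplicit false

/-!
# Lattices all of whose shells are spherical 12-designs: module Inj
-/

namespace Pool.Agent.D12

open scoped BigOperators ArithmeticFunction.sigma

/-- a power series with constant term one, other than one, is transcendental -/
theorem inj_trans {κ : Type} [Field κ] (t : PowerSeries κ) (ht : PowerSeries.constantCoeff t = 1)
    (ht1 : t ≠ 1) : ∀ (n : ℕ) (G : Polynomial κ), G.natDegree ≤ n →
      Polynomial.aeval t G = 0 → G = 0 := by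
  intro n
  induction n with
  | zero =>
    intro G hG h
    rw [Polynomial.eq_C_of_natDegree_le_zero hG, Polynomial.aeval_C] at h
    rw [Polynomial.eq_C_of_natDegree_le_zero hG]
    have h1 : G.coeff 0 = 0 := by
      have h2 : algebraMap κ (PowerSeries κ) (G.coeff 0) = algebraMap κ (PowerSeries κ) 0 := by
        rw [h, map_zero]
      exact (algebraMap κ (PowerSeries κ)).injective h2
    rw [h1, map_zero]
  | succ n ih =>
    intro G hG h
    by_contra hne
    have h1 : G.IsRoot 1 := by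
      have h2 : PowerSeries.constantCoeff (Polynomial.aeval t G) = G.eval 1 := by
        rw [Polynomial.aeval_def, Polynomial.hom_eval₂, ht]
        have h3 : (PowerSeries.constantCoeff (R := κ)).comp (algebraMap κ (PowerSeries κ)) =
            RingHom.id κ := by
          ext x
          simp
        rw [h3]
        rfl
      rw [h, map_zero] at h2
      exact h2.symm
    obtain ⟨H, hH⟩ := Polynomial.dvd_iff_isRoot.mpr h1
    have hH0 : H ≠ 0 := by
      rintro rfl
      exact hne (by rw [hH, mul_zero])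
    have hX : (Polynomial.X - Polynomial.C (1 : κ)) ≠ 0 := Polynomial.X_sub_C_ne_zero 1
    have h2 : (t - 1) * Polynomial.aeval t H = 0 := by
      have h3 := h
      rw [hH, map_mul] at h3
      simpa using h3
    have h3 : Polynomial.aeval t H = 0 :=
      (mul_eq_zero.mp h2).resolve_left (sub_ne_zero.mpr ht1)
    have h4 : G.natDegree = 1 + H.natDegree := by
      rw [hH, Polynomial.natDegree_mul hX hH0, Polynomial.natDegree_X_sub_C]
    exact hH0 (ih H (by omega) h3)

theorem st_Inj : St_Inj := by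
  intro κ _ h2 h3 W Φ hΦ hev
  have hE4 : PowerSeries.constantCoeff (E4R κ) = 1 := by
    rw [← PowerSeries.coeff_zero_eq_constantCoeff_apply]
    simp only [E4R, e4s, PowerSeries.coeff_map, PowerSeries.coeff_mk]
    simp
  have hE6 : PowerSeries.constantCoeff (E6R κ) = 1 := by
    rw [← PowerSeries.coeff_zero_eq_constantCoeff_apply]
    simp only [E6R, e6s, PowerSeries.coeff_map, PowerSeries.coeff_mk]
    simp
  have hE41 : PowerSeries.coeff 1 (E4R κ) = 240 := by
    simp [E4R, e4s]
  have hE61 : PowerSeries.coeff 1 (E6R κ) = -504 := by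
    simp [E6R, e6s]
  have hne : E4R κ ^ 3 ≠ E6R κ ^ 2 := by
    intro h
    have h4 := congrArg (PowerSeries.coeff 1) h
    rw [PowerSeries.coeff_one_pow, PowerSeries.coeff_one_pow, hE4, hE6, hE41, hE61] at h4
    have h5 : (2 : κ) ^ 6 * 3 ^ 3 = 0 := by
      norm_num at h4 ⊢
      linear_combination h4
    exact mul_ne_zero (pow_ne_zero 6 h2) (pow_ne_zero 3 h3) h5
  -- the inverse of `E₄`
  obtain ⟨s, hs⟩ : ∃ s : PowerSeries κ, E4R κ * s = 1 :=
    ⟨(E4R κ)⁻¹, PowerSeries.mul_inv_cancel _ (by rw [hE4]; exact one_ne_zero)⟩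
  have hs0 : PowerSeries.constantCoeff s = 1 := by
    have h4 := congrArg PowerSeries.constantCoeff hs
    rwa [map_mul, hE4, one_mul, map_one] at h4
  have ht0 : PowerSeries.constantCoeff (E6R κ ^ 2 * s ^ 3) = 1 := by
    rw [map_mul, map_pow, map_pow, hE6, hs0]
    ring
  have ht1 : E6R κ ^ 2 * s ^ 3 ≠ 1 := by
    intro h
    apply hne
    calc E4R κ ^ 3 = E4R κ ^ 3 * (E6R κ ^ 2 * s ^ 3) := by rw [h, mul_one]
      _ = E6R κ ^ 2 * (E4R κ * s) ^ 3 := by ring
      _ = E6R κ ^ 2 := by rw [hs, one_pow, mul_one]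
  have hwt : ∀ d ∈ Φ.support, 4 * d 0 + 6 * d 1 = W := by
    intro d hd
    have h4 := hΦ (MvPolynomial.mem_support_iff.mp hd)
    rw [Finsupp.weight_apply, Finsupp.sum_fintype _ _ (by simp)] at h4
    simp only [Fin.sum_univ_two, wt, smul_eq_mul, Matrix.cons_val_zero, Matrix.cons_val_one] at h4
    omega
  have key : Polynomial.aeval (E6R κ ^ 2 * s ^ 3)
      (∑ d ∈ Φ.support, Polynomial.monomial (d 1 / 2) (MvPolynomial.coeff d Φ)) = 0 := by
    have h4 : ev κ Φ = ∑ d ∈ Φ.support,
        algebraMap κ (PowerSeries κ) (MvPolynomial.coeff d Φ) * (E4R κ ^ d 0 * E6R κ ^ d 1) := by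
      rw [ev, MvPolynomial.aeval_def, MvPolynomial.eval₂_eq']
      refine Finset.sum_congr rfl fun d _ => ?_
      congr 1
      rw [Fin.prod_univ_two]
      rfl
    have h5 : ∀ d ∈ Φ.support, E4R κ ^ d 0 * E6R κ ^ d 1 =
        E4R κ ^ ((W / 2 - 3 * (W / 2 % 2)) / 2) * E6R κ ^ (W / 2 % 2) *
          (E6R κ ^ 2 * s ^ 3) ^ (d 1 / 2) := by
      intro d hd
      have h6 := hwt d hd
      have h7 : (W / 2 - 3 * (W / 2 % 2)) / 2 = d 0 + 3 * (d 1 / 2) := by omega
      have h8 : d 1 = W / 2 % 2 + 2 * (d 1 / 2) := by omega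
      rw [h7]
      calc E4R κ ^ d 0 * E6R κ ^ d 1 =
          E4R κ ^ d 0 * E6R κ ^ (W / 2 % 2 + 2 * (d 1 / 2)) := by rw [← h8]
        _ = E4R κ ^ d 0 * E6R κ ^ (W / 2 % 2 + 2 * (d 1 / 2)) * (E4R κ * s) ^ (3 * (d 1 / 2)) := by
            rw [hs, one_pow, mul_one]
        _ = _ := by ring
    have h6 : ev κ Φ = E4R κ ^ ((W / 2 - 3 * (W / 2 % 2)) / 2) * E6R κ ^ (W / 2 % 2) *
        Polynomial.aeval (E6R κ ^ 2 * s ^ 3)
          (∑ d ∈ Φ.support, Polynomial.monomial (d 1 / 2) (MvPolynomial.coeff d Φ)) := by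
      rw [h4, map_sum, Finset.mul_sum]
      refine Finset.sum_congr rfl fun d hd => ?_
      rw [h5 d hd, Polynomial.aeval_monomial]
      ring
    rw [hev] at h6
    have h7 : E4R κ ≠ 0 := by
      intro h
      rw [h, map_zero] at hE4
      exact zero_ne_one hE4
    have h8 : E6R κ ≠ 0 := by
      intro h
      rw [h, map_zero] at hE6
      exact zero_ne_one hE6
    exact (mul_eq_zero.mp h6.symm).resolve_left (mul_ne_zero (pow_ne_zero _ h7) (pow_ne_zero _ h8))
  have hG := inj_trans _ ht0 ht1 _ _ le_rfl key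
  by_contra hΦ0
  obtain ⟨d0, hd0⟩ := MvPolynomial.support_nonempty.mpr hΦ0
  have h4 := congrArg (fun G => Polynomial.coeff G (d0 1 / 2)) hG
  simp only [Polynomial.finsetSum_coeff, Polynomial.coeff_monomial, Polynomial.coeff_zero] at h4
  rw [Finset.sum_eq_single d0] at h4
  · rw [if_pos rfl] at h4
    exact MvPolynomial.mem_support_iff.mp hd0 h4
  · intro d hd hne'
    rw [if_neg]
    intro h5
    apply hne'
    have h6 := hwt d hd
    have h7 := hwt d0 hd0
    ext i
    fin_cases i
    · show d 0 = d0 0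
      omega
    · show d 1 = d0 1
      omega
  · intro h
    exact absurd hd0 h

end Pool.Agent.D12
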