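import Pool.Agent.D12.Stmts

set_option autoImplicit false

/-!
# Lattices all of whose shells are spherical 12-designs: module KP
-/

namespace Pool.Agent.D12

open UpperHalfPlane hiding I
open Complex Matrix Derivative
open scoped BigOperators MatrixGroups Real Manifold ModularForm

theorem kp_int_le (A : ValuationSubring ℂ) (a : ℤ) : A.valuation (a : ℂ) ≤ 1 := by
  rw [ValuationSubring.valuation_le_one_iff]
  exact intCast_mem A a

theorem kp_unit (A : ValuationSubring ℂ) (p : ℕ) (hp : p.Prime) (hv : A.valuation (p : ℂ) < 1)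
    (a : ℤ) (ha : ¬ (p : ℤ) ∣ a) : A.valuation (a : ℂ) = 1 := by
  refine le_antisymm (kp_int_le A a) ?_
  by_contra hlt
  push Not at hlt
  have hc : IsCoprime (p : ℤ) a :=
    (Nat.prime_iff_prime_int.mp hp).coprime_iff_not_dvd.mpr ha
  obtain ⟨x, y, hxy⟩ := hc
  have h1 : A.valuation ((x : ℂ) * p + y * a) = 1 := by
    have : ((x : ℂ) * p + y * a) = 1 := by exact_mod_cast hxy
    rw [this, map_one]
  have h2 : A.valuation ((x : ℂ) * p + y * a) < 1 := by
    apply Valuation.map_add_lt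
    · rw [map_mul]
      exact lt_of_le_of_lt (mul_le_of_le_one_left' (kp_int_le A x)) hv
    · rw [map_mul]
      exact lt_of_le_of_lt (mul_le_of_le_one_left' (kp_int_le A y)) hlt
  exact absurd h1 h2.ne

/-- coefficientwise bound of a product -/
theorem kp_mul (A : ValuationSubring ℂ) (X Y : A.ValueGroup) (a b : PowerSeries ℂ)
    (ha : ∀ k, A.valuation (PowerSeries.coeff k a) ≤ X)
    (hb : ∀ k, A.valuation (PowerSeries.coeff k b) ≤ Y) (k : ℕ) :
    A.valuation (PowerSeries.coeff k (a * b)) ≤ X * Y := by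
  rw [PowerSeries.coeff_mul]
  refine Valuation.map_sum_le _ fun q _ => ?_
  rw [map_mul]
  exact mul_le_mul' (ha _) (hb _)

theorem kp_pow (A : ValuationSubring ℂ) (a : PowerSeries ℂ)
    (ha : ∀ k, A.valuation (PowerSeries.coeff k a) ≤ 1) (j : ℕ) :
    ∀ k, A.valuation (PowerSeries.coeff k (a ^ j)) ≤ 1 := by
  induction j with
  | zero =>
    intro k
    rw [pow_zero, PowerSeries.coeff_one]
    split_ifs <;> simp
  | succ j ih =>
    intro k
    rw [pow_succ]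
    have := kp_mul A 1 1 (a ^ j) a ih ha k
    simpa using this

theorem kp_E2 (A : ValuationSubring ℂ) (N : ℕ) (k : ℕ) :
    A.valuation (PowerSeries.coeff k (ex N (E2R ℂ))) ≤ 1 := by
  rw [ex, PowerSeries.coeff_mk]
  split_ifs
  · rw [E2R, PowerSeries.coeff_map]
    exact kp_int_le A _
  · simp

theorem kp_I (A : ValuationSubring ℂ) : A.valuation (-I) = 1 := by
  have h : (-I : ℂ) ^ 4 = 1 := by
    rw [show (-I : ℂ) ^ 4 = (I ^ 2) ^ 2 by ring, I_sq]; norm_num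
  have h2 : A.valuation (-I) ^ 4 = 1 := by rw [← map_pow, h, map_one]
  exact (pow_eq_one_iff_of_nonneg zero_le (by norm_num)).mp h2

theorem kp_nug_bdd {n : ℕ} (G : Matrix (Fin n) (Fin n) ℤ) (c : ℕ) (a d : ℤ)
    (w : Fin n → ℤ) : ‖nug G c a d w‖ ≤ (Fintype.card (Fin n → Fin c) : ℝ) := by
  have h1 : ‖cexp (π * I * d * ((qf G.adjugate w : ℤ) : ℂ) / (c * ((G.det : ℤ) : ℂ)))‖ = 1 := by
    have : (π * I * d * ((qf G.adjugate w : ℤ) : ℂ) / (c * ((G.det : ℤ) : ℂ)) : ℂ) =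
        ((π * d * ((qf G.adjugate w : ℤ) : ℝ) / (c * ((G.det : ℤ) : ℝ)) : ℝ) : ℂ) * I := by
      generalize qf G.adjugate w = q
      generalize G.det = D0
      push_cast
      ring
    rw [this, Complex.norm_exp_ofReal_mul_I]
  have h2 : ‖gs G c a w‖ ≤ (Fintype.card (Fin n → Fin c) : ℝ) := by
    rw [gs]
    refine (norm_sum_le _ _).trans ?_
    have : ∀ y : Fin n → Fin c, ‖cexp (2 * π * I *
      (((a * qf G (fun i => ((y i : ℕ) : ℤ)) : ℤ) : ℂ) / 2 +
        ((w ⬝ᵥ (fun i => ((y i : ℕ) : ℤ)) : ℤ) : ℂ)) / c)‖ = 1 := by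
      intro y
      generalize (a * qf G (fun i => ((y i : ℕ) : ℤ)) : ℤ) = u
      generalize (w ⬝ᵥ (fun i => ((y i : ℕ) : ℤ)) : ℤ) = v
      have : (2 * π * I * ((u : ℂ) / 2 + (v : ℂ)) / c : ℂ) =
        ((2 * π * ((u : ℝ) / 2 + v) / c : ℝ) : ℂ) * I := by
        push_cast
        ring
      rw [this, Complex.norm_exp_ofReal_mul_I]
    rw [Finset.sum_congr rfl fun y _ => this y]
    simp
  rw [nug, norm_mul, h1, mul_one]
  exact h2

theorem kp_neg_slash (W : ℕ) (f : ℍ → ℂ) (γ : SL(2, ℤ)) :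
    f ∣[((W : ℕ) : ℤ)] γ = ((-1 : ℂ) ^ W) • (f ∣[((W : ℕ) : ℤ)] (-γ)) := by
  funext τ
  rw [Pi.smul_apply, ModularForm.SL_slash_apply, ModularForm.SL_slash_apply,
    ModularGroup.SL_neg_smul, ModularGroup.denom_apply, ModularGroup.denom_apply]
  have h : (((-γ) 1 0 : ℤ) : ℂ) * (τ : ℂ) + (((-γ) 1 1 : ℤ) : ℂ) =
      -(((γ 1 0 : ℤ) : ℂ) * (τ : ℂ) + ((γ 1 1 : ℤ) : ℂ)) := by
    have h1 : (-γ) 1 0 = -(γ 1 0) := by simp
    have h2 : (-γ) 1 1 = -(γ 1 1) := by simp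
    rw [h1, h2]; push_cast; ring
  rw [h, _root_.zpow_neg, _root_.zpow_neg, zpow_natCast, zpow_natCast,
    neg_pow (((γ 1 0 : ℤ) : ℂ) * (τ : ℂ) + ((γ 1 1 : ℤ) : ℂ)) W, mul_inv, smul_eq_mul]
  have h1 : ((-1 : ℂ) ^ W) * ((-1 : ℂ) ^ W)⁻¹ = 1 :=
    mul_inv_cancel₀ (pow_ne_zero _ (by norm_num))
  calc _ = f (γ • τ) * ((((γ 1 0 : ℤ) : ℂ) * (τ : ℂ) + ((γ 1 1 : ℤ) : ℂ)) ^ W)⁻¹ *
        (((-1 : ℂ) ^ W) * ((-1 : ℂ) ^ W)⁻¹) := by rw [h1, mul_one]
    _ = _ := by ring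

theorem kp_core (A : ValuationSubring ℂ) (p n c N j : ℕ) (hc : 0 < c)
    (hv : A.valuation (p : ℂ) < 1)
    (M : A.ValueGroup) (hM : M ^ 2 ≤ A.valuation (c : ℂ) ^ n) (u h : PowerSeries ℂ)
    (hu : ∀ k, A.valuation (PowerSeries.coeff k u) ≤ M)
    (hh : ∀ k, A.valuation (PowerSeries.coeff k (h - ex N (E2R ℂ) ^ j * u)) ≤
      A.valuation (p : ℂ) * M) :
    (∀ k, A.valuation (PowerSeries.coeff k (PowerSeries.C ((-I / c) ^ n) * (u * u))) ≤ 1) ∧
    (∀ k, A.valuation (PowerSeries.coeff k (PowerSeries.C ((-I / c) ^ n) * (h * h))) ≤ 1) ∧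
    (∀ k, A.valuation (PowerSeries.coeff k (PowerSeries.C ((-I / c) ^ n) * (h * h) -
      ex N (E2R ℂ) ^ (2 * j) * (PowerSeries.C ((-I / c) ^ n) * (u * u)))) < 1) := by
  have hc0 : (c : ℂ) ≠ 0 := by exact_mod_cast hc.ne'
  have hvc : A.valuation (c : ℂ) ≠ 0 := by rw [Ne, map_eq_zero]; exact hc0
  have hconst : A.valuation ((-I / c) ^ n) = (A.valuation (c : ℂ) ^ n)⁻¹ := by
    rw [map_pow, map_div₀, kp_I, one_div, inv_pow]
  have hEj : ∀ k, A.valuation (PowerSeries.coeff k (ex N (E2R ℂ) ^ j * u)) ≤ M := by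
    intro k
    have := kp_mul A 1 M _ u (kp_pow A _ (kp_E2 A N) j) hu k
    rwa [one_mul] at this
  have hpM : A.valuation (p : ℂ) * M ≤ M := mul_le_of_le_one_left' hv.le
  have hhM : ∀ k, A.valuation (PowerSeries.coeff k h) ≤ M := by
    intro k
    have : PowerSeries.coeff k h = PowerSeries.coeff k (h - ex N (E2R ℂ) ^ j * u) +
        PowerSeries.coeff k (ex N (E2R ℂ) ^ j * u) := by
      rw [← map_add]; congr 1; ring
    rw [this]
    exact (Valuation.map_add _ _ _).trans (max_le ((hh k).trans hpM) (hEj k))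
  have hbound : ∀ (X : A.ValueGroup) (s : PowerSeries ℂ),
      (∀ k, A.valuation (PowerSeries.coeff k s) ≤ X * (M * M)) →
      ∀ k, A.valuation (PowerSeries.coeff k (PowerSeries.C ((-I / c) ^ n) * s)) ≤ X := by
    intro X s hs k
    rw [PowerSeries.coeff_C_mul, map_mul, hconst]
    have hpos : 0 < A.valuation (c : ℂ) ^ n := zero_lt_iff.mpr (pow_ne_zero _ hvc)
    rw [inv_mul_le_iff₀ hpos]
    refine (hs k).trans ?_
    rw [mul_comm]
    exact mul_le_mul' (by rw [← pow_two]; exact hM) le_rfl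
  refine ⟨fun k => hbound 1 _ (fun k => ?_) k, fun k => hbound 1 _ (fun k => ?_) k, fun k => ?_⟩
  · rw [one_mul]; exact kp_mul A M M u u hu hu k
  · rw [one_mul]; exact kp_mul A M M h h hhM hhM k
  · have heq : PowerSeries.C ((-I / c) ^ n) * (h * h) -
      ex N (E2R ℂ) ^ (2 * j) * (PowerSeries.C ((-I / c) ^ n) * (u * u)) =
      PowerSeries.C ((-I / c) ^ n) * ((h - ex N (E2R ℂ) ^ j * u) *
        (h + ex N (E2R ℂ) ^ j * u)) := by
      have : ex N (E2R ℂ) ^ (2 * j) = ex N (E2R ℂ) ^ j * ex N (E2R ℂ) ^ j := by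
        rw [← pow_add]; congr 1; ring
      rw [this]; ring
    rw [heq]
    refine lt_of_le_of_lt (hbound (A.valuation (p : ℂ)) _ (fun k => ?_) k) hv
    rw [← mul_assoc]
    refine kp_mul A _ M _ _ hh (fun k => ?_) k
    rw [map_add]
    exact (Valuation.map_add _ _ _).trans (max_le (hhM k) (hEj k))

theorem st_KP (hFF : St_FormFacts) (hQ : QAlg) (hX : St_Ex) (hTQ : St_ThetaQ) (hHQ : St_HopQ)
    (hHE : St_HopEst) (hS : St_Slash) (hFI : St_FinIndex) (hEst : St_Est) : St_KP := by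
  intro n G hG hD hn p j hp hp13 hj1 hj5 hpj hz A hv
  have FF := hFF n G hG
  have hlev : 0 < lev G := by
    have := FF.det_pos
    unfold lev
    omega
  have hhalf : ∀ i < j, A.valuation ((n : ℂ) / 2 + i) = 1 := by
    intro i hi
    have h2v : A.valuation (((2 : ℤ) : ℤ) : ℂ) = 1 := kp_unit A p hp hv 2 (by
      intro h
      have h' : p ∣ 2 := by exact_mod_cast h
      have := Nat.le_of_dvd (by norm_num) h'
      omega)
    have h1 : A.valuation (((n + 2 * i : ℕ) : ℤ) : ℂ) = 1 := kp_unit A p hp hv _ (by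
      intro h
      have h' : p ∣ n + 2 * i := by exact_mod_cast h
      have h3 : p ∣ 2 * (j - i) := by
        have := (Nat.dvd_sub hpj h')
        have h4 : n + 2 * j - (n + 2 * i) = 2 * (j - i) := by omega
        rwa [h4] at this
      have := Nat.le_of_dvd (by omega) h3
      omega)
    have h3 : ((n : ℂ) / 2 + i) = (((n + 2 * i : ℕ) : ℤ) : ℂ) / ((2 : ℤ) : ℂ) := by
      push_cast; ring
    rw [h3, map_div₀, h1, h2v, div_one]
  -- the case of positive `c`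
  have hpos : ∀ (γ : SL(2, ℤ)) (c : ℕ), 0 < c → γ 1 0 = (c : ℤ) → ∃ B C : PowerSeries ℂ,
      HasQ (lev G) (Fth G ∣[((n : ℕ) : ℤ)] γ) B ∧
      HasQ (lev G) (Tth G j ∣[((n + 4 * j : ℕ) : ℤ)] γ) C ∧
      (∀ k, A.valuation (PowerSeries.coeff k B) ≤ 1) ∧
      (∀ k, A.valuation (PowerSeries.coeff k C) ≤ 1) ∧
      (∀ k, A.valuation (PowerSeries.coeff k (C - ex (lev G) (E2R ℂ) ^ (2 * j) * B)) < 1) ∧
      B = PowerSeries.C ((-I / c) ^ n) * (cf G (nug G c (γ 0 0) (γ 1 1)) *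
        cf G (nug G c (γ 0 0) (γ 1 1))) := by
    intro γ c hc hγ
    obtain ⟨hF, hT⟩ := hS n G hG j γ c hc hγ
    have hq := hTQ n G hG (nug G c (γ 0 0) (γ 1 1)) _ (kp_nug_bdd G c (γ 0 0) (γ 1 1))
    have hhq := hHQ (lev G) hlev ((n : ℂ) / 2) _ _ hq j
    obtain ⟨M, hM2, hM⟩ := hEst n G hG hD hn p j hp hp13 hj1 hj5 hpj hz A hv c hc (γ 0 0) (γ 1 1)
    have hhe := hHE p hp (by omega) A hv (lev G) n j hlev hhalf M
      (cf G (nug G c (γ 0 0) (γ 1 1))) (fun k => (hM k).1)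
      (fun r h1 h2 k => (hM k).2 r h1 (by omega))
    obtain ⟨h1, h2, h3⟩ := kp_core A p n c (lev G) j hc hv M hM2 _ _ (fun k => (hM k).1) hhe
    refine ⟨_, PowerSeries.C ((-I / c) ^ n) * (HopS (lev G) ((n : ℂ) / 2) j
      (cf G (nug G c (γ 0 0) (γ 1 1))) * HopS (lev G) ((n : ℂ) / 2) j
      (cf G (nug G c (γ 0 0) (γ 1 1)))), ?_, ?_, h1, h2, h3, rfl⟩
    · rw [hF]
      have := hQ.smul (lev G) ((-I / c) ^ n) _ _ (hQ.mul (lev G) hlev _ _ _ _ hq hq)
      convert this using 1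
      funext τ
      simp only [Pi.smul_apply, Pi.mul_apply, smul_eq_mul, pow_two]
    · rw [hT]
      have := hQ.smul (lev G) ((-I / c) ^ n) _ _ (hQ.mul (lev G) hlev _ _ _ _ hhq hhq)
      convert this using 1
      funext τ
      simp only [Pi.smul_apply, Pi.mul_apply, smul_eq_mul, pow_two]
  obtain ⟨Γ', hfin, hinv, hmove⟩ := hFI n G hG j
  -- the case of nonzero `c`
  have hne : ∀ (γ : SL(2, ℤ)), γ 1 0 ≠ 0 → ∃ B C : PowerSeries ℂ,
      HasQ (lev G) (Fth G ∣[((n : ℕ) : ℤ)] γ) B ∧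
      HasQ (lev G) (Tth G j ∣[((n + 4 * j : ℕ) : ℤ)] γ) C ∧
      (∀ k, A.valuation (PowerSeries.coeff k B) ≤ 1) ∧
      (∀ k, A.valuation (PowerSeries.coeff k C) ≤ 1) ∧
      (∀ k, A.valuation (PowerSeries.coeff k (C - ex (lev G) (E2R ℂ) ^ (2 * j) * B)) < 1) := by
    intro γ hγ
    rcases lt_or_gt_of_ne hγ with h | h
    · obtain ⟨B, C, h1, h2, h3, h4, h5, -⟩ := hpos (-γ) ((-γ) 1 0).toNat
        (by have : (-γ) 1 0 = -(γ 1 0) := by simp
            rw [this]; omega)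
        (by have : (-γ) 1 0 = -(γ 1 0) := by simp
            rw [this]; omega)
      have hs : A.valuation ((-1 : ℂ) ^ n) = 1 := by
        rw [map_pow, Valuation.map_neg, map_one, one_pow]
      have hs4 : ((-1 : ℂ) ^ (n + 4 * j)) = (-1) ^ n := by
        rw [pow_add, pow_mul]; norm_num
      refine ⟨PowerSeries.C ((-1 : ℂ) ^ n) * B, PowerSeries.C ((-1 : ℂ) ^ n) * C, ?_, ?_, ?_, ?_, ?_⟩
      · rw [kp_neg_slash n]
        exact hQ.smul _ _ _ _ h1
      · rw [kp_neg_slash (n + 4 * j), hs4]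
        exact hQ.smul _ _ _ _ h2
      · intro k
        rw [PowerSeries.coeff_C_mul, map_mul, hs, one_mul]; exact h3 k
      · intro k
        rw [PowerSeries.coeff_C_mul, map_mul, hs, one_mul]; exact h4 k
      · intro k
        have : PowerSeries.C ((-1 : ℂ) ^ n) * C - ex (lev G) (E2R ℂ) ^ (2 * j) *
            (PowerSeries.C ((-1 : ℂ) ^ n) * B) = PowerSeries.C ((-1 : ℂ) ^ n) *
            (C - ex (lev G) (E2R ℂ) ^ (2 * j) * B) := by ring
        rw [this, PowerSeries.coeff_C_mul, map_mul, hs, one_mul]; exact h5 k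
    · obtain ⟨B, C, h1, h2, h3, h4, h5, -⟩ := hpos γ (γ 1 0).toNat (by omega) (by omega)
      exact ⟨B, C, h1, h2, h3, h4, h5⟩
  refine ⟨hlev, ⟨Γ', hfin, hinv⟩, ?_, ?_⟩
  · intro γ
    by_cases hγ : γ 1 0 = 0
    · obtain ⟨g, hg, hg0⟩ := hmove γ hγ
      obtain ⟨B, C, h1, h2, h3⟩ := hne (g * γ) hg0
      obtain ⟨hi1, hi2⟩ := hinv g hg
      refine ⟨B, C, ?_, ?_, h3⟩
      · rw [SlashAction.slash_mul, hi1] at h1; exact h1
      · rw [SlashAction.slash_mul, hi2] at h2; exact h2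
    · exact hne γ hγ
  · have hS0 : ModularGroup.S 1 0 = ((1 : ℕ) : ℤ) := by simp [ModularGroup.S]
    obtain ⟨B, C, h1, -, -, -, -, hB⟩ := hpos ModularGroup.S 1 one_pos hS0
    refine ⟨ModularGroup.S, B, h1, ?_⟩
    have hcf : PowerSeries.coeff 0 (cf G (nug G 1 (ModularGroup.S 0 0) (ModularGroup.S 1 1))) =
        1 := by
      rw [cf, PowerSeries.coeff_mk]
      have hset : ∀ w : Fin n → ℤ, (qf G.adjugate w = ((0 : ℕ) : ℤ)) ↔ w = 0 := by
        intro w
        constructor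
        · intro h; exact FF.adj_zero w (by simpa using h)
        · rintro rfl; simp [qf]
      simp only [hset]
      rw [finsum_cond_eq_left, nug, gs]
      simp [qf]
    rw [hB, PowerSeries.coeff_C_mul, ← pow_two, map_mul, map_pow]
    rw [show PowerSeries.coeff 0 ((cf G (nug G 1 (ModularGroup.S 0 0) (ModularGroup.S 1 1))) ^ 2)
      = (PowerSeries.coeff 0 (cf G (nug G 1 (ModularGroup.S 0 0) (ModularGroup.S 1 1)))) ^ 2 by
        simp [PowerSeries.coeff_zero_eq_constantCoeff], hcf, Nat.cast_one, div_one, kp_I]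
    simp

end Pool.Agent.D12
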