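import Pool.Agent.D12.Stmts
import Pool.Agent.Helper70.Design.Main

set_option autoImplicit false

/-!
# Lattices all of whose shells are spherical 12-designs: module Lattice
-/

namespace Pool.Agent.D12

open Matrix

lemma lattice_int {n : ℕ} (hn : 0 < n) (q : Fin n → Fin n → ℚ) (hpos : ∀ i, 0 < q i i) :
    ∃ (G0 : Fin n → Fin n → ℤ) (m : ℚ), 0 < m ∧ (∀ i j, q i j = m * G0 i j) ∧
      ∀ p : ℤ, (∀ i j, p ∣ G0 i j) → p ∣ 1 := by
  classical
  obtain ⟨N, hN, hN1⟩ : ∃ N : ℕ, 0 < N ∧ ∀ i j, ∃ k : ℤ, (N : ℚ) * q i j = k := by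
    refine ⟨∏ z : Fin n × Fin n, (q z.1 z.2).den,
      Finset.prod_pos fun z _ => (q z.1 z.2).den_pos, ?_⟩
    intro i j
    refine ⟨(∏ z ∈ Finset.univ.erase ((i, j) : Fin n × Fin n), ((q z.1 z.2).den : ℤ)) *
      (q i j).num, ?_⟩
    rw [← Finset.prod_erase_mul _ _ (Finset.mem_univ ((i, j) : Fin n × Fin n))]
    push_cast
    rw [mul_assoc]
    congr 1
    rw [mul_comm]
    exact Rat.mul_den_eq_num (q i j)
  choose A hA using hN1
  set g : ℕ := (Finset.univ.gcd (fun z : Fin n × Fin n => A z.1 z.2)).natAbs with hg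
  have hgdvd : ∀ i j, (g : ℤ) ∣ A i j := by
    intro i j
    rw [hg, Int.natAbs_dvd]
    exact Finset.gcd_dvd (f := fun z : Fin n × Fin n => A z.1 z.2)
      (Finset.mem_univ ((i, j) : Fin n × Fin n))
  have hgmax : ∀ d : ℤ, (∀ i j, d ∣ A i j) → d ∣ (g : ℤ) := by
    intro d hd
    rw [hg, Int.dvd_natAbs]
    exact Finset.dvd_gcd fun z _ => hd z.1 z.2
  have hA0 : A ⟨0, hn⟩ ⟨0, hn⟩ ≠ 0 := by
    intro h
    have h1 := hA ⟨0, hn⟩ ⟨0, hn⟩
    rw [h, Int.cast_zero, mul_eq_zero] at h1
    rcases h1 with h1 | h1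
    · have : (N : ℚ) ≠ 0 := by exact_mod_cast hN.ne'
      exact this h1
    · exact (hpos _).ne' h1
  have hg0 : (g : ℤ) ≠ 0 := by
    intro h
    have h1 := hgdvd ⟨0, hn⟩ ⟨0, hn⟩
    rw [h, zero_dvd_iff] at h1
    exact hA0 h1
  choose G0 hG0 using hgdvd
  have hgpos : (0 : ℚ) < g := by
    have : g ≠ 0 := by exact_mod_cast hg0
    exact_mod_cast Nat.pos_of_ne_zero this
  have hNpos : (0 : ℚ) < N := by exact_mod_cast hN
  refine ⟨G0, g / N, div_pos hgpos hNpos, ?_, ?_⟩
  · intro i j
    have h1 := hA i j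
    rw [hG0 i j] at h1
    push_cast at h1
    rw [div_mul_eq_mul_div, ← h1]
    field_simp
  · intro p hp
    have h1 : p * g ∣ (g : ℤ) := by
      apply hgmax
      intro i j
      rw [hG0 i j, mul_comm p]
      exact mul_dvd_mul_left _ (hp i j)
    obtain ⟨c, hc⟩ := h1
    refine ⟨c, ?_⟩
    have h2 : (g : ℤ) * 1 = g * (p * c) := by
      rw [mul_one]
      linear_combination hc
    exact mul_left_cancel₀ hg0 h2

theorem st_Lattice (hR : St_Rational) : St_Lattice := by
  classical
  intro n hn L hd hs hD p hp hp3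
  have hn0 : 0 < n := by omega
  have : DiscreteTopology L := hd
  have : IsZLattice ℝ L := ⟨hs⟩
  have := ZLattice.module_finite ℝ L
  have := ZLattice.module_free ℝ L
  have hcard : Fintype.card (Module.Free.ChooseBasisIndex ℤ L) = n := by
    rw [← Module.finrank_eq_card_basis ((Module.Free.chooseBasis ℤ L).ofZLatticeBasis ℝ L),
      finrank_euclideanSpace, Fintype.card_fin]
  let b : Module.Basis (Fin n) ℤ L :=
    (Module.Free.chooseBasis ℤ L).reindex (Fintype.equivFinOfCardEq hcard)
  let B : Module.Basis (Fin n) ℝ (EuclideanSpace ℝ (Fin n)) := b.ofZLatticeBasis ℝ L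
  have hB : ∀ i, B i = b i := fun i => b.ofZLatticeBasis_apply ℝ L i
  obtain ⟨l0, hl0, hq⟩ := hR n hn L hd hs hD b
  choose q hq using hq
  have hqpos : ∀ i, 0 < q i i := by
    intro i
    have h1 := hq i i
    rw [real_inner_self_eq_norm_sq, ← hB i] at h1
    have h2 : 0 < ‖B i‖ ^ 2 := by
      have := norm_pos_iff.2 (B.ne_zero i)
      positivity
    rw [h1] at h2
    have h3 : (0 : ℝ) < q i i := by
      by_contra hcon
      push Not at hcon
      have := mul_nonpos_of_nonneg_of_nonpos hl0.le hcon
      linarith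
    exact_mod_cast h3
  obtain ⟨G0, m, hm, hG0, hgcd⟩ := lattice_int hn0 q hqpos
  set G : Matrix (Fin n) (Fin n) ℤ := Matrix.of fun i j => 2 * G0 i j with hG
  have hGij : ∀ i j, G i j = 2 * G0 i j := fun i j => rfl
  set lam : ℝ := l0 * m / 2 with hlam
  have hmR : (0 : ℝ) < m := by exact_mod_cast hm
  have hlampos : 0 < lam := by positivity
  have hinner : ∀ i j, inner ℝ (B i) (B j) = lam * G i j := by
    intro i j
    rw [hB, hB, hq i j, hG0 i j, hGij, hlam]
    push_cast
    ring
  have hsymm : ∀ i j, G i j = G j i := by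
    intro i j
    have h1 := hinner i j
    rw [real_inner_comm, hinner j i] at h1
    have h2 := mul_left_cancel₀ hlampos.ne' h1
    exact_mod_cast h2.symm
  have hinn : ∀ x y : Fin n → ℝ, inner ℝ (∑ i, x i • B i) (∑ j, y j • B j) =
      lam * ∑ i, ∑ j, x i * ((G i j : ℝ) * y j) := by
    intro x y
    rw [sum_inner, Finset.mul_sum]
    refine Finset.sum_congr rfl fun i _ => ?_
    rw [inner_sum, Finset.mul_sum]
    refine Finset.sum_congr rfl fun j _ => ?_
    rw [inner_smul_left, inner_smul_right, hinner]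
    simp only [conj_trivial]
    ring
  have hqfR : ∀ x : Fin n → ℝ, ‖∑ i, x i • B i‖ ^ 2 = lam * qfR G x := by
    intro x
    rw [← real_inner_self_eq_norm_sq, hinn]
    congr 1
    unfold qfR dotProduct mulVec dotProduct
    refine Finset.sum_congr rfl fun i _ => ?_
    rw [Finset.mul_sum]
    rfl
  have hpos : ∀ x : Fin n → ℝ, x ≠ 0 → 0 < qfR G x := by
    intro x hx
    have h1 : ∑ i, x i • B i ≠ 0 := by
      intro h
      apply hx
      funext i
      exact (Fintype.linearIndependent_iff.1 B.linearIndependent) x h i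
    have h2 : 0 < ‖∑ i, x i • B i‖ ^ 2 := by
      have := norm_pos_iff.2 h1
      positivity
    rw [hqfR] at h2
    by_contra hcon
    push Not at hcon
    have := mul_nonpos_of_nonneg_of_nonpos hlampos.le hcon
    linarith
  have hqf : ∀ z : Fin n → ℤ, qfR G (fun i => (z i : ℝ)) = (qf G z : ℝ) := by
    intro z
    unfold qfR qf dotProduct mulVec dotProduct
    push_cast
    rfl
  refine ⟨G, ⟨?_, ?_, hpos⟩, ?_, ?_⟩
  · ext i j
    exact hsymm j i
  · intro i
    exact ⟨G0 i i, by rw [hGij]; ring⟩
  · intro k β i hi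
    have hspanL : Submodule.span ℤ (Set.range B) = L := b.ofZLatticeBasis_span ℝ
    set r : ℝ := √(lam * k) with hr
    have hr2 : r ^ 2 = lam * k := Real.sq_sqrt (by positivity)
    let xm : (Fin n → ℤ) → EuclideanSpace ℝ (Fin n) := fun z => ∑ i, (z i : ℝ) • B i
    have hxinj : Function.Injective xm := by
      intro z z' h
      have h1 : ∑ i, ((z i : ℝ) - z' i) • B i = 0 := by
        simp only [sub_smul, Finset.sum_sub_distrib]
        exact sub_eq_zero.2 h
      funext i
      have h2 := (Fintype.linearIndependent_iff.1 B.linearIndependent) _ h1 i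
      have h3 : (z i : ℝ) = z' i := sub_eq_zero.1 h2
      exact_mod_cast h3
    have hxnorm : ∀ z, ‖xm z‖ ^ 2 = lam * (qf G z : ℝ) := by
      intro z
      show ‖∑ i, (z i : ℝ) • B i‖ ^ 2 = _
      rw [hqfR, hqf]
    have hxL : ∀ z, xm z ∈ L := by
      intro z
      refine Submodule.sum_mem _ fun i _ => ?_
      rw [hB, Int.cast_smul_eq_zsmul]
      exact Submodule.smul_mem _ _ (b i).2
    have hxk : ∀ z, ‖xm z‖ = r ↔ qf G z = (k : ℤ) := by
      intro z
      constructor
      · intro h
        have h1 := hxnorm z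
        rw [h, hr2] at h1
        have h2 := mul_left_cancel₀ hlampos.ne' h1
        exact_mod_cast h2.symm
      · intro h
        have h1 := hxnorm z
        rw [h, Int.cast_natCast, ← hr2] at h1
        exact (sq_eq_sq₀ (norm_nonneg _) (Real.sqrt_nonneg _)).1 h1
    have hfin : {v : EuclideanSpace ℝ (Fin n) | v ∈ L ∧ ‖v‖ = r}.Finite := by
      apply (ZSpan.setFinite_inter B (Metric.isBounded_closedBall
        (x := (0 : EuclideanSpace ℝ (Fin n))) (r := r))).subset
      rintro v ⟨h1, h2⟩
      refine ⟨?_, ?_⟩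
      · rw [Metric.mem_closedBall, dist_zero_right]
        exact h2.le
      · rw [hspanL]
        exact h1
    have hfinZ : {z : Fin n → ℤ | qf G z = (k : ℤ)}.Finite := by
      refine (hfin.preimage (hxinj.injOn (s := xm ⁻¹' {v | v ∈ L ∧ ‖v‖ = r}))).subset ?_
      intro z hz
      exact ⟨hxL z, (hxk z).2 hz⟩
    set Z : Finset (Fin n → ℤ) := hfinZ.toFinset with hZdef
    have hZ : ∀ z, z ∈ Z ↔ qf G z = (k : ℤ) := by
      intro z
      rw [hZdef, Set.Finite.mem_toFinset]
      rfl
    have hsum : ∑ᶠ (z : Fin n → ℤ) (_ : qf G z = k), (prR (G *ᵥ z) β) ^ (2 * i) =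
        ∑ z ∈ Z, (prR (G *ᵥ z) β) ^ (2 * i) := by
      have h3 : ∑ᶠ (z : Fin n → ℤ) (_ : qf G z = k), (prR (G *ᵥ z) β) ^ (2 * i) =
          ∑ᶠ (z : Fin n → ℤ) (_ : z ∈ (Z : Set (Fin n → ℤ))),
            (prR (G *ᵥ z) β) ^ (2 * i) := by
        refine finsum_congr fun z => ?_
        refine finsum_congr_Prop ?_ fun _ => rfl
        rw [Finset.mem_coe, hZ]
      rw [h3, finsum_mem_coe_finset]
    have hcardZ : Nat.card {z : Fin n → ℤ // qf G z = k} = Z.card :=
      Nat.subtype_card Z hZ
    rw [hsum, hcardZ]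
    by_cases hk : k = 0
    · have hZ0 : Z = {0} := by
        ext z
        rw [hZ, Finset.mem_singleton, hk]
        constructor
        · intro h
          by_contra hz
          have h1 := hpos (fun i => (z i : ℝ)) (by
            intro h2
            apply hz
            funext i
            have h3 : (z i : ℝ) = 0 := congrFun h2 i
            have h4 : z i = 0 := by exact_mod_cast h3
            exact h4)
          rw [hqf, h] at h1
          simp at h1
        · rintro rfl
          unfold qf
          simp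
      rw [hZ0, Finset.sum_singleton, Finset.card_singleton, hk]
      have h1 : prR (G *ᵥ (0 : Fin n → ℤ)) β = 0 := by
        unfold prR
        simp
      rw [h1]
      rcases Nat.eq_zero_or_pos i with rfl | hi0
      · simp [mom]
      · rw [zero_pow (by omega), Nat.cast_zero, zero_mul, zero_pow (by omega)]
        ring
    · have hkpos : 0 < k := Nat.pos_of_ne_zero hk
      have hrpos : 0 < r := Real.sqrt_pos.2 (mul_pos hlampos (by exact_mod_cast hkpos))
      set X : Finset (EuclideanSpace ℝ (Fin n)) := Z.image xm with hXdef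
      have hX : ∀ v, v ∈ X ↔ v ∈ L ∧ ‖v‖ = r := by
        intro v
        rw [hXdef, Finset.mem_image]
        constructor
        · rintro ⟨z, hz, rfl⟩
          exact ⟨hxL z, (hxk z).2 ((hZ z).1 hz)⟩
        · rintro ⟨hv, hvr⟩
          have h1 : xm (fun i => b.repr ⟨v, hv⟩ i) = v := by
            refine Eq.trans ?_ (B.sum_repr v)
            refine Finset.sum_congr rfl fun i _ => ?_
            have h3 := b.ofZLatticeBasis_repr_apply ℝ L ⟨v, hv⟩ i
            congr 1
            exact h3.symm
          refine ⟨_, ?_, h1⟩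
          rw [hZ, ← hxk, h1]
          exact hvr
      have hXcard : X.card = Z.card := Finset.card_image_of_injective _ hxinj
      have h1 := Helper70.Design.shell_moment hn0 L r (hD r hrpos) X hX (∑ j, β j • B j) i hi
      rw [hqfR, hr2, hXcard, hXdef, Finset.sum_image (fun a _ c _ h => hxinj h)] at h1
      have h2 : ∀ z ∈ Z, (inner ℝ (xm z) (∑ j, β j • B j) ^ 2) ^ i =
          (lam ^ 2) ^ i * (prR (G *ᵥ z) β) ^ (2 * i) := by
        intro z _
        have h3 : inner ℝ (xm z) (∑ j, β j • B j) = lam * prR (G *ᵥ z) β := by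
          show inner ℝ (∑ i, (z i : ℝ) • B i) (∑ j, β j • B j) = _
          rw [hinn]
          congr 1
          unfold prR mulVec dotProduct
          push_cast
          rw [Finset.sum_comm]
          refine Finset.sum_congr rfl fun j _ => ?_
          rw [Finset.sum_mul]
          refine Finset.sum_congr rfl fun i _ => ?_
          rw [hsymm j i]
          ring
        rw [h3, ← pow_mul, mul_pow, pow_mul, pow_mul]
      rw [Finset.sum_congr rfl h2, ← Finset.mul_sum] at h1
      have h4 : (lam * ↑k * (lam * qfR G β)) ^ i = (lam ^ 2) ^ i * (k * qfR G β) ^ i := by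
        rw [← mul_pow]
        congr 1
        ring
      rw [h4] at h1
      have h5 : (lam ^ 2) ^ i ≠ 0 := by positivity
      apply mul_left_cancel₀ h5
      rw [h1]
      have h6 : Helper70.Design.cc n i = mom n i := rfl
      rw [h6]
      ring
  · by_contra hcon
    push Not at hcon
    have hodd : IsCoprime (p : ℤ) 2 := by
      rw [Int.isCoprime_iff_gcd_eq_one]
      have h2 : Nat.Coprime p 2 := by
        rw [Nat.coprime_primes hp Nat.prime_two]
        omega
      exact_mod_cast h2
    have hdiag : ∀ i, (p : ℤ) ∣ G i i := by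
      intro i
      have h1 := hcon (Pi.single i 1)
      have h2 : qf G (Pi.single i 1) = G i i := by
        unfold qf
        rw [Matrix.mulVec_single_one, single_one_dotProduct]
        rfl
      rwa [h2] at h1
    have hall : ∀ i j, (p : ℤ) ∣ G0 i j := by
      intro i j
      have h1 := hcon (Pi.single i 1 + Pi.single j 1)
      have h2 : qf G (Pi.single i 1 + Pi.single j 1) = G i i + G j j + 2 * G i j := by
        unfold qf
        rw [Matrix.mulVec_add, add_dotProduct, dotProduct_add, dotProduct_add]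
        rw [Matrix.mulVec_single_one, Matrix.mulVec_single_one, single_one_dotProduct,
          single_one_dotProduct, single_one_dotProduct, single_one_dotProduct]
        show G i i + G i j + (G j i + G j j) = _
        rw [hsymm j i]
        ring
      rw [h2] at h1
      have h3 : (p : ℤ) ∣ 2 * G i j := (dvd_add_right (dvd_add (hdiag i) (hdiag j))).1 h1
      have h4 := hodd.dvd_of_dvd_mul_left h3
      rw [hGij] at h4
      exact hodd.dvd_of_dvd_mul_left h4
    have h5 := hgcd p hall
    have h6 := Int.le_of_dvd one_pos h5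
    have h7 : (3 : ℤ) ≤ p := by exact_mod_cast hp3
    omega

end Pool.Agent.D12
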