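import Pool.Agent.D12.Stmts
import Pool.Agent.D12.Coprime
import Pool.Agent.D12.HomogDvd

set_option autoImplicit false

/-!
# Lattices all of whose shells are spherical 12-designs: module LevelOne
-/

namespace Pool.Agent.D12

theorem levelOne_ev_map {R R' : Type} [CommRing R] [CommRing R'] (r : R →+* R')
    (Φ : MvPolynomial (Fin 2) R) :
    ev R' (MvPolynomial.map r Φ) = PowerSeries.map r (ev R Φ) := by
  have hc : ∀ x : PowerSeries ℤ, PowerSeries.map r (x.map (Int.castRingHom R)) =
      x.map (Int.castRingHom R') := by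
    intro x
    ext k
    simp [PowerSeries.coeff_map]
  induction Φ using MvPolynomial.induction_on with
  | C c =>
    rw [MvPolynomial.map_C, MvPolynomial.algHom_C, MvPolynomial.algHom_C]
    ext k
    rw [PowerSeries.coeff_map, PowerSeries.algebraMap_apply, PowerSeries.algebraMap_apply,
      Algebra.algebraMap_self_apply, Algebra.algebraMap_self_apply, PowerSeries.coeff_C,
      PowerSeries.coeff_C]
    split_ifs <;> simp
  | add p q hp hq => rw [map_add, map_add, map_add, map_add, hp, hq]
  | mul_X p i hp =>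
    rw [map_mul, map_mul, map_mul, map_mul, hp, MvPolynomial.map_X, ev, ev,
      MvPolynomial.aeval_X, MvPolynomial.aeval_X]
    congr 1
    fin_cases i
    · exact (hc e4s).symm
    · exact (hc e6s).symm

theorem levelOne_isWH_map {R R' : Type} [CommRing R] [CommRing R'] (r : R →+* R')
    (Φ : MvPolynomial (Fin 2) R) (W : ℕ) (h : Φ.IsWeightedHomogeneous wt W) :
    (MvPolynomial.map r Φ).IsWeightedHomogeneous wt W := by
  intro d hd
  apply h
  intro h0
  rw [MvPolynomial.coeff_map, h0, map_zero] at hd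
  exact hd rfl

theorem st_LevelOne (hE : St_EisQ) (hS : St_Struct) (hI : St_Inj) (hHa : St_Hasse) (hD : St_Del) (h2 : St_Raman2) (hC : St_Coprime) : St_LevelOne := by
  intro p hp hp5 A hAp W S P Q hP hP0 hQ hdiff
  -- residue field
  let κ : Type := IsLocalRing.ResidueField A
  let res : A →+* κ := IsLocalRing.residue A
  have hpA : (p : κ) = 0 := by
    have h1 : (p : κ) = res (p : A) := by simp
    rw [h1]
    apply (IsLocalRing.residue_eq_zero_iff _).2
    rw [ValuationSubring.valuation_lt_one_iff]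
    simpa using hAp
  have hchar : CharP κ p := (CharP.charP_iff_prime_eq_zero hp).2 hpA
  have hcast : ∀ m : ℕ, m ≠ 0 → m < p → (m : κ) ≠ 0 := by
    intro m hm hmp h0
    rw [CharP.cast_eq_zero_iff κ p] at h0
    exact absurd (Nat.le_of_dvd (Nat.pos_of_ne_zero hm) h0) (by omega)
  have hk2 : (2 : κ) ≠ 0 := by
    have := hcast 2 (by norm_num) (by omega)
    simpa using this
  have hk3 : (3 : κ) ≠ 0 := by
    have := hcast 3 (by norm_num) (by omega)
    simpa using this
  have hk12 : (12 : κ) ≠ 0 := by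
    have : (12 : κ) = 2 * 2 * 3 := by norm_num
    rw [this]
    exact mul_ne_zero (mul_ne_zero hk2 hk2) hk3
  have hinv : ∀ m : ℕ, m ≠ 0 → m < p → ((m : ℂ))⁻¹ ∈ A := by
    intro m hm hmp
    have h1 : res (m : A) ≠ 0 := by
      rw [map_natCast]
      exact hcast m hm hmp
    have h3 : IsUnit (m : A) := (IsLocalRing.residue_ne_zero_iff_isUnit _).1 h1
    rw [ValuationSubring.valuation_eq_one_iff] at h3
    rw [← ValuationSubring.valuation_le_one_iff, map_inv₀]
    have h4 : A.valuation (m : ℂ) = 1 := by simpa using h3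
    rw [h4, inv_one]
  let B : Subring ℂ := A.toSubring
  have hB2 : (2 : ℂ)⁻¹ ∈ B := by
    have h : (2 : ℂ)⁻¹ ∈ A := by simpa using hinv 2 (by norm_num) (by omega)
    exact h
  have hB3 : (3 : ℂ)⁻¹ ∈ B := by
    have h : (3 : ℂ)⁻¹ ∈ A := by simpa using hinv 3 (by norm_num) (by omega)
    exact h
  let ι : B →+* A := B.subtype.codRestrict A (fun x => x.2)
  let r : B →+* κ := res.comp ι
  obtain ⟨ΦP, hΦP, hevP⟩ := hS B hB2 hB3 W P (fun m =>
    (ValuationSubring.valuation_le_one_iff A _).1 (hP m))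
  obtain ⟨ΦQ, hΦQ, hevQ⟩ := hS B hB2 hB3 (W + 2 * S) Q (fun m =>
    (ValuationSubring.valuation_le_one_iff A _).1 (hQ m))
  have hr0 : ∀ x : B, A.valuation (x : ℂ) < 1 → r x = 0 := by
    intro x hx
    have h1 : ι x ∈ IsLocalRing.maximalIdeal A := by
      rw [ValuationSubring.valuation_lt_one_iff]
      exact hx
    exact (IsLocalRing.residue_eq_zero_iff (ι x)).2 h1
  set f0 := MvPolynomial.map r ΦP with hf0
  set fT := MvPolynomial.map r ΦQ with hfT
  have hf0w := levelOne_isWH_map r ΦP W hΦP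
  have hfTw := levelOne_isWH_map r ΦQ (W + 2 * S) hΦQ
  have hE2B : PowerSeries.map B.subtype (E2R B) = E2R ℂ := by
    ext k
    simp [E2R, PowerSeries.coeff_map]
  have hE2κ : PowerSeries.map r (E2R B) = E2R κ := by
    ext k
    simp [E2R, PowerSeries.coeff_map]
  have hrel : ev κ fT = E2R κ ^ S * ev κ f0 := by
    rw [hfT, hf0, levelOne_ev_map, levelOne_ev_map, ← hE2κ, ← map_pow, ← map_mul]
    rw [← sub_eq_zero, ← map_sub]
    ext m
    rw [PowerSeries.coeff_map, map_zero]
    apply hr0
    have h1 : ((PowerSeries.coeff m (ev B ΦQ - E2R B ^ S * ev B ΦP) : B) : ℂ) =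
        PowerSeries.coeff m (PowerSeries.map B.subtype (ev B ΦQ - E2R B ^ S * ev B ΦP)) := by
      rw [PowerSeries.coeff_map]
      rfl
    rw [h1, map_sub, map_mul, map_pow, hE2B, hevP, hevQ]
    exact hdiff m
  have hf00 : f0 ≠ 0 := by
    intro h0
    have h1 : PowerSeries.coeff 0 (ev κ f0) = 0 := by rw [h0, map_zero, map_zero]
    rw [hf0, levelOne_ev_map, PowerSeries.coeff_map] at h1
    have h3 : ((PowerSeries.coeff 0 (ev B ΦP) : B) : ℂ) = PowerSeries.coeff 0
        (PowerSeries.map B.subtype (ev B ΦP)) := by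
      rw [PowerSeries.coeff_map]
      rfl
    have h4 : IsUnit (ι (PowerSeries.coeff 0 (ev B ΦP))) := by
      rw [ValuationSubring.valuation_eq_one_iff]
      change A.valuation ((PowerSeries.coeff 0 (ev B ΦP) : B) : ℂ) = 1
      rw [h3, hevP]
      exact hP0
    exact (IsLocalRing.residue_ne_zero_iff_isUnit _).2 h4 h1
  obtain ⟨a, ha, hev⟩ := hHa p hp hp5 κ
  obtain ⟨hda, heda⟩ := hD κ hk2 hk3 (p - 1) a ha
  have hC12 : (12 : MvPolynomial (Fin 2) κ) = MvPolynomial.C 12 := (map_ofNat _ 12).symm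
  set b : MvPolynomial (Fin 2) κ := 12 * del κ a with hb
  have hbw : b.IsWeightedHomogeneous wt (p + 1) := by
    have h := hda.C_mul 12
    have hpp : p - 1 + 2 = p + 1 := by omega
    rw [hpp] at h
    rw [hb, hC12]
    exact h
  have hp1 : ((p - 1 : ℕ) : κ) = -1 := by
    rw [Nat.cast_sub (by omega), hpA]
    simp
  have hev12 : ev κ 12 = 12 := map_ofNat _ 12
  have hP12 : (12 : PowerSeries κ) = PowerSeries.C 12 := (map_ofNat _ 12).symm
  have hevb : ev κ b = E2R κ := by
    rw [hb, map_mul, heda, hev, coprime_thd_one, hp1, hev12, mul_one, zero_sub, hP12, mul_neg,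
      ← mul_assoc, ← map_mul]
    have : (12 : κ) * (-1 / 12) = -1 := by
      rw [← mul_div_assoc, mul_div_cancel_left₀ _ hk12]
    rw [this, map_neg, map_one]
    ring
  have hrp : IsRelPrime a b := hC p hp hp5 κ a ha hev
  have haS : (a ^ S).IsWeightedHomogeneous wt (S * (p - 1)) := by
    have := ha.pow S
    simpa [smul_eq_mul] using this
  have hbS : (b ^ S).IsWeightedHomogeneous wt (S * (p + 1)) := by
    have := hbw.pow S
    simpa [smul_eq_mul] using this
  have heq : a ^ S * fT = b ^ S * f0 := by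
    rw [← sub_eq_zero]
    have hw : S * (p - 1) + (W + 2 * S) = S * (p + 1) + W := by
      have : p + 1 = (p - 1) + 2 := by omega
      rw [this]
      ring
    apply hI κ hk2 hk3 (S * (p + 1) + W)
    · have h1 := haS.mul hfTw
      rw [hw] at h1
      have h3 := hbS.mul hf0w
      rw [sub_eq_add_neg]
      apply MvPolynomial.IsWeightedHomogeneous.add h1
      have h4 := h3.C_mul (-1)
      simpa using h4
    · rw [map_sub, map_mul, map_mul, map_pow, map_pow, hev, hevb, hrel]
      ring
  have hne : a ≠ 0 := by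
    rintro h0
    rw [h0, map_zero] at hev
    exact zero_ne_one hev
  have hdvd : a ^ S ∣ f0 := by
    have h1 : a ^ S ∣ b ^ S * f0 := ⟨fT, heq.symm⟩
    exact (hrp.pow (m := S) (n := S)).dvd_of_dvd_mul_left h1
  obtain ⟨W', hW', hw'⟩ := st_HomogDvd κ W f0 (a ^ S) hf0w hf00 hdvd
  have := MvPolynomial.IsWeightedHomogeneous.inj_right (pow_ne_zero S hne) haS hw'
  omega

end Pool.Agent.D12
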