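import Pool.Agent.D12.Stmts

set_option autoImplicit false

/-!
# Lattices all of whose shells are spherical 12-designs: module LevelOneForm
-/

namespace Pool.Agent.D12

open UpperHalfPlane OnePoint
open scoped MatrixGroups ModularForm

theorem st_LevelOneForm (hQ : QAlg) (hA : QAna) : St_LevelOneForm := by
  intro W φ N a hN hinv hφ
  have hb : IsBoundedAtImInfty φ := hA.bdd N hN φ a hφ
  have hslash : ∀ A ∈ (𝒮ℒ : Subgroup (GL (Fin 2) ℝ)), φ ∣[(W : ℤ)] A = φ := by
    rintro _ ⟨γ, rfl⟩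
    exact hinv γ
  have hcusp : ∀ {c : OnePoint ℝ}, IsCusp c 𝒮ℒ → c.IsBoundedAt φ (W : ℤ) := by
    intro c hc
    rw [isBoundedAt_iff_forall_SL2Z hc]
    intro γ _
    rw [hinv γ]
    exact hb
  let P : ModularForm 𝒮ℒ (W : ℤ) :=
    { toFun := φ
      slash_action_eq' := hslash
      holo' := hA.mdiff N hN φ a hφ
      bdd_at_cusps' := fun hc => hcusp hc }
  refine ⟨P, rfl, ?_⟩
  exact hQ.unique N hN φ a _ hφ (hQ.expand N hN φ _ (hQ.ofForm (W : ℤ) P))

end Pool.Agent.D12
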