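import Pool.Agent.D12.Stmts

set_option autoImplicit false

/-!
# Lattices all of whose shells are spherical 12-designs: module Norm
-/

namespace Pool.Agent.D12

open UpperHalfPlane hiding I
open Complex Matrix Derivative
open scoped BigOperators MatrixGroups Real Manifold ModularForm

theorem norm_hasQ_zero (N : ℕ) : HasQ N (0 : ℍ → ℂ) 0 := by
  intro τ
  simp

theorem norm_hasQ_one (N : ℕ) : HasQ N (1 : ℍ → ℂ) 1 := by
  intro τ
  have := hasSum_ite_eq (0 : ℕ) (1 : ℂ)
  refine (this.congr_fun ?_)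
  intro k
  rw [PowerSeries.coeff_one]
  split_ifs with h
  · subst h; simp
  · simp

theorem norm_hasQ_sum (hQ : QAlg) (N : ℕ) {ι : Type} (s : Finset ι) (f : ι → ℍ → ℂ)
    (a : ι → PowerSeries ℂ) (h : ∀ i ∈ s, HasQ N (f i) (a i)) :
    HasQ N (∑ i ∈ s, f i) (∑ i ∈ s, a i) := by
  classical
  induction s using Finset.induction_on with
  | empty => simpa using norm_hasQ_zero N
  | insert i t hi ih =>
    rw [Finset.sum_insert hi, Finset.sum_insert hi]
    exact hQ.add N _ _ _ _ (h i (Finset.mem_insert_self _ _))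
      (ih fun j hj => h j (Finset.mem_insert_of_mem hj))

theorem norm_hasQ_prod (hQ : QAlg) (N : ℕ) (hN : 0 < N) {ι : Type} (s : Finset ι)
    (f : ι → ℍ → ℂ) (a : ι → PowerSeries ℂ) (h : ∀ i ∈ s, HasQ N (f i) (a i)) :
    HasQ N (∏ i ∈ s, f i) (∏ i ∈ s, a i) := by
  classical
  induction s using Finset.induction_on with
  | empty => simpa using norm_hasQ_one N
  | insert i t hi ih =>
    rw [Finset.prod_insert hi, Finset.prod_insert hi]
    exact hQ.mul N hN _ _ _ _ (h i (Finset.mem_insert_self _ _))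
      (ih fun j hj => h j (Finset.mem_insert_of_mem hj))

theorem norm_prod_slash (W d : ℕ) {ι : Type} [Fintype ι] (hd : Fintype.card ι = d)
    (f : ι → ℍ → ℂ) (γ : SL(2, ℤ)) :
    (∏ i, f i) ∣[((W * d : ℕ) : ℤ)] γ = ∏ i, (f i ∣[(W : ℤ)] γ) := by
  funext τ
  rw [ModularForm.SL_slash_apply, Finset.prod_apply, Finset.prod_apply]
  simp only [ModularForm.SL_slash_apply]
  rw [Finset.prod_mul_distrib, Finset.prod_const, Finset.card_univ, hd, ← zpow_natCast,
    ← _root_.zpow_mul]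
  push_cast
  congr 2
  ring

/-- coefficients in `A` -/
def NLe (A : ValuationSubring ℂ) (a : PowerSeries ℂ) : Prop :=
  ∀ k, A.valuation (PowerSeries.coeff k a) ≤ 1

/-- coefficients in the maximal ideal -/
def NLt (A : ValuationSubring ℂ) (a : PowerSeries ℂ) : Prop :=
  ∀ k, A.valuation (PowerSeries.coeff k a) < 1

theorem norm_lt_le (A : ValuationSubring ℂ) (a : PowerSeries ℂ) (h : NLt A a) : NLe A a :=
  fun k => (h k).le

theorem norm_le_mul (A : ValuationSubring ℂ) (a b : PowerSeries ℂ) (ha : NLe A a)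
    (hb : NLe A b) : NLe A (a * b) := by
  intro k
  rw [PowerSeries.coeff_mul]
  refine Valuation.map_sum_le _ fun q _ => ?_
  rw [map_mul]
  exact mul_le_one' (ha _) (hb _)

theorem norm_lt_mul (A : ValuationSubring ℂ) (a b : PowerSeries ℂ) (ha : NLe A a)
    (hb : NLt A b) : NLt A (a * b) := by
  intro k
  rw [PowerSeries.coeff_mul]
  refine Valuation.map_sum_lt _ (one_ne_zero) fun q _ => ?_
  rw [map_mul]
  exact lt_of_le_of_lt (mul_le_of_le_one_left' (ha _)) (hb _)

theorem norm_le_one (A : ValuationSubring ℂ) : NLe A 1 := by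
  intro k
  rw [PowerSeries.coeff_one]
  split_ifs <;> simp

theorem norm_le_C (A : ValuationSubring ℂ) (c : ℂ) (hc : A.valuation c ≤ 1) (a : PowerSeries ℂ)
    (ha : NLe A a) : NLe A (PowerSeries.C c * a) := by
  intro k
  rw [PowerSeries.coeff_C_mul, map_mul]
  exact mul_le_one' hc (ha k)

theorem norm_lt_C (A : ValuationSubring ℂ) (c : ℂ) (hc : A.valuation c ≤ 1) (a : PowerSeries ℂ)
    (ha : NLt A a) : NLt A (PowerSeries.C c * a) := by
  intro k
  rw [PowerSeries.coeff_C_mul, map_mul]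
  exact lt_of_le_of_lt (mul_le_of_le_one_left' hc) (ha k)

theorem norm_le_sum (A : ValuationSubring ℂ) {ι : Type} (s : Finset ι) (a : ι → PowerSeries ℂ)
    (h : ∀ i ∈ s, NLe A (a i)) : NLe A (∑ i ∈ s, a i) := by
  intro k
  rw [map_sum]
  exact Valuation.map_sum_le _ fun i hi => h i hi k

theorem norm_lt_sum (A : ValuationSubring ℂ) {ι : Type} (s : Finset ι) (a : ι → PowerSeries ℂ)
    (h : ∀ i ∈ s, NLt A (a i)) : NLt A (∑ i ∈ s, a i) := by
  intro k
  rw [map_sum]
  exact Valuation.map_sum_lt _ one_ne_zero fun i hi => h i hi k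

theorem norm_le_prod (A : ValuationSubring ℂ) {ι : Type} (s : Finset ι) (a : ι → PowerSeries ℂ)
    (h : ∀ i ∈ s, NLe A (a i)) : NLe A (∏ i ∈ s, a i) := by
  classical
  induction s using Finset.induction_on with
  | empty => simpa using norm_le_one A
  | insert i t hi ih =>
    rw [Finset.prod_insert hi]
    exact norm_le_mul A _ _ (h i (Finset.mem_insert_self _ _))
      (ih fun j hj => h j (Finset.mem_insert_of_mem hj))

theorem norm_prod_cong (A : ValuationSubring ℂ) {ι : Type} (s : Finset ι)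
    (c b : ι → PowerSeries ℂ) (hc : ∀ i ∈ s, NLe A (c i)) (hb : ∀ i ∈ s, NLe A (b i))
    (h : ∀ i ∈ s, NLt A (c i - b i)) : NLt A (∏ i ∈ s, c i - ∏ i ∈ s, b i) := by
  classical
  induction s using Finset.induction_on with
  | empty => intro k; simp
  | insert i t hi ih =>
    rw [Finset.prod_insert hi, Finset.prod_insert hi]
    have h1 := ih (fun j hj => hc j (Finset.mem_insert_of_mem hj))
      (fun j hj => hb j (Finset.mem_insert_of_mem hj))
      (fun j hj => h j (Finset.mem_insert_of_mem hj))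
    have h2 := norm_lt_mul A (c i) _ (hc i (Finset.mem_insert_self _ _)) h1
    have h3 := norm_lt_mul A (∏ j ∈ t, b j) _
      (norm_le_prod A t b fun j hj => hb j (Finset.mem_insert_of_mem hj))
      (h i (Finset.mem_insert_self _ _))
    have heq : c i * ∏ j ∈ t, c j - b i * ∏ j ∈ t, b j =
        c i * (∏ j ∈ t, c j - ∏ j ∈ t, b j) + (∏ j ∈ t, b j) * (c i - b i) := by ring
    rw [heq]
    intro k
    rw [map_add]
    exact Valuation.map_add_lt _ (h2 k) (h3 k)

theorem norm_le_pow (A : ValuationSubring ℂ) (a : PowerSeries ℂ) (ha : NLe A a) (j : ℕ) :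
    NLe A (a ^ j) := by
  induction j with
  | zero => rw [pow_zero]; exact norm_le_one A
  | succ j ih => rw [pow_succ]; exact norm_le_mul A _ _ ih ha

theorem norm_E2 (A : ValuationSubring ℂ) (N : ℕ) : NLe A (ex N (E2R ℂ)) := by
  intro k
  rw [ex, PowerSeries.coeff_mk]
  split_ifs
  · rw [E2R, PowerSeries.coeff_map, ValuationSubring.valuation_le_one_iff]
    exact intCast_mem A _
  · simp

theorem norm_ex_pow (hX : St_Ex) (N : ℕ) (hN : 0 < N) (a : PowerSeries ℂ) (j : ℕ) :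
    ex N (a ^ j) = ex N a ^ j := by
  obtain ⟨h1, -, h3⟩ := hX ℂ N hN
  induction j with
  | zero => rw [pow_zero, pow_zero, h1]
  | succ j ih => rw [pow_succ, pow_succ, h3, ih]

theorem st_Norm (hQ : QAlg) (hA : QAna) (hX : St_Ex) (hE : St_EisQ) (hF : St_LevelOneForm)
    (hG : St_Generic) (hL : St_LevelOne) : St_Norm := by
  classical
  intro p hp hp5 A hv n j N F T hK
  obtain ⟨hN, ⟨Γ', hfin, hinv⟩, hexp, γ0, B0, hB0, hunit⟩ := hK
  -- the finite group
  let Γ0 : Subgroup SL(2, ℤ) := Γ'.normalCore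
  have hΓ0 : ∀ g ∈ Γ0, g ∈ Γ' := fun g hg => Subgroup.normalCore_le Γ' hg
  have : Γ0.Normal := Subgroup.normalCore_normal Γ'
  have : Γ0.FiniteIndex := Subgroup.finiteIndex_normalCore Γ'
  let C : Type := SL(2, ℤ) ⧸ Γ0
  have : Finite C := Subgroup.finite_quotient_of_finiteIndex
  let _ : Fintype C := Fintype.ofFinite C
  let pr : SL(2, ℤ) →* C := QuotientGroup.mk' Γ0
  let out : C → SL(2, ℤ) := fun r => Quotient.out r
  have hout : ∀ r : C, pr (out r) = r := fun r => QuotientGroup.out_eq' r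
  let f : C → ℍ → ℂ := fun r => F ∣[((n : ℕ) : ℤ)] (out r)
  let t : C → ℍ → ℂ := fun r => T ∣[((n + 4 * j : ℕ) : ℤ)] (out r)
  have hrel : ∀ γ : SL(2, ℤ), ∃ g ∈ Γ', γ = g * out (pr γ) := by
    intro γ
    refine ⟨γ * (out (pr γ))⁻¹, hΓ0 _ ?_, by group⟩
    have h1 : pr (γ * (out (pr γ))⁻¹) = 1 := by
      rw [map_mul, map_inv, hout, mul_inv_cancel]
    exact (QuotientGroup.eq_one_iff _).mp h1
  have hf : ∀ γ : SL(2, ℤ), f (pr γ) = F ∣[((n : ℕ) : ℤ)] γ := by
    intro γ
    obtain ⟨g, hg, he⟩ := hrel γ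
    conv_rhs => rw [he, SlashAction.slash_mul, (hinv g hg).1]
  have ht : ∀ γ : SL(2, ℤ), t (pr γ) = T ∣[((n + 4 * j : ℕ) : ℤ)] γ := by
    intro γ
    obtain ⟨g, hg, he⟩ := hrel γ
    conv_rhs => rw [he, SlashAction.slash_mul, (hinv g hg).2]
  have hfs : ∀ (r : C) (γ : SL(2, ℤ)), f r ∣[((n : ℕ) : ℤ)] γ = f (r * pr γ) := by
    intro r γ
    have h1 : r * pr γ = pr (out r * γ) := by rw [map_mul, hout]
    rw [h1, hf, SlashAction.slash_mul]
  have hts : ∀ (r : C) (γ : SL(2, ℤ)), t r ∣[((n + 4 * j : ℕ) : ℤ)] γ = t (r * pr γ) := by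
    intro r γ
    have h1 : r * pr γ = pr (out r * γ) := by rw [map_mul, hout]
    rw [h1, ht, SlashAction.slash_mul]
  choose B Cc h1 h2 h3 h4 h5 using fun r : C => hexp (out r)
  have ha1 : ∀ s, A.valuation (PowerSeries.coeff 0 (B s)) ≤ 1 := fun s => h3 s 0
  have ha2 : ∃ s, A.valuation (PowerSeries.coeff 0 (B s)) = 1 := by
    refine ⟨pr γ0, ?_⟩
    have : B (pr γ0) = B0 := by
      refine hQ.unique N hN _ _ _ (h1 (pr γ0)) ?_
      have h := hf γ0
      show HasQ N (f (pr γ0)) B0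
      rw [h]; exact hB0
    rw [this]; exact hunit
  obtain ⟨x, hx1, hx2⟩ := hG A C (fun s => PowerSeries.coeff 0 (B s)) ha1 ha2
  -- the generic combinations
  let fr : C → ℍ → ℂ := fun r => ∑ s, x s • f (s * r)
  let tr : C → ℍ → ℂ := fun r => ∑ s, x s • t (s * r)
  let br : C → PowerSeries ℂ := fun r => ∑ s, PowerSeries.C (x s) * B (s * r)
  let cr : C → PowerSeries ℂ := fun r => ∑ s, PowerSeries.C (x s) * Cc (s * r)
  have hfr : ∀ r, HasQ N (fr r) (br r) := fun r =>
    norm_hasQ_sum hQ N _ _ _ fun s _ => hQ.smul N _ _ _ (h1 (s * r))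
  have htr : ∀ r, HasQ N (tr r) (cr r) := fun r =>
    norm_hasQ_sum hQ N _ _ _ fun s _ => hQ.smul N _ _ _ (h2 (s * r))
  have hfrs : ∀ r (γ : SL(2, ℤ)), fr r ∣[((n : ℕ) : ℤ)] γ = fr (r * pr γ) := by
    intro r γ
    show (∑ s, x s • f (s * r)) ∣[((n : ℕ) : ℤ)] γ = _
    rw [SlashAction.sum_slash]
    refine Finset.sum_congr rfl fun s _ => ?_
    rw [ModularForm.SL_smul_slash, hfs, mul_assoc]
  have htrs : ∀ r (γ : SL(2, ℤ)), tr r ∣[((n + 4 * j : ℕ) : ℤ)] γ = tr (r * pr γ) := by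
    intro r γ
    show (∑ s, x s • t (s * r)) ∣[((n + 4 * j : ℕ) : ℤ)] γ = _
    rw [SlashAction.sum_slash]
    refine Finset.sum_congr rfl fun s _ => ?_
    rw [ModularForm.SL_smul_slash, hts, mul_assoc]
  let d : ℕ := Fintype.card C
  have hd : 0 < d := Fintype.card_pos
  let W : ℕ := n * d
  let S : ℕ := 2 * j * d
  have hWS : (n + 4 * j) * d = W + 2 * S := by
    show (n + 4 * j) * d = n * d + 2 * (2 * j * d)
    ring
  have hPinv : ∀ γ : SL(2, ℤ), (∏ r, fr r) ∣[(W : ℤ)] γ = ∏ r, fr r := by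
    intro γ
    rw [norm_prod_slash n d rfl]
    simp only [hfrs]
    exact Fintype.prod_equiv (Equiv.mulRight (pr γ)) _ _ (fun r => rfl)
  have hQinv : ∀ γ : SL(2, ℤ), (∏ r, tr r) ∣[((W + 2 * S : ℕ) : ℤ)] γ = ∏ r, tr r := by
    intro γ
    rw [← hWS, norm_prod_slash (n + 4 * j) d rfl]
    simp only [htrs]
    exact Fintype.prod_equiv (Equiv.mulRight (pr γ)) _ _ (fun r => rfl)
  have hPq := norm_hasQ_prod hQ N hN Finset.univ fr br (fun r _ => hfr r)
  have hQq := norm_hasQ_prod hQ N hN Finset.univ tr cr (fun r _ => htr r)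
  obtain ⟨P, hP, hPe⟩ := hF W _ N _ hN hPinv hPq
  obtain ⟨Q, hQ', hQe⟩ := hF (W + 2 * S) _ N _ hN hQinv hQq
  -- integrality
  have hbr : ∀ r, NLe A (br r) := fun r =>
    norm_le_sum A _ _ fun s _ => norm_le_C A _ (hx1 s) _ (h3 (s * r))
  have hcr : ∀ r, NLe A (cr r) := fun r =>
    norm_le_sum A _ _ fun s _ => norm_le_C A _ (hx1 s) _ (h4 (s * r))
  have hcong : ∀ r, NLt A (cr r - ex N (E2R ℂ) ^ (2 * j) * br r) := by
    intro r
    have : cr r - ex N (E2R ℂ) ^ (2 * j) * br r =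
        ∑ s, PowerSeries.C (x s) * (Cc (s * r) - ex N (E2R ℂ) ^ (2 * j) * B (s * r)) := by
      show (∑ s, PowerSeries.C (x s) * Cc (s * r)) - ex N (E2R ℂ) ^ (2 * j) *
        (∑ s, PowerSeries.C (x s) * B (s * r)) = _
      rw [Finset.mul_sum, ← Finset.sum_sub_distrib]
      exact Finset.sum_congr rfl fun s _ => by ring
    rw [this]
    exact norm_lt_sum A _ _ fun s _ => norm_lt_C A _ (hx1 s) _ (h5 (s * r))
  have hPle : NLe A (∏ r, br r) := norm_le_prod A _ _ fun r _ => hbr r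
  have hQle : NLe A (∏ r, cr r) := norm_le_prod A _ _ fun r _ => hcr r
  have hmain : NLt A (∏ r, cr r - ex N (E2R ℂ) ^ S * ∏ r, br r) := by
    have h := norm_prod_cong A Finset.univ cr (fun r => ex N (E2R ℂ) ^ (2 * j) * br r)
      (fun r _ => hcr r)
      (fun r _ => norm_le_mul A _ _ (norm_le_pow A _ (norm_E2 A N) _) (hbr r))
      (fun r _ => hcong r)
    rw [Finset.prod_mul_distrib, Finset.prod_const, ← pow_mul, Finset.card_univ] at h
    exact h
  have hexc : ∀ (a : PowerSeries ℂ) (m : ℕ), PowerSeries.coeff (m * N) (ex N a) =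
      PowerSeries.coeff m a := by
    intro a m
    rw [ex, PowerSeries.coeff_mk, if_pos (Dvd.intro_left m rfl), Nat.mul_div_cancel m hN]
  have hsub : ex N (qExpansion 1 Q - E2R ℂ ^ S * qExpansion 1 P) =
      ∏ r, cr r - ex N (E2R ℂ) ^ S * ∏ r, br r := by
    obtain ⟨-, e2, e3⟩ := hX ℂ N hN
    have h := e2 (qExpansion 1 Q - E2R ℂ ^ S * qExpansion 1 P) (E2R ℂ ^ S * qExpansion 1 P)
    rw [sub_add_cancel, e3, norm_ex_pow hX N hN, ← hQe, ← hPe] at h
    rw [h]
    exact (add_sub_cancel_right _ _).symm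
  have hfinal := hL p hp hp5 A hv W S P Q
    (fun m => by rw [← hexc, ← hPe]; exact hPle _)
    (by
      rw [← hexc _ 0, ← hPe, zero_mul, PowerSeries.coeff_zero_eq_constantCoeff, map_prod,
        map_prod]
      refine Finset.prod_eq_one fun r _ => ?_
      have h := hx2 r
      convert h using 2
      show PowerSeries.constantCoeff (∑ s, PowerSeries.C (x s) * B (s * r)) = _
      rw [map_sum]
      refine Finset.sum_congr rfl fun s _ => ?_
      rw [map_mul, PowerSeries.constantCoeff_C, PowerSeries.coeff_zero_eq_constantCoeff])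
    (fun m => by rw [← hexc, ← hQe]; exact hQle _)
    (fun m => by rw [← hexc, hsub]; exact hmain _)
  have hfin2 : (2 * j * (p - 1)) * d ≤ n * d := by
    calc (2 * j * (p - 1)) * d = S * (p - 1) := by
          show (2 * j * (p - 1)) * d = 2 * j * d * (p - 1)
          ring
      _ ≤ W := hfinal
      _ = n * d := rfl
  exact Nat.le_of_mul_le_mul_right hfin2 hd

end Pool.Agent.D12
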