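import Pool.Agent.D12.Stmts

set_option autoImplicit false

/-!
# Lattices all of whose shells are spherical 12-designs: module Poisson
-/

namespace Pool.Agent.D12

open Complex Matrix MeasureTheory

/-- the bilinear form -/
noncomputable def poissonB {n : ℕ} (M : Matrix (Fin n) (Fin n) ℤ) (x y : Fin n → ℝ) : ℝ :=
  x ⬝ᵥ ((M.map (fun a : ℤ => (a : ℝ))) *ᵥ y)

theorem poisson_qfR_self {n : ℕ} (M : Matrix (Fin n) (Fin n) ℤ) (x : Fin n → ℝ) :
    qfR M x = poissonB M x x := rfl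

theorem poisson_par {n : ℕ} (M : Matrix (Fin n) (Fin n) ℤ) (x y : Fin n → ℝ) :
    qfR M (x + y) + qfR M (x - y) = 2 * qfR M x + 2 * qfR M y := by
  simp only [qfR, Matrix.mulVec_add, Matrix.mulVec_sub, add_dotProduct, dotProduct_add,
    sub_dotProduct, dotProduct_sub]
  ring

theorem poisson_lower {n : ℕ} (M : Matrix (Fin n) (Fin n) ℤ) (hM : ∀ x, 0 ≤ qfR M x)
    (a v : Fin n → ℝ) : qfR M v / 2 - qfR M a ≤ qfR M (a + v) := by
  have h1 := poisson_par M (a + v) a
  have h2 := hM (a + v + a)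
  rw [add_sub_cancel_left] at h1
  linarith

theorem poisson_smul {n : ℕ} (M : Matrix (Fin n) (Fin n) ℤ) (c : ℝ) (x : Fin n → ℝ) :
    qfR M (c • x) = c ^ 2 * qfR M x := by
  simp only [qfR, Matrix.mulVec_smul, smul_dotProduct, dotProduct_smul, smul_eq_mul]
  ring

theorem poisson_int {n : ℕ} (M : Matrix (Fin n) (Fin n) ℤ) (z : Fin n → ℤ) :
    qfR M (fun i => (z i : ℝ)) = (qf M z : ℝ) := by
  simp [qfR, qf, dotProduct, Matrix.mulVec]

theorem poisson_cont {n : ℕ} (M : Matrix (Fin n) (Fin n) ℤ) : Continuous (qfR M) := by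
  unfold qfR
  simp only [dotProduct, Matrix.mulVec]
  fun_prop

theorem poisson_pos {n : ℕ} {G : Matrix (Fin n) (Fin n) ℤ} (hG : EvenForm G) (x : Fin n → ℝ) :
    0 ≤ qfR G x := by
  by_cases hx : x = 0
  · subst hx
    simp [qfR]
  · exact (hG.pos x hx).le

theorem poisson_adj_pos {n : ℕ} {G : Matrix (Fin n) (Fin n) ℤ} (hG : EvenForm G)
    (hd : 0 < G.det) (x : Fin n → ℝ) : 0 ≤ qfR G.adjugate x := by
  set GR : Matrix (Fin n) (Fin n) ℝ := G.map (fun a : ℤ => (a : ℝ)) with hGR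
  have hadj : (G.adjugate).map (fun a : ℤ => (a : ℝ)) = GR.adjugate := by
    have := RingHom.map_adjugate (Int.castRingHom ℝ) G
    simpa using this
  have hdet : GR.det = (G.det : ℝ) := by
    have := RingHom.map_det (Int.castRingHom ℝ) G
    simpa using this.symm
  have hd' : (0 : ℝ) < G.det := by exact_mod_cast hd
  set u : Fin n → ℝ := (G.det : ℝ)⁻¹ • (GR.adjugate *ᵥ x) with hu
  have h1 : GR *ᵥ u = x := by
    rw [hu, Matrix.mulVec_smul, Matrix.mulVec_mulVec, Matrix.mul_adjugate, hdet,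
      Matrix.smul_mulVec, Matrix.one_mulVec, smul_smul, inv_mul_cancel₀ hd'.ne', one_smul]
  have h2 : GR.adjugate *ᵥ x = (G.det : ℝ) • u := by
    rw [hu, smul_smul, mul_inv_cancel₀ hd'.ne', one_smul]
  have h3 : qfR G.adjugate x = (G.det : ℝ) * qfR G u := by
    unfold qfR
    rw [hadj, h2, dotProduct_smul, smul_eq_mul, ← hGR]
    congr 1
    rw [dotProduct_comm]
    conv_lhs => rw [← h1]
  rw [h3]
  exact mul_nonneg hd'.le (poisson_pos hG u)

/-- the summand, as a function on `ℝⁿ` -/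
noncomputable def poissonF {n : ℕ} (G : Matrix (Fin n) (Fin n) ℤ) (s : ℂ) (b : Fin n → ℝ)
    (u : Fin n → ℝ) : ℂ :=
  cexp (-Real.pi * s * (qfR G u : ℂ) + 2 * Real.pi * I * ((∑ i, u i * b i : ℝ) : ℂ))

theorem poissonF_norm {n : ℕ} (G : Matrix (Fin n) (Fin n) ℤ) (s : ℂ) (b : Fin n → ℝ)
    (u : Fin n → ℝ) : ‖poissonF G s b u‖ = Real.exp (-(Real.pi * s.re * qfR G u)) := by
  unfold poissonF
  rw [Complex.norm_exp]
  congr 1
  simp [-ofReal_sum]

theorem poissonF_cont {n : ℕ} (G : Matrix (Fin n) (Fin n) ℤ) (s : ℂ) (b : Fin n → ℝ) :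
    Continuous (poissonF G s b) := by
  unfold poissonF
  have := poisson_cont G
  fun_prop

/-- the affine map -/
def poissonA {n : ℕ} (c : ℕ) (y : Fin n → ℤ) (x : Fin n → ℝ) : Fin n → ℝ :=
  (fun i => (y i : ℝ)) + (c : ℝ) • x

theorem poissonA_cont {n : ℕ} (c : ℕ) (y : Fin n → ℤ) : Continuous (poissonA c y) := by
  unfold poissonA
  fun_prop

theorem poisson_sup {n : ℕ} {G : Matrix (Fin n) (Fin n) ℤ} (hG : EvenForm G) (hFF : FormFacts G)
    (c : ℕ) (hc : 0 < c) (s : ℂ) (hs : 0 < s.re) (y : Fin n → ℤ) (b : Fin n → ℝ) (R : ℝ) :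
    Summable (fun z : Fin n → ℤ => ⨆ x : {x : Fin n → ℝ // ∀ i, |x i| ≤ R},
      ‖poissonF G s b (poissonA c y (fun i => x.1 i + z i))‖) := by
  have hK : IsCompact {x : Fin n → ℝ | ∀ i, |x i| ≤ R} := by
    have : {x : Fin n → ℝ | ∀ i, |x i| ≤ R} = Set.pi Set.univ (fun _ => Set.Icc (-R) R) := by
      ext x
      simp only [Set.mem_ofPred_eq, Set.mem_pi, Set.mem_univ, forall_true_left, Set.mem_Icc,
        abs_le]
    rw [this]
    exact isCompact_univ_pi fun _ => isCompact_Icc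
  obtain ⟨M, hM⟩ := hK.bddAbove_image (f := fun x => qfR G (poissonA c y x))
    ((poisson_cont G).comp (poissonA_cont c y)).continuousOn
  have hc' : (0 : ℝ) < c := by exact_mod_cast hc
  have ht : 0 < Real.pi * s.re * (c : ℝ) ^ 2 / 2 := by
    have := Real.pi_pos
    positivity
  have hsum := (hFF.exp_sum _ ht).mul_left (Real.exp (Real.pi * s.re * M))
  refine Summable.of_nonneg_of_le (fun z => Real.iSup_nonneg fun _ => norm_nonneg _)
    (fun z => ?_) hsum
  refine Real.iSup_le (fun x => ?_) (by positivity)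
  rw [poissonF_norm, ← Real.exp_add, Real.exp_le_exp]
  have e1 : poissonA c y (fun i => x.1 i + z i) =
      poissonA c y x.1 + (c : ℝ) • (fun i => (z i : ℝ)) := by
    funext i
    simp only [poissonA, Pi.add_apply, Pi.smul_apply, smul_eq_mul]
    ring
  have e2 := poisson_lower G (poisson_pos hG) (poissonA c y x.1) ((c : ℝ) • (fun i => (z i : ℝ)))
  rw [poisson_smul, poisson_int] at e2
  have e3 : qfR G (poissonA c y x.1) ≤ M := hM ⟨x.1, x.2, rfl⟩
  rw [e1]
  have hp : 0 ≤ Real.pi * s.re := by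
    have := Real.pi_pos
    positivity
  have e4 := mul_le_mul_of_nonneg_left (show (c : ℝ) ^ 2 * (qf G z : ℝ) / 2 - M ≤
    qfR G (poissonA c y x.1 + (c : ℝ) • (fun i => (z i : ℝ))) by linarith) hp
  nlinarith

theorem poisson_fourier {n : ℕ} {G : Matrix (Fin n) (Fin n) ℤ} (hG : EvenForm G)
    (hF : St_Fourier) (c : ℕ) (hc : 0 < c) (s : ℂ) (hs : 0 < s.re) (y : Fin n → ℤ)
    (b : Fin n → ℝ) (w : Fin n → ℤ) :
    ∫ x : Fin n → ℝ, poissonF G s b (poissonA c y x) *
      cexp (-(2 * Real.pi * I * (prR w x : ℂ))) =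
      s ^ (-(n : ℂ) / 2) * ((c : ℂ) ^ n)⁻¹ * ((Real.sqrt (G.det : ℝ) : ℝ) : ℂ)⁻¹ *
        cexp (-Real.pi * ((qfR G.adjugate (fun i => (w i : ℝ) - c * b i) / (G.det : ℝ) : ℝ) : ℂ) /
            ((c : ℂ) ^ 2 * s) + 2 * Real.pi * I * ((w ⬝ᵥ y : ℤ) : ℂ) / c) := by
  have hc' : (c : ℝ) ≠ 0 := by
    have : (0 : ℝ) < c := by exact_mod_cast hc
    exact this.ne'
  have hcC : (c : ℂ) ≠ 0 := by exact_mod_cast hc'
  set v : Fin n → ℝ := fun i => (w i : ℝ) / c - b i with hv
  set g : (Fin n → ℝ) → ℂ := fun u =>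
    cexp (2 * Real.pi * I * ((w ⬝ᵥ y : ℤ) : ℂ) / c) *
      cexp (-Real.pi * s * (qfR G u : ℂ) - 2 * Real.pi * I * ((∑ i, v i * u i : ℝ) : ℂ)) with hg
  have h1 : ∀ x : Fin n → ℝ, poissonF G s b (poissonA c y x) *
      cexp (-(2 * Real.pi * I * (prR w x : ℂ))) = g ((fun i => (y i : ℝ)) + (c : ℝ) • x) := by
    intro x
    rw [hg]
    simp only [poissonF, poissonA]
    rw [← Complex.exp_add, ← Complex.exp_add]
    congr 1
    have e1 : ((w ⬝ᵥ y : ℤ) : ℂ) / c = ((∑ i, (w i : ℝ) * y i / c : ℝ) : ℂ) := by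
      simp only [dotProduct]
      push_cast
      rw [Finset.sum_div]
    have e2 : 2 * (Real.pi : ℂ) * I * ((w ⬝ᵥ y : ℤ) : ℂ) / c =
        2 * Real.pi * I * (((w ⬝ᵥ y : ℤ) : ℂ) / c) := by ring
    rw [e2, e1]
    have e3 : ∑ i, ((fun i => (y i : ℝ)) + (c : ℝ) • x) i * b i - prR w x =
        ∑ i, (w i : ℝ) * y i / c - ∑ i, v i * ((fun i => (y i : ℝ)) + (c : ℝ) • x) i := by
      unfold prR
      rw [← Finset.sum_sub_distrib, ← Finset.sum_sub_distrib]
      refine Finset.sum_congr rfl fun i _ => ?_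
      simp only [hv, Pi.add_apply, Pi.smul_apply, smul_eq_mul]
      field_simp
      ring
    have e4 := congrArg (fun r : ℝ => (r : ℂ)) e3
    simp only [ofReal_sub] at e4
    linear_combination (2 * Real.pi * I) * e4
  simp only [h1]
  have h2 : ∫ x : Fin n → ℝ, g ((fun i => (y i : ℝ)) + (c : ℝ) • x) =
      |((c : ℝ) ^ n)⁻¹| • ∫ x : Fin n → ℝ, g x := by
    have e1 := Measure.integral_comp_smul (μ := (volume : Measure (Fin n → ℝ)))
      (fun x => g ((fun i => (y i : ℝ)) + x)) (c : ℝ)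
    rw [Module.finrank_fin_fun] at e1
    rw [e1, integral_add_left_eq_self]
  rw [h2, hg, integral_const_mul, (hF n G hG s hs v).2]
  have h3 : qfR G.adjugate v = qfR G.adjugate (fun i => (w i : ℝ) - c * b i) / (c : ℝ) ^ 2 := by
    have : (fun i => (w i : ℝ) - c * b i) = (c : ℝ) • v := by
      funext i
      simp only [hv, Pi.smul_apply, smul_eq_mul]
      field_simp
    rw [this, poisson_smul]
    field_simp
  rw [h3, abs_of_nonneg (by positivity), real_smul]
  rw [Complex.exp_add]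
  have h4 : -(Real.pi : ℂ) * ((qfR G.adjugate (fun i => (w i : ℝ) - c * b i) / (c : ℝ) ^ 2 /
      (G.det : ℝ) : ℝ) : ℂ) / s =
      -Real.pi * ((qfR G.adjugate (fun i => (w i : ℝ) - c * b i) / (G.det : ℝ) : ℝ) : ℂ) /
            ((c : ℂ) ^ 2 * s) := by
    rw [ofReal_div, ofReal_div, ofReal_div, ofReal_pow, ofReal_natCast]
    ring
  rw [h4, ofReal_inv, ofReal_pow, ofReal_natCast]
  ring

theorem poisson_sum_w {n : ℕ} {G : Matrix (Fin n) (Fin n) ℤ} (hG : EvenForm G)
    (hFF : FormFacts G) (c : ℕ) (hc : 0 < c) (s : ℂ) (hs : 0 < s.re) (y : Fin n → ℤ)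
    (b : Fin n → ℝ) :
    Summable (fun w : Fin n → ℤ => cexp (-Real.pi *
        ((qfR G.adjugate (fun i => (w i : ℝ) - c * b i) / (G.det : ℝ) : ℝ) : ℂ) / ((c : ℂ) ^ 2 * s) +
        2 * Real.pi * I * ((w ⬝ᵥ y : ℤ) : ℂ) / c)) := by
  have hd' : (0 : ℝ) < G.det := by exact_mod_cast hFF.det_pos
  have hc' : (0 : ℝ) < c := by exact_mod_cast hc
  have hsn : 0 < Complex.normSq s := by
    rw [Complex.normSq_pos]
    rintro rfl
    simp at hs
  set κ : ℝ := Real.pi * (s.re / Complex.normSq s) / ((G.det : ℝ) * (c : ℝ) ^ 2) with hκ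
  have hκ0 : 0 < κ := by
    have := Real.pi_pos
    positivity
  have hnorm : ∀ w : Fin n → ℤ, ‖cexp (-Real.pi *
        ((qfR G.adjugate (fun i => (w i : ℝ) - c * b i) / (G.det : ℝ) : ℝ) : ℂ) / ((c : ℂ) ^ 2 * s) +
        2 * Real.pi * I * ((w ⬝ᵥ y : ℤ) : ℂ) / c)‖ =
      Real.exp (-(κ * qfR G.adjugate (fun i => (w i : ℝ) - c * b i))) := by
    intro w
    rw [Complex.norm_exp]
    congr 1
    have e1 : -(Real.pi : ℂ) *
        ((qfR G.adjugate (fun i => (w i : ℝ) - c * b i) / (G.det : ℝ) : ℝ) : ℂ) /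
          ((c : ℂ) ^ 2 * s) =
        ((-(Real.pi * (qfR G.adjugate (fun i => (w i : ℝ) - c * b i) / (G.det : ℝ)) /
          (c : ℝ) ^ 2) : ℝ) : ℂ) * s⁻¹ := by
      push_cast
      field_simp
    have e2 : 2 * (Real.pi : ℂ) * I * ((w ⬝ᵥ y : ℤ) : ℂ) / c =
        ((2 * Real.pi * ((w ⬝ᵥ y : ℤ) : ℝ) / c : ℝ) : ℂ) * I := by
      push_cast
      ring
    rw [e1, e2, Complex.add_re, Complex.re_ofReal_mul, Complex.re_ofReal_mul, Complex.I_re,
      mul_zero, add_zero, Complex.inv_re, hκ]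
    field_simp
  have hM := poisson_lower G.adjugate (poisson_adj_pos hG hFF.det_pos)
    (fun i => -((c : ℝ) * b i))
  set M := qfR G.adjugate (fun i => -((c : ℝ) * b i)) with hMdef
  have hsum := (hFF.adj_exp_sum (κ / 2) (by positivity)).mul_left (Real.exp (κ * M))
  refine Summable.of_norm_bounded hsum fun w => ?_
  rw [hnorm, ← Real.exp_add, Real.exp_le_exp]
  have e1 := hM (fun i => (w i : ℝ))
  rw [poisson_int] at e1
  have e2 : (fun i => -((c : ℝ) * b i)) + (fun i => (w i : ℝ)) =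
      fun i => (w i : ℝ) - c * b i := by
    funext i
    simp only [Pi.add_apply]
    ring
  rw [e2] at e1
  have e3 := mul_le_mul_of_nonneg_left e1 hκ0.le
  nlinarith

theorem st_Poisson (hFF : St_FormFacts) (hF : St_Fourier) (hP : St_PoissonGen) : St_Poisson := by
  intro n G hG c hc s hs y b
  have hG' := hFF n G hG
  have hval : ∀ z : Fin n → ℤ, cexp (-Real.pi * s * ((qf G (y + (c : ℤ) • z) : ℤ) : ℂ) +
        2 * Real.pi * I * (prR (y + (c : ℤ) • z) b : ℂ)) =
      poissonF G s b (poissonA c y (fun i => (z i : ℝ))) := by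
    intro z
    have e1 : poissonA c y (fun i => (z i : ℝ)) =
        fun i => (((y + (c : ℤ) • z) i : ℤ) : ℝ) := by
      funext i
      simp [poissonA]
    rw [e1]
    unfold poissonF
    rw [poisson_int]
    unfold prR
    push_cast
    rfl
  have hsup := poisson_sup hG hG' c hc s hs y b
  have hcont : Continuous (fun x => poissonF G s b (poissonA c y x)) :=
    (poissonF_cont G s b).comp (poissonA_cont c y)
  have hint : Integrable (fun x => poissonF G s b (poissonA c y x)) := by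
    have h1 : Integrable (poissonF G s b) := by
      refine (hF n G hG s hs 0).1.mono (poissonF_cont G s b).aestronglyMeasurable
        (Filter.Eventually.of_forall fun x => ?_)
      rw [poissonF_norm, Complex.norm_exp]
      simp
    have hc' : (c : ℝ) ≠ 0 := by
      have : (0 : ℝ) < c := by exact_mod_cast hc
      exact this.ne'
    have h2 := (h1.comp_add_left (fun i => (y i : ℝ))).comp_smul hc'
    exact h2
  have hw := poisson_sum_w hG hG' c hc s hs y b
  have hfs : Summable (fun w : Fin n → ℤ => ∫ x : Fin n → ℝ,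
      poissonF G s b (poissonA c y x) * cexp (-(2 * Real.pi * I * (prR w x : ℂ)))) := by
    simp only [poisson_fourier hG hF c hc s hs y b]
    exact hw.mul_left _
  have hmain := hP n (fun x => poissonF G s b (poissonA c y x)) hcont hint hsup hfs
  simp only [poisson_fourier hG hF c hc s hs y b] at hmain
  rw [tsum_mul_left] at hmain
  refine ⟨?_, hw, ?_⟩
  · simp only [hval]
    refine Summable.of_norm_bounded (hsup 0) fun z => ?_
    have hb : BddAbove (Set.range (fun x : {x : Fin n → ℝ // ∀ i, |x i| ≤ 0} =>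
        ‖poissonF G s b (poissonA c y (fun i => x.1 i + z i))‖)) := by
      refine ⟨‖poissonF G s b (poissonA c y (fun i => (z i : ℝ)))‖, ?_⟩
      rintro _ ⟨x, rfl⟩
      have : (fun i => x.1 i + (z i : ℝ)) = fun i => (z i : ℝ) := by
        funext i
        rw [abs_nonpos_iff.mp (x.2 i), zero_add]
      simp only [this]
      exact le_rfl
    have h0 := le_ciSup hb ⟨0, fun i => by simp⟩
    simpa using h0
  · simp only [hval]
    exact hmain

end Pool.Agent.D12
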