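import Pool.Agent.D12.Stmts

set_option autoImplicit false

/-!
# Lattices all of whose shells are spherical 12-designs: module PoissonGen
-/

namespace Pool.Agent.D12

open MeasureTheory Complex UnitAddTorus

/-- translation by an integral vector -/
def poissonGenAdd {n : ℕ} (x : Fin n → ℝ) (z : Fin n → ℤ) : Fin n → ℝ := fun i => x i + z i

theorem poissonGen_cont {n : ℕ} (z : Fin n → ℤ) :
    Continuous (fun x : Fin n → ℝ => poissonGenAdd x z) := by
  unfold poissonGenAdd
  fun_prop

/-- the bound for the terms -/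
theorem poissonGen_le {n : ℕ} {f : (Fin n → ℝ) → ℂ} (hf : Continuous f) (R : ℝ)
    (z : Fin n → ℤ) (x : Fin n → ℝ) (hx : ∀ i, |x i| ≤ R) :
    ‖f (poissonGenAdd x z)‖ ≤
      ⨆ x : {x : Fin n → ℝ // ∀ i, |x i| ≤ R}, ‖f (fun i => x.1 i + z i)‖ := by
  have hb : BddAbove (Set.range
      (fun x : {x : Fin n → ℝ // ∀ i, |x i| ≤ R} => ‖f (fun i => x.1 i + z i)‖)) := by
    have hK : IsCompact {x : Fin n → ℝ | ∀ i, |x i| ≤ R} := by
      have : {x : Fin n → ℝ | ∀ i, |x i| ≤ R} = Set.pi Set.univ (fun _ => Set.Icc (-R) R) := by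
        ext x
        simp only [Set.mem_ofPred_eq, Set.mem_pi, Set.mem_univ, forall_true_left, Set.mem_Icc,
          abs_le]
      rw [this]
      exact isCompact_univ_pi fun _ => isCompact_Icc
    have h1 : Continuous (fun x : Fin n → ℝ => ‖f (fun i => x i + z i)‖) :=
      (hf.comp (poissonGen_cont z)).norm
    obtain ⟨B, hB⟩ := hK.bddAbove_image h1.continuousOn
    refine ⟨B, ?_⟩
    rintro _ ⟨x, rfl⟩
    exact hB ⟨x.1, x.2, rfl⟩
  exact le_ciSup hb ⟨x, hx⟩

/-- the periodization -/
noncomputable def poissonGenP {n : ℕ} (f : (Fin n → ℝ) → ℂ) (x : Fin n → ℝ) : ℂ :=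
  ∑' z : Fin n → ℤ, f (poissonGenAdd x z)

theorem poissonGenP_cont {n : ℕ} {f : (Fin n → ℝ) → ℂ} (hf : Continuous f)
    (hs : ∀ R : ℝ, Summable (fun z : Fin n → ℤ =>
      ⨆ x : {x : Fin n → ℝ // ∀ i, |x i| ≤ R}, ‖f (fun i => x.1 i + z i)‖)) :
    Continuous (poissonGenP f) := by
  rw [continuous_iff_continuousAt]
  intro x0
  set R := ‖x0‖ + 1 with hR
  have h1 : ContinuousOn (poissonGenP f) (Metric.closedBall 0 R) := by
    refine continuousOn_tsum (fun z => (hf.comp (poissonGen_cont z)).continuousOn) (hs R) ?_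
    intro z x hx
    refine poissonGen_le hf R z x fun i => ?_
    rw [mem_closedBall_zero_iff] at hx
    exact (norm_le_pi_norm x i).trans hx
  refine h1.continuousAt ?_
  refine Metric.closedBall_mem_nhds_of_mem ?_
  rw [mem_ball_zero_iff]
  linarith

theorem poissonGenP_add {n : ℕ} (f : (Fin n → ℝ) → ℂ) (x : Fin n → ℝ) (k : Fin n → ℤ) :
    poissonGenP f (poissonGenAdd x k) = poissonGenP f x := by
  unfold poissonGenP
  rw [← (Equiv.addLeft k).tsum_eq (fun z => f (poissonGenAdd x z))]
  refine tsum_congr fun z => ?_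
  congr 1
  funext i
  simp only [poissonGenAdd, Equiv.coe_addLeft, Pi.add_apply]
  push_cast
  ring

theorem poissonGenP_eq {n : ℕ} (f : (Fin n → ℝ) → ℂ) (a b : Fin n → ℝ)
    (h : ∀ i, ((a i : ℝ) : UnitAddCircle) = ((b i : ℝ) : UnitAddCircle)) :
    poissonGenP f a = poissonGenP f b := by
  have h1 : ∀ i, ∃ k : ℤ, b i = a i + k := by
    intro i
    have h2 := QuotientAddGroup.eq.mp (h i)
    obtain ⟨k, hk⟩ := AddSubgroup.mem_zmultiples_iff.mp h2
    refine ⟨k, ?_⟩
    rw [zsmul_eq_mul, mul_one] at hk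
    linarith
  choose k hk using h1
  have h3 : b = poissonGenAdd a k := by
    funext i
    exact hk i
  rw [h3, poissonGenP_add]

/-- the projection to the torus -/
def poissonGenPi {n : ℕ} (x : Fin n → ℝ) : UnitAddTorus (Fin n) := fun i => (x i : UnitAddCircle)

theorem poissonGenPi_quot {n : ℕ} : IsOpenQuotientMap (poissonGenPi (n := n)) := by
  have : (poissonGenPi (n := n)) =
      Pi.map (fun _ : Fin n => (QuotientAddGroup.mk : ℝ → UnitAddCircle)) := rfl
  rw [this]
  exact IsOpenQuotientMap.piMap fun _ => QuotientAddGroup.isOpenQuotientMap_mk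

/-- the function on the torus -/
noncomputable def poissonGenF {n : ℕ} {f : (Fin n → ℝ) → ℂ} (hf : Continuous f)
    (hs : ∀ R : ℝ, Summable (fun z : Fin n → ℤ =>
      ⨆ x : {x : Fin n → ℝ // ∀ i, |x i| ≤ R}, ‖f (fun i => x.1 i + z i)‖)) :
    C(UnitAddTorus (Fin n), ℂ) where
  toFun y := poissonGenP f (Function.surjInv poissonGenPi_quot.surjective y)
  continuous_toFun := by
    rw [poissonGenPi_quot.isQuotientMap.continuous_iff]
    have : (fun y => poissonGenP f (Function.surjInv poissonGenPi_quot.surjective y)) ∘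
        poissonGenPi = poissonGenP f := by
      funext x
      refine poissonGenP_eq f _ _ fun i => ?_
      exact congrFun (Function.surjInv_eq poissonGenPi_quot.surjective (poissonGenPi x)) i
    rw [this]
    exact poissonGenP_cont hf hs

theorem poissonGenF_apply {n : ℕ} {f : (Fin n → ℝ) → ℂ} (hf : Continuous f)
    (hs : ∀ R : ℝ, Summable (fun z : Fin n → ℤ =>
      ⨆ x : {x : Fin n → ℝ // ∀ i, |x i| ≤ R}, ‖f (fun i => x.1 i + z i)‖)) (x : Fin n → ℝ) :
    poissonGenF hf hs (poissonGenPi x) = poissonGenP f x := by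
  refine poissonGenP_eq f _ _ fun i => ?_
  exact congrFun (Function.surjInv_eq poissonGenPi_quot.surjective (poissonGenPi x)) i

/-- the unit cube at an integral point -/
def poissonGenCube {n : ℕ} (z : Fin n → ℤ) : Set (Fin n → ℝ) :=
  {x | ∀ i, x i ∈ Set.Ioc (z i : ℝ) (z i + 1)}

theorem poissonGenCube_meas {n : ℕ} (z : Fin n → ℤ) : MeasurableSet (poissonGenCube z) :=
  MeasurableSet.univ_pi' fun _ => measurableSet_Ioc

theorem poissonGenCube_iUnion {n : ℕ} : ⋃ z : Fin n → ℤ, poissonGenCube z = Set.univ := by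
  rw [Set.eq_univ_iff_forall]
  intro x
  rw [Set.mem_iUnion]
  refine ⟨fun i => ⌈x i⌉ - 1, fun i => ?_⟩
  have h1 := Int.ceil_lt_add_one (x i)
  have h2 := Int.le_ceil (x i)
  push_cast
  constructor <;> linarith

theorem poissonGenCube_disj {n : ℕ} :
    Pairwise (Function.onFun Disjoint (fun z : Fin n → ℤ => poissonGenCube z)) := by
  intro z w hzw
  rw [Function.onFun, Set.disjoint_left]
  intro x hx hy
  apply hzw
  funext i
  obtain ⟨a1, a2⟩ := hx i
  obtain ⟨b1, b2⟩ := hy i
  have c1 : (z i : ℝ) < w i + 1 := by linarith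
  have c2 : (w i : ℝ) < z i + 1 := by linarith
  have d1 : z i < w i + 1 := by exact_mod_cast c1
  have d2 : w i < z i + 1 := by exact_mod_cast c2
  omega

theorem poissonGen_shift {n : ℕ} (g : (Fin n → ℝ) → ℂ) (z : Fin n → ℤ) :
    ∫ x in poissonGenCube (0 : Fin n → ℤ), g (poissonGenAdd x z) =
      ∫ x in poissonGenCube z, g x := by
  have hpre : (fun x : Fin n → ℝ => x + (fun i => (z i : ℝ))) ⁻¹' poissonGenCube z =
      poissonGenCube 0 := by
    ext x
    simp only [poissonGenCube, Set.mem_preimage, Set.mem_ofPred_eq, Set.mem_Ioc, Pi.add_apply,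
      Pi.zero_apply, Int.cast_zero]
    refine forall_congr' fun i => ?_
    constructor
    · rintro ⟨h1, h2⟩
      constructor <;> linarith
    · rintro ⟨h1, h2⟩
      constructor <;> linarith
  rw [← hpre]
  exact (measurePreserving_add_right volume (fun i => (z i : ℝ))).setIntegral_preimage_emb
    (MeasurableEquiv.addRight (fun i => (z i : ℝ))).measurableEmbedding g (poissonGenCube z)

theorem poissonGen_vol {n : ℕ} : volume (poissonGenCube (0 : Fin n → ℤ)) = 1 := by
  have : poissonGenCube (0 : Fin n → ℤ) = Set.pi Set.univ (fun _ => Set.Ioc (0 : ℝ) 1) := by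
    ext x
    simp [poissonGenCube]
  rw [this, Real.volume_pi_Ioc]
  simp

theorem poissonGen_char {n : ℕ} (w : Fin n → ℤ) (x : Fin n → ℝ) :
    mFourier (-w) (poissonGenPi x) = cexp (-(2 * Real.pi * I * (prR w x : ℂ))) := by
  unfold mFourier poissonGenPi prR
  simp only [ContinuousMap.coe_mk, fourier_coe_apply, Pi.neg_apply]
  rw [← Complex.exp_sum]
  congr 1
  push_cast
  rw [Finset.mul_sum, ← Finset.sum_neg_distrib]
  refine Finset.sum_congr rfl fun i _ => ?_
  ring

theorem poissonGen_period {n : ℕ} (w z : Fin n → ℤ) (x : Fin n → ℝ) :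
    cexp (-(2 * Real.pi * I * (prR w (poissonGenAdd x z) : ℂ))) =
      cexp (-(2 * Real.pi * I * (prR w x : ℂ))) := by
  rw [← poissonGen_char, ← poissonGen_char]
  congr 1
  funext i
  unfold poissonGenPi poissonGenAdd
  rw [AddCircle.coe_add]
  have : ((z i : ℝ) : UnitAddCircle) = 0 := by
    have h := AddCircle.coe_eq_zero_iff (1 : ℝ) (x := (z i : ℝ))
    rw [h]
    exact ⟨z i, by simp⟩
  rw [this, add_zero]

theorem poissonGen_coeff {n : ℕ} {f : (Fin n → ℝ) → ℂ} (hf : Continuous f) (hi : Integrable f)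
    (hs : ∀ R : ℝ, Summable (fun z : Fin n → ℤ =>
      ⨆ x : {x : Fin n → ℝ // ∀ i, |x i| ≤ R}, ‖f (fun i => x.1 i + z i)‖)) (w : Fin n → ℤ) :
    mFourierCoeff (poissonGenF hf hs) w =
      ∫ x : Fin n → ℝ, f x * cexp (-(2 * Real.pi * I * (prR w x : ℂ))) := by
  set g : (Fin n → ℝ) → ℂ := fun x => f x * cexp (-(2 * Real.pi * I * (prR w x : ℂ))) with hg
  have hgc : Continuous g := by
    refine hf.mul ?_
    unfold prR
    fun_prop
  have hgn : ∀ x, ‖g x‖ = ‖f x‖ := by
    intro x
    rw [hg]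
    simp only [norm_mul]
    rw [Complex.norm_exp]
    simp
  have hgi : Integrable g := hi.mono hgc.aestronglyMeasurable
    (Filter.Eventually.of_forall fun x => (hgn x).le)
  have hset : {x : Fin n → ℝ | ∀ i, x i ∈ Set.Ioc ((0 : Fin n → ℝ) i) ((0 : Fin n → ℝ) i + 1)} =
      poissonGenCube 0 := by
    ext x
    simp [poissonGenCube]
  rw [mFourierCoeff_eq_integral _ _ (0 : Fin n → ℝ), hset]
  have h1 : ∀ x : Fin n → ℝ, mFourier (-w) (fun i => (x i : UnitAddCircle)) •
      (poissonGenF hf hs) (fun i => (x i : UnitAddCircle)) =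
      ∑' z : Fin n → ℤ, g (poissonGenAdd x z) := by
    intro x
    have e1 := poissonGenF_apply hf hs x
    have e2 := poissonGen_char w x
    unfold poissonGenPi at e1 e2
    rw [e1, e2, smul_eq_mul, poissonGenP, ← tsum_mul_left]
    refine tsum_congr fun z => ?_
    rw [hg]
    simp only [poissonGen_period]
    ring
  simp only [h1]
  have hb : ∀ (z : Fin n → ℤ) (x : Fin n → ℝ), x ∈ poissonGenCube (0 : Fin n → ℤ) →
      ‖g (poissonGenAdd x z)‖ ≤
        ⨆ x : {x : Fin n → ℝ // ∀ i, |x i| ≤ 1}, ‖f (fun i => x.1 i + z i)‖ := by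
    intro z x hx
    rw [hgn]
    refine poissonGen_le hf 1 z x fun i => ?_
    obtain ⟨a1, a2⟩ := hx i
    simp only [Pi.zero_apply, Int.cast_zero] at a1 a2
    rw [abs_of_pos a1]
    linarith
  have hgiz : ∀ z : Fin n → ℤ, Integrable (fun x => g (poissonGenAdd x z)) := by
    intro z
    exact hgi.comp_add_right (fun i => (z i : ℝ))
  rw [← integral_tsum_of_summable_integral_norm (fun z => (hgiz z).integrableOn)]
  · simp only [poissonGen_shift]
    rw [← integral_iUnion (fun z => poissonGenCube_meas z) poissonGenCube_disj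
      hgi.integrableOn, poissonGenCube_iUnion, setIntegral_univ]
  · refine Summable.of_nonneg_of_le (fun z => integral_nonneg fun x => norm_nonneg _)
      (fun z => ?_) (hs 1)
    have := norm_setIntegral_le_of_norm_le_const (μ := volume)
      (s := poissonGenCube (0 : Fin n → ℤ)) (f := fun x => ‖g (poissonGenAdd x z)‖)
      (C := ⨆ x : {x : Fin n → ℝ // ∀ i, |x i| ≤ 1}, ‖f (fun i => x.1 i + z i)‖)
      (by rw [poissonGen_vol]; exact ENNReal.one_lt_top)
      (fun x hx => by rw [norm_norm]; exact hb z x hx)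
    rw [Measure.real, poissonGen_vol, ENNReal.toReal_one, mul_one] at this
    exact (le_abs_self _).trans this

theorem st_PoissonGen : St_PoissonGen := by
  intro n f hf hi hs hsum
  have hc : mFourierCoeff (poissonGenF hf hs) =
      fun w : Fin n → ℤ => ∫ x : Fin n → ℝ, f x * cexp (-(2 * Real.pi * I * (prR w x : ℂ))) := by
    funext w
    exact poissonGen_coeff hf hi hs w
  have h1 : Summable (mFourierCoeff (poissonGenF hf hs)) := by
    rw [hc]
    exact hsum
  have h2 := hasSum_mFourier_series_apply_of_summable h1 (poissonGenPi 0)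
  rw [poissonGenF_apply] at h2
  have h3 : ∀ w : Fin n → ℤ, mFourier w (poissonGenPi (0 : Fin n → ℝ)) = 1 := by
    intro w
    have := poissonGen_char (-w) (0 : Fin n → ℝ)
    rw [neg_neg] at this
    rw [this]
    simp [prR]
  simp only [h3, smul_eq_mul, mul_one] at h2
  have h4 := h2.tsum_eq
  have h5 : poissonGenP f 0 = ∑' z : Fin n → ℤ, f (fun i => (z i : ℝ)) := by
    unfold poissonGenP poissonGenAdd
    simp
  rw [← h5, ← h4, hc]

end Pool.Agent.D12
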