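import Pool.Agent.D12.Stmts

set_option autoImplicit false

/-!
# Lattices all of whose shells are spherical 12-designs: module Prop
-/

namespace Pool.Agent.D12

open UpperHalfPlane hiding I
open Complex Matrix Derivative
open scoped BigOperators MatrixGroups Real

/-! ### Power series -/

theorem prop_series_zero {u : ℕ → ℂ} {r C : ℝ} (hr : 0 < r)
    (hs : Summable fun k => ‖u k‖ * r ^ k) {M : ℕ}
    (h : ∀ x : ℝ, 0 < x → x < r → ‖∑' k, u k * (x : ℂ) ^ k‖ ≤ C * x ^ M) :
    ∀ k, k < M → u k = 0 := by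
  intro k
  induction k using Nat.strong_induction_on with
  | _ k ih =>
    intro hk
    have hs' : Summable fun j => ‖u (j + (k + 1))‖ * r ^ j := by
      have h1 := (summable_nat_add_iff (k + 1)).2 hs
      have h2 := h1.mul_right ((r ^ (k + 1))⁻¹)
      refine h2.congr fun j => ?_
      rw [pow_add]
      field_simp
    set V : ℝ := ∑' j, ‖u (j + (k + 1))‖ * r ^ j with hV
    have hV0 : 0 ≤ V := tsum_nonneg fun j => by positivity
    have hC0 : 0 ≤ |C| := abs_nonneg C
    have key : ∀ x : ℝ, 0 < x → x < r → ‖u k‖ ≤ x * (|C| * r ^ (M - k - 1) + V) := by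
      intro x hx hxr
      have hsx : Summable fun j => u j * (x : ℂ) ^ j := by
        refine Summable.of_norm_bounded (g := fun j => ‖u j‖ * r ^ j) hs fun j => ?_
        rw [norm_mul, norm_pow, Complex.norm_real, Real.norm_of_nonneg hx.le]
        gcongr
      have h1 : ∑' j, u j * (x : ℂ) ^ j = u k * (x : ℂ) ^ k +
          ∑' j, u (j + (k + 1)) * (x : ℂ) ^ (j + (k + 1)) := by
        rw [← hsx.sum_add_tsum_nat_add (k + 1), Finset.sum_range_succ]
        congr 1
        rw [Finset.sum_eq_zero, zero_add]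
        intro j hj
        rw [ih j (Finset.mem_range.1 hj) (lt_trans (Finset.mem_range.1 hj) hk), zero_mul]
      have h2 : ‖∑' j, u (j + (k + 1)) * (x : ℂ) ^ (j + (k + 1))‖ ≤ x ^ (k + 1) * V := by
        have h3 : ∀ j, ‖u (j + (k + 1)) * (x : ℂ) ^ (j + (k + 1))‖ ≤
            x ^ (k + 1) * (‖u (j + (k + 1))‖ * r ^ j) := by
          intro j
          rw [norm_mul, norm_pow, Complex.norm_real, Real.norm_of_nonneg hx.le, pow_add]
          have : x ^ j ≤ r ^ j := by gcongr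
          nlinarith [mul_nonneg (norm_nonneg (u (j + (k + 1)))) (pow_nonneg hx.le (k + 1)),
            mul_le_mul_of_nonneg_left this
              (mul_nonneg (norm_nonneg (u (j + (k + 1)))) (pow_nonneg hx.le (k + 1)))]
        rw [hV, ← tsum_mul_left]
        exact tsum_of_norm_bounded (hs'.mul_left _).hasSum h3
      have h4 : ‖u k‖ * x ^ k ≤ |C| * x ^ M + x ^ (k + 1) * V := by
        have h5 : u k * (x : ℂ) ^ k = ∑' j, u j * (x : ℂ) ^ j -
            ∑' j, u (j + (k + 1)) * (x : ℂ) ^ (j + (k + 1)) := by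
          rw [h1]
          ring
        have h6 : ‖u k * (x : ℂ) ^ k‖ = ‖u k‖ * x ^ k := by
          rw [norm_mul, norm_pow, Complex.norm_real, Real.norm_of_nonneg hx.le]
        rw [← h6, h5]
        refine (norm_sub_le _ _).trans (add_le_add ((h x hx hxr).trans ?_) h2)
        exact mul_le_mul_of_nonneg_right (le_abs_self C) (by positivity)
      have h7 : x ^ M = x ^ k * (x * x ^ (M - k - 1)) := by
        rw [← pow_succ', ← pow_add]
        congr 1
        omega
      have h8 : x ^ (M - k - 1) ≤ r ^ (M - k - 1) := by gcongr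
      have h9 : ‖u k‖ * x ^ k ≤ (x * (|C| * r ^ (M - k - 1) + V)) * x ^ k := by
        refine h4.trans ?_
        rw [h7]
        have h10 := mul_le_mul_of_nonneg_left h8 (by positivity : 0 ≤ |C| * x * x ^ k)
        have h11 : x ^ (k + 1) * V = x * V * x ^ k := by ring
        rw [h11]
        nlinarith
      exact le_of_mul_le_mul_right h9 (by positivity)
    have hlim : Filter.Tendsto (fun x : ℝ => x * (|C| * r ^ (M - k - 1) + V))
        (nhdsWithin 0 (Set.Ioi 0)) (nhds (0 * (|C| * r ^ (M - k - 1) + V))) :=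
      ((continuous_id.mul continuous_const).tendsto 0).mono_left nhdsWithin_le_nhds
    rw [zero_mul] at hlim
    have h12 : ‖u k‖ ≤ 0 := by
      refine ge_of_tendsto hlim ?_
      have h13 : Set.Ioo (0 : ℝ) r ∈ nhdsWithin (0 : ℝ) (Set.Ioi 0) := Ioo_mem_nhdsGT hr
      filter_upwards [h13] with x hx
      exact key x hx.1 hx.2
    exact norm_le_zero_iff.1 h12

theorem prop_taylor {ι : Type*} (c x : ι → ℂ)
    (hs : Summable fun z => ‖c z‖ * Real.exp (2 * ‖x z‖)) (M : ℕ) :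
    (∀ m, Summable fun z => c z * x z ^ m) ∧ ∃ C : ℝ, ∀ s : ℝ, |s| ≤ 1 →
      ‖∑' z, c z * cexp (s * x z) - ∑ m ∈ Finset.range M,
        (s : ℂ) ^ m * ((∑' z, c z * x z ^ m) / (m.factorial : ℂ))‖ ≤ C * |s| ^ M := by
  have hpow : ∀ (m : ℕ) (z : ι), ‖x z‖ ^ m ≤ m.factorial * Real.exp ‖x z‖ := by
    intro m z
    have := Real.pow_div_factorial_le_exp _ (norm_nonneg (x z)) m
    rw [div_le_iff₀ (by positivity)] at this
    linarith
  have hexp : ∀ z : ι, Real.exp ‖x z‖ ≤ Real.exp (2 * ‖x z‖) := by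
    intro z
    exact Real.exp_le_exp.2 (by linarith [norm_nonneg (x z)])
  have h1 : ∀ m, Summable fun z => c z * x z ^ m := by
    intro m
    refine Summable.of_norm_bounded (hs.mul_left (m.factorial : ℝ)) fun z => ?_
    rw [norm_mul, norm_pow]
    have h2 := mul_le_mul_of_nonneg_left ((hpow m z).trans
      (mul_le_mul_of_nonneg_left (hexp z) (Nat.cast_nonneg _))) (norm_nonneg (c z))
    linarith
  refine ⟨h1, M.factorial * ∑' z, ‖c z‖ * Real.exp (2 * ‖x z‖), fun s hs1 => ?_⟩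
  have hse : Summable fun z => c z * cexp (s * x z) := by
    refine Summable.of_norm_bounded hs fun z => ?_
    rw [norm_mul]
    gcongr
    refine (Complex.norm_exp_le_exp_norm _).trans (Real.exp_le_exp.2 ?_)
    rw [norm_mul, Complex.norm_real, Real.norm_eq_abs]
    nlinarith [norm_nonneg (x z), abs_nonneg s]
  have hsm : ∀ m ∈ Finset.range M, Summable fun z =>
      (s : ℂ) ^ m * ((c z * x z ^ m) / (m.factorial : ℂ)) := fun m _ =>
    ((h1 m).div_const _).mul_left _
  have h3 : ∑ m ∈ Finset.range M, (s : ℂ) ^ m * ((∑' z, c z * x z ^ m) / (m.factorial : ℂ)) =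
      ∑' z, ∑ m ∈ Finset.range M, (s : ℂ) ^ m * ((c z * x z ^ m) / (m.factorial : ℂ)) := by
    rw [Summable.tsum_finsetSum hsm]
    refine Finset.sum_congr rfl fun m _ => ?_
    rw [tsum_mul_left, tsum_div_const]
  rw [h3, ← Summable.tsum_sub hse (summable_sum hsm)]
  have h4 : ∀ z, ‖c z * cexp (s * x z) - ∑ m ∈ Finset.range M,
      (s : ℂ) ^ m * ((c z * x z ^ m) / (m.factorial : ℂ))‖ ≤
      (M.factorial * |s| ^ M) * (‖c z‖ * Real.exp (2 * ‖x z‖)) := by
    intro z
    have h5 : c z * cexp (s * x z) - ∑ m ∈ Finset.range M,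
        (s : ℂ) ^ m * ((c z * x z ^ m) / (m.factorial : ℂ)) =
        c z * (cexp (s * x z) - ∑ m ∈ Finset.range M, (s * x z) ^ m / (m.factorial : ℂ)) := by
      rw [mul_sub, Finset.mul_sum]
      congr 1
      refine Finset.sum_congr rfl fun m _ => ?_
      rw [mul_pow]
      ring
    rw [h5, norm_mul]
    have h6 := Complex.norm_exp_sub_sum_le_norm_mul_exp ((s : ℂ) * x z) M
    have h7 : ‖(s : ℂ) * x z‖ = |s| * ‖x z‖ := by
      rw [norm_mul, Complex.norm_real, Real.norm_eq_abs]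
    rw [h7, mul_pow] at h6
    have h8 : Real.exp (|s| * ‖x z‖) ≤ Real.exp ‖x z‖ :=
      Real.exp_le_exp.2 (by nlinarith [norm_nonneg (x z), abs_nonneg s])
    have h9 : |s| ^ M * ‖x z‖ ^ M * Real.exp (|s| * ‖x z‖) ≤
        |s| ^ M * (M.factorial * Real.exp ‖x z‖) * Real.exp ‖x z‖ := by
      have := hpow M z
      gcongr
    have h10 : Real.exp ‖x z‖ * Real.exp ‖x z‖ = Real.exp (2 * ‖x z‖) := by
      rw [← Real.exp_add]
      congr 1
      ring
    calc ‖c z‖ * ‖cexp (s * x z) - ∑ m ∈ Finset.range M, (s * x z) ^ m / (m.factorial : ℂ)‖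
        ≤ ‖c z‖ * (|s| ^ M * (M.factorial * Real.exp ‖x z‖) * Real.exp ‖x z‖) :=
          mul_le_mul_of_nonneg_left (h6.trans h9) (norm_nonneg _)
      _ = (M.factorial * |s| ^ M) * (‖c z‖ * (Real.exp ‖x z‖ * Real.exp ‖x z‖)) := by ring
      _ = _ := by rw [h10]
  refine (tsum_of_norm_bounded (hs.mul_left _).hasSum h4).trans (le_of_eq ?_)
  rw [tsum_mul_left]
  ring

/-! ### The quadratic form -/

variable {n : ℕ}

theorem prop_prR_smul (w : Fin n → ℤ) (l : ℝ) (b : Fin n → ℝ) :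
    prR w (l • b) = l * prR w b := by
  unfold prR
  rw [Finset.mul_sum]
  refine Finset.sum_congr rfl fun i _ => ?_
  simp only [Pi.smul_apply, smul_eq_mul]
  ring

theorem prop_prR_neg (w : Fin n → ℤ) (b : Fin n → ℝ) : prR (-w) b = -prR w b := by
  unfold prR
  rw [← Finset.sum_neg_distrib]
  refine Finset.sum_congr rfl fun i _ => ?_
  simp

theorem prop_qfR_smul (G : Matrix (Fin n) (Fin n) ℤ) (l : ℝ) (b : Fin n → ℝ) :
    qfR G (l • b) = l ^ 2 * qfR G b := by
  unfold qfR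
  rw [Matrix.mulVec_smul, smul_dotProduct, dotProduct_smul]
  simp only [smul_eq_mul]
  ring

theorem prop_qf_neg (G : Matrix (Fin n) (Fin n) ℤ) (z : Fin n → ℤ) : qf G (-z) = qf G z := by
  unfold qf
  rw [Matrix.mulVec_neg, neg_dotProduct, dotProduct_neg, neg_neg]

theorem prop_mulVec_cast (G : Matrix (Fin n) (Fin n) ℤ) (z : Fin n → ℤ) (i : Fin n) :
    (((G *ᵥ z) i : ℤ) : ℝ) = ((G.map (fun a : ℤ => (a : ℝ))) *ᵥ (fun j => (z j : ℝ))) i := by
  simp [Matrix.mulVec, dotProduct]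

theorem prop_qf_cast (G : Matrix (Fin n) (Fin n) ℤ) (z : Fin n → ℤ) :
    ((qf G z : ℤ) : ℝ) = qfR G (fun j => (z j : ℝ)) := by
  unfold qf qfR dotProduct
  push_cast
  refine Finset.sum_congr rfl fun i _ => ?_
  rw [prop_mulVec_cast]

/-- Cauchy-Schwarz in the form `y ≤ ε q(z) + q(b) / (4 ε)` -/
theorem prop_cs {G : Matrix (Fin n) (Fin n) ℤ} (hG : EvenForm G) (z : Fin n → ℤ)
    (b : Fin n → ℝ) {ε : ℝ} (hε : 0 < ε) :
    |prR (G *ᵥ z) b| ≤ ε * ((qf G z : ℤ) : ℝ) + qfR G b / (4 * ε) := by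
  set GR : Matrix (Fin n) (Fin n) ℝ := G.map (fun a : ℤ => (a : ℝ)) with hGR
  have hsymm : GRᵀ = GR := by
    rw [hGR, ← Matrix.transpose_map, hG.symm.eq]
  have hnn : ∀ x : Fin n → ℝ, 0 ≤ qfR G x := by
    intro x
    by_cases hx : x = 0
    · rw [hx]
      simp [qfR]
    · exact (hG.pos x hx).le
  set zr : Fin n → ℝ := fun j => (z j : ℝ) with hzr
  have hpr : prR (G *ᵥ z) b = (GR *ᵥ zr) ⬝ᵥ b := by
    unfold prR dotProduct
    refine Finset.sum_congr rfl fun i _ => ?_
    rw [prop_mulVec_cast]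
  have hpr2 : zr ⬝ᵥ (GR *ᵥ b) = (GR *ᵥ zr) ⬝ᵥ b := by
    rw [Matrix.dotProduct_mulVec, ← Matrix.mulVec_transpose, hsymm]
  have hpr3 : b ⬝ᵥ (GR *ᵥ zr) = (GR *ᵥ zr) ⬝ᵥ b := dotProduct_comm _ _
  have hexp : ∀ l : ℝ, qfR G (l • zr + b) = l ^ 2 * qfR G zr + 2 * l * prR (G *ᵥ z) b +
      qfR G b := by
    intro l
    unfold qfR
    rw [Matrix.mulVec_add, Matrix.mulVec_smul, add_dotProduct, dotProduct_add, dotProduct_add,
      smul_dotProduct, smul_dotProduct, dotProduct_smul, dotProduct_smul, hpr2, hpr3, hpr]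
    simp only [smul_eq_mul]
    ring
  rw [prop_qf_cast]
  have h1 := hnn ((2 * ε) • zr + b)
  have h2 := hnn ((-(2 * ε)) • zr + b)
  rw [hexp] at h1 h2
  rw [abs_le]
  have h3 : ε * qfR G zr + qfR G b / (4 * ε) = (4 * ε ^ 2 * qfR G zr + qfR G b) / (4 * ε) := by
    field_simp
    try ring
  rw [h3]
  constructor
  · rw [neg_le_iff_add_nonneg, ← sub_nonneg]
    have : 0 ≤ (4 * ε ^ 2 * qfR G zr + qfR G b + 4 * ε * prR (G *ᵥ z) b) / (4 * ε) :=
      div_nonneg (by nlinarith) (by positivity)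
    have e : (4 * ε ^ 2 * qfR G zr + qfR G b + 4 * ε * prR (G *ᵥ z) b) / (4 * ε) =
        prR (G *ᵥ z) b + (4 * ε ^ 2 * qfR G zr + qfR G b) / (4 * ε) := by
      field_simp
      try ring
    rw [e] at this
    linarith
  · rw [le_div_iff₀ (by positivity)]
    nlinarith

/-! ### Grouping by shells -/

theorem prop_group {M : Matrix (Fin n) (Fin n) ℤ} (hnn : ∀ z : Fin n → ℤ, 0 ≤ qf M z)
    {f : (Fin n → ℤ) → ℂ} (hf : Summable f) (hfin : ∀ k : ℤ, {z : Fin n → ℤ | qf M z = k}.Finite) :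
    HasSum (fun k : ℕ => ∑ᶠ (z : Fin n → ℤ) (_ : qf M z = k), f z) (∑' z, f z) := by
  have h1 := hf.hasSum.tsum_fiberwise (fun z : Fin n → ℤ => (qf M z).toNat)
  have h2 : (fun k : ℕ => ∑ᶠ (z : Fin n → ℤ) (_ : qf M z = k), f z) = fun k : ℕ =>
      ∑' z : (fun z : Fin n → ℤ => (qf M z).toNat) ⁻¹' {k}, f z := by
    funext k
    have h3 : (fun z : Fin n → ℤ => (qf M z).toNat) ⁻¹' {k} = {z : Fin n → ℤ | qf M z = k} := by
      ext z
      have := hnn z
      simp only [Set.mem_preimage, Set.mem_singleton_iff]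
      change _ ↔ qf M z = k
      omega
    rw [h3]
    have h4 := hfin k
    have h5 : ∑' z : ({z : Fin n → ℤ | qf M z = k} : Set (Fin n → ℤ)), f z =
        ∑ z ∈ h4.toFinset, f z := by
      have h6 := Finset.tsum_subtype h4.toFinset f
      rw [← h6]
      have h7 : ({z : Fin n → ℤ | qf M z = k} : Set (Fin n → ℤ)) =
          ((h4.toFinset : Finset (Fin n → ℤ)) : Set (Fin n → ℤ)) := by
        rw [Set.Finite.coe_toFinset]
      exact tsum_congr_set_coe f h7
    rw [h5]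
    refine finsum_mem_eq_finite_toFinset_sum f h4
  rw [h2]
  exact h1

/-! ### The two sides of the identity -/

noncomputable section

def prop_cz (G : Matrix (Fin n) (Fin n) ℤ) (c : ℕ) (a : ℤ) (t : ℝ) (z : Fin n → ℤ) : ℂ :=
  cexp (π * I * a * ((qf G z : ℤ) : ℂ) / c - π * ((qf G z : ℤ) : ℂ) / (c ^ 2 * t))

def prop_xz (G : Matrix (Fin n) (Fin n) ℤ) (c : ℕ) (t : ℝ) (b : Fin n → ℝ) (z : Fin n → ℤ) : ℂ :=
  2 * π * I * (prR (G *ᵥ z) b : ℂ) / (c * t)

def prop_gw (G : Matrix (Fin n) (Fin n) ℤ) (c : ℕ) (a : ℤ) (t : ℝ) (w : Fin n → ℤ) : ℂ :=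
  gs G c a w * cexp (-π * t * ((qf G.adjugate w : ℤ) : ℂ) / ((G.det : ℤ) : ℂ))

def prop_yw (b : Fin n → ℝ) (w : Fin n → ℤ) : ℂ := 2 * π * (prR w b : ℂ)

theorem prop_norm_cz (G : Matrix (Fin n) (Fin n) ℤ) (c : ℕ) (a : ℤ) (t : ℝ) (z : Fin n → ℤ) :
    ‖prop_cz G c a t z‖ = Real.exp (-(π * ((qf G z : ℤ) : ℝ) / (c ^ 2 * t))) := by
  unfold prop_cz
  rw [Complex.norm_exp]
  congr 1
  have : (π * I * a * ((qf G z : ℤ) : ℂ) / c - π * ((qf G z : ℤ) : ℂ) / (c ^ 2 * t)) =
      ((-(π * ((qf G z : ℤ) : ℝ) / (c ^ 2 * t)) : ℝ) : ℂ) +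
        ((π * a * ((qf G z : ℤ) : ℝ) / c : ℝ) : ℂ) * I := by
    push_cast
    ring
  rw [this, Complex.add_re, Complex.ofReal_re, Complex.re_ofReal_mul, Complex.I_re, mul_zero,
    add_zero]

theorem prop_norm_xz (G : Matrix (Fin n) (Fin n) ℤ) (c : ℕ) {t : ℝ} (ht : 0 < t)
    (b : Fin n → ℝ) (z : Fin n → ℤ) :
    ‖prop_xz G c t b z‖ = 2 * π * |prR (G *ᵥ z) b| / (c * t) := by
  unfold prop_xz
  have : (2 * π * I * (prR (G *ᵥ z) b : ℂ) / (c * t)) =
      ((2 * π * prR (G *ᵥ z) b / (c * t) : ℝ) : ℂ) * I := by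
    push_cast
    ring
  rw [this, norm_mul, Complex.norm_I, mul_one, Complex.norm_real, Real.norm_eq_abs, abs_div,
    abs_mul, abs_of_nonneg (by positivity : (0 : ℝ) ≤ 2 * π),
    abs_of_nonneg (by positivity : (0 : ℝ) ≤ c * t)]

theorem prop_sumL {G : Matrix (Fin n) (Fin n) ℤ} (hG : EvenForm G) (F : FormFacts G)
    {c : ℕ} (hc : 0 < c) (a : ℤ) {t : ℝ} (ht : 0 < t) (b : Fin n → ℝ) :
    Summable fun z => ‖prop_cz G c a t z‖ * Real.exp (2 * ‖prop_xz G c t b z‖) := by
  have hc' : (0 : ℝ) < c := by exact_mod_cast hc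
  have h1 := (F.exp_sum (π / (2 * c ^ 2 * t)) (by positivity)).mul_right
    (Real.exp (8 * π * qfR G b / t))
  refine Summable.of_nonneg_of_le (fun z => by positivity) (fun z => ?_) h1
  rw [prop_norm_cz, prop_norm_xz G c ht, ← Real.exp_add, ← Real.exp_add]
  refine Real.exp_le_exp.2 ?_
  have h2 := prop_cs hG z b (ε := 1 / (8 * c)) (by positivity)
  have h3 : 2 * (2 * π * |prR (G *ᵥ z) b| / (c * t)) ≤ 2 * (2 * π * (1 / (8 * c) *
      ((qf G z : ℤ) : ℝ) + qfR G b / (4 * (1 / (8 * c)))) / (c * t)) := by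
    gcongr
  have h4 : 2 * (2 * π * (1 / (8 * c) *
      ((qf G z : ℤ) : ℝ) + qfR G b / (4 * (1 / (8 * c)))) / (c * t)) =
      π * ((qf G z : ℤ) : ℝ) / (2 * c ^ 2 * t) + 8 * π * qfR G b / t := by
    field_simp
    ring
  have h5 : -(π / (2 * (c : ℝ) ^ 2 * t)) * ((qf G z : ℤ) : ℝ) =
      -(π * ((qf G z : ℤ) : ℝ) / (c ^ 2 * t)) + π * ((qf G z : ℤ) : ℝ) / (2 * c ^ 2 * t) := by
    field_simp
    ring
  rw [h5]
  linarith

theorem prop_sumR {G : Matrix (Fin n) (Fin n) ℤ} (hG : EvenForm G) (hR : St_RealId)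
    {c : ℕ} (hc : 0 < c) (a : ℤ) {t : ℝ} (ht : 0 < t) (b : Fin n → ℝ) :
    Summable fun w => ‖prop_gw G c a t w‖ * Real.exp (2 * ‖prop_yw b w‖) := by
  have h1 : ∀ s : ℝ, Summable fun w => ‖prop_gw G c a t w‖ * Real.exp (2 * π * s * prR w b) := by
    intro s
    refine (hR n G hG c hc a t s ht b).2.1.norm.congr fun w => ?_
    unfold prop_gw
    rw [norm_mul, norm_mul, Complex.exp_add, norm_mul]
    have : ‖cexp (2 * π * s * (prR w b : ℂ))‖ = Real.exp (2 * π * s * prR w b) := by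
      have e : (2 * π * s * (prR w b : ℂ)) = ((2 * π * s * prR w b : ℝ) : ℂ) := by
        push_cast
        ring
      rw [e, Complex.norm_exp_ofReal]
    rw [this]
    ring
  refine Summable.of_nonneg_of_le (fun w => by positivity) (fun w => ?_)
    ((h1 2).add (h1 (-2)))
  have h2 : ‖prop_yw b w‖ = 2 * π * |prR w b| := by
    unfold prop_yw
    have e : (2 * π * (prR w b : ℂ)) = ((2 * π * prR w b : ℝ) : ℂ) := by
      push_cast
      ring
    rw [e, Complex.norm_real, Real.norm_eq_abs, abs_mul,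
      abs_of_nonneg (by positivity : (0 : ℝ) ≤ 2 * π)]
  rw [h2, ← mul_add]
  refine mul_le_mul_of_nonneg_left ?_ (norm_nonneg _)
  rcases abs_cases (prR w b) with h | h
  · rw [h.1]
    have e : 2 * (2 * π * prR w b) = 2 * π * 2 * prR w b := by ring
    rw [e]
    linarith [Real.exp_pos (2 * π * (-2) * prR w b)]
  · rw [h.1]
    have e : 2 * (2 * π * -prR w b) = 2 * π * (-2) * prR w b := by ring
    rw [e]
    linarith [Real.exp_pos (2 * π * 2 * prR w b)]

/-- the moments of the left side -/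
theorem prop_momL {G : Matrix (Fin n) (Fin n) ℤ} (hG : EvenForm G) (F : FormFacts G)
    (hD : DesignForm G) {c : ℕ} (hc : 0 < c) (a : ℤ) {t : ℝ} (ht : 0 < t) (b b0 : Fin n → ℝ)
    (hb : qfR G b = qfR G b0) (m : ℕ) (hm : m < 13) :
    ∑' z, prop_cz G c a t z * prop_xz G c t b z ^ m =
      ∑' z, prop_cz G c a t z * prop_xz G c t b0 z ^ m := by
  rcases Nat.even_or_odd' m with ⟨i, hi | hi⟩
  · have key : ∀ b' : Fin n → ℝ, ∑' z, prop_cz G c a t z * prop_xz G c t b' z ^ m =
        ∑' k : ℕ, cexp (π * I * a * (k : ℂ) / c - π * (k : ℂ) / (c ^ 2 * t)) *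
          (2 * π * I / (c * t)) ^ m * ((mom n i * ((k : ℝ) * qfR G b') ^ i *
            (Nat.card {z : Fin n → ℤ // qf G z = k} : ℝ) : ℝ) : ℂ) := by
      intro b'
      have h1 := (prop_taylor _ _ (prop_sumL hG F hc a ht b') m).1 m
      have h2 := prop_group F.qf_nonneg h1 F.fin
      rw [← h2.tsum_eq]
      refine tsum_congr fun k => ?_
      have h3 : ∀ z : Fin n → ℤ, qf G z = k → prop_cz G c a t z * prop_xz G c t b' z ^ m =
          cexp (π * I * a * (k : ℂ) / c - π * (k : ℂ) / (c ^ 2 * t)) *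
          (2 * π * I / (c * t)) ^ m * (((prR (G *ᵥ z) b') ^ (2 * i) : ℝ) : ℂ) := by
        intro z hz
        unfold prop_cz prop_xz
        rw [hz, hi]
        have e : (2 * π * I * (prR (G *ᵥ z) b' : ℂ) / (c * t)) =
            (2 * π * I / (c * t)) * (prR (G *ᵥ z) b' : ℂ) := by ring
        rw [e, mul_pow]
        push_cast
        ring
      rw [← hD k b' i (by omega)]
      have h4 := F.fin k
      have h5 : (∑ᶠ (z : Fin n → ℤ) (_ : qf G z = k),
          prop_cz G c a t z * prop_xz G c t b' z ^ m) = ∑ z ∈ h4.toFinset,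
          prop_cz G c a t z * prop_xz G c t b' z ^ m := finsum_mem_eq_finite_toFinset_sum _ h4
      have h6 : (∑ᶠ (z : Fin n → ℤ) (_ : qf G z = k), (prR (G *ᵥ z) b') ^ (2 * i)) =
          ∑ z ∈ h4.toFinset, (prR (G *ᵥ z) b') ^ (2 * i) :=
        finsum_mem_eq_finite_toFinset_sum _ h4
      rw [h5, h6, Complex.ofReal_sum, Finset.mul_sum]
      refine Finset.sum_congr rfl fun z hz => ?_
      exact h3 z (by simpa using hz)
    rw [key, key, hb]
  · have key : ∀ b' : Fin n → ℝ, ∑' z, prop_cz G c a t z * prop_xz G c t b' z ^ m = 0 := by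
      intro b'
      have h1 : ∑' z, prop_cz G c a t z * prop_xz G c t b' z ^ m =
          ∑' z, prop_cz G c a t (-z) * prop_xz G c t b' (-z) ^ m :=
        ((Equiv.neg (Fin n → ℤ)).tsum_eq
          (fun z => prop_cz G c a t z * prop_xz G c t b' z ^ m)).symm
      have h2 : ∀ z, prop_cz G c a t (-z) * prop_xz G c t b' (-z) ^ m =
          -(prop_cz G c a t z * prop_xz G c t b' z ^ m) := by
        intro z
        have e1 : prop_cz G c a t (-z) = prop_cz G c a t z := by
          unfold prop_cz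
          rw [prop_qf_neg]
        have e2 : prop_xz G c t b' (-z) = -prop_xz G c t b' z := by
          unfold prop_xz
          rw [Matrix.mulVec_neg, prop_prR_neg]
          push_cast
          ring
        rw [e1, e2, Odd.neg_pow ⟨i, hi⟩]
        ring
      rw [tsum_congr h2, tsum_neg] at h1
      exact self_eq_neg.1 h1
    rw [key, key]

/-- the low moments of the right side depend only on the length of `b` -/
theorem prop_momR {G : Matrix (Fin n) (Fin n) ℤ} (hG : EvenForm G) (F : FormFacts G)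
    (hR : St_RealId) (hD : DesignForm G) {c : ℕ} (hc : 0 < c) (a : ℤ) {t : ℝ} (ht : 0 < t)
    (b b0 : Fin n → ℝ) (hb : qfR G b = qfR G b0) (m : ℕ) (hm : m < 13) :
    ∑' w, prop_gw G c a t w * prop_yw b w ^ m = ∑' w, prop_gw G c a t w * prop_yw b0 w ^ m := by
  obtain ⟨-, CL, hCL⟩ := prop_taylor _ _ (prop_sumL hG F hc a ht b) 13
  obtain ⟨-, CL0, hCL0⟩ := prop_taylor _ _ (prop_sumL hG F hc a ht b0) 13
  obtain ⟨-, CR, hCR⟩ := prop_taylor _ _ (prop_sumR hG hR hc a ht b) 13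
  obtain ⟨-, CR0, hCR0⟩ := prop_taylor _ _ (prop_sumR hG hR hc a ht b0) 13
  have hd : (0 : ℝ) < (G.det : ℝ) := by exact_mod_cast F.det_pos
  set T : ℝ := t ^ ((n : ℝ) / 2) / Real.sqrt (G.det : ℝ) with hT
  have hT0 : 0 < T := by positivity
  -- the identity
  have hid : ∀ (b' : Fin n → ℝ) (s : ℝ), ∑' z, prop_cz G c a t z * cexp (s * prop_xz G c t b' z) =
      (T : ℂ) * cexp (-π * s ^ 2 * (qfR G b' : ℂ) / t) *
        ∑' w, prop_gw G c a t w * cexp (s * prop_yw b' w) := by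
    intro b' s
    have h1 := (hR n G hG c hc a t s ht b').2.2
    have h2 : ∀ z : Fin n → ℤ, prop_cz G c a t z * cexp (s * prop_xz G c t b' z) =
        cexp (π * I * a * ((qf G z : ℤ) : ℂ) / c - π * ((qf G z : ℤ) : ℂ) / (c ^ 2 * t) +
          2 * π * I * s * (prR (G *ᵥ z) b' : ℂ) / (c * t)) := by
      intro z
      unfold prop_cz prop_xz
      rw [Complex.exp_add]
      congr 2
      ring
    have h3 : ∀ w : Fin n → ℤ, prop_gw G c a t w * cexp (s * prop_yw b' w) =
        gs G c a w * cexp (-π * t * ((qf G.adjugate w : ℤ) : ℂ) /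
          ((G.det : ℤ) : ℂ) + 2 * π * s * (prR w b' : ℂ)) := by
      intro w
      unfold prop_gw prop_yw
      rw [Complex.exp_add, mul_assoc]
      congr 3
      ring
    rw [tsum_congr h2, tsum_congr h3]
    exact h1
  -- the left sides are close
  have hclose : ∀ s : ℝ, |s| ≤ 1 →
      ‖∑' z, prop_cz G c a t z * cexp (s * prop_xz G c t b z) -
        ∑' z, prop_cz G c a t z * cexp (s * prop_xz G c t b0 z)‖ ≤ (CL + CL0) * |s| ^ 13 := by
    intro s hs
    have h1 := hCL s hs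
    have h2 := hCL0 s hs
    have h3 : ∑ m ∈ Finset.range 13, (s : ℂ) ^ m *
        ((∑' z, prop_cz G c a t z * prop_xz G c t b z ^ m) / (m.factorial : ℂ)) =
        ∑ m ∈ Finset.range 13, (s : ℂ) ^ m *
        ((∑' z, prop_cz G c a t z * prop_xz G c t b0 z ^ m) / (m.factorial : ℂ)) := by
      refine Finset.sum_congr rfl fun m hm => ?_
      rw [prop_momL hG F hD hc a ht b b0 hb m (Finset.mem_range.1 hm)]
    rw [h3] at h1
    have h4 := norm_sub_le_norm_sub_add_norm_sub
      (∑' z, prop_cz G c a t z * cexp (s * prop_xz G c t b z))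
      (∑ m ∈ Finset.range 13, (s : ℂ) ^ m *
        ((∑' z, prop_cz G c a t z * prop_xz G c t b0 z ^ m) / (m.factorial : ℂ)))
      (∑' z, prop_cz G c a t z * cexp (s * prop_xz G c t b0 z))
    rw [norm_sub_rev (∑ m ∈ Finset.range 13, (s : ℂ) ^ m *
        ((∑' z, prop_cz G c a t z * prop_xz G c t b0 z ^ m) / (m.factorial : ℂ)))] at h4
    linarith
  -- the right sides are close
  set q : ℝ := qfR G b0 with hq
  have hE : ∀ s : ℝ, |s| ≤ 1 → Real.exp (-(π * |q| / t)) ≤
      ‖cexp (-π * s ^ 2 * (q : ℂ) / t)‖ := by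
    intro s hs
    have e : (-π * s ^ 2 * (q : ℂ) / t) = ((-π * s ^ 2 * q / t : ℝ) : ℂ) := by push_cast; ring
    rw [e, Complex.norm_exp_ofReal]
    refine Real.exp_le_exp.2 ?_
    have h1 : s ^ 2 ≤ 1 := by
      rw [← sq_abs]
      nlinarith [abs_nonneg s]
    have h2 : s ^ 2 * q ≤ |q| := by
      have := mul_le_mul_of_nonneg_right h1 (abs_nonneg q)
      have h3 := mul_le_mul_of_nonneg_left (le_abs_self q) (sq_nonneg s)
      linarith
    have h3 : π * (s ^ 2 * q) / t ≤ π * |q| / t := by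
      gcongr
    have h4 : -π * s ^ 2 * q / t = -(π * (s ^ 2 * q) / t) := by ring
    rw [h4]
    linarith
  set P : ℝ := T * Real.exp (-(π * |q| / t)) with hP
  have hP0 : 0 < P := by positivity
  have hclose2 : ∀ s : ℝ, |s| ≤ 1 →
      ‖∑' w, prop_gw G c a t w * cexp (s * prop_yw b w) -
        ∑' w, prop_gw G c a t w * cexp (s * prop_yw b0 w)‖ ≤ ((CL + CL0) / P) * |s| ^ 13 := by
    intro s hs
    have h1 := hclose s hs
    rw [hid, hid, hb, ← mul_sub, norm_mul, norm_mul, Complex.norm_real,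
      Real.norm_of_nonneg hT0.le] at h1
    have h2 := hE s hs
    have h3 : P * ‖∑' w, prop_gw G c a t w * cexp (s * prop_yw b w) -
        ∑' w, prop_gw G c a t w * cexp (s * prop_yw b0 w)‖ ≤ (CL + CL0) * |s| ^ 13 := by
      refine le_trans ?_ h1
      rw [hP]
      gcongr
    rw [div_mul_eq_mul_div, le_div_iff₀ hP0]
    linarith
  -- the polynomial is small
  set Dm : ℕ → ℂ := fun m => (∑' w, prop_gw G c a t w * prop_yw b w ^ m) / (m.factorial : ℂ) -
    (∑' w, prop_gw G c a t w * prop_yw b0 w ^ m) / (m.factorial : ℂ) with hDdef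
  have hpoly : ∀ s : ℝ, |s| ≤ 1 → ‖∑ m ∈ Finset.range 13, (s : ℂ) ^ m * Dm m‖ ≤
      ((CL + CL0) / P + CR + CR0) * |s| ^ 13 := by
    intro s hs
    have h1 := hclose2 s hs
    have h2 := hCR s hs
    have h3 := hCR0 s hs
    have h4 : ∑ m ∈ Finset.range 13, (s : ℂ) ^ m * Dm m =
        (∑' w, prop_gw G c a t w * cexp (s * prop_yw b w) -
          ∑' w, prop_gw G c a t w * cexp (s * prop_yw b0 w)) -
        (∑' w, prop_gw G c a t w * cexp (s * prop_yw b w) - ∑ m ∈ Finset.range 13,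
          (s : ℂ) ^ m * ((∑' w, prop_gw G c a t w * prop_yw b w ^ m) / (m.factorial : ℂ))) +
        (∑' w, prop_gw G c a t w * cexp (s * prop_yw b0 w) - ∑ m ∈ Finset.range 13,
          (s : ℂ) ^ m * ((∑' w, prop_gw G c a t w * prop_yw b0 w ^ m) / (m.factorial : ℂ))) := by
      have h5 : ∑ m ∈ Finset.range 13, (s : ℂ) ^ m * Dm m = ∑ m ∈ Finset.range 13,
          (s : ℂ) ^ m * ((∑' w, prop_gw G c a t w * prop_yw b w ^ m) / (m.factorial : ℂ)) -
          ∑ m ∈ Finset.range 13,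
          (s : ℂ) ^ m * ((∑' w, prop_gw G c a t w * prop_yw b0 w ^ m) / (m.factorial : ℂ)) := by
        rw [← Finset.sum_sub_distrib]
        refine Finset.sum_congr rfl fun m _ => ?_
        rw [hDdef]
        ring
      rw [h5]
      ring
    rw [h4]
    refine (norm_add_le _ _).trans ?_
    refine (add_le_add_left (norm_sub_le _ _) _).trans ?_
    linarith
  have hDz := prop_series_zero (u := fun m => if m < 13 then Dm m else 0) (r := 1)
    (C := (CL + CL0) / P + CR + CR0) one_pos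
    (summable_of_ne_finset_zero (s := Finset.range 13) (fun m hm => by
      have : ¬ m < 13 := by simpa using hm
      simp [this])) (M := 13) (fun x hx hx1 => by
      have h1 : ∑' m, (if m < 13 then Dm m else 0) * (x : ℂ) ^ m =
          ∑ m ∈ Finset.range 13, (x : ℂ) ^ m * Dm m := by
        rw [tsum_eq_sum (s := Finset.range 13)]
        · refine Finset.sum_congr rfl fun m hm => ?_
          rw [if_pos (Finset.mem_range.1 hm)]
          ring
        · intro m hm
          have : ¬ m < 13 := by simpa using hm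
          simp [this]
      rw [h1]
      have h2 := hpoly x (by rw [abs_of_pos hx]; exact hx1.le)
      rwa [abs_of_pos hx] at h2)
  have h1 := hDz m hm
  simp only [hm, if_true] at h1
  rw [hDdef] at h1
  have h2 : ((m.factorial : ℕ) : ℂ) ≠ 0 := by exact_mod_cast m.factorial_ne_zero
  have h3 := sub_eq_zero.1 h1
  exact (div_left_inj' h2).1 h3

/-- the sums over the shells depend only on the length of `b` -/
theorem prop_shell {G : Matrix (Fin n) (Fin n) ℤ} (hG : EvenForm G) (F : FormFacts G)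
    (hR : St_RealId) (hD : DesignForm G) {c : ℕ} (hc : 0 < c) (a : ℤ)
    (b b0 : Fin n → ℝ) (hb : qfR G b = qfR G b0) (m : ℕ) (hm : m < 13) (k : ℕ) :
    ∑ᶠ (w : Fin n → ℤ) (_ : qf G.adjugate w = k), gs G c a w * (prR w b : ℂ) ^ m =
      ∑ᶠ (w : Fin n → ℤ) (_ : qf G.adjugate w = k), gs G c a w * (prR w b0 : ℂ) ^ m := by
  set S : (Fin n → ℝ) → ℕ → ℂ := fun b' k =>
    ∑ᶠ (w : Fin n → ℤ) (_ : qf G.adjugate w = k), gs G c a w * (prR w b' : ℂ) ^ m with hS
  have hd : (0 : ℝ) < (G.det : ℝ) := by exact_mod_cast F.det_pos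
  have hsum : ∀ (b' : Fin n → ℝ) (x : ℝ), 0 < x → x < 1 →
      HasSum (fun k : ℕ => ((2 * π : ℂ) ^ m * S b' k) * (x : ℂ) ^ k)
        (∑' w, prop_gw G c a (-(G.det : ℝ) * Real.log x / π) w * prop_yw b' w ^ m) := by
    intro b' x hx hx1
    set t : ℝ := -(G.det : ℝ) * Real.log x / π with ht
    have hlog : Real.log x < 0 := Real.log_neg hx hx1
    have ht0 : 0 < t := by
      rw [ht]
      exact div_pos (by nlinarith) Real.pi_pos
    have h1 := (prop_taylor _ _ (prop_sumR hG hR hc a ht0 b') m).1 m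
    have h2 := prop_group F.adj_nonneg h1 F.adj_fin
    have h3 : (fun k : ℕ => ((2 * π : ℂ) ^ m * S b' k) * (x : ℂ) ^ k) = fun k : ℕ =>
        ∑ᶠ (w : Fin n → ℤ) (_ : qf G.adjugate w = k), prop_gw G c a t w * prop_yw b' w ^ m := by
      funext k
      have h4 := F.adj_fin k
      have h5 : (∑ᶠ (w : Fin n → ℤ) (_ : qf G.adjugate w = k),
          prop_gw G c a t w * prop_yw b' w ^ m) = ∑ w ∈ h4.toFinset,
          prop_gw G c a t w * prop_yw b' w ^ m := finsum_mem_eq_finite_toFinset_sum _ h4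
      have h6 : S b' k = ∑ w ∈ h4.toFinset, gs G c a w * (prR w b' : ℂ) ^ m :=
        finsum_mem_eq_finite_toFinset_sum _ h4
      rw [h5, h6, Finset.mul_sum, Finset.sum_mul]
      refine Finset.sum_congr rfl fun w hw => ?_
      have hw' : qf G.adjugate w = k := by simpa using hw
      unfold prop_gw prop_yw
      have h7 : cexp (-π * t * ((qf G.adjugate w : ℤ) : ℂ) / ((G.det : ℤ) : ℂ)) =
          (x : ℂ) ^ k := by
        rw [hw']
        have h8 : (-π * t * (((k : ℕ) : ℤ) : ℂ) / ((G.det : ℤ) : ℂ)) =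
            ((k * Real.log x : ℝ) : ℂ) := by
          have hpi : (π : ℝ) ≠ 0 := Real.pi_ne_zero
          have h9 : (k * Real.log x : ℝ) = -π * t * k / (G.det : ℝ) := by
            rw [ht]
            field_simp
          have h10 : ∀ d : ℤ, (-π * t * (((k : ℕ) : ℤ) : ℂ) / (d : ℂ)) =
              ((-π * t * k / (d : ℝ) : ℝ) : ℂ) := by
            intro d
            push_cast
            ring
          rw [h9]
          exact h10 _
        rw [h8, ← Complex.ofReal_exp, Real.exp_nat_mul, Real.exp_log hx]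
        push_cast
        ring
      rw [h7, mul_pow]
      ring
    rw [h3]
    exact h2
  have hmom : ∀ x : ℝ, 0 < x → x < 1 →
      ∑' k : ℕ, ((2 * π : ℂ) ^ m * S b k - (2 * π : ℂ) ^ m * S b0 k) * (x : ℂ) ^ k = 0 := by
    intro x hx hx1
    have h1 := hsum b x hx hx1
    have h2 := hsum b0 x hx hx1
    have ht0 : 0 < -(G.det : ℝ) * Real.log x / π :=
      div_pos (by nlinarith [Real.log_neg hx hx1]) Real.pi_pos
    have h3 := prop_momR hG F hR hD hc a ht0 b b0 hb m hm
    rw [h3] at h1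
    have h4 := h1.sub h2
    rw [sub_self] at h4
    rw [← h4.tsum_eq]
    refine tsum_congr fun k => ?_
    ring
  have hu := prop_series_zero
    (u := fun k => (2 * π : ℂ) ^ m * S b k - (2 * π : ℂ) ^ m * S b0 k) (r := 1 / 2) (C := 0)
    (by norm_num) (by
      have h1 := ((hsum b (1 / 2) (by norm_num) (by norm_num)).sub
        (hsum b0 (1 / 2) (by norm_num) (by norm_num))).summable.norm
      refine h1.congr fun k => ?_
      rw [← sub_mul, norm_mul, norm_pow, Complex.norm_real,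
        Real.norm_of_nonneg (by norm_num : (0 : ℝ) ≤ 1 / 2)]) (M := k + 1)
    (fun x hx hx1 => by
      rw [hmom x hx (by linarith)]
      simp) k (Nat.lt_succ_self k)
  have h1 : (2 * π : ℂ) ^ m ≠ 0 := by
    refine pow_ne_zero _ (mul_ne_zero two_ne_zero ?_)
    exact_mod_cast Real.pi_ne_zero
  exact mul_left_cancel₀ h1 (sub_eq_zero.1 hu)

end

theorem st_Prop (hFF : St_FormFacts) (hR : St_RealId) : St_Prop := by
  intro n G hG hD hn c hc a k i hi
  have F := hFF n G hG
  set b0 : Fin n → ℝ := fun _ => 1 with hb0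
  have hb0' : b0 ≠ 0 := by
    intro h
    have := congrFun h ⟨0, hn⟩
    simp [hb0] at this
  have hq0 : 0 < qfR G b0 := hG.pos b0 hb0'
  refine ⟨(∑ᶠ (w : Fin n → ℤ) (_ : qf G.adjugate w = k), gs G c a w *
    (prR w b0 : ℂ) ^ (2 * i)) / (qfR G b0 : ℂ) ^ i, fun b => ?_⟩
  have hqb : 0 ≤ qfR G b := by
    by_cases hx : b = 0
    · rw [hx]
      simp [qfR]
    · exact (hG.pos b hx).le
  set l : ℝ := Real.sqrt (qfR G b / qfR G b0) with hl
  have hl2 : l ^ 2 = qfR G b / qfR G b0 := Real.sq_sqrt (div_nonneg hqb hq0.le)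
  have h1 : qfR G b = qfR G (l • b0) := by
    rw [prop_qfR_smul, hl2]
    field_simp
  rw [prop_shell hG F hR hD hc a b (l • b0) h1 (2 * i) (by omega) k]
  have h4 := F.adj_fin k
  have h5 : (∑ᶠ (w : Fin n → ℤ) (_ : qf G.adjugate w = k),
      gs G c a w * (prR w (l • b0) : ℂ) ^ (2 * i)) = ∑ w ∈ h4.toFinset,
      gs G c a w * (prR w (l • b0) : ℂ) ^ (2 * i) := finsum_mem_eq_finite_toFinset_sum _ h4
  have h6 : (∑ᶠ (w : Fin n → ℤ) (_ : qf G.adjugate w = k),
      gs G c a w * (prR w b0 : ℂ) ^ (2 * i)) = ∑ w ∈ h4.toFinset,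
      gs G c a w * (prR w b0 : ℂ) ^ (2 * i) := finsum_mem_eq_finite_toFinset_sum _ h4
  rw [h5, h6]
  have h7 : (qfR G b : ℂ) ^ i = ((l : ℂ) ^ (2 * i)) * (qfR G b0 : ℂ) ^ i := by
    have h8 : qfR G b = l ^ 2 * qfR G b0 := by
      rw [hl2]
      field_simp
    rw [h8]
    push_cast
    rw [mul_pow, pow_mul]
  have h9 : (qfR G b0 : ℂ) ^ i ≠ 0 := by
    refine pow_ne_zero _ ?_
    exact_mod_cast hq0.ne'
  rw [h7, div_mul_eq_mul_div, eq_div_iff h9, Finset.sum_mul, Finset.sum_mul]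
  refine Finset.sum_congr rfl fun w _ => ?_
  rw [prop_prR_smul]
  push_cast
  rw [mul_pow]
  ring

end Pool.Agent.D12
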