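import Pool.Agent.D12.Stmts

set_option autoImplicit false

/-!
# Lattices all of whose shells are spherical 12-designs: module QAlg
-/

namespace Pool.Agent.D12

open UpperHalfPlane hiding I
open Complex Matrix Derivative
open scoped BigOperators MatrixGroups Real Manifold ModularForm

theorem qAlg_iff (N : ℕ) (φ : ℍ → ℂ) (a : PowerSeries ℂ) :
    HasQ N φ a ↔ ∀ τ : ℍ, HasSum (fun k : ℕ => PowerSeries.coeff k a •
      Function.Periodic.qParam (N : ℝ) τ ^ k) (φ τ) := by
  have h : ∀ (τ : ℍ) (k : ℕ), Function.Periodic.qParam (N : ℝ) τ ^ k =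
      cexp (2 * π * I * (τ : ℂ) * k / N) := by
    intro τ k
    rw [Function.Periodic.qParam, ← Complex.exp_nat_mul]
    congr 1
    push_cast
    ring
  constructor
  · intro hq τ
    have := hq τ
    simp only [← h] at this
    simpa [smul_eq_mul] using this
  · intro hq τ
    have := hq τ
    simp only [h, smul_eq_mul] at this
    exact this

theorem qAlg_add (N : ℕ) (φ ψ : ℍ → ℂ) (a b : PowerSeries ℂ) (ha : HasQ N φ a)
    (hb : HasQ N ψ b) : HasQ N (φ + ψ) (a + b) := by
  intro τ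
  have := (ha τ).add (hb τ)
  simpa [add_mul] using this

theorem qAlg_sub (N : ℕ) (φ ψ : ℍ → ℂ) (a b : PowerSeries ℂ) (ha : HasQ N φ a)
    (hb : HasQ N ψ b) : HasQ N (φ - ψ) (a - b) := by
  intro τ
  have := (ha τ).sub (hb τ)
  simpa [sub_mul] using this

theorem qAlg_smul (N : ℕ) (c : ℂ) (φ : ℍ → ℂ) (a : PowerSeries ℂ) (ha : HasQ N φ a) :
    HasQ N (c • φ) (PowerSeries.C c * a) := by
  intro τ
  have := (ha τ).mul_left c
  simpa [mul_assoc] using this

theorem qAlg_mul (N : ℕ) (φ ψ : ℍ → ℂ) (a b : PowerSeries ℂ) (ha : HasQ N φ a)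
    (hb : HasQ N ψ b) : HasQ N (φ * ψ) (a * b) := by
  rw [qAlg_iff] at ha hb ⊢
  intro τ
  have h1 := (ha τ).summable.norm
  have h2 := (hb τ).summable.norm
  have h3 := summable_norm_sum_mul_antidiagonal_of_summable_norm h1 h2
  have h4 := tsum_mul_tsum_eq_tsum_sum_antidiagonal_of_summable_norm h1 h2
  have h5 := h3.of_norm.hasSum
  rw [← h4, (ha τ).tsum_eq, (hb τ).tsum_eq] at h5
  have h6 : (fun k : ℕ => PowerSeries.coeff k (a * b) •
      Function.Periodic.qParam (N : ℝ) τ ^ k) = (fun n : ℕ =>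
      ∑ kl ∈ Finset.HasAntidiagonal.antidiagonal n, (PowerSeries.coeff kl.1) a •
        Function.Periodic.qParam (N : ℝ) τ ^ kl.1 *
          (PowerSeries.coeff kl.2) b • Function.Periodic.qParam (N : ℝ) τ ^ kl.2) := by
    funext k
    rw [PowerSeries.coeff_mul, Finset.sum_smul]
    apply Finset.sum_congr rfl
    intro x hx
    rw [Finset.HasAntidiagonal.mem_antidiagonal] at hx
    rw [← hx, pow_add]
    simp only [smul_eq_mul]
    ring
  rw [h6]
  exact h5

theorem qAlg_unique (N : ℕ) (hN : 0 < N) (φ : ℍ → ℂ) (a b : PowerSeries ℂ) (ha : HasQ N φ a)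
    (hb : HasQ N φ b) : a = b := by
  have hN' : (0 : ℝ) < N := by exact_mod_cast hN
  have h0 := qAlg_sub N φ φ a b ha hb
  rw [sub_self, qAlg_iff] at h0
  have hz : (0 : ℍ → ℂ) ∘ ofComplex = fun _ => 0 := rfl
  have hcz : cuspFunction (N : ℝ) (0 : ℍ → ℂ) = fun _ => 0 := by
    unfold cuspFunction Function.Periodic.cuspFunction
    rw [hz]
    have h1 : (fun _ : ℂ => (0 : ℂ)) ∘ Function.Periodic.invQParam (N : ℝ) = fun _ => 0 := rfl
    rw [h1, tendsto_const_nhds.limUnder_eq]
    funext q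
    by_cases hq : q = 0
    · rw [hq, Function.update_self]
    · rw [Function.update_of_ne hq]
  have han : AnalyticAt ℂ (cuspFunction (N : ℝ) (0 : ℍ → ℂ)) 0 := by
    rw [hcz]
    exact analyticAt_const
  have h1 := (hasFPowerSeriesOnBall_cuspFunction (c := fun k => PowerSeries.coeff k (a - b))
    hN' han h0).hasFPowerSeriesAt
  have h2 := (hasFPowerSeriesOnBall_cuspFunction (c := fun _ => 0) hN' han
    (fun τ => by simp)).hasFPowerSeriesAt
  have h3 := h1.eq_formalMultilinearSeries h2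
  ext m
  have h4 := congrArg (fun p => FormalMultilinearSeries.coeff p m) h3
  simp only [FormalMultilinearSeries.coeff_ofScalars, map_sub] at h4
  exact sub_eq_zero.1 h4

theorem qAlg_expand (N : ℕ) (hN : 0 < N) (φ : ℍ → ℂ) (a : PowerSeries ℂ) (ha : HasQ 1 φ a) :
    HasQ N φ (ex N a) := by
  intro τ
  have hN' : (N : ℂ) ≠ 0 := by exact_mod_cast hN.ne'
  have hinj : Function.Injective (fun m : ℕ => N * m) := fun x y h =>
    Nat.eq_of_mul_eq_mul_left hN h
  rw [← hinj.hasSum_iff]
  · have h1 := ha τ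
    convert h1 using 2 with m
    simp only [Function.comp, ex, PowerSeries.coeff_mk]
    rw [if_pos (dvd_mul_right N m), Nat.mul_div_cancel_left _ hN]
    congr 2
    push_cast
    field_simp
  · intro k hk
    have : ¬ N ∣ k := by
      rintro ⟨m, rfl⟩
      exact hk ⟨m, rfl⟩
    simp [ex, PowerSeries.coeff_mk, this]

theorem qAlg_ofForm (W : ℤ) (f : ModularForm 𝒮ℒ W) : HasQ 1 f (qExpansion 1 f) := by
  rw [qAlg_iff]
  intro τ
  have h := ModularForm.hasSum_qExpansion f one_pos one_mem_strictPeriods_SL τ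
  rw [Nat.cast_one]
  exact h

theorem st_QAlg : QAlg where
  add := qAlg_add
  smul := qAlg_smul
  mul := fun N _ => qAlg_mul N
  unique := qAlg_unique
  expand := qAlg_expand
  ofForm := qAlg_ofForm

end Pool.Agent.D12
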