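import Pool.Agent.D12.Stmts

set_option autoImplicit false

/-!
# Lattices all of whose shells are spherical 12-designs: module QAna
-/

namespace Pool.Agent.D12

open UpperHalfPlane hiding I
open Complex Matrix Derivative
open scoped BigOperators MatrixGroups Real Manifold ModularForm Topology

/-- the `k`-th term of the expansion -/
noncomputable def termQAna (N : ℕ) (a : PowerSeries ℂ) (k : ℕ) (z : ℂ) : ℂ :=
  PowerSeries.coeff k a * cexp (2 * π * I * z * k / N)

theorem hasDeriv_termQAna (N : ℕ) (a : PowerSeries ℂ) (k : ℕ) (z : ℂ) :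
    HasDerivAt (termQAna N a k)
      ((2 * π * I) * (((k : ℂ) / N) * PowerSeries.coeff k a * cexp (2 * π * I * z * k / N))) z := by
  unfold termQAna
  have h1 : HasDerivAt (fun z : ℂ => 2 * π * I * z * k / N) (2 * π * I * k / N) z := by
    have h2 : HasDerivAt (fun z : ℂ => (2 * π * I * k / N) * z) ((2 * π * I * k / N) * 1) z :=
      (hasDerivAt_id z).const_mul _
    rw [mul_one] at h2
    refine h2.congr_of_eventuallyEq (Filter.Eventually.of_forall fun w => ?_)
    simp only
    ring
  have h3 := (h1.cexp).const_mul (PowerSeries.coeff k a)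
  have h4 : (2 * π * I) * (((k : ℂ) / N) * PowerSeries.coeff k a * cexp (2 * π * I * z * k / N)) =
      PowerSeries.coeff k a * (cexp (2 * π * I * z * k / N) * (2 * π * I * k / N)) := by
    ring
  rw [h4]
  exact h3

theorem norm_termQAna (N : ℕ) (a : PowerSeries ℂ) (k : ℕ) (y : ℝ) (z : ℂ) (hz : y ≤ z.im) :
    ‖termQAna N a k z‖ ≤ ‖termQAna N a k (y * I)‖ := by
  unfold termQAna
  rw [norm_mul, norm_mul, Complex.norm_exp, Complex.norm_exp]
  apply mul_le_mul_of_nonneg_left _ (norm_nonneg _)
  apply Real.exp_le_exp.2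
  have key : ∀ w : ℂ, (2 * π * I * w * k / N).re = -(2 * π * w.im * k / N) := by
    intro w
    have h1 : (2 * π * I * w * k / N : ℂ) = ((2 * π * k / N : ℝ) : ℂ) * (I * w) := by
      push_cast
      ring
    rw [h1, Complex.re_ofReal_mul]
    simp
    ring
  rw [key, key]
  have h2 : ((y : ℂ) * I).im = y := by simp
  rw [h2]
  have h3 : 2 * π * y * k / N ≤ 2 * π * z.im * k / N := by
    apply div_le_div_of_nonneg_right _ (Nat.cast_nonneg _)
    apply mul_le_mul_of_nonneg_right _ (Nat.cast_nonneg _)
    apply mul_le_mul_of_nonneg_left hz (by positivity)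
  linarith

theorem summable_termQAna (N : ℕ) (φ : ℍ → ℂ) (a : PowerSeries ℂ) (h : HasQ N φ a) (y : ℝ)
    (hy : 0 < y) : Summable fun k => ‖termQAna N a k (y * I)‖ := by
  have hτ : 0 < ((y : ℂ) * I).im := by simpa using hy
  have h1 := (h ⟨(y : ℂ) * I, hτ⟩).summable.norm
  exact h1

theorem open_QAna (y : ℝ) : IsOpen {z : ℂ | y < z.im} :=
  isOpen_lt continuous_const Complex.continuous_im

theorem eq_QAna (N : ℕ) (φ : ℍ → ℂ) (a : PowerSeries ℂ) (h : HasQ N φ a) (z : ℂ) (hz : 0 < z.im) :
    (φ ∘ ofComplex) z = ∑' k, termQAna N a k z := by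
  have h1 := (h ⟨z, hz⟩).tsum_eq
  rw [Function.comp_apply, ofComplex_apply_of_im_pos hz]
  exact h1.symm

theorem ev_QAna (N : ℕ) (φ : ℍ → ℂ) (a : PowerSeries ℂ) (h : HasQ N φ a) (z : ℂ)
    (hz : 0 < z.im) : (φ ∘ ofComplex) =ᶠ[𝓝 z] fun w => ∑' k, termQAna N a k w := by
  filter_upwards [(open_QAna 0).mem_nhds hz] with w hw
  exact eq_QAna N φ a h w hw

theorem st_QAna : QAna := by
  refine ⟨?_, ?_, ?_⟩
  · intro N _ φ a h
    rw [UpperHalfPlane.mdifferentiable_iff]
    intro z hz
    have hz' : 0 < z.im := hz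
    have h1 : DifferentiableOn ℂ (fun w => ∑' k, termQAna N a k w) {w : ℂ | z.im / 2 < w.im} :=
      differentiableOn_tsum_of_summable_norm (summable_termQAna N φ a h (z.im / 2) (by linarith))
        (fun k w _ => (hasDeriv_termQAna N a k w).differentiableAt.differentiableWithinAt)
        (open_QAna _) fun k w hw => norm_termQAna N a k _ w (le_of_lt hw)
    have h2 : DifferentiableAt ℂ (fun w => ∑' k, termQAna N a k w) z :=
      h1.differentiableAt ((open_QAna _).mem_nhds (by
        simp only [Set.mem_ofPred_eq]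
        linarith))
    exact (h2.congr_of_eventuallyEq (ev_QAna N φ a h z hz')).differentiableWithinAt
  · intro N _ φ a h τ
    have hz' : 0 < (τ : ℂ).im := τ.im_pos
    have h1 := hasSum_deriv_of_summable_norm
      (summable_termQAna N φ a h ((τ : ℂ).im / 2) (by linarith))
      (fun k w _ => (hasDeriv_termQAna N a k w).differentiableAt.differentiableWithinAt)
      (open_QAna ((τ : ℂ).im / 2)) (fun k w hw => norm_termQAna N a k _ w (le_of_lt hw))
      (z := (τ : ℂ)) (by
        simp only [Set.mem_ofPred_eq]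
        linarith)
    have h2 : deriv (φ ∘ ofComplex) (τ : ℂ) = deriv (fun w => ∑' k, termQAna N a k w) τ :=
      (ev_QAna N φ a h τ hz').deriv_eq
    have h3 := h1.mul_left (2 * π * I)⁻¹
    rw [← h2] at h3
    have h4 : (fun k => (2 * π * I)⁻¹ * deriv (termQAna N a k) (τ : ℂ)) =
        fun k : ℕ => PowerSeries.coeff k (dN N a) * cexp (2 * π * I * (τ : ℂ) * k / N) := by
      funext k
      rw [(hasDeriv_termQAna N a k τ).deriv, dN, PowerSeries.coeff_mk, ← mul_assoc,
        inv_mul_cancel₀ Complex.two_pi_I_ne_zero, one_mul]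
    rw [h4] at h3
    exact h3
  · intro N hN φ a h
    have hN' : (0 : ℝ) < N := by exact_mod_cast hN
    apply isBoundedAtImInfty_of_hasSum_qExpansion hN' (c := fun k => PowerSeries.coeff k a)
    intro τ
    have h1 := h τ
    convert h1 using 2 with k
    rw [smul_eq_mul, Function.Periodic.qParam, ← Complex.exp_nat_mul]
    congr 2
    push_cast
    ring

end Pool.Agent.D12
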