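import Pool.Agent.D12.QAna

set_option autoImplicit false

/-!
# Lattices all of whose shells are spherical 12-designs: module Raman46
-/

namespace Pool.Agent.D12

open UpperHalfPlane hiding I
open Complex Matrix Derivative OnePoint
open scoped BigOperators MatrixGroups Real Manifold ModularForm ArithmeticFunction.sigma

theorem raman46_add {φ ψ : ℍ → ℂ} {a b : PowerSeries ℂ} (h : HasQ 1 φ a) (h' : HasQ 1 ψ b) :
    HasQ 1 (φ + ψ) (a + b) := by
  intro τ
  refine ((h τ).add (h' τ)).congr_fun ?_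
  intro k
  rw [map_add]
  ring

theorem raman46_smul {φ : ℍ → ℂ} {a : PowerSeries ℂ} (c : ℂ) (h : HasQ 1 φ a) :
    HasQ 1 (c • φ) (PowerSeries.C c * a) := by
  intro τ
  refine ((h τ).mul_left c).congr_fun ?_
  intro k
  rw [PowerSeries.coeff_C_mul]
  ring

theorem raman46_mul {φ ψ : ℍ → ℂ} {a b : PowerSeries ℂ} (h : HasQ 1 φ a) (h' : HasQ 1 ψ b) :
    HasQ 1 (φ * ψ) (a * b) := by
  intro τ
  have hs := (h τ).summable.norm
  have hs' := (h' τ).summable.norm
  have h1 := tsum_mul_tsum_eq_tsum_sum_antidiagonal_of_summable_norm hs hs'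
  have h2 := (summable_norm_sum_mul_antidiagonal_of_summable_norm hs hs').of_norm.hasSum
  rw [← h1, (h τ).tsum_eq, (h' τ).tsum_eq] at h2
  refine h2.congr_fun ?_
  intro k
  rw [PowerSeries.coeff_mul, Finset.sum_mul]
  refine Finset.sum_congr rfl fun x hx => ?_
  rw [← (Finset.HasAntidiagonal.mem_antidiagonal.1 hx)]
  have : cexp (2 * π * I * (τ : ℂ) * ((x.1 + x.2 : ℕ) : ℂ) / ((1 : ℕ) : ℂ)) =
      cexp (2 * π * I * (τ : ℂ) * (x.1 : ℂ) / ((1 : ℕ) : ℂ)) *
      cexp (2 * π * I * (τ : ℂ) * (x.2 : ℂ) / ((1 : ℕ) : ℂ)) := by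
    rw [← Complex.exp_add]
    congr 1
    push_cast
    ring
  rw [this]
  ring

theorem raman46_qParam (τ : ℍ) (k : ℕ) : cexp (2 * π * I * (τ : ℂ) * k / ((1 : ℕ) : ℂ)) =
    Function.Periodic.qParam 1 (τ : ℂ) ^ k := by
  rw [Function.Periodic.qParam, ← Complex.exp_nat_mul]
  congr 1
  push_cast
  ring

theorem raman46_ofForm {W : ℤ} (f : ModularForm 𝒮ℒ W) : HasQ 1 f (qExpansion 1 f) := by
  intro τ
  have h := ModularForm.hasSum_qExpansion f one_pos one_mem_strictPeriods_SL τ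
  refine h.congr_fun ?_
  intro k
  rw [raman46_qParam]

theorem raman46_unique {W : ℤ} (f : ModularForm 𝒮ℒ W) (a : PowerSeries ℂ) (h : HasQ 1 f a) :
    qExpansion 1 f = a := by
  ext m
  refine (ModularFormClass.qExpansion_coeff_unique (c := fun m => PowerSeries.coeff m a) one_pos
    one_mem_strictPeriods_SL ?_ m).symm
  intro τ
  refine (h τ).congr_fun ?_
  intro k
  rw [raman46_qParam, smul_eq_mul]

theorem raman46_key (hE : HasQ 1 EisensteinSeries.E2 (E2R ℂ)) (W : ℕ) (hW : W + 2 < 12)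
    (f : ModularForm 𝒮ℒ (W : ℤ)) (g : ModularForm 𝒮ℒ ((W : ℤ) + 2)) (c : ℂ)
    (hc : -((W : ℂ) / 12) * PowerSeries.coeff 0 (qExpansion 1 f) +
      c * PowerSeries.coeff 0 (qExpansion 1 g) = 0)
    (hE0 : PowerSeries.coeff 0 (E2R ℂ) = 1) :
    thd (qExpansion 1 f) - PowerSeries.C ((W : ℂ) / 12) * (E2R ℂ * qExpansion 1 f) +
      PowerSeries.C c * qExpansion 1 g = 0 := by
  set A := qExpansion 1 f with hA
  set B := qExpansion 1 g with hB
  have hf := raman46_ofForm f
  have hg := raman46_ofForm g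
  rw [← hA] at hf
  rw [← hB] at hg
  have hdN : dN 1 A = thd A := by
    ext m
    simp [dN, thd]
  have hD := st_QAna.deriv 1 one_pos _ _ hf
  rw [hdN] at hD
  set φ : ℍ → ℂ := serreDerivative (W : ℤ) f + c • (g : ℍ → ℂ) with hφ
  have hφQ : HasQ 1 φ (thd A - PowerSeries.C ((W : ℂ) / 12) * (E2R ℂ * A) +
      PowerSeries.C c * B) := by
    have h1 := raman46_add (raman46_add hD (raman46_smul (-((W : ℂ) / 12)) (raman46_mul hE hf)))
      (raman46_smul c hg)
    have e1 : φ = normalizedDerivOfComplex f + -((W : ℂ) / 12) • (EisensteinSeries.E2 * f) +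
        c • (g : ℍ → ℂ) := by
      funext τ
      simp only [hφ, serreDerivative, Pi.add_apply, Pi.smul_apply, Pi.mul_apply, smul_eq_mul,
        Int.cast_natCast]
      ring
    have e2 : thd A - PowerSeries.C ((W : ℂ) / 12) * (E2R ℂ * A) + PowerSeries.C c * B =
        thd A + PowerSeries.C (-((W : ℂ) / 12)) * (E2R ℂ * A) + PowerSeries.C c * B := by
      rw [map_neg]
      ring
    rw [e1, e2]
    exact h1
  have hb : IsBoundedAtImInfty φ := st_QAna.bdd 1 one_pos φ _ hφQ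
  have hfm : MDiff (f : ℍ → ℂ) := st_QAna.mdiff 1 one_pos _ _ hf
  have hinv : ∀ γ : SL(2, ℤ), φ ∣[(W : ℤ) + 2] γ = φ := by
    intro γ
    have h1 : (f : ℍ → ℂ) ∣[(W : ℤ)] γ = f := SlashInvariantForm.slash_action_eqn f _ ⟨γ, rfl⟩
    have h2 : (g : ℍ → ℂ) ∣[(W : ℤ) + 2] γ = g := SlashInvariantForm.slash_action_eqn g _ ⟨γ, rfl⟩
    have h3 := serreDerivative_slash_invariant hfm h1
    rw [hφ, SlashAction.add_slash, h3, ModularForm.SL_smul_slash, h2]
  have hslash : ∀ A ∈ (𝒮ℒ : Subgroup (GL (Fin 2) ℝ)), φ ∣[(W : ℤ) + 2] A = φ := by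
    rintro _ ⟨γ, rfl⟩
    exact hinv γ
  have hcusp : ∀ {c : OnePoint ℝ}, IsCusp c 𝒮ℒ → c.IsBoundedAt φ ((W : ℤ) + 2) := by
    intro c hc
    rw [isBoundedAt_iff_forall_SL2Z hc]
    intro γ _
    rw [hinv γ]
    exact hb
  let P : ModularForm 𝒮ℒ ((W : ℤ) + 2) :=
    { toFun := φ
      slash_action_eq' := hslash
      holo' := st_QAna.mdiff 1 one_pos φ _ hφQ
      bdd_at_cusps' := fun hc => hcusp hc }
  have hP : qExpansion 1 P = thd A - PowerSeries.C ((W : ℂ) / 12) * (E2R ℂ * A) +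
      PowerSeries.C c * B := raman46_unique P _ hφQ
  have hP0 : P = 0 := by
    apply ModularForm.sturm_bound_levelOne
    have e : ((W : ℤ) + 2).toNat / 12 = 0 := by omega
    rw [e, Nat.cast_zero]
    have h1 : (1 : ℕ∞) ≤ (qExpansion 1 P).order := by
      apply PowerSeries.nat_le_order
      intro i hi
      have hi0 : i = 0 := by omega
      subst hi0
      rw [hP, map_add, map_sub, PowerSeries.coeff_C_mul, PowerSeries.coeff_C_mul,
        PowerSeries.coeff_mul, Finset.Nat.antidiagonal_zero, Finset.sum_singleton, hE0, thd,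
        PowerSeries.coeff_mk, Nat.cast_zero, zero_mul, one_mul]
      linear_combination hc
    exact lt_of_lt_of_le zero_lt_one h1
  rw [← hP, hP0]
  exact qExpansion_zero 1

theorem raman46_thd_map (a : PowerSeries ℤ) :
    (thd a).map (Int.castRingHom ℂ) = thd (a.map (Int.castRingHom ℂ)) := by
  ext m
  simp [thd]

theorem raman46_coeff0 : PowerSeries.coeff 0 (E2R ℂ) = 1 ∧ PowerSeries.coeff 0 (E4R ℂ) = 1 ∧
    PowerSeries.coeff 0 (E6R ℂ) = 1 := by
  refine ⟨?_, ?_, ?_⟩
  · rw [E2R, PowerSeries.coeff_map, e2s, PowerSeries.coeff_mk]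
    simp
  · rw [E4R, PowerSeries.coeff_map, e4s, PowerSeries.coeff_mk]
    simp
  · rw [E6R, PowerSeries.coeff_map, e6s, PowerSeries.coeff_mk]
    simp

theorem raman46_inj {a b : PowerSeries ℤ}
    (h : a.map (Int.castRingHom ℂ) = b.map (Int.castRingHom ℂ)) : a = b := by
  ext m
  have h1 := congrArg (PowerSeries.coeff m) h
  rw [PowerSeries.coeff_map, PowerSeries.coeff_map] at h1
  exact (Int.castRingHom ℂ).injective_int h1

theorem st_Raman46 (hE : St_EisQ) : St_Raman46 := by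
  obtain ⟨h2, h4, h6⟩ := hE
  obtain ⟨c2, c4, c6⟩ := raman46_coeff0
  have C3 : PowerSeries.C (3 : ℂ) = 3 := map_ofNat _ _
  have C2 : PowerSeries.C (2 : ℂ) = 2 := map_ofNat _ _
  constructor
  · apply raman46_inj
    have h := raman46_key h2 4 (by norm_num) ModularForm.E₄ ModularForm.E₆ (1 / 3)
      (by
        rw [h4, h6, c4]
        have : PowerSeries.coeff 0 (E6R ℂ) = 1 := c6
        rw [this]
        norm_num) c2
    rw [h4] at h
    have h6' : qExpansion 1 (ModularForm.E₆ : ModularForm 𝒮ℒ (((4 : ℕ) : ℤ) + 2)) = E6R ℂ := h6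
    rw [h6'] at h
    have e1 : PowerSeries.C (((4 : ℕ) : ℂ) / 12) * 3 = 1 := by
      rw [← C3, ← map_mul]
      norm_num
    have e2 : PowerSeries.C ((1 : ℂ) / 3) * 3 = 1 := by
      rw [← C3, ← map_mul]
      norm_num
    rw [map_mul, raman46_thd_map, map_sub, map_mul, map_ofNat]
    change 3 * thd (E4R ℂ) = E2R ℂ * E4R ℂ - E6R ℂ
    linear_combination 3 * h + (E2R ℂ * E4R ℂ) * e1 - E6R ℂ * e2
  · apply raman46_inj
    have hm : qExpansion 1 (ModularForm.mcast (by norm_num)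
        (ModularForm.E₄.mul ModularForm.E₄) : ModularForm 𝒮ℒ (((6 : ℕ) : ℤ) + 2)) =
        E4R ℂ * E4R ℂ := by
      apply raman46_unique
      have h := raman46_ofForm ModularForm.E₄
      rw [h4] at h
      exact raman46_mul h h
    have h := raman46_key h2 6 (by norm_num) ModularForm.E₆ (ModularForm.mcast (by norm_num)
        (ModularForm.E₄.mul ModularForm.E₄)) (1 / 2)
      (by
        rw [hm, h6, c6, PowerSeries.coeff_mul, Finset.Nat.antidiagonal_zero, Finset.sum_singleton, c4]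
        norm_num) c2
    rw [h6, hm] at h
    have e1 : PowerSeries.C (((6 : ℕ) : ℂ) / 12) * 2 = 1 := by
      rw [← C2, ← map_mul]
      norm_num
    have e2 : PowerSeries.C ((1 : ℂ) / 2) * 2 = 1 := by
      rw [← C2, ← map_mul]
      norm_num
    rw [map_mul, raman46_thd_map, map_sub, map_mul, map_ofNat, map_pow]
    change 2 * thd (E6R ℂ) = E2R ℂ * E6R ℂ - E4R ℂ ^ 2
    linear_combination 2 * h + (E2R ℂ * E6R ℂ) * e1 - E4R ℂ ^ 2 * e2

end Pool.Agent.D12
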