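import Pool.Agent.D12.Stmts

set_option autoImplicit false

/-!
# Lattices all of whose shells are spherical 12-designs: module Rational

If a shell of a lattice is a design of strength four, the lattice is a real multiple of a
rational one: the vectors `v` of the shell satisfy every quadratic equation over `ℚ` satisfied
by the Gram matrix, so such a quadratic form vanishes on the sphere.
-/

namespace Pool.Agent.D12

open MeasureTheory Metric Set

noncomputable section

/-- a polynomial of degree at most six that vanishes on a shell vanishes on the sphere -/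
theorem ratd_sphere (n : ℕ) (hn : 2 ≤ n) (L : Submodule ℤ (EuclideanSpace ℝ (Fin n))) (r : ℝ)
    (hr : 0 < r) (H : ShellD n L r)
    (hfin : {v : EuclideanSpace ℝ (Fin n) | v ∈ L ∧ ‖v‖ = r}.Finite)
    (hne : ∃ v ∈ L, ‖v‖ = r) (P : MvPolynomial (Fin n) ℝ) (hdeg : P.totalDegree ≤ 6)
    (hv : ∀ v ∈ L, ‖v‖ = r → MvPolynomial.eval (fun i => WithLp.ofLp v i) P = 0)
    (x : EuclideanSpace ℝ (Fin n)) (hx : ‖x‖ = r) :
    MvPolynomial.eval (fun i => WithLp.ofLp x i) P = 0 := by
  have : Nonempty (Fin n) := ⟨⟨0, by omega⟩⟩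
  have : Nontrivial (EuclideanSpace ℝ (Fin n)) := by
    apply Module.nontrivial_of_finrank_pos (R := ℝ)
    rw [finrank_euclideanSpace, Fintype.card_fin]; omega
  have h1 := H (P ^ 2) ((MvPolynomial.totalDegree_pow _ _).trans (by omega))
  have h2 : (∑ᶠ (v : EuclideanSpace ℝ (Fin n)) (_ : v ∈ L ∧ ‖v‖ = r),
      MvPolynomial.eval (fun i => WithLp.ofLp v i) (P ^ 2)) = 0 := by
    have : ∀ v : EuclideanSpace ℝ (Fin n), (∑ᶠ (_ : v ∈ L ∧ ‖v‖ = r),
      MvPolynomial.eval (fun i => WithLp.ofLp v i) (P ^ 2)) = 0 := by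
      intro v
      classical
      by_cases hc : v ∈ L ∧ ‖v‖ = r
      · rw [finsum_eq_if, if_pos hc, map_pow, hv v hc.1 hc.2]; norm_num
      · rw [finsum_eq_if, if_neg hc]
    simp only [this, finsum_zero]
  rw [h2] at h1
  have hcard : (Nat.card {v : EuclideanSpace ℝ (Fin n) // v ∈ L ∧ ‖v‖ = r} : ℝ) ≠ 0 := by
    have : Finite {v : EuclideanSpace ℝ (Fin n) // v ∈ L ∧ ‖v‖ = r} := hfin.to_subtype
    have : Nonempty {v : EuclideanSpace ℝ (Fin n) // v ∈ L ∧ ‖v‖ = r} := by
      obtain ⟨v, h3, h4⟩ := hne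
      exact ⟨⟨v, h3, h4⟩⟩
    have := Nat.card_pos (α := {v : EuclideanSpace ℝ (Fin n) // v ∈ L ∧ ‖v‖ = r})
    exact_mod_cast this.ne'
  set σ := (volume : Measure (EuclideanSpace ℝ (Fin n))).toSphere with hσ
  have hσ0 : (σ Set.univ).toReal ≠ 0 := by
    have hne : (Set.univ : Set (sphere (0 : EuclideanSpace ℝ (Fin n)) 1)).Nonempty := by
      have : Nonempty (sphere (0 : EuclideanSpace ℝ (Fin n)) 1) :=
        (NormedSpace.sphere_nonempty.mpr zero_le_one).to_subtype
      exact Set.univ_nonempty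
    have h3 : σ Set.univ ≠ 0 := isOpen_univ.measure_ne_zero _ hne
    exact (ENNReal.toReal_pos h3 (measure_ne_top _ _)).ne'
  have h3 : ∫ x, MvPolynomial.eval
      (fun i => r * WithLp.ofLp (x : EuclideanSpace ℝ (Fin n)) i) (P ^ 2) ∂σ = 0 := by
    rcases mul_eq_zero.mp h1.symm with h | h
    · exact absurd h hcard
    · rcases div_eq_zero_iff.mp h with h | h
      · exact h
      · exact absurd h hσ0
  by_contra hcon
  have hy : ‖(r⁻¹ • x : EuclideanSpace ℝ (Fin n))‖ = 1 := by
    rw [norm_smul, hx, Real.norm_eq_abs, abs_of_pos (inv_pos.mpr hr), inv_mul_cancel₀ hr.ne']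
  let y : sphere (0 : EuclideanSpace ℝ (Fin n)) 1 := ⟨r⁻¹ • x, by
    rw [mem_sphere_zero_iff_norm]; exact hy⟩
  have hcont : Continuous (fun x : sphere (0 : EuclideanSpace ℝ (Fin n)) 1 =>
      MvPolynomial.eval (fun i => r * WithLp.ofLp (x : EuclideanSpace ℝ (Fin n)) i) (P ^ 2)) := by
    apply (MvPolynomial.continuous_eval (P ^ 2)).comp
    fun_prop
  have hpos := hcont.integral_pos_of_hasCompactSupport_nonneg_nonzero (μ := σ) (x := y)
    (HasCompactSupport.of_compactSpace _) (fun z => by
      simp only [Pi.zero_apply, map_pow]; positivity) (by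
      have : (fun i => r * WithLp.ofLp (y : EuclideanSpace ℝ (Fin n)) i) =
          fun i => WithLp.ofLp x i := by
        funext i
        simp only [y, WithLp.ofLp_smul, Pi.smul_apply, smul_eq_mul]
        rw [← mul_assoc, mul_inv_cancel₀ hr.ne', one_mul]
      simp only [this, map_pow]
      exact pow_ne_zero _ hcon)
  rw [h3] at hpos
  exact lt_irrefl _ hpos

theorem st_Rational : St_Rational := by
  intro n hn L hd hs H b
  have : DiscreteTopology L := hd
  have : IsZLattice ℝ L := ⟨hs⟩
  let β := b.ofZLatticeBasis ℝ L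
  have hβ : ∀ i, β i = (b i : EuclideanSpace ℝ (Fin n)) := fun i =>
    b.ofZLatticeBasis_apply ℝ L i
  let i0 : Fin n := ⟨0, by omega⟩
  set r : ℝ := ‖(b i0 : EuclideanSpace ℝ (Fin n))‖ with hrdef
  have hr : 0 < r := by
    rw [hrdef, norm_pos_iff, ← hβ]
    exact β.ne_zero i0
  have hfin : {v : EuclideanSpace ℝ (Fin n) | v ∈ L ∧ ‖v‖ = r}.Finite := by
    have hcl : IsClosed (L : Set (EuclideanSpace ℝ (Fin n))) :=
      AddSubgroup.isClosed_of_discrete (H := L.toAddSubgroup)
    have hfin : ((L : Set (EuclideanSpace ℝ (Fin n))) ∩ closedBall 0 r).Finite := by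
      have hc : IsCompact ((L : Set (EuclideanSpace ℝ (Fin n))) ∩ closedBall 0 r) :=
        (isCompact_closedBall _ _).inter_left hcl
      refine hc.finite ?_
      have : IsDiscrete (L : Set (EuclideanSpace ℝ (Fin n))) := ⟨hd⟩
      exact this.mono inter_subset_left
    refine hfin.subset ?_
    rintro v ⟨h1, h2⟩
    exact ⟨h1, by rw [mem_closedBall, dist_zero_right]; exact h2.le⟩
  refine ⟨r ^ 2, by positivity, fun i1 j1 => ?_⟩
  by_contra hcon
  push Not at hcon
  -- the functional
  set m : ℝ := r ^ 2 with hm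
  have hm0 : m ≠ 0 := by positivity
  let g : Fin n → Fin n → ℝ := fun i j =>
    inner ℝ (b i : EuclideanSpace ℝ (Fin n)) (b j : EuclideanSpace ℝ (Fin n)) / m
  have hg1 : g i1 j1 ∉ Submodule.span ℚ ({1} : Set ℝ) := by
    intro hmem
    rw [Submodule.mem_span_singleton] at hmem
    obtain ⟨q, hq⟩ := hmem
    apply hcon q
    have : (q : ℝ) = g i1 j1 := by rw [← hq, Rat.smul_def, mul_one]
    rw [this]
    simp only [g]
    field_simp
  obtain ⟨f, hf1, hf2⟩ := Submodule.exists_dual_map_eq_bot_of_notMem hg1 inferInstance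
  have hf0 : f 1 = 0 := by
    have : f 1 ∈ Submodule.map f (Submodule.span ℚ ({1} : Set ℝ)) :=
      Submodule.mem_map_of_mem (Submodule.mem_span_singleton_self 1)
    rw [hf2] at this
    simpa using this
  let S : Fin n → Fin n → ℝ := fun i j => ((f (g i j) : ℚ) : ℝ)
  have hSsymm : ∀ i j, S i j = S j i := by
    intro i j
    simp only [S, g]
    rw [real_inner_comm]
  let q : EuclideanSpace ℝ (Fin n) → ℝ := fun x =>
    ∑ i, ∑ j, S i j * (β.repr x i) * (β.repr x j)
  let A : Fin n → Fin n → ℝ := fun i k => β.repr (EuclideanSpace.single k 1) i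
  let lin : Fin n → MvPolynomial (Fin n) ℝ := fun i =>
    ∑ k, MvPolynomial.C (A i k) * MvPolynomial.X k
  let P : MvPolynomial (Fin n) ℝ := ∑ i, ∑ j, MvPolynomial.C (S i j) * lin i * lin j
  have hlind : ∀ i, (lin i).totalDegree ≤ 1 := by
    intro i
    refine MvPolynomial.totalDegree_finsetSum_le fun k _ => ?_
    refine (MvPolynomial.totalDegree_mul _ _).trans ?_
    rw [MvPolynomial.totalDegree_C, MvPolynomial.totalDegree_X]
  have hPd : P.totalDegree ≤ 6 := by
    refine MvPolynomial.totalDegree_finsetSum_le fun i _ => ?_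
    refine MvPolynomial.totalDegree_finsetSum_le fun j _ => ?_
    refine (MvPolynomial.totalDegree_mul _ _).trans ?_
    have h1 := MvPolynomial.totalDegree_mul (MvPolynomial.C (S i j)) (lin i)
    rw [MvPolynomial.totalDegree_C] at h1
    have h2 := hlind i
    have h3 := hlind j
    omega
  have hlin : ∀ (x : EuclideanSpace ℝ (Fin n)) (i : Fin n),
      MvPolynomial.eval (fun k => WithLp.ofLp x k) (lin i) = β.repr x i := by
    intro x i
    have hx : x = ∑ k, (WithLp.ofLp x k) • (EuclideanSpace.single k (1 : ℝ)) := by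
      ext l
      simp [Finset.sum_apply, Pi.single_apply]
    conv_rhs => rw [hx]
    simp only [lin, A, map_sum, map_mul, MvPolynomial.eval_C, MvPolynomial.eval_X, map_smul,
      Finsupp.coe_finsetSum, Finset.sum_apply, Finsupp.smul_apply, smul_eq_mul]
    exact Finset.sum_congr rfl fun k _ => mul_comm _ _
  have hP : ∀ x : EuclideanSpace ℝ (Fin n),
      MvPolynomial.eval (fun k => WithLp.ofLp x k) P = q x := by
    intro x
    simp only [P, q, map_sum, map_mul, MvPolynomial.eval_C, hlin]
  have hqv : ∀ v ∈ L, ‖v‖ = r → q v = 0 := by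
    intro v hv hvr
    have hz : ∀ i, β.repr v i = ((b.repr ⟨v, hv⟩ i : ℤ) : ℝ) := fun i =>
      b.ofZLatticeBasis_repr_apply ℝ L ⟨v, hv⟩ i
    have hvs : v = ∑ i, ((b.repr ⟨v, hv⟩ i : ℤ) : ℝ) • (b i : EuclideanSpace ℝ (Fin n)) := by
      conv_lhs => rw [← β.sum_repr v]
      exact Finset.sum_congr rfl fun i _ => by rw [hz, hβ]
    have h1 : (1 : ℝ) = ∑ i, ∑ j, ((b.repr ⟨v, hv⟩ i * b.repr ⟨v, hv⟩ j : ℤ) : ℚ) • g i j := by
      have h2 : inner ℝ v v = m := by rw [real_inner_self_eq_norm_sq, hvr]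
      have h3 : inner ℝ v v / m = 1 := by rw [h2, div_self hm0]
      rw [← h3]
      conv_lhs => rw [hvs]
      simp only [sum_inner, inner_sum, real_inner_smul_left, real_inner_smul_right, g,
        Rat.smul_def, Finset.sum_div]
      refine Finset.sum_congr rfl fun i _ => Finset.sum_congr rfl fun j _ => ?_
      rw [real_inner_comm]
      push_cast
      ring
    have h4 : f 1 = ∑ i, ∑ j, ((b.repr ⟨v, hv⟩ i * b.repr ⟨v, hv⟩ j : ℤ) : ℚ) • f (g i j) := by
      conv_lhs => rw [h1]
      simp only [map_sum, map_smul]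
    rw [hf0] at h4
    have h5 : q v = ((∑ i, ∑ j, ((b.repr ⟨v, hv⟩ i * b.repr ⟨v, hv⟩ j : ℤ) : ℚ) •
        f (g i j) : ℚ) : ℝ) := by
      simp only [q, hz, S, smul_eq_mul]
      push_cast
      refine Finset.sum_congr rfl fun i _ => Finset.sum_congr rfl fun j _ => ?_
      ring
    rw [h5, ← h4]; norm_num
  have hqr : ∀ x : EuclideanSpace ℝ (Fin n), ‖x‖ = r → q x = 0 := by
    intro x hx
    rw [← hP]
    exact ratd_sphere n hn L r hr (H r hr) hfin ⟨_, (b i0).2, rfl⟩ P hPd
      (fun v hv hvr => by rw [hP]; exact hqv v hv hvr) x hx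
  have hqs : ∀ (c : ℝ) (x : EuclideanSpace ℝ (Fin n)), q (c • x) = c ^ 2 * q x := by
    intro c x
    simp only [q, map_smul, Finsupp.smul_apply, smul_eq_mul, Finset.mul_sum]
    refine Finset.sum_congr rfl fun i _ => Finset.sum_congr rfl fun j _ => ?_
    ring
  have hq0 : ∀ x : EuclideanSpace ℝ (Fin n), q x = 0 := by
    intro x
    by_cases hx : x = 0
    · subst hx
      have := hqs 0 0
      simpa using this
    · have hxn : 0 < ‖x‖ := norm_pos_iff.mpr hx
      have h1 : x = (‖x‖ / r) • ((r / ‖x‖) • x) := by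
        rw [smul_smul]
        have : ‖x‖ / r * (r / ‖x‖) = 1 := by field_simp
        rw [this, one_smul]
      have h2 : ‖(r / ‖x‖) • x‖ = r := by
        rw [norm_smul, Real.norm_eq_abs, abs_of_pos (by positivity)]
        field_simp
      rw [h1, hqs, hqr _ h2, mul_zero]
  have hqb : ∀ i j, q (β i + β j) = S i i + S i j + S j i + S j j := by
    intro i j
    have : ∀ k, β.repr (β i + β j) k = (if k = i then 1 else 0) + (if k = j then 1 else 0) := by
      intro k
      rw [map_add, Finsupp.add_apply, β.repr_self, β.repr_self, Finsupp.single_apply,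
        Finsupp.single_apply]
      simp only [eq_comm]
    simp only [q, this, mul_add, mul_ite, mul_one, mul_zero,
      Finset.sum_add_distrib, Finset.sum_ite_eq', Finset.mem_univ, if_true]
    ring
  have hqd : ∀ i, q (β i) = S i i := by
    intro i
    have : ∀ k, β.repr (β i) k = (if k = i then 1 else 0) := by
      intro k
      rw [β.repr_self, Finsupp.single_apply]
      simp only [eq_comm]
    simp only [q, this, mul_ite, mul_one, mul_zero,
      Finset.sum_ite_eq', Finset.mem_univ, if_true]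
  have hSd : ∀ i, S i i = 0 := fun i => by rw [← hqd, hq0]
  have hS : S i1 j1 = 0 := by
    have h1 := hqb i1 j1
    rw [hq0, hSd, hSd, hSsymm j1 i1] at h1
    linarith
  apply hf1
  have : ((f (g i1 j1) : ℚ) : ℝ) = 0 := hS
  exact_mod_cast this

end

end Pool.Agent.D12
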