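import Pool.Agent.D12.Stmts

set_option autoImplicit false

/-!
# Lattices all of whose shells are spherical 12-designs: module RealId
-/

namespace Pool.Agent.D12

open Complex Matrix
open scoped BigOperators Real

variable {n : ℕ}

/-- coordinatewise cast -/
def ridC (w : Fin n → ℤ) : Fin n → ℝ := fun i => (w i : ℝ)

/-- real version of an integral matrix -/
def ridM (G : Matrix (Fin n) (Fin n) ℤ) : Matrix (Fin n) (Fin n) ℝ := G.map (fun a : ℤ => (a : ℝ))

theorem rid_mulVec (G : Matrix (Fin n) (Fin n) ℤ) (z : Fin n → ℤ) :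
    ridC (G *ᵥ z) = ridM G *ᵥ ridC z := by
  funext i
  simp [ridC, ridM, mulVec, dotProduct]

theorem rid_qf (G : Matrix (Fin n) (Fin n) ℤ) (z : Fin n → ℤ) :
    ((qf G z : ℤ) : ℝ) = ridC z ⬝ᵥ (ridM G *ᵥ ridC z) := by
  rw [← rid_mulVec]
  simp [qf, ridC, dotProduct]

theorem rid_symm (G : Matrix (Fin n) (Fin n) ℤ) (hG : EvenForm G) : (ridM G)ᵀ = ridM G := by
  rw [ridM, ← transpose_map, hG.symm]

theorem rid_adj (G : Matrix (Fin n) (Fin n) ℤ) : ridM G.adjugate = (ridM G).adjugate := by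
  have := (Int.castRingHom ℝ).map_adjugate G
  simpa [ridM] using this

theorem rid_det (G : Matrix (Fin n) (Fin n) ℤ) : (ridM G).det = (G.det : ℝ) := by
  have := (Int.castRingHom ℝ).map_det G
  simpa [ridM] using this.symm

theorem rid_prR (G : Matrix (Fin n) (Fin n) ℤ) (hG : EvenForm G) (z : Fin n → ℤ) (b : Fin n → ℝ) :
    prR (G *ᵥ z) b = ridC z ⬝ᵥ (ridM G *ᵥ b) := by
  have h1 : prR (G *ᵥ z) b = ridC (G *ᵥ z) ⬝ᵥ b := rfl
  rw [h1, rid_mulVec, dotProduct_mulVec, ← mulVec_transpose, rid_symm G hG]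

/-- expansion of the dual form -/
theorem rid_dual (G : Matrix (Fin n) (Fin n) ℤ) (hG : EvenForm G) (w : Fin n → ℤ)
    (b : Fin n → ℝ) (r : ℝ) :
    qfR G.adjugate (fun i => (w i : ℝ) - r * (ridM G *ᵥ b) i) =
      ((qf G.adjugate w : ℤ) : ℝ) - 2 * r * (G.det : ℝ) * prR w b +
        r ^ 2 * (G.det : ℝ) * qfR G b := by
  have h0 : (fun i => (w i : ℝ) - r * (ridM G *ᵥ b) i) = ridC w - r • (ridM G *ᵥ b) := by
    funext i; simp [ridC]
  have h1 : ∀ x, qfR G.adjugate x = x ⬝ᵥ ((ridM G).adjugate *ᵥ x) := by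
    intro x
    rw [← rid_adj]; rfl
  have h2 : qfR G b = b ⬝ᵥ (ridM G *ᵥ b) := rfl
  have h3 : prR w b = ridC w ⬝ᵥ b := rfl
  have hsym := rid_symm G hG
  have hadjsym : ((ridM G).adjugate)ᵀ = (ridM G).adjugate := by
    rw [adjugate_transpose, hsym]
  have h4 : (ridM G).adjugate *ᵥ (ridM G *ᵥ b) = (G.det : ℝ) • b := by
    rw [mulVec_mulVec, adjugate_mul, rid_det, smul_mulVec, one_mulVec]
  have h5 : (ridM G *ᵥ b) ⬝ᵥ ((ridM G).adjugate *ᵥ ridC w) = (G.det : ℝ) * (ridC w ⬝ᵥ b) := by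
    rw [dotProduct_mulVec, ← mulVec_transpose, hadjsym, h4, smul_dotProduct, smul_eq_mul,
      dotProduct_comm]
  have h6 : ((qf G.adjugate w : ℤ) : ℝ) = ridC w ⬝ᵥ ((ridM G).adjugate *ᵥ ridC w) := by
    rw [rid_qf, rid_adj]
  rw [h0, h1, h6, h2, h3, mulVec_sub, mulVec_smul, h4, sub_dotProduct, dotProduct_sub,
    dotProduct_sub, smul_dotProduct, smul_dotProduct, h5, dotProduct_smul, dotProduct_smul,
    dotProduct_smul, dotProduct_smul]
  simp only [smul_eq_mul]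
  rw [dotProduct_comm (ridM G *ᵥ b) b]
  ring

/-- expansion of the form at `y + c z` -/
theorem rid_expand (G : Matrix (Fin n) (Fin n) ℤ) (hG : EvenForm G) (y z : Fin n → ℤ) (c : ℤ) :
    qf G (y + c • z) = qf G y + 2 * c * (z ⬝ᵥ (G *ᵥ y)) + c ^ 2 * qf G z := by
  have h1 : y ⬝ᵥ (G *ᵥ z) = z ⬝ᵥ (G *ᵥ y) := by
    rw [dotProduct_mulVec, ← mulVec_transpose, hG.symm, dotProduct_comm]
  unfold qf
  rw [mulVec_add, mulVec_smul, add_dotProduct, dotProduct_add, dotProduct_add, smul_dotProduct,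
    smul_dotProduct, dotProduct_smul, dotProduct_smul, h1]
  simp only [smul_eq_mul]
  ring

/-- coset decomposition of `ℤⁿ` -/
def ridE (n c : ℕ) [NeZero c] : (Fin n → Fin c) × (Fin n → ℤ) ≃ (Fin n → ℤ) where
  toFun p := fun i => (((p.1 i : ℕ) : ℤ)) + c * p.2 i
  invFun x := (fun i => ((Int.divModEquiv c) (x i)).2, fun i => ((Int.divModEquiv c) (x i)).1)
  left_inv p := by
    have h : ∀ i, (Int.divModEquiv c) ((((p.1 i : ℕ) : ℤ)) + c * p.2 i) = (p.2 i, p.1 i) := by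
      intro i
      have : (((p.1 i : ℕ) : ℤ)) + c * p.2 i = (Int.divModEquiv c).symm (p.2 i, p.1 i) := by
        simp only [Int.divModEquiv_symm_apply]; ring
      rw [this, Equiv.apply_symm_apply]
    ext i
    · simp only [h]
    · simp only [h]
  right_inv x := by
    funext i
    have := (Int.divModEquiv c).symm_apply_apply (x i)
    rw [Int.divModEquiv_symm_apply] at this
    simp only
    linarith

theorem st_RealId (hFF : St_FormFacts) (hP : St_Poisson) : St_RealId := by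
  intro n G hG c hc a t s ht b
  have hF := hFF n G hG
  have : NeZero c := ⟨hc.ne'⟩
  have hDpos : (0 : ℝ) < (G.det : ℝ) := by exact_mod_cast hF.det_pos
  have hc0 : (0 : ℝ) < (c : ℝ) := by exact_mod_cast hc
  set S : ℝ := 1 / (c ^ 2 * t) with hS
  have hSpos : 0 < S := by positivity
  set B : Fin n → ℝ := fun i => (s / (c * t)) * (ridM G *ᵥ b) i with hB
  have hcC : (c : ℂ) ≠ 0 := by exact_mod_cast hc.ne'
  have htC : (t : ℂ) ≠ 0 := by exact_mod_cast ht.ne'
  have hDC : ((G.det : ℤ) : ℂ) ≠ 0 := by exact_mod_cast hF.det_pos.ne'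
  -- the terms
  set T : (Fin n → ℤ) → ℂ := fun z => cexp (π * I * a * ((qf G z : ℤ) : ℂ) / c -
        π * ((qf G z : ℤ) : ℂ) / (c ^ 2 * t) + 2 * π * I * s * (prR (G *ᵥ z) b : ℂ) / (c * t))
    with hT
  set ε : (Fin n → Fin c) → ℂ := fun y =>
    cexp (π * I * a * ((qf G (fun i => ((y i : ℕ) : ℤ)) : ℤ) : ℂ) / c) with hε
  set U : (Fin n → ℤ) → ℂ := fun w => gs G c a w * cexp (-π * t * ((qf G.adjugate w : ℤ) : ℂ) /
        ((G.det : ℤ) : ℂ) + 2 * π * s * (prR w b : ℂ)) with hU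
  set P : (Fin n → Fin c) → (Fin n → ℤ) → ℂ := fun y w => cexp (-π *
        ((qfR G.adjugate (fun i => (w i : ℝ) - c * B i) / (G.det : ℝ) : ℝ) : ℂ) /
          ((c : ℂ) ^ 2 * (S : ℂ)) +
        2 * π * I * ((w ⬝ᵥ (fun i => ((y i : ℕ) : ℤ)) : ℤ) : ℂ) / c) with hPdef
  have hPs : ∀ y : Fin n → Fin c, Summable (P y) := fun y =>
    (hP n G hG c hc (S : ℂ) (by simpa using hSpos) (fun i => ((y i : ℕ) : ℤ)) B).2.1
  have hPt := fun y : Fin n → Fin c =>
    (hP n G hG c hc (S : ℂ) (by simpa using hSpos) (fun i => ((y i : ℕ) : ℤ)) B).2.2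
  -- pointwise dual identity
  have hdual : ∀ w : Fin n → ℤ, ∑ y : Fin n → Fin c, ε y * P y w =
      cexp (-π * s ^ 2 * (qfR G b : ℂ) / t) * U w := by
    intro w
    have hcB : (fun i => (w i : ℝ) - c * B i) = fun i => (w i : ℝ) - (s / t) * (ridM G *ᵥ b) i := by
      funext i
      simp only [hB]
      field_simp
    have h1 : ∀ y : Fin n → Fin c, ε y * P y w =
        cexp (-π * s ^ 2 * (qfR G b : ℂ) / t) * (cexp (2 * π * I *
    (((a * qf G (fun i => ((y i : ℕ) : ℤ)) : ℤ) : ℂ) / 2 +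
      ((w ⬝ᵥ (fun i => ((y i : ℕ) : ℤ)) : ℤ) : ℂ)) / c) *
        cexp (-π * t * ((qf G.adjugate w : ℤ) : ℂ) /
        ((G.det : ℤ) : ℂ) + 2 * π * s * (prR w b : ℂ))) := by
      intro y
      simp only [hε, hPdef]
      rw [hcB, rid_dual G hG w b (s / t), ← Complex.exp_add, ← Complex.exp_add, ← Complex.exp_add]
      congr 1
      rw [hS]
      generalize G.det = D at hDC
      generalize qf G (fun i => ((y i : ℕ) : ℤ)) = q1
      generalize (w ⬝ᵥ (fun i => ((y i : ℕ) : ℤ)) : ℤ) = q2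
      generalize qf G.adjugate w = q3
      push_cast
      field_simp
      ring
    simp only [h1]
    rw [← Finset.mul_sum, ← Finset.sum_mul]
    rfl
  -- summability on the dual side
  have hUs : Summable U := by
    have h1 : Summable (fun w => ∑ y : Fin n → Fin c, ε y * P y w) :=
      summable_sum fun y _ => (hPs y).mul_left (ε y)
    have h2 : U = fun w => (cexp (-π * s ^ 2 * (qfR G b : ℂ) / t))⁻¹ *
        ∑ y : Fin n → Fin c, ε y * P y w := by
      funext w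
      rw [hdual w, ← mul_assoc, inv_mul_cancel₀ (Complex.exp_ne_zero _), one_mul]
    rw [h2]
    exact h1.mul_left _
  -- summability on the other side
  have hTs : Summable T := by
    have h1 := hF.exp_sum (π * S) (by positivity)
    refine Summable.of_norm (h1.congr fun z => ?_)
    simp only [hT]
    rw [Complex.norm_exp]
    congr 1
    have h2 : (π * I * a * ((qf G z : ℤ) : ℂ) / c -
        π * ((qf G z : ℤ) : ℂ) / (c ^ 2 * t) + 2 * π * I * s * (prR (G *ᵥ z) b : ℂ) / (c * t)) =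
        ((-(π * S) * (qf G z : ℝ) : ℝ) : ℂ) +
          ((π * a * (qf G z : ℝ) / c + 2 * π * s * prR (G *ᵥ z) b / (c * t) : ℝ) : ℂ) * I := by
      rw [hS]
      push_cast
      field_simp
      ring
    rw [h2, Complex.add_re, Complex.ofReal_re, Complex.re_ofReal_mul, Complex.I_re, mul_zero,
      add_zero]
  refine ⟨hTs, hUs, ?_⟩
  -- splitting of the terms
  have hsplit : ∀ (y : Fin n → Fin c) (z : Fin n → ℤ), T (ridE n c (y, z)) =
      ε y * cexp (-π * (S : ℂ) * ((qf G ((fun i => ((y i : ℕ) : ℤ)) + (c : ℤ) • z) : ℤ) : ℂ) +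
        2 * π * I * (prR ((fun i => ((y i : ℕ) : ℤ)) + (c : ℤ) • z) B : ℂ)) := by
    intro y z
    have he : ridE n c (y, z) = (fun i => ((y i : ℕ) : ℤ)) + (c : ℤ) • z := by
      funext i
      simp [ridE]
    simp only [hT, hε]
    rw [he]
    set Y : Fin n → ℤ := fun i => ((y i : ℕ) : ℤ) with hY
    obtain ⟨m, hm⟩ := hF.qf_even z
    have h1 := rid_expand G hG Y z (c : ℤ)
    have h2 : (prR (Y + (c : ℤ) • z) B : ℝ) = (s / (c * t)) * prR (G *ᵥ (Y + (c : ℤ) • z)) b := by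
      rw [rid_prR G hG]
      simp only [prR, hB, dotProduct, Finset.mul_sum, ridC]
      refine Finset.sum_congr rfl fun i _ => ?_
      ring
    rw [h2, ← Complex.exp_add]
    have h3 : (π * I * a * ((qf G (Y + (c : ℤ) • z) : ℤ) : ℂ) / c -
        π * ((qf G (Y + (c : ℤ) • z) : ℤ) : ℂ) / (c ^ 2 * t) +
        2 * π * I * s * (prR (G *ᵥ (Y + (c : ℤ) • z)) b : ℂ) / (c * t)) =
        (π * I * a * ((qf G Y : ℤ) : ℂ) / c + (-π * (S : ℂ) * ((qf G (Y + (c : ℤ) • z) : ℤ) : ℂ) +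
        2 * π * I * (((s / (c * t)) * prR (G *ᵥ (Y + (c : ℤ) • z)) b : ℝ) : ℂ))) +
        ((a * (z ⬝ᵥ (G *ᵥ Y)) + a * c * m : ℤ) : ℂ) * (2 * π * I) := by
      rw [hS]
      have h4 : ((qf G (Y + (c : ℤ) • z) : ℤ) : ℂ) = ((qf G Y : ℤ) : ℂ) +
          2 * c * ((z ⬝ᵥ (G *ᵥ Y) : ℤ) : ℂ) + c ^ 2 * (m + m) := by
        rw [h1, hm]; push_cast; ring
      have h5 : (π * I * a * ((qf G (Y + (c : ℤ) • z) : ℤ) : ℂ) / c) =
          π * I * a * ((qf G Y : ℤ) : ℂ) / c +
            ((a * (z ⬝ᵥ (G *ᵥ Y)) + a * c * m : ℤ) : ℂ) * (2 * π * I) := by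
        rw [h4]
        push_cast
        field_simp
        ring
      rw [h5]
      push_cast
      field_simp
      ring
    rw [h3, Complex.exp_add, Complex.exp_int_mul_two_pi_mul_I, mul_one]
  have hLHS : ∑' z, T z = ∑ y : Fin n → Fin c, ∑' z : Fin n → ℤ, T (ridE n c (y, z)) := by
    rw [← (ridE n c).tsum_eq T]
    have h1 : Summable (fun p => T (ridE n c p)) := (ridE n c).summable_iff.mpr hTs
    rw [h1.tsum_prod, tsum_fintype]
  rw [hLHS]
  simp only [hsplit, tsum_mul_left]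
  simp only [hPt]
  -- the prefactor
  have hpre : (S : ℂ) ^ (-(n : ℂ) / 2) * ((c : ℂ) ^ n)⁻¹ * ((Real.sqrt (G.det : ℝ) : ℝ) : ℂ)⁻¹ =
      ((t ^ ((n : ℝ) / 2) / Real.sqrt (G.det : ℝ) : ℝ) : ℂ) := by
    have h1 : (S : ℂ) ^ (-(n : ℂ) / 2) = ((S ^ (-(n : ℝ) / 2) : ℝ) : ℂ) := by
      rw [Complex.ofReal_cpow hSpos.le]
      push_cast
      rfl
    have h2 : S ^ (-(n : ℝ) / 2) = (c : ℝ) ^ n * t ^ ((n : ℝ) / 2) := by
      rw [hS, one_div, neg_div, Real.inv_rpow (by positivity), Real.rpow_neg (by positivity),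
        inv_inv, Real.mul_rpow (by positivity) ht.le, ← Real.rpow_natCast_mul hc0.le]
      congr 1
      rw [← Real.rpow_natCast]
      congr 1
      push_cast
      ring
    rw [h1, h2]
    push_cast
    field_simp
  rw [hpre]
  set κ : ℂ := ((t ^ ((n : ℝ) / 2) / Real.sqrt (G.det : ℝ) : ℝ) : ℂ)
  have hsum : ∑' w, ∑ y : Fin n → Fin c, ε y * P y w = ∑ y : Fin n → Fin c, ∑' w, ε y * P y w :=
    Summable.tsum_finsetSum fun y _ => (hPs y).mul_left (ε y)
  have hfin : ∑ y : Fin n → Fin c, ε y * (κ * ∑' w, P y w) =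
      κ * ∑ y : Fin n → Fin c, ∑' w, ε y * P y w := by
    rw [Finset.mul_sum]
    refine Finset.sum_congr rfl fun y _ => ?_
    rw [tsum_mul_left]
    ring
  refine hfin.trans ?_
  rw [← hsum]
  simp only [hdual, tsum_mul_left]
  ring

end Pool.Agent.D12
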