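import Pool.Agent.D12.Stmts

set_option autoImplicit false

/-!
# Lattices all of whose shells are spherical 12-designs: module Slash
-/

namespace Pool.Agent.D12

open UpperHalfPlane hiding I
open Complex Matrix Derivative
open scoped BigOperators MatrixGroups Real Manifold ModularForm

theorem slash_nug_bdd {n : ℕ} (G : Matrix (Fin n) (Fin n) ℤ) (c : ℕ) (a d : ℤ)
    (w : Fin n → ℤ) : ‖nug G c a d w‖ ≤ (Fintype.card (Fin n → Fin c) : ℝ) := by
  have h1 : ‖cexp (π * I * d * ((qf G.adjugate w : ℤ) : ℂ) / (c * ((G.det : ℤ) : ℂ)))‖ = 1 := by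
    have : (π * I * d * ((qf G.adjugate w : ℤ) : ℂ) / (c * ((G.det : ℤ) : ℂ)) : ℂ) =
        ((π * d * ((qf G.adjugate w : ℤ) : ℝ) / (c * ((G.det : ℤ) : ℝ)) : ℝ) : ℂ) * I := by
      generalize qf G.adjugate w = q
      generalize G.det = D0
      push_cast
      ring
    rw [this, Complex.norm_exp_ofReal_mul_I]
  have h2 : ‖gs G c a w‖ ≤ (Fintype.card (Fin n → Fin c) : ℝ) := by
    rw [gs]
    refine (norm_sum_le _ _).trans ?_
    have : ∀ y : Fin n → Fin c, ‖cexp (2 * π * I *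
      (((a * qf G (fun i => ((y i : ℕ) : ℤ)) : ℤ) : ℂ) / 2 +
        ((w ⬝ᵥ (fun i => ((y i : ℕ) : ℤ)) : ℤ) : ℂ)) / c)‖ = 1 := by
      intro y
      generalize (a * qf G (fun i => ((y i : ℕ) : ℤ)) : ℤ) = u
      generalize (w ⬝ᵥ (fun i => ((y i : ℕ) : ℤ)) : ℤ) = v
      have : (2 * π * I * ((u : ℂ) / 2 + (v : ℂ)) / c : ℂ) =
        ((2 * π * ((u : ℝ) / 2 + v) / c : ℝ) : ℂ) * I := by
        push_cast
        ring
      rw [this, Complex.norm_exp_ofReal_mul_I]
    rw [Finset.sum_congr rfl fun y _ => this y]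
    simp
  rw [nug, norm_mul, h1, mul_one]
  exact h2

theorem slash_th_mdiff (hFF : St_FormFacts) (hA : QAna) (hTQ : St_ThetaQ) (hTP : St_ThetaPrim)
    {n : ℕ} (G : Matrix (Fin n) (Fin n) ℤ) (hG : EvenForm G) :
    MDiff (th G) ∧ ∀ (c : ℕ) (a d : ℤ), MDiff (thD G (nug G c a d)) := by
  classical
  have FF := hFF n G hG
  have hlev : 0 < lev G := by
    have := FF.det_pos
    unfold lev
    omega
  constructor
  · set ν : (Fin n → ℤ) → ℂ := fun w => if ∃ z, w = G *ᵥ z then 1 else 0 with hν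
    have h1 := hTP n G hG ν 1 (fun z => by rw [hν]; simp)
      (fun w hw => by
        rw [hν]
        simp only
        rw [if_neg]
        rintro ⟨z, hz⟩
        exact hw z hz)
    rw [one_smul] at h1
    have h2 := hTQ n G hG ν 1 (fun w => by
      rw [hν]
      simp only
      split_ifs <;> simp)
    rw [← h1]
    exact hA.mdiff _ hlev _ _ h2
  · intro c a d
    exact hA.mdiff _ hlev _ _ (hTQ n G hG (nug G c a d) _ (slash_nug_bdd G c a d))

theorem st_Slash (hFF : St_FormFacts) (hA : QAna) (hTQ : St_ThetaQ) (hTP : St_ThetaPrim)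
    (hT : St_Transf) (hC : St_HopCov) : St_Slash := by
  intro n G hG j γ c hc hγ
  have FF := hFF n G hG
  have hdet : ((G.det : ℤ) : ℂ) ≠ 0 := by exact_mod_cast FF.det_pos.ne'
  obtain ⟨hm1, hm2⟩ := slash_th_mdiff hFF hA hTQ hTP G hG
  obtain ⟨ρ, hρm, hρ2, hρd, hth⟩ := hT n G hG γ c hc hγ
  have hdn : ∀ τ : ℍ, denom γ τ ≠ 0 := fun τ => denom_ne_zero _ τ
  constructor
  · funext τ
    rw [ModularForm.SL_slash_apply, Fth, hth τ, mul_pow, hρ2 τ]
    have h := hdn τ
    rw [_root_.zpow_neg, zpow_natCast]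
    field_simp
  · funext τ
    rw [ModularForm.SL_slash_apply, Tth]
    have h1 := hC ((n : ℂ) / 2) γ (th G) (thD G (nug G c (γ 0 0) (γ 1 1))) ρ hm1
      (hm2 c _ _) hρm hρd hth j τ
    rw [h1, mul_pow, mul_pow, hρ2 τ]
    have h := hdn τ
    rw [_root_.zpow_neg, zpow_natCast]
    have h4 : (denom γ τ ^ (2 * j)) ^ 2 = denom γ τ ^ (4 * j) := by
      rw [← pow_mul]; congr 1; ring
    rw [h4, pow_add]
    field_simp

end Pool.Agent.D12
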