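import Pool.Agent.D12.Stmts

set_option autoImplicit false

/-!
# Lattices all of whose shells are spherical 12-designs: module Struct
-/

namespace Pool.Agent.D12

open UpperHalfPlane hiding I
open Complex Matrix Derivative ModularForm EisensteinSeries
open scoped BigOperators MatrixGroups Real Manifold ModularForm ArithmeticFunction.sigma

theorem struct_solve (A : Subring ℂ) (Z G : PowerSeries ℂ) (h0 : PowerSeries.coeff 0 Z = 0)
    (h1 : PowerSeries.coeff 1 Z = 1) (hD : ∀ m, PowerSeries.coeff m Z ∈ A)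
    (hDG : ∀ m, PowerSeries.coeff m (Z * G) ∈ A) : ∀ m, PowerSeries.coeff m G ∈ A := by
  intro m
  induction m using Nat.strong_induction_on with
  | _ m ih =>
    have h := hDG (m + 1)
    rw [PowerSeries.coeff_mul] at h
    have hmem : (1, m) ∈ Finset.HasAntidiagonal.antidiagonal (m + 1) := by simp [add_comm]
    rw [← Finset.add_sum_erase _ _ hmem] at h
    simp only [h1, one_mul] at h
    have hs : ∑ x ∈ (Finset.HasAntidiagonal.antidiagonal (m + 1)).erase (1, m),
        PowerSeries.coeff x.1 Z * PowerSeries.coeff x.2 G ∈ A := by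
      refine A.sum_mem fun x hx => ?_
      obtain ⟨i, j⟩ := x
      rw [Finset.mem_erase, Finset.HasAntidiagonal.mem_antidiagonal] at hx
      obtain ⟨hx1, hx2⟩ := hx
      by_cases hi : i = 0
      · subst hi
        simp only [h0, zero_mul]
        exact A.zero_mem
      · refine A.mul_mem (hD i) (ih j ?_)
        by_contra hj
        apply hx1
        simp only at hx2
        have e1 : i = 1 := by omega
        have e2 : j = m := by omega
        rw [e1, e2]
    have h2 := A.sub_mem h hs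
    simpa using h2

theorem struct_coeff_mul (A : Subring ℂ) {Z G : PowerSeries ℂ}
    (hD : ∀ m, PowerSeries.coeff m Z ∈ A) (hG : ∀ m, PowerSeries.coeff m G ∈ A) :
    ∀ m, PowerSeries.coeff m (Z * G) ∈ A := by
  intro m
  rw [PowerSeries.coeff_mul]
  exact A.sum_mem fun x _ => A.mul_mem (hD _) (hG _)

theorem struct_coeff_pow (A : Subring ℂ) {Z : PowerSeries ℂ}
    (hD : ∀ m, PowerSeries.coeff m Z ∈ A) (n : ℕ) :
    ∀ m, PowerSeries.coeff m (Z ^ n) ∈ A := by
  induction n with
  | zero =>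
    intro m
    rw [pow_zero, PowerSeries.coeff_one]
    split_ifs
    · exact A.one_mem
    · exact A.zero_mem
  | succ n ih =>
    rw [pow_succ]
    exact struct_coeff_mul A ih hD

theorem struct_E4_mem (A : Subring ℂ) (m : ℕ) : PowerSeries.coeff m (E4R ℂ) ∈ A := by
  rw [E4R, PowerSeries.coeff_map]
  exact intCast_mem A _

theorem struct_E6_mem (A : Subring ℂ) (m : ℕ) : PowerSeries.coeff m (E6R ℂ) ∈ A := by
  rw [E6R, PowerSeries.coeff_map]
  exact intCast_mem A _

theorem struct_form (hE : St_EisQ) (a b W : ℕ) (h : 4 * a + 6 * b = W) :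
    ∃ m : ModularForm 𝒮ℒ (W : ℤ), qExpansion 1 m = E4R ℂ ^ a * E6R ℂ ^ b := by
  have hw : (a : ℤ) * 4 + (b : ℤ) * 6 = (W : ℤ) := by
    rw [← h]
    push_cast
    ring
  refine ⟨ModularForm.mcast hw ((ModularForm.E₄.pow a).mul (ModularForm.E₆.pow b)), ?_⟩
  rw [ModularForm.qExpansion_mcast, ModularForm.qExpansion_mul one_pos one_mem_strictPeriods_SL,
    ModularForm.qExpansion_pow one_pos one_mem_strictPeriods_SL,
    ModularForm.qExpansion_pow one_pos one_mem_strictPeriods_SL, hE.2.1, hE.2.2]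


theorem struct_disc (hE : St_EisQ) :
    qExpansion 1 ModularForm.discriminant =
      PowerSeries.C ((1 : ℂ) / 1728) * (E4R ℂ ^ 3 - E6R ℂ ^ 2) := by
  have h3 : qExpansion 1 (ModularForm.E₄.pow 3) = E4R ℂ ^ 3 := by
    rw [ModularForm.qExpansion_pow one_pos one_mem_strictPeriods_SL, hE.2.1]
  have h2 : qExpansion 1 (ModularForm.E₆.pow 2) = E6R ℂ ^ 2 := by
    rw [ModularForm.qExpansion_pow one_pos one_mem_strictPeriods_SL, hE.2.2]
  let m1 : ModularForm 𝒮ℒ 12 := ModularForm.mcast (by norm_num) (ModularForm.E₄.pow 3)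
  let m2 : ModularForm 𝒮ℒ 12 := ModularForm.mcast (by norm_num) (ModularForm.E₆.pow 2)
  have e1 : qExpansion 1 m1 = E4R ℂ ^ 3 := by
    rw [← h3]
    exact ModularForm.qExpansion_mcast _ rfl _
  have e2 : qExpansion 1 m2 = E6R ℂ ^ 2 := by
    rw [← h2]
    exact ModularForm.qExpansion_mcast _ rfl _
  have e3 : ModularForm.discriminant = ((1 : ℂ) / 1728) • ((m1 - m2 : ModularForm 𝒮ℒ 12) : ℍ → ℂ) := by
    funext z
    rw [ModularForm.discriminant_eq_E₄_cube_sub_E₆_sq]
    simp only [m1, m2, Pi.smul_apply, _root_.sub_apply, ModularForm.coe_mcast,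
      ModularForm.coe_pow, Pi.pow_apply, smul_eq_mul]
    ring
  rw [e3, ModularForm.qExpansion_smul one_pos one_mem_strictPeriods_SL, FunLike.coe_sub,
    ModularForm.qExpansion_sub one_pos one_mem_strictPeriods_SL, e1, e2,
    PowerSeries.smul_eq_C_mul]

theorem struct_inv_mem (A : Subring ℂ) (h2 : (2 : ℂ)⁻¹ ∈ A) (h3 : (3 : ℂ)⁻¹ ∈ A) :
    (1 : ℂ) / 1728 ∈ A := by
  have : (1 : ℂ) / 1728 = (2 : ℂ)⁻¹ ^ 6 * (3 : ℂ)⁻¹ ^ 3 := by norm_num
  rw [this]
  exact A.mul_mem (A.pow_mem h2 _) (A.pow_mem h3 _)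

theorem struct_ab {W : ℕ} (h : Even W) (h4 : 4 ≤ W) : ∃ a b : ℕ, 4 * a + 6 * b = W := by
  obtain ⟨k, hk⟩ := h
  by_cases hk2 : Even k
  · obtain ⟨l, hl⟩ := hk2
    exact ⟨l, 0, by omega⟩
  · rw [Nat.not_even_iff_odd] at hk2
    obtain ⟨l, hl⟩ := hk2
    exact ⟨l - 1, 1, by omega⟩

theorem struct_ev_C (A : Subring ℂ) (a : A) :
    (ev A (MvPolynomial.C a)).map A.subtype = PowerSeries.C (a : ℂ) := by
  rw [ev, MvPolynomial.aeval_C, PowerSeries.algebraMap_apply]
  simp

theorem struct_ev_X0 (A : Subring ℂ) :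
    (ev A (MvPolynomial.X 0)).map A.subtype = E4R ℂ := by
  rw [ev, MvPolynomial.aeval_X]
  ext m
  simp [E4R]

theorem struct_ev_X1 (A : Subring ℂ) :
    (ev A (MvPolynomial.X 1)).map A.subtype = E6R ℂ := by
  rw [ev, MvPolynomial.aeval_X]
  ext m
  simp [E6R]

theorem struct_wt_mono (A : Subring ℂ) (c : A) (a b : ℕ) :
    (MvPolynomial.C c * (MvPolynomial.X 0 ^ a * MvPolynomial.X 1 ^ b) :
      MvPolynomial (Fin 2) A).IsWeightedHomogeneous wt (4 * a + 6 * b) := by
  have h0 : (MvPolynomial.X 0 : MvPolynomial (Fin 2) A).IsWeightedHomogeneous wt 4 :=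
    MvPolynomial.isWeightedHomogeneous_X A wt 0
  have h1 : (MvPolynomial.X 1 : MvPolynomial (Fin 2) A).IsWeightedHomogeneous wt 6 :=
    MvPolynomial.isWeightedHomogeneous_X A wt 1
  have h := ((h0.pow a).mul (h1.pow b)).C_mul c
  simp only [smul_eq_mul] at h
  rw [mul_comm a, mul_comm b] at h
  exact h

theorem st_Struct (hE : St_EisQ) : St_Struct := by
  intro A hA2 hA3 W
  have hd := struct_inv_mem A hA2 hA3
  induction W using Nat.strong_induction_on with
  | _ W ih =>
  intro f hf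
  by_cases hf0 : f = 0
  · refine ⟨0, MvPolynomial.isWeightedHomogeneous_zero _ _ _, ?_⟩
    rw [map_zero, map_zero, hf0]
    exact (qExpansion_zero 1).symm
  by_cases hodd : Odd W
  · exact absurd (ModularForm.levelOne_odd_weight_eq_zero (by exact_mod_cast hodd) f) hf0
  rw [Nat.not_odd_iff_even] at hodd
  by_cases hW0 : W = 0
  · subst hW0
    obtain ⟨c, hc⟩ := ModularFormClass.levelOne_weight_zero_const f
    have hq : qExpansion 1 f = PowerSeries.C c := by
      have h1 : (f : ℍ → ℂ) = c • (1 : ℍ → ℂ) := by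
        rw [hc]
        funext z
        simp
      have h2 := ModularForm.qExpansion_smul (h := 1) one_pos one_mem_strictPeriods_SL c
        (1 : ModularForm 𝒮ℒ 0)
      rw [ModularForm.qExpansion_one] at h2
      rw [h1]
      rw [PowerSeries.smul_eq_C_mul, mul_one] at h2
      exact h2
    have hcA : c ∈ A := by
      have := hf 0
      rw [hq] at this
      simpa using this
    refine ⟨MvPolynomial.C ⟨c, hcA⟩, MvPolynomial.isWeightedHomogeneous_C _ _, ?_⟩
    rw [struct_ev_C, hq]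
  by_cases hW2 : W = 2
  · subst hW2
    have := rank_zero_iff_forall_zero.mp ModularForm.levelOne_weight_two_rank_zero f
    exact absurd this hf0
  have hW4 : 4 ≤ W := by
    obtain ⟨k, hk⟩ := hodd
    omega
  obtain ⟨a, b, hab⟩ := struct_ab hodd hW4
  obtain ⟨m, hm⟩ := struct_form hE a b W hab
  set c0 := PowerSeries.coeff 0 (qExpansion 1 f) with hc0
  have hc0A : c0 ∈ A := hf 0
  have hmA : ∀ k, PowerSeries.coeff k (qExpansion 1 m) ∈ A := by
    rw [hm]
    exact struct_coeff_mul A (struct_coeff_pow A (struct_E4_mem A) a)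
      (struct_coeff_pow A (struct_E6_mem A) b)
  have hE40 : PowerSeries.coeff 0 (E4R ℂ) = 1 := by
    simp [E4R, e4s, -PowerSeries.coeff_zero_eq_constantCoeff]
  have hE60 : PowerSeries.coeff 0 (E6R ℂ) = 1 := by
    simp [E6R, e6s, -PowerSeries.coeff_zero_eq_constantCoeff]
  have hm0 : PowerSeries.coeff 0 (qExpansion 1 m) = 1 := by
    rw [hm]
    rw [PowerSeries.coeff_zero_eq_constantCoeff] at *
    rw [map_mul, map_pow, map_pow, hE40, hE60, one_pow, one_pow, one_mul]
  let g0 : ModularForm 𝒮ℒ (W : ℤ) := f - c0 • m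
  have hg0 : qExpansion 1 g0 = qExpansion 1 f - c0 • qExpansion 1 m := by
    rw [← ModularForm.qExpansion_smul one_pos one_mem_strictPeriods_SL c0 m]
    exact ModularForm.qExpansion_sub one_pos one_mem_strictPeriods_SL f (c0 • m)
  have hg00 : PowerSeries.coeff 0 (qExpansion 1 g0) = 0 := by
    rw [hg0, map_sub, PowerSeries.coeff_smul, hm0, smul_eq_mul, mul_one, ← hc0, sub_self]
  have hg0A : ∀ k, PowerSeries.coeff k (qExpansion 1 g0) ∈ A := by
    intro k
    rw [hg0, map_sub, PowerSeries.coeff_smul]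
    exact A.sub_mem (hf k) (A.mul_mem hc0A (hmA k))
  have hmul := ModularForm.qExpansion_eq_qExpansion_discriminant_mul g0 hg00
  set g := CuspForm.discriminantEquiv (ModularForm.toCuspForm g0 hg00) with hg
  have hDA : ∀ k, PowerSeries.coeff k (qExpansion 1 ModularForm.discriminant) ∈ A := by
    intro k
    rw [struct_disc hE, PowerSeries.coeff_C_mul, map_sub]
    exact A.mul_mem hd (A.sub_mem (struct_coeff_pow A (struct_E4_mem A) 3 k)
      (struct_coeff_pow A (struct_E6_mem A) 2 k))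
  have hD1 := ModularForm.discriminant_qExpansion_coeff_one
  have hD0 : PowerSeries.coeff 0 (qExpansion 1 ModularForm.discriminant) = 0 := by
    have := ModularForm.discriminant_qExpansion_order
    exact PowerSeries.coeff_of_lt_order _ (by rw [this]; norm_num)
  have hgA : ∀ k, PowerSeries.coeff k (qExpansion 1 g) ∈ A :=
    struct_solve A _ _ hD0 hD1 hDA (by rw [← hmul]; exact hg0A)
  have hmain : ∃ Ψ : MvPolynomial (Fin 2) A, ∃ V : ℕ, (V + 12 = W ∨ Ψ = 0) ∧
      Ψ.IsWeightedHomogeneous wt V ∧ (ev A Ψ).map A.subtype = qExpansion 1 g := by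
    by_cases hW12 : W < 12
    · refine ⟨0, 0, Or.inr rfl, MvPolynomial.isWeightedHomogeneous_zero _ _ _, ?_⟩
      have : (g : ℍ → ℂ) = 0 := ModularFormClass.levelOne_neg_weight_eq_zero (by omega) g
      rw [map_zero, map_zero, this, qExpansion_zero]
    · have hw : (W : ℤ) - 12 = ((W - 12 : ℕ) : ℤ) := by omega
      obtain ⟨Ψ, h1, h2⟩ := ih (W - 12) (by omega) (ModularForm.mcast hw g) (by
        intro k
        rw [ModularForm.qExpansion_mcast]
        exact hgA k)
      refine ⟨Ψ, W - 12, Or.inl (by omega), h1, ?_⟩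
      rw [h2, ModularForm.qExpansion_mcast]
  obtain ⟨Ψ, V, hV, hΨ1, hΨ2⟩ := hmain
  refine ⟨MvPolynomial.C ⟨c0, hc0A⟩ * (MvPolynomial.X 0 ^ a * MvPolynomial.X 1 ^ b) +
    MvPolynomial.C ⟨_, hd⟩ * (MvPolynomial.X 0 ^ 3 - MvPolynomial.X 1 ^ 2) * Ψ, ?_, ?_⟩
  · refine MvPolynomial.IsWeightedHomogeneous.add (hab ▸ struct_wt_mono A _ a b) ?_
    rcases hV with hV | hV
    · have h1 : (MvPolynomial.C ⟨_, hd⟩ * (MvPolynomial.X 0 ^ 3 - MvPolynomial.X 1 ^ 2) :
          MvPolynomial (Fin 2) A).IsWeightedHomogeneous wt 12 := by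
        have h3 := struct_wt_mono A ⟨_, hd⟩ 3 0
        have h4 := struct_wt_mono A ⟨_, hd⟩ 0 2
        have h5 := h3.sub h4
        rw [pow_zero, pow_zero, mul_one, one_mul, ← mul_sub] at h5
        exact h5
      have h6 := h1.mul hΨ1
      rw [add_comm 12 V, hV] at h6
      exact h6
    · rw [hV, mul_zero]
      exact MvPolynomial.isWeightedHomogeneous_zero _ _ _
  · rw [map_add, map_mul, map_mul, map_mul, map_mul, map_pow, map_pow, map_sub, map_pow, map_pow,
      map_add, map_mul, map_mul, map_mul, map_mul, map_pow, map_pow, map_sub, map_pow, map_pow,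
      struct_ev_C, struct_ev_C, struct_ev_X0, struct_ev_X1, hΨ2, ← struct_disc hE, ← hmul, hg0, hm,
      PowerSeries.smul_eq_C_mul]
    ring

end Pool.Agent.D12
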