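import Pool.Agent.D12.Stmts

set_option autoImplicit false

/-!
# Lattices all of whose shells are spherical 12-designs: module ThetaPrim
-/

namespace Pool.Agent.D12

open UpperHalfPlane hiding I
open Complex Matrix
open scoped BigOperators Real

theorem st_ThetaPrim (hFF : St_FormFacts) : St_ThetaPrim := by
  intro n G hG ν c0 h1 h2
  have hF := hFF n G hG
  have hdet : G.det ≠ 0 := ne_of_gt hF.det_pos
  have hinj : Function.Injective (fun z : Fin n → ℤ => G *ᵥ z) := by
    intro a b hab
    have h3 := congrArg (fun v => G.adjugate *ᵥ v) hab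
    simp only [Matrix.mulVec_mulVec, Matrix.adjugate_mul, Matrix.smul_mulVec,
      Matrix.one_mulVec] at h3
    funext i
    have h4 := congrFun h3 i
    simp only [Pi.smul_apply, smul_eq_mul] at h4
    exact mul_left_cancel₀ hdet h4
  have hq : ∀ z : Fin n → ℤ, qf G.adjugate (G *ᵥ z) = G.det * qf G z := by
    intro z
    unfold qf
    rw [Matrix.mulVec_mulVec, Matrix.adjugate_mul, Matrix.smul_mulVec, Matrix.one_mulVec,
      dotProduct_smul, smul_eq_mul, dotProduct_comm]
  funext τ
  show thD G ν τ = c0 * th G τ
  unfold thD th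
  rw [← tsum_mul_left]
  rw [← hinj.tsum_eq]
  · refine tsum_congr (fun z => ?_)
    rw [h1 z, hq z]
    congr 2
    have hdc : ((G.det : ℤ) : ℂ) ≠ 0 := by exact_mod_cast hdet
    rw [Int.cast_mul]
    generalize ((G.det : ℤ) : ℂ) = d at hdc
    field_simp
  · intro w hw
    by_contra hcon
    apply hw
    have : ν w = 0 := h2 w (fun z hz => hcon ⟨z, hz.symm⟩)
    simp only [this, zero_mul]

end Pool.Agent.D12
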