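import Pool.Agent.D12.Stmts

set_option autoImplicit false

/-!
# Lattices all of whose shells are spherical 12-designs: module ThetaQ
-/

namespace Pool.Agent.D12

open UpperHalfPlane hiding I
open Complex Matrix
open scoped BigOperators Real

theorem st_ThetaQ (hFF : St_FormFacts) : St_ThetaQ := by
  intro n G hG ν K hK τ
  have hF := hFF n G hG
  have hdet : (0 : ℝ) < (G.det : ℝ) := by exact_mod_cast hF.det_pos
  have hdc : ((G.det : ℤ) : ℂ) ≠ 0 := by exact_mod_cast (ne_of_gt hF.det_pos)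
  set f : (Fin n → ℤ) → ℂ := fun w =>
    ν w * cexp (π * I * (τ : ℂ) * ((qf G.adjugate w : ℤ) : ℂ) / ((G.det : ℤ) : ℂ)) with hf
  have hnorm : ∀ w, ‖f w‖ ≤ K * Real.exp (-(π * τ.im / (G.det : ℝ)) * (qf G.adjugate w : ℝ)) := by
    intro w
    rw [hf]
    simp only [norm_mul, Complex.norm_exp]
    have hre : (π * I * (τ : ℂ) * ((qf G.adjugate w : ℤ) : ℂ) / ((G.det : ℤ) : ℂ)).re
        = -(π * τ.im / (G.det : ℝ)) * (qf G.adjugate w : ℝ) := by
      have h1 : (π * I * (τ : ℂ) * ((qf G.adjugate w : ℤ) : ℂ) / ((G.det : ℤ) : ℂ))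
          = (((π * (qf G.adjugate w : ℝ) / (G.det : ℝ)) : ℝ) : ℂ) * (I * (τ : ℂ)) := by
        simp only [Complex.ofReal_div, Complex.ofReal_mul, Complex.ofReal_intCast]
        ring
      rw [h1, Complex.re_ofReal_mul, Complex.I_mul_re]
      have h2 : (τ : ℂ).im = τ.im := rfl
      rw [h2]
      ring
    rw [hre]
    exact mul_le_mul_of_nonneg_right (hK w) (Real.exp_pos _).le
  have hsum : Summable f := by
    refine Summable.of_norm_bounded (g := fun w =>
      K * Real.exp (-(π * τ.im / (G.det : ℝ)) * (qf G.adjugate w : ℝ))) ?_ hnorm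
    have := hF.adj_exp_sum (π * τ.im / (G.det : ℝ)) (by
      have := τ.im_pos
      positivity)
    exact this.mul_left K
  have hhas : HasSum f (thD G ν τ) := hsum.hasSum
  have hfib := hhas.tsum_fiberwise (fun w => (qf G.adjugate w).toNat)
  suffices hkey : (fun k : ℕ => PowerSeries.coeff k (cf G ν) *
      cexp (2 * π * I * (τ : ℂ) * k / (lev G : ℕ)))
      = fun c : ℕ => ∑' b : ((fun w : Fin n → ℤ => (qf G.adjugate w).toNat) ⁻¹' {c} :
        Set (Fin n → ℤ)), f b by
    rw [← hkey] at hfib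
    exact hfib
  funext k
  have hS : ((fun w : Fin n → ℤ => (qf G.adjugate w).toNat) ⁻¹' {k})
      = {w : Fin n → ℤ | qf G.adjugate w = (k : ℤ)} := by
    ext w
    rw [Set.mem_preimage, Set.mem_singleton_iff]
    have h0 := hF.adj_nonneg w
    constructor
    · intro h
      show qf G.adjugate w = (k : ℤ)
      rw [← h, Int.toNat_of_nonneg h0]
    · intro h
      have h' : qf G.adjugate w = (k : ℤ) := h
      rw [h', Int.toNat_natCast]
  have hfin : {w : Fin n → ℤ | qf G.adjugate w = (k : ℤ)}.Finite := hF.adj_fin k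
  have hlev : ((lev G : ℕ) : ℂ) = 2 * ((G.det : ℤ) : ℂ) := by
    have h1 : ((G.det.toNat : ℕ) : ℤ) = G.det := Int.toNat_of_nonneg hF.det_pos.le
    have h2 : ((G.det.toNat : ℕ) : ℂ) = ((G.det : ℤ) : ℂ) := by
      have h3 : ((((G.det.toNat : ℕ) : ℤ)) : ℂ) = ((G.det : ℤ) : ℂ) := congrArg _ h1
      rw [← h3, Int.cast_natCast]
    unfold lev
    rw [Nat.cast_mul, h2]
    simp
  have hfk : ∀ b : ((fun w : Fin n → ℤ => (qf G.adjugate w).toNat) ⁻¹' {k} : Set (Fin n → ℤ)),
      f (b : Fin n → ℤ) = ν b * cexp (2 * π * I * (τ : ℂ) * k / (lev G : ℕ)) := by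
    intro b
    have hb : qf G.adjugate (b : Fin n → ℤ) = (k : ℤ) := by
      have h4 : (b : Fin n → ℤ) ∈ {w : Fin n → ℤ | qf G.adjugate w = (k : ℤ)} :=
        hS.subset b.2
      exact h4
    rw [hf]
    simp only
    rw [hb, hlev]
    congr 2
    rw [Int.cast_natCast]
    generalize ((G.det : ℤ) : ℂ) = d at hdc
    field_simp
  rw [tsum_congr hfk, tsum_mul_right]
  congr 1
  rw [cf, PowerSeries.coeff_mk, hS, tsum_subtype, tsum_eq_finsum]
  · rw [← finsum_mem_def]
    rfl
  · exact hfin.subset (Set.support_indicator_subset)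

end Pool.Agent.D12
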