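import Pool.Agent.D12.Stmts

set_option autoImplicit false

/-!
# Lattices all of whose shells are spherical 12-designs: module Transf
-/

namespace Pool.Agent.D12

open UpperHalfPlane hiding I
open Complex Matrix Derivative
open scoped BigOperators MatrixGroups Real Manifold ModularForm

noncomputable section

/-- residues times quotients -/
def transfEquiv (n c : ℕ) [NeZero c] : (Fin n → Fin c) × (Fin n → ℤ) ≃ (Fin n → ℤ) :=
  ((Equiv.prodComm _ _).trans (Equiv.arrowProdEquivProdArrow (Fin n) (fun _ => ℤ) (fun _ => Fin c)).symm).trans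
    (Equiv.piCongrRight (fun _ => (Int.divModEquiv c).symm))

theorem transfEquiv_apply (n c : ℕ) [NeZero c] (y : Fin n → Fin c) (z : Fin n → ℤ) :
    transfEquiv n c (y, z) = (fun i => ((y i : ℕ) : ℤ)) + (c : ℤ) • z := by
  funext i
  simp [transfEquiv, Equiv.arrowProdEquivProdArrow, Int.divModEquiv]
  ring

theorem transf_qf_add {n : ℕ} (G : Matrix (Fin n) (Fin n) ℤ) (hs : G.IsSymm) (y z : Fin n → ℤ)
    (c : ℤ) : qf G (y + c • z) = qf G y + 2 * c * (y ⬝ᵥ (G *ᵥ z)) + c ^ 2 * qf G z := by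
  have h1 : z ⬝ᵥ (G *ᵥ y) = y ⬝ᵥ (G *ᵥ z) := by
    rw [Matrix.dotProduct_mulVec, ← Matrix.mulVec_transpose, hs.eq, dotProduct_comm]
  unfold qf
  rw [Matrix.mulVec_add, Matrix.mulVec_smul, add_dotProduct, dotProduct_add, dotProduct_add,
    smul_dotProduct, smul_dotProduct, dotProduct_smul, dotProduct_smul, h1]
  simp only [smul_eq_mul]
  ring

/-- the parameter `s = i/(cJ)` -/
def transfS (c : ℕ) (d : ℤ) (z : ℂ) : ℂ := I / ((c : ℂ) * ((c : ℂ) * z + d))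

/-- the multiplier on `ℂ` -/
def transfR (n : ℕ) (K : ℂ) (c : ℕ) (d : ℤ) (z : ℂ) : ℂ := transfS c d z ^ (-(n : ℂ) / 2) * K

theorem transf_J_ne (c : ℕ) (hc : 0 < c) (d : ℤ) (z : ℂ) (hz : 0 < z.im) :
    (c : ℂ) * z + d ≠ 0 := by
  intro h
  have h1 := congrArg Complex.im h
  simp at h1
  rcases h1 with h1 | h1
  · omega
  · linarith

theorem transfS_re_pos (c : ℕ) (hc : 0 < c) (d : ℤ) (z : ℂ) (hz : 0 < z.im) :
    0 < (transfS c d z).re := by
  have hJ := transf_J_ne c hc d z hz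
  have hc' : (0 : ℝ) < (c : ℝ) := by exact_mod_cast hc
  have hcC : (c : ℂ) ≠ 0 := by exact_mod_cast hc.ne'
  unfold transfS
  rw [Complex.div_re]
  have h1 : ((c : ℂ) * ((c : ℂ) * z + d)).im = c * (c * z.im) := by simp
  rw [h1]
  simp only [Complex.I_re, zero_mul, zero_div, zero_add, Complex.I_im, one_mul]
  apply div_pos
  · positivity
  · exact Complex.normSq_pos.mpr (mul_ne_zero hcC hJ)

theorem transfR_hasDerivAt (n : ℕ) (K : ℂ) (c : ℕ) (hc : 0 < c) (d : ℤ) (z : ℂ) (hz : 0 < z.im) :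
    HasDerivAt (transfR n K c d) ((n : ℂ) / 2 * (c / ((c : ℂ) * z + d)) * transfR n K c d z) z := by
  have hJ := transf_J_ne c hc d z hz
  have hcC : (c : ℂ) ≠ 0 := by exact_mod_cast hc.ne'
  have hs := transfS_re_pos c hc d z hz
  have h1 : HasDerivAt (fun z : ℂ => (c : ℂ) * ((c : ℂ) * z + d)) ((c : ℂ) * (c : ℂ)) z := by
    have := ((hasDerivAt_id z).const_mul (c : ℂ)).add_const ((d : ℤ) : ℂ)
    have := this.const_mul (c : ℂ)
    simpa using this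
  have h2 : HasDerivAt (transfS c d) (-(c / ((c : ℂ) * z + d)) * transfS c d z) z := by
    have h3 := (hasDerivAt_const z I).div h1 (mul_ne_zero hcC hJ)
    have : HasDerivAt (transfS c d)
      ((0 * ((c : ℂ) * ((c : ℂ) * z + d)) - I * ((c : ℂ) * (c : ℂ))) /
        ((c : ℂ) * ((c : ℂ) * z + d)) ^ 2) z := h3
    convert this using 1
    unfold transfS
    field_simp
    ring
  have hslit : transfS c d z ∈ Complex.slitPlane := Or.inl hs
  have hne : transfS c d z ≠ 0 := Complex.slitPlane_ne_zero hslit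
  have h4 := (h2.cpow_const (c := -(n : ℂ) / 2) hslit).mul_const K
  have h5 : HasDerivAt (transfR n K c d)
    (-(n : ℂ) / 2 * transfS c d z ^ (-(n : ℂ) / 2 - 1) *
      (-(c / ((c : ℂ) * z + d)) * transfS c d z) * K) z := h4
  convert h5 using 1
  unfold transfR
  rw [Complex.cpow_sub _ _ hne, Complex.cpow_one]
  field_simp

theorem transf_cpow_sq (n : ℕ) (s : ℂ) : (s ^ (-(n : ℂ) / 2)) ^ 2 = (s ^ n)⁻¹ := by
  rw [← Complex.cpow_nat_mul]
  have h : ((2 : ℕ) : ℂ) * (-(n : ℂ) / 2) = -(n : ℂ) := by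
    push_cast
    ring
  rw [h, Complex.cpow_neg, Complex.cpow_natCast]

/-- the constant `c^{-n} D^{-1/2}` -/
def transfK {n : ℕ} (G : Matrix (Fin n) (Fin n) ℤ) (c : ℕ) : ℂ :=
  ((c : ℂ) ^ n)⁻¹ * ((Real.sqrt (G.det : ℝ) : ℝ) : ℂ)⁻¹

/-- the multiplier on the upper half plane -/
def transfRho {n : ℕ} (G : Matrix (Fin n) (Fin n) ℤ) (c : ℕ) (d : ℤ) (τ : ℍ) : ℂ :=
  transfR n (transfK G c) c d (τ : ℂ)

theorem transfRho_comp {n : ℕ} (G : Matrix (Fin n) (Fin n) ℤ) (c : ℕ) (d : ℤ) (z : ℂ)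
    (hz : 0 < z.im) : (transfRho G c d ∘ ofComplex) =ᶠ[nhds z] transfR n (transfK G c) c d := by
  filter_upwards [isOpen_upperHalfPlaneSet.mem_nhds hz] with w hw
  simp only [Function.comp, transfRho]
  rw [ofComplex_apply_of_im_pos hw]

theorem transfRho_mdiff {n : ℕ} (G : Matrix (Fin n) (Fin n) ℤ) (c : ℕ) (hc : 0 < c) (d : ℤ) :
    MDiff (transfRho G c d) := by
  rw [UpperHalfPlane.mdifferentiable_iff]
  intro z hz
  have h1 := (transfR_hasDerivAt n (transfK G c) c hc d z hz).differentiableAt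
  exact ((transfRho_comp G c d z hz).differentiableAt_iff.mpr h1).differentiableWithinAt

theorem transfRho_sq {n : ℕ} (G : Matrix (Fin n) (Fin n) ℤ) (hdet : 0 < G.det) (c : ℕ)
    (hc : 0 < c) (d : ℤ) (τ : ℍ) :
    transfRho G c d τ ^ 2 = (-I / c) ^ n * (((G.det : ℤ) : ℂ))⁻¹ * ((c : ℂ) * τ + d) ^ n := by
  have hJ := transf_J_ne c hc d τ τ.im_pos
  have hcC : (c : ℂ) ≠ 0 := by exact_mod_cast hc.ne'
  have hdR : (0 : ℝ) < (G.det : ℝ) := by exact_mod_cast hdet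
  have hsq : ((Real.sqrt (G.det : ℝ) : ℝ) : ℂ) ^ 2 = ((G.det : ℤ) : ℂ) := by
    rw [← Complex.ofReal_pow, Real.sq_sqrt hdR.le]
    simp
  unfold transfRho transfR transfK
  rw [mul_pow, mul_pow, transf_cpow_sq, inv_pow, inv_pow, hsq]
  unfold transfS
  have h2 : (-I / (c : ℂ)) ^ n * ((c : ℂ) * τ + d) ^ n =
      ((I / ((c : ℂ) * ((c : ℂ) * (τ : ℂ) + d))) ^ n)⁻¹ * (((c : ℂ) ^ n) ^ 2)⁻¹ := by
    rw [← mul_pow, ← inv_pow, ← pow_mul, mul_comm n 2, pow_mul, ← inv_pow, ← mul_pow]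
    congr 1
    have hI : I ≠ 0 := Complex.I_ne_zero
    field_simp
    rw [Complex.I_sq]
    ring
  calc _ = ((I / ((c : ℂ) * ((c : ℂ) * (τ : ℂ) + d))) ^ n)⁻¹ * (((c : ℂ) ^ n) ^ 2)⁻¹ *
        (((G.det : ℤ) : ℂ))⁻¹ := by ring
    _ = _ := by rw [← h2]; ring

theorem transfRho_deriv {n : ℕ} (G : Matrix (Fin n) (Fin n) ℤ) (c : ℕ) (hc : 0 < c) (d : ℤ)
    (τ : ℍ) : normalizedDerivOfComplex (transfRho G c d) τ =
      (n : ℂ) / 2 * ((c : ℂ) / (2 * π * I * ((c : ℂ) * τ + d))) * transfRho G c d τ := by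
  have hJ := transf_J_ne c hc d τ τ.im_pos
  have h1 := (transfR_hasDerivAt n (transfK G c) c hc d τ τ.im_pos).deriv
  unfold normalizedDerivOfComplex
  rw [(transfRho_comp G c d τ τ.im_pos).deriv_eq, h1]
  unfold transfRho
  have hpi : (π : ℂ) ≠ 0 := by exact_mod_cast Real.pi_ne_zero
  have hI : I ≠ 0 := Complex.I_ne_zero
  field_simp

/-- summability of the theta series -/
theorem transf_summable {n : ℕ} (G : Matrix (Fin n) (Fin n) ℤ) (hF : FormFacts G) (τ : ℍ) :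
    Summable (fun z : Fin n → ℤ => cexp (π * I * (τ : ℂ) * ((qf G z : ℤ) : ℂ))) := by
  apply Summable.of_norm
  have h := hF.exp_sum (π * τ.im) (mul_pos Real.pi_pos τ.im_pos)
  refine h.congr ?_
  intro z
  rw [Complex.norm_exp]
  congr 1
  have : (π : ℂ) * I * (τ : ℂ) * ((qf G z : ℤ) : ℂ) = ((π * (qf G z : ℤ) : ℝ) : ℂ) * (I * τ) := by
    push_cast
    ring
  rw [this, Complex.re_ofReal_mul]
  simp
  ring

/-- the term of the theta series at `γτ` -/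
theorem transf_term {n : ℕ} (G : Matrix (Fin n) (Fin n) ℤ) (hs : G.IsSymm) (hF : FormFacts G)
    (c : ℕ) (hc : 0 < c) (a d : ℤ) (t : ℂ) (ht : 0 < t.im) (y z : Fin n → ℤ) :
    cexp (π * I * ((a : ℂ) / c - 1 / ((c : ℂ) * ((c : ℂ) * t + d))) *
      ((qf G (y + (c : ℤ) • z) : ℤ) : ℂ)) =
    cexp (π * I * ((a * qf G y : ℤ) : ℂ) / c) *
      cexp (-π * transfS c d t * ((qf G (y + (c : ℤ) • z) : ℤ) : ℂ)) := by
  have hJ := transf_J_ne c hc d t ht
  have hcC : (c : ℂ) ≠ 0 := by exact_mod_cast hc.ne'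
  obtain ⟨r, hr⟩ := hF.qf_even z
  have h1 : π * I * ((a : ℂ) / c - 1 / ((c : ℂ) * ((c : ℂ) * t + d))) *
      ((qf G (y + (c : ℤ) • z) : ℤ) : ℂ) = π * I * ((a * qf G y : ℤ) : ℂ) / c +
      (-π * transfS c d t * ((qf G (y + (c : ℤ) • z) : ℤ) : ℂ)) +
      ((a * (y ⬝ᵥ (G *ᵥ z)) + a * c * r : ℤ) : ℂ) * (2 * π * I) := by
    have h2 : π * I * ((a : ℂ) / c - 1 / ((c : ℂ) * ((c : ℂ) * t + d))) *
      ((qf G (y + (c : ℤ) • z) : ℤ) : ℂ) = π * I * (a : ℂ) / c * ((qf G (y + (c : ℤ) • z) : ℤ) : ℂ) +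
      (-π * transfS c d t * ((qf G (y + (c : ℤ) • z) : ℤ) : ℂ)) := by
      unfold transfS
      field_simp
      ring
    rw [h2]
    have h3 : π * I * (a : ℂ) / c * ((qf G (y + (c : ℤ) • z) : ℤ) : ℂ) =
        π * I * ((a * qf G y : ℤ) : ℂ) / c +
        ((a * (y ⬝ᵥ (G *ᵥ z)) + a * c * r : ℤ) : ℂ) * (2 * π * I) := by
      rw [transf_qf_add G hs y z c, hr]
      push_cast
      field_simp
      ring
    rw [h3]
    ring
  rw [h1, Complex.exp_add, Complex.exp_int_mul_two_pi_mul_I, mul_one, Complex.exp_add]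

theorem transf_main {n : ℕ} (G : Matrix (Fin n) (Fin n) ℤ) (hE : EvenForm G) (hF : FormFacts G)
    (hP : St_Poisson) (c : ℕ) (hc : 0 < c) (a d : ℤ) (τ' τ : ℍ)
    (hτ : (τ' : ℂ) = (a : ℂ) / c - 1 / ((c : ℂ) * ((c : ℂ) * τ + d))) :
    th G τ' = transfRho G c d τ * thD G (nug G c a d) τ := by
  have : NeZero c := ⟨hc.ne'⟩
  have hJ := transf_J_ne c hc d τ τ.im_pos
  have hcC : (c : ℂ) ≠ 0 := by exact_mod_cast hc.ne'
  have hre := transfS_re_pos c hc d τ τ.im_pos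
  have hsum := transf_summable G hF τ'
  have hdet : ((G.det : ℤ) : ℂ) ≠ 0 := by exact_mod_cast hF.det_pos.ne'
  unfold th
  rw [← (transfEquiv n c).tsum_eq]
  have hsum2 : Summable (fun p : (Fin n → Fin c) × (Fin n → ℤ) =>
      cexp (π * I * (τ' : ℂ) * ((qf G (transfEquiv n c p) : ℤ) : ℂ))) :=
    (transfEquiv n c).summable_iff.mpr hsum
  rw [hsum2.tsum_prod, tsum_fintype]
  have hin : ∀ y : Fin n → Fin c,
      ∑' z : Fin n → ℤ, cexp (π * I * (τ' : ℂ) * ((qf G (transfEquiv n c (y, z)) : ℤ) : ℂ)) =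
      transfRho G c d τ * ∑' w : Fin n → ℤ, cexp (π * I * ((a * qf G (fun i => ((y i : ℕ) : ℤ)) : ℤ) : ℂ) / c) *
        cexp (-π * ((qfR G.adjugate (fun i => (w i : ℝ) - c * (0 : Fin n → ℝ) i) / (G.det : ℝ) : ℝ) : ℂ) /
            ((c : ℂ) ^ 2 * transfS c d τ) + 2 * π * I * ((w ⬝ᵥ (fun i => ((y i : ℕ) : ℤ)) : ℤ) : ℂ) / c) := by
    intro y
    obtain ⟨-, -, h3⟩ := hP n G hE c hc (transfS c d τ) hre (fun i => ((y i : ℕ) : ℤ)) 0
    have h4 : ∀ z : Fin n → ℤ, cexp (π * I * (τ' : ℂ) * ((qf G (transfEquiv n c (y, z)) : ℤ) : ℂ)) =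
        cexp (π * I * ((a * qf G (fun i => ((y i : ℕ) : ℤ)) : ℤ) : ℂ) / c) *
        cexp (-π * transfS c d τ * ((qf G ((fun i => ((y i : ℕ) : ℤ)) + (c : ℤ) • z) : ℤ) : ℂ) +
        2 * π * I * (prR ((fun i => ((y i : ℕ) : ℤ)) + (c : ℤ) • z) 0 : ℂ)) := by
      intro z
      rw [transfEquiv_apply, hτ, transf_term G hE.symm hF c hc a d τ τ.im_pos]
      congr 2
      simp [prR]
    rw [tsum_congr h4, tsum_mul_left, h3, tsum_mul_left]
    unfold transfRho transfR transfK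
    ring
  rw [Finset.sum_congr rfl (fun y _ => hin y), ← Finset.mul_sum]
  congr 1
  have hsw : ∀ y : Fin n → Fin c, Summable (fun w : Fin n → ℤ =>
      cexp (π * I * ((a * qf G (fun i => ((y i : ℕ) : ℤ)) : ℤ) : ℂ) / c) *
        cexp (-π * ((qfR G.adjugate (fun i => (w i : ℝ) - c * (0 : Fin n → ℝ) i) / (G.det : ℝ) : ℝ) : ℂ) /
            ((c : ℂ) ^ 2 * transfS c d τ) + 2 * π * I * ((w ⬝ᵥ (fun i => ((y i : ℕ) : ℤ)) : ℤ) : ℂ) / c)) := by
    intro y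
    obtain ⟨-, h2, -⟩ := hP n G hE c hc (transfS c d τ) hre (fun i => ((y i : ℕ) : ℤ)) 0
    exact h2.mul_left _
  rw [← Summable.tsum_finsetSum (fun y _ => hsw y)]
  unfold thD nug gs
  apply tsum_congr
  intro w
  rw [Finset.sum_mul, Finset.sum_mul]
  apply Finset.sum_congr rfl
  intro y _
  have hq : qfR G.adjugate (fun i => (w i : ℝ) - c * (0 : Fin n → ℝ) i) = ((qf G.adjugate w : ℤ) : ℝ) := by
    simp only [Pi.zero_apply, mul_zero, sub_zero]
    unfold qfR qf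
    simp only [dotProduct, Matrix.mulVec, Matrix.map_apply]
    push_cast
    rfl
  rw [hq, ← Complex.exp_add, ← Complex.exp_add, ← Complex.exp_add, Complex.ofReal_div,
    Complex.ofReal_intCast, Complex.ofReal_intCast]
  congr 1
  unfold transfS
  have hI : I ≠ 0 := Complex.I_ne_zero
  generalize ((G.det : ℤ) : ℂ) = detC at hdet ⊢
  push_cast
  field_simp
  rw [Complex.I_sq]
  ring

theorem transf_coe (γ : SL(2, ℤ)) (c : ℕ) (hc : 0 < c) (hγ : γ 1 0 = (c : ℤ)) (τ : ℍ) :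
    ((γ • τ : ℍ) : ℂ) = ((γ 0 0 : ℤ) : ℂ) / c - 1 / ((c : ℂ) * ((c : ℂ) * τ + (γ 1 1 : ℤ))) := by
  have hJ := transf_J_ne c hc (γ 1 1) τ τ.im_pos
  have hcC : (c : ℂ) ≠ 0 := by exact_mod_cast hc.ne'
  have hdet : γ 0 0 * γ 1 1 - γ 0 1 * γ 1 0 = 1 := by
    have := γ.det_coe
    rwa [Matrix.det_fin_two] at this
  rw [hγ] at hdet
  rw [UpperHalfPlane.coe_specialLinearGroup_apply]
  have hdC : ((γ 0 0 : ℤ) : ℂ) * ((γ 1 1 : ℤ) : ℂ) - ((γ 0 1 : ℤ) : ℂ) * (c : ℂ) = 1 := by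
    exact_mod_cast hdet
  simp only [algebraMap_int_eq, eq_intCast, Complex.ofReal_intCast, hγ, Int.cast_natCast]
  generalize hJJ : (c : ℂ) * (τ : ℂ) + ((γ 1 1 : ℤ) : ℂ) = J at hJ ⊢
  rw [div_eq_iff hJ]
  field_simp
  rw [← hJJ]
  linear_combination (-1 : ℂ) * hdC

theorem st_Transf (hFF : St_FormFacts) (hP : St_Poisson) : St_Transf := by
  intro n G hE γ c hc hγ
  have hF := hFF n G hE
  have hden : ∀ τ : ℍ, denom γ τ = (c : ℂ) * τ + ((γ 1 1 : ℤ) : ℂ) := by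
    intro τ
    simp [denom, hγ]
  refine ⟨transfRho G c (γ 1 1), transfRho_mdiff G c hc _, ?_, ?_, ?_⟩
  · intro τ
    rw [hden]
    exact transfRho_sq G hF.det_pos c hc _ τ
  · intro τ
    rw [hden, hγ]
    simpa using transfRho_deriv G c hc (γ 1 1) τ
  · intro τ
    exact transf_main G hE hF hP c hc _ _ _ τ (transf_coe γ c hc hγ τ)

end

end Pool.Agent.D12
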