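import Pool.Agent.D12.Stmts

set_option autoImplicit false

/-!
# Lattices all of whose shells are spherical 12-designs: module Val
-/

namespace Pool.Agent.D12

theorem st_Val : St_Val := by
  intro p hp
  set A : Subring ℂ := (Int.castRingHom ℂ).range with hA
  have hpA : (p : ℂ) ∈ A := ⟨(p : ℤ), by simp⟩
  set I : Ideal A := Ideal.span {(⟨(p : ℂ), hpA⟩ : A)} with hI
  have hne : I ≠ ⊤ := by
    intro h
    have h1 : (1 : A) ∈ I := by rw [h]; exact Submodule.mem_top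
    rw [hI, Ideal.mem_span_singleton] at h1
    obtain ⟨⟨c, ⟨k, hk⟩⟩, hc⟩ := h1
    have h2 : (1 : ℂ) = (p : ℂ) * c := congrArg Subtype.val hc
    rw [← hk] at h2
    have h3 : (1 : ℤ) = (p : ℤ) * k := by
      have : ((1 : ℤ) : ℂ) = (((p : ℤ) * k : ℤ) : ℂ) := by
        push_cast
        simpa using h2
      exact_mod_cast this
    have h4 : (p : ℤ) ∣ 1 := ⟨k, h3⟩
    have h5 : p ∣ 1 := by exact_mod_cast h4
    exact hp.one_lt.ne' (Nat.dvd_one.mp h5)
  obtain ⟨B, -, hB⟩ := Ideal.image_subset_nonunits_valuationSubring I hne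
  refine ⟨B, ?_⟩
  have h1 : (p : ℂ) ∈ B.nonunits :=
    hB ⟨⟨(p : ℂ), hpA⟩, Ideal.subset_span rfl, rfl⟩
  exact h1

end Pool.Agent.D12
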