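import Pool.Agent.D12.Final
import Pool.Agent.D12.Coprime
import Pool.Agent.D12.Del
import Pool.Agent.D12.EisQ
import Pool.Agent.D12.Est
import Pool.Agent.D12.Ex
import Pool.Agent.D12.FinIndex
import Pool.Agent.D12.FormFacts
import Pool.Agent.D12.Fourier
import Pool.Agent.D12.Gauss1
import Pool.Agent.D12.Gauss2
import Pool.Agent.D12.Gauss3
import Pool.Agent.D12.Gauss4
import Pool.Agent.D12.Gauss5
import Pool.Agent.D12.GaussDesign
import Pool.Agent.D12.Generic
import Pool.Agent.D12.Hasse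
import Pool.Agent.D12.HomogDvd
import Pool.Agent.D12.HopCov
import Pool.Agent.D12.HopEst
import Pool.Agent.D12.HopQ
import Pool.Agent.D12.Inj
import Pool.Agent.D12.KP
import Pool.Agent.D12.Lattice
import Pool.Agent.D12.LevelOne
import Pool.Agent.D12.LevelOneForm
import Pool.Agent.D12.Norm
import Pool.Agent.D12.Normalize
import Pool.Agent.D12.Poisson
import Pool.Agent.D12.PoissonGen
import Pool.Agent.D12.Prop
import Pool.Agent.D12.QAlg
import Pool.Agent.D12.QAna
import Pool.Agent.D12.Raman2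
import Pool.Agent.D12.Raman46
import Pool.Agent.D12.Rational
import Pool.Agent.D12.RealId
import Pool.Agent.D12.Slash
import Pool.Agent.D12.Struct
import Pool.Agent.D12.ThetaPrim
import Pool.Agent.D12.ThetaQ
import Pool.Agent.D12.Transf
import Pool.Agent.D12.Val

set_option autoImplicit false

namespace Pool.Agent.D12

theorem asm_LevelOne : St_LevelOne :=
  st_LevelOne st_EisQ (st_Struct st_EisQ) st_Inj (st_Hasse st_EisQ (st_Struct st_EisQ))
    (st_Del (st_Raman46 st_EisQ)) (st_Raman2 st_EisQ)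
    (st_Coprime st_Inj (st_Del (st_Raman46 st_EisQ)) st_HomogDvd (st_Raman2 st_EisQ))

theorem asm_Norm : St_Norm :=
  st_Norm st_QAlg st_QAna st_Ex st_EisQ (st_LevelOneForm st_QAlg st_QAna) st_Generic asm_LevelOne

theorem asm_Poisson : St_Poisson := st_Poisson st_FormFacts st_Fourier st_PoissonGen

theorem asm_GaussDesign : St_GaussDesign :=
  st_GaussDesign st_FormFacts (st_Prop st_FormFacts (st_RealId st_FormFacts asm_Poisson))
    st_Normalize

theorem asm_Slash : St_Slash :=
  st_Slash st_FormFacts st_QAna (st_ThetaQ st_FormFacts) (st_ThetaPrim st_FormFacts)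
    (st_Transf st_FormFacts asm_Poisson) st_HopCov

theorem asm_FinIndex : St_FinIndex :=
  st_FinIndex st_FormFacts st_QAna (st_ThetaQ st_FormFacts) (st_ThetaPrim st_FormFacts)
    (st_Gauss4 st_FormFacts) (st_Gauss5 st_Gauss1 st_Gauss2) asm_Slash

theorem asm_Est : St_Est :=
  st_Est st_FormFacts asm_GaussDesign (st_Gauss3 st_Gauss1 st_Gauss2)

theorem asm_KP : St_KP :=
  st_KP st_FormFacts st_QAlg st_Ex (st_ThetaQ st_FormFacts) (st_HopQ st_QAlg st_QAna st_EisQ)
    (st_HopEst (st_Raman2 st_EisQ) st_Ex) asm_Slash asm_FinIndex asm_Est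

theorem asm_Lattice : St_Lattice := st_Lattice st_Rational

/-- lattices in the dimensions of the arithmetic criterion -/
theorem main (n : ℕ) (hn : 2 ≤ n) (p j : ℕ) (hp : p.Prime) (hp13 : 13 ≤ p) (hj1 : 1 ≤ j)
    (hj5 : j ≤ 5) (hdvd : p ∣ n + 2 * j) (hlt : n < 2 * j * (p - 1))
    (L : Submodule ℤ (EuclideanSpace ℝ (Fin n))) (hd : DiscreteTopology L)
    (hs : Submodule.span ℝ (L : Set (EuclideanSpace ℝ (Fin n))) = ⊤)
    (H : ∀ r : ℝ, 0 < r → ShellD n L r) : False :=
  main_of asm_Lattice asm_KP asm_Norm st_Val n hn p j hp hp13 hj1 hj5 hdvd hlt L hd hs H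

end Pool.Agent.D12
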