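import Mathlib

set_option autoImplicit false

/-!
# Lattices all of whose shells are spherical 12-designs: definitions

Paper: `/team-store/D12_paper.md`.  The section numbers below refer to it.
-/

namespace Pool.Agent.D12

open UpperHalfPlane hiding I
open Complex Matrix Derivative
open scoped BigOperators MatrixGroups Real Manifold ModularForm ArithmeticFunction.sigma

noncomputable section

variable {n : ℕ}

/-- the integral quadratic form `z ↦ zᵀ M z` -/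
def qf (M : Matrix (Fin n) (Fin n) ℤ) (z : Fin n → ℤ) : ℤ := z ⬝ᵥ (M *ᵥ z)

/-- the same form at real vectors -/
def qfR (M : Matrix (Fin n) (Fin n) ℤ) (x : Fin n → ℝ) : ℝ :=
  x ⬝ᵥ ((M.map (fun a : ℤ => (a : ℝ))) *ᵥ x)

/-- pairing of an integral vector with a real vector -/
def prR (w : Fin n → ℤ) (x : Fin n → ℝ) : ℝ := ∑ i, (w i : ℝ) * x i

/-- symmetric, positive definite, integral with even diagonal -/
structure EvenForm (G : Matrix (Fin n) (Fin n) ℤ) : Prop where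
  symm : G.IsSymm
  even : ∀ i, Even (G i i)
  pos : ∀ x : Fin n → ℝ, x ≠ 0 → 0 < qfR G x

/-- `c_i = ∏_{r<i} (2r+1)/(n+2r)`, the `2i`-th moment of a coordinate on the unit sphere -/
def mom (n i : ℕ) : ℝ := ∏ r ∈ Finset.range i, ((2 * (r : ℝ) + 1) / ((n : ℝ) + 2 * r))

/-- (1.4): every shell of the lattice with Gram matrix `G` has the moments of a 12-design -/
def DesignForm (G : Matrix (Fin n) (Fin n) ℤ) : Prop :=
  ∀ (k : ℕ) (β : Fin n → ℝ) (i : ℕ), i ≤ 6 →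
    ∑ᶠ (z : Fin n → ℤ) (_ : qf G z = k), (prR (G *ᵥ z) β) ^ (2 * i) =
      mom n i * ((k : ℝ) * qfR G β) ^ i * (Nat.card {z : Fin n → ℤ // qf G z = k} : ℝ)

/-- Gauss sum `∑_{y mod c} e((a q(y)/2 + w·y)/c)` -/
def gs (G : Matrix (Fin n) (Fin n) ℤ) (c : ℕ) (a : ℤ) (w : Fin n → ℤ) : ℂ :=
  ∑ y : Fin n → Fin c, cexp (2 * π * I *
    (((a * qf G (fun i => ((y i : ℕ) : ℤ)) : ℤ) : ℂ) / 2 +
      ((w ⬝ᵥ (fun i => ((y i : ℕ) : ℤ)) : ℤ) : ℂ)) / c)

/-- Gauss sum with the phase `e(d wᵀG⁻¹w/(2c))`, the coefficients at the cusp -/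
def nug (G : Matrix (Fin n) (Fin n) ℤ) (c : ℕ) (a d : ℤ) (w : Fin n → ℤ) : ℂ :=
  gs G c a w * cexp (π * I * d * ((qf G.adjugate w : ℤ) : ℂ) / (c * ((G.det : ℤ) : ℂ)))

/-- theta function of the lattice -/
def th (G : Matrix (Fin n) (Fin n) ℤ) (τ : ℍ) : ℂ :=
  ∑' z : Fin n → ℤ, cexp (π * I * (τ : ℂ) * ((qf G z : ℤ) : ℂ))

/-- weighted theta function of the dual lattice (form `wᵀ G⁻¹ w = wᵀ adj(G) w / det G`) -/
def thD (G : Matrix (Fin n) (Fin n) ℤ) (ν : (Fin n → ℤ) → ℂ) (τ : ℍ) : ℂ :=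
  ∑' w : Fin n → ℤ, ν w * cexp (π * I * (τ : ℂ) * ((qf G.adjugate w : ℤ) : ℂ) / ((G.det : ℤ) : ℂ))

/-- coefficients of `thD G ν` in the parameter `q_N`, `N = 2 det G` -/
def cf (G : Matrix (Fin n) (Fin n) ℤ) (ν : (Fin n → ℤ) → ℂ) : PowerSeries ℂ :=
  PowerSeries.mk fun k => ∑ᶠ (w : Fin n → ℤ) (_ : qf G.adjugate w = (k : ℤ)), ν w

/-- the level `N = 2 det G` -/
def lev (G : Matrix (Fin n) (Fin n) ℤ) : ℕ := 2 * G.det.toNat

/-- `φ(τ) = ∑ a_k e(kτ/N)` on the upper half plane -/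
def HasQ (N : ℕ) (φ : ℍ → ℂ) (a : PowerSeries ℂ) : Prop :=
  ∀ τ : ℍ, HasSum (fun k : ℕ => PowerSeries.coeff k a * cexp (2 * π * I * (τ : ℂ) * k / N)) (φ τ)

/-- `q`-expansion of `E₂` -/
def e2s : PowerSeries ℤ := PowerSeries.mk fun m => if m = 0 then 1 else -24 * (σ 1 m : ℤ)

/-- `q`-expansion of `E₄` -/
def e4s : PowerSeries ℤ := PowerSeries.mk fun m => if m = 0 then 1 else 240 * (σ 3 m : ℤ)

/-- `q`-expansion of `E₆` -/
def e6s : PowerSeries ℤ := PowerSeries.mk fun m => if m = 0 then 1 else -504 * (σ 5 m : ℤ)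

/-- the series `e2s` over a ring `R` -/
def E2R (R : Type*) [CommRing R] : PowerSeries R := e2s.map (Int.castRingHom R)

/-- the series `e4s` over a ring `R` -/
def E4R (R : Type*) [CommRing R] : PowerSeries R := e4s.map (Int.castRingHom R)

/-- the series `e6s` over a ring `R` -/
def E6R (R : Type*) [CommRing R] : PowerSeries R := e6s.map (Int.castRingHom R)

/-- `q d/dq` -/
def thd {R : Type*} [CommRing R] (a : PowerSeries R) : PowerSeries R :=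
  PowerSeries.mk fun k => (k : R) * PowerSeries.coeff k a

/-- substitution `q ↦ q_N^N` -/
def ex {R : Type*} [CommRing R] (N : ℕ) (a : PowerSeries R) : PowerSeries R :=
  PowerSeries.mk fun k => if N ∣ k then PowerSeries.coeff (k / N) a else 0

/-- `q d/dq` in the parameter `q_N` -/
def dN (N : ℕ) (a : PowerSeries ℂ) : PowerSeries ℂ :=
  PowerSeries.mk fun k => ((k : ℂ) / N) * PowerSeries.coeff k a

/-- the operators `H_i` of section 5 -/
def Hop (k : ℂ) : ℕ → (ℍ → ℂ) → ℍ → ℂ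
  | 0, φ => φ
  | 1, φ => fun τ => -(12 / k) * serreDerivative k φ τ
  | (i + 2), φ => fun τ => -(12 / (k + (i + 1))) *
      (serreDerivative (k + 2 * (i + 1)) (Hop k (i + 1) φ) τ +
        (((i : ℂ) + 1) / 12) * (ModularForm.E₄ : ℍ → ℂ) τ * Hop k i φ τ)

/-- the operators `H_i` on `q_N`-series -/
def HopS (N : ℕ) (k : ℂ) : ℕ → PowerSeries ℂ → PowerSeries ℂ
  | 0, a => a
  | 1, a => PowerSeries.C (-(12 / k)) *
      (dN N a - PowerSeries.C (k / 12) * ex N (E2R ℂ) * a)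
  | (i + 2), a => PowerSeries.C (-(12 / (k + (i + 1)))) *
      (dN N (HopS N k (i + 1) a) -
        PowerSeries.C ((k + 2 * (i + 1)) / 12) * ex N (E2R ℂ) * HopS N k (i + 1) a +
        PowerSeries.C (((i : ℂ) + 1) / 12) * ex N (E4R ℂ) * HopS N k i a)

/-- evaluation of polynomials at `E₄, E₆` -/
def ev (R : Type*) [CommRing R] : MvPolynomial (Fin 2) R →ₐ[R] PowerSeries R :=
  MvPolynomial.aeval ![E4R R, E6R R]

/-- weights of `x₀ = E₄`, `x₁ = E₆` -/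
def wt : Fin 2 → ℕ := ![4, 6]

/-- the derivation `∂` of (8.5) -/
def del (κ : Type*) [Field κ] :
    Derivation κ (MvPolynomial (Fin 2) κ) (MvPolynomial (Fin 2) κ) :=
  MvPolynomial.mkDerivation κ
    ![-(MvPolynomial.C (1 / 3) * MvPolynomial.X 1), -(MvPolynomial.C (1 / 2) * MvPolynomial.X 0 ^ 2)]

/-- `F = det G · θ²`, weight `n` -/
def Fth (G : Matrix (Fin n) (Fin n) ℤ) : ℍ → ℂ := fun τ => ((G.det : ℤ) : ℂ) * th G τ ^ 2

/-- `T = det G · H_j(θ)²`, weight `n + 4j` -/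
def Tth (G : Matrix (Fin n) (Fin n) ℤ) (j : ℕ) : ℍ → ℂ := fun τ =>
  ((G.det : ℤ) : ℂ) * Hop ((n : ℂ) / 2) j (th G) τ ^ 2

/-- the output of sections 1-6: (6.3) -/
structure KPData (A : ValuationSubring ℂ) (n j N : ℕ) (F T : ℍ → ℂ) : Prop where
  Npos : 0 < N
  fin : ∃ Γ' : Subgroup SL(2, ℤ), Γ'.FiniteIndex ∧
    ∀ γ ∈ Γ', F ∣[((n : ℕ) : ℤ)] γ = F ∧ T ∣[((n + 4 * j : ℕ) : ℤ)] γ = T
  exp : ∀ γ : SL(2, ℤ), ∃ B C : PowerSeries ℂ,
    HasQ N (F ∣[((n : ℕ) : ℤ)] γ) B ∧ HasQ N (T ∣[((n + 4 * j : ℕ) : ℤ)] γ) C ∧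
    (∀ k, A.valuation (PowerSeries.coeff k B) ≤ 1) ∧
    (∀ k, A.valuation (PowerSeries.coeff k C) ≤ 1) ∧
    (∀ k, A.valuation (PowerSeries.coeff k (C - ex N (E2R ℂ) ^ (2 * j) * B)) < 1)
  unit : ∃ (γ : SL(2, ℤ)) (B : PowerSeries ℂ), HasQ N (F ∣[((n : ℕ) : ℤ)] γ) B ∧
    A.valuation (PowerSeries.coeff 0 B) = 1

end

end Pool.Agent.D12
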