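import Pool.Agent.D12.Stmts

set_option autoImplicit false

/-!
# Lattices all of whose shells are spherical 12-designs: the main theorem from the modules
-/

namespace Pool.Agent.D12

/-- the main theorem, for dimensions satisfying the arithmetic criterion -/
theorem main_of (hL : St_Lattice) (hKP : St_KP) (hN : St_Norm) (hV : St_Val)
    (n : ℕ) (hn : 2 ≤ n) (p j : ℕ) (hp : p.Prime) (hp13 : 13 ≤ p) (hj1 : 1 ≤ j) (hj5 : j ≤ 5)
    (hdvd : p ∣ n + 2 * j) (hlt : n < 2 * j * (p - 1))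
    (L : Submodule ℤ (EuclideanSpace ℝ (Fin n))) (hd : DiscreteTopology L)
    (hs : Submodule.span ℝ (L : Set (EuclideanSpace ℝ (Fin n))) = ⊤)
    (H : ∀ r : ℝ, 0 < r → ShellD n L r) : False := by
  obtain ⟨G, hG, hD, hz⟩ := hL n hn L hd hs H p hp (by omega)
  obtain ⟨A, hA⟩ := hV p hp
  have h1 := hKP n G hG hD hn p j hp hp13 hj1 hj5 hdvd hz A hA
  have h2 := hN p hp (by omega) A hA n j (lev G) (Fth G) (Tth G j) h1
  omega

/-- the criterion covers all dimensions from 16 to 119 and all odd dimensions from 3 to 15 -/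
theorem criterion_small (n : ℕ) (h1 : 16 ≤ n) (h2 : n ≤ 119) :
    ∃ p j : ℕ, p.Prime ∧ 13 ≤ p ∧ 1 ≤ j ∧ j ≤ 5 ∧ p ∣ n + 2 * j ∧ n < 2 * j * (p - 1) := by
  have key : ∀ m ∈ Finset.Icc 16 119, ∃ j ∈ Finset.Icc 1 5, ∃ p ∈ Finset.Icc 13 129,
      p.Prime ∧ p ∣ m + 2 * j ∧ m < 2 * j * (p - 1) := by
    decide +kernel
  obtain ⟨j, hj, p, hp, h3, h4, h5⟩ := key n (Finset.mem_Icc.mpr ⟨h1, h2⟩)
  rw [Finset.mem_Icc] at hj hp
  exact ⟨p, j, h3, hp.1, hj.1, hj.2, h4, h5⟩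

end Pool.Agent.D12
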