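import Pool.Agent.D12.Stmts

set_option autoImplicit false

/-!
# Lattices all of whose shells are spherical 12-designs: module Hasse
-/

namespace Pool.Agent.D12

open UpperHalfPlane hiding I
open Complex Matrix Derivative
open scoped BigOperators MatrixGroups Real Manifold ModularForm ArithmeticFunction.sigma

/-- rational numbers with denominator invertible in `κ` -/
def HasseAux_A0 (κ : Type) [Field κ] : Subring ℚ where
  carrier := {q | (q.den : κ) ≠ 0}
  mul_mem' := by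
    intro a b ha hb h
    obtain ⟨m, hm⟩ := Rat.mul_den_dvd a b
    have h1 : ((a.den * b.den : ℕ) : κ) = 0 := by
      rw [hm]
      push_cast
      rw [h, zero_mul]
    push_cast at h1
    exact mul_ne_zero ha hb h1
  one_mem' := by simp
  add_mem' := by
    intro a b ha hb h
    obtain ⟨m, hm⟩ := Rat.add_den_dvd a b
    have h1 : ((a.den * b.den : ℕ) : κ) = 0 := by
      rw [hm]
      push_cast
      rw [h, zero_mul]
    push_cast at h1
    exact mul_ne_zero ha hb h1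
  zero_mem' := by simp
  neg_mem' := by
    intro a ha
    simpa using ha

theorem HasseAux_mem (κ : Type) [Field κ] (q : ℚ) :
    q ∈ HasseAux_A0 κ ↔ (q.den : κ) ≠ 0 := Iff.rfl

/-- reduction -/
noncomputable def HasseAux_red (κ : Type) [Field κ] : HasseAux_A0 κ →+* κ where
  toFun q := ((q : ℚ) : κ)
  map_one' := by simp
  map_mul' := by
    intro a b
    exact Rat.cast_mul_of_ne_zero a.2 b.2
  map_zero' := by simp
  map_add' := by
    intro a b
    exact Rat.cast_add_of_ne_zero a.2 b.2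

theorem HasseAux_inv_nat (κ : Type) [Field κ] (n : ℕ) (hn : (n : κ) ≠ 0) :
    ((n : ℚ)⁻¹) ∈ HasseAux_A0 κ := by
  rw [HasseAux_mem]
  rcases Nat.eq_zero_or_pos n with h | h
  · rw [h]
    simp
  · have : ((n : ℚ)⁻¹).den = n := by
      rw [Rat.inv_natCast_den]
      rw [if_neg h.ne']
    rw [this]
    exact hn

theorem HasseAux_inv (κ : Type) [Field κ] (u : ℚ) (hu : u ∈ HasseAux_A0 κ)
    (h : HasseAux_red κ ⟨u, hu⟩ ≠ 0) : u⁻¹ ∈ HasseAux_A0 κ := by
  have h1 : (u : κ) ≠ 0 := h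
  have h2 : (u.num : κ) ≠ 0 := by
    intro h3
    apply h1
    rw [Rat.cast_def, h3, zero_div]
  obtain ⟨m, hm⟩ : ∃ m : ℕ, u.num = m ∨ u.num = -m := ⟨u.num.natAbs, Int.natAbs_eq _⟩
  have hmκ : (m : κ) ≠ 0 := by
    intro h4
    apply h2
    rcases hm with hm | hm
    · rw [hm, Int.cast_natCast, h4]
    · rw [hm, Int.cast_neg, Int.cast_natCast, h4, neg_zero]
  have hmem := HasseAux_inv_nat κ m hmκ
  have h3 : u⁻¹ = (u.den : ℚ) * ((u.num : ℚ))⁻¹ := by
    conv_lhs => rw [← Rat.num_div_den u]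
    rw [inv_div, div_eq_mul_inv]
  rw [h3]
  apply Subring.mul_mem
  · exact natCast_mem _ _
  · rcases hm with hm | hm
    · rw [hm, Int.cast_natCast]
      exact hmem
    · rw [hm, Int.cast_neg, Int.cast_natCast, inv_neg]
      exact Subring.neg_mem _ hmem

/-- the number `-2(p-1)/B_{p-1}` is `p`-integral and divisible by `p` -/
theorem HasseAux_bern (p : ℕ) (hp : p.Prime) (h5 : 5 ≤ p) (κ : Type) [Field κ] [CharP κ p] :
    ∃ h : (-(2 * ((p - 1 : ℕ) : ℚ) / bernoulli (p - 1))) ∈ HasseAux_A0 κ,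
      HasseAux_red κ ⟨_, h⟩ = 0 := by
  have hpodd : p % 2 = 1 := hp.eq_two_or_odd.resolve_left (by omega)
  obtain ⟨k, hk⟩ : ∃ k, p = 2 * k + 1 := ⟨p / 2, by omega⟩
  have hpk : p - 1 = 2 * k := by omega
  have hpκ : (p : κ) = 0 := CharP.cast_eq_zero κ p
  have hp0 : (p : ℚ) ≠ 0 := by exact_mod_cast hp.ne_zero
  obtain ⟨n, hn⟩ := Bernoulli.vonStaudt_clausen k
  set T := (Finset.range (2 * k + 2)).filter (fun q => q.Prime ∧ (q - 1) ∣ 2 * k) with hT
  have hpT : p ∈ T := by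
    rw [hT, Finset.mem_filter, Finset.mem_range]
    exact ⟨by omega, hp, by rw [hpk]⟩
  have hS : ∑ q ∈ T.erase p, (1 : ℚ) / q ∈ HasseAux_A0 κ := by
    apply Subring.sum_mem
    intro q hq
    rw [Finset.mem_erase, hT, Finset.mem_filter, Finset.mem_range] at hq
    rw [one_div]
    apply HasseAux_inv_nat
    intro h0
    have h1 : p ∣ q := (CharP.cast_eq_zero_iff κ p q).1 h0
    exact hq.1 ((Nat.prime_dvd_prime_iff_eq hp hq.2.2.1).1 h1).symm
  set S : HasseAux_A0 κ := ⟨_, hS⟩ with hSdef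
  have hB : bernoulli (2 * k) = n - 1 / p - (S : ℚ) := by
    have h1 : ∑ q ∈ T, (1 : ℚ) / q = 1 / p + (S : ℚ) := by
      rw [← Finset.add_sum_erase T (fun q => (1 : ℚ) / q) hpT]
    rw [h1] at hn
    rw [hn]
    ring
  -- u = p B
  set u : HasseAux_A0 κ := (p : HasseAux_A0 κ) * (n : HasseAux_A0 κ) - 1 -
    (p : HasseAux_A0 κ) * S with hu
  have huQ : (u : ℚ) = p * bernoulli (2 * k) := by
    rw [hB, hu]
    push_cast
    field_simp
  have hur : HasseAux_red κ u = -1 := by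
    rw [hu, map_sub, map_sub, map_mul, map_mul, map_natCast, hpκ, map_one]
    ring
  have huinv : (u : ℚ)⁻¹ ∈ HasseAux_A0 κ := by
    apply HasseAux_inv κ (u : ℚ) u.2
    rw [show (⟨(u : ℚ), u.2⟩ : HasseAux_A0 κ) = u from rfl, hur]
    exact neg_ne_zero.2 one_ne_zero
  have hu0 : (u : ℚ) ≠ 0 := by
    intro h
    have : u = 0 := Subtype.ext h
    rw [this, map_zero] at hur
    exact neg_ne_zero.2 one_ne_zero hur.symm
  have hB0 : bernoulli (2 * k) ≠ 0 := by
    intro h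
    rw [h, mul_zero] at huQ
    exact hu0 huQ
  set v : HasseAux_A0 κ := ⟨(u : ℚ)⁻¹, huinv⟩ with hv
  obtain ⟨w, hw⟩ : ∃ w : ℕ, (w : ℚ) = 2 * ((p - 1 : ℕ) : ℚ) :=
    ⟨2 * (p - 1), by rw [Nat.cast_mul, Nat.cast_ofNat]⟩
  have hr : (-(2 * ((p - 1 : ℕ) : ℚ) / bernoulli (p - 1))) =
      ((-(w : HasseAux_A0 κ) * (p : HasseAux_A0 κ) * v : HasseAux_A0 κ) : ℚ) := by
    rw [← hw]
    push_cast
    rw [hv]
    simp only
    rw [huQ, hpk]
    field_simp
  have hmem : (-(2 * ((p - 1 : ℕ) : ℚ) / bernoulli (p - 1))) ∈ HasseAux_A0 κ := by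
    rw [hr]
    exact SetLike.coe_mem _
  refine ⟨hmem, ?_⟩
  have he : (⟨_, hmem⟩ : HasseAux_A0 κ) =
      (-(w : HasseAux_A0 κ) * (p : HasseAux_A0 κ) * v : HasseAux_A0 κ) :=
    Subtype.ext hr
  rw [he, map_mul, map_mul, map_natCast, hpκ]
  ring

theorem HasseAux_ev_map (A κ : Type) [CommRing A] [Field κ] (ψ : A →+* κ)
    (Φ : MvPolynomial (Fin 2) A) : ev κ (Φ.map ψ) = (ev A Φ).map ψ := by
  have hint : ψ.comp (Int.castRingHom A) = Int.castRingHom κ := RingHom.ext_int _ _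
  have h4 : (E4R A).map ψ = E4R κ := by
    ext m
    simp only [E4R, PowerSeries.coeff_map]
    rw [← RingHom.comp_apply, hint]
  have h6 : (E6R A).map ψ = E6R κ := by
    ext m
    simp only [E6R, PowerSeries.coeff_map]
    rw [← RingHom.comp_apply, hint]
  induction Φ using MvPolynomial.induction_on with
  | C a =>
    rw [MvPolynomial.map_C]
    unfold ev
    rw [MvPolynomial.aeval_C, MvPolynomial.aeval_C]
    change PowerSeries.C (ψ a) = (PowerSeries.C a).map ψ
    rw [PowerSeries.map_C]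
  | add p q hp hq => rw [map_add, map_add, hp, hq, map_add, map_add]
  | mul_X p i hp =>
    rw [map_mul, map_mul, hp, map_mul, map_mul, MvPolynomial.map_X]
    congr 1
    unfold ev
    rw [MvPolynomial.aeval_X, MvPolynomial.aeval_X]
    fin_cases i
    · exact h4.symm
    · exact h6.symm

theorem st_Hasse (_hE : St_EisQ) (hS : St_Struct) : St_Hasse := by
  intro p hp h5 κ _ _
  have hpκ : (p : κ) = 0 := CharP.cast_eq_zero κ p
  have hinj : Function.Injective (Rat.castHom ℂ) := (Rat.castHom ℂ).injective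
  set A : Subring ℂ := (HasseAux_A0 κ).map (Rat.castHom ℂ) with hA
  set e : HasseAux_A0 κ ≃+* A :=
    (HasseAux_A0 κ).equivMapOfInjective (Rat.castHom ℂ) hinj with he
  set ψ : A →+* κ := (HasseAux_red κ).comp e.symm.toRingHom with hψ
  have hψe : ∀ (z : A) (q : HasseAux_A0 κ), (z : ℂ) = ((q : ℚ) : ℂ) →
      ψ z = HasseAux_red κ q := by
    intro z q hz
    have h1 : z = e q := by
      apply Subtype.ext
      rw [hz]
      rfl
    rw [h1, hψ]
    simp
  have hne : ∀ n : ℕ, 0 < n → n < p → (n : κ) ≠ 0 := by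
    intro n hn hnp h0
    have h1 : p ∣ n := (CharP.cast_eq_zero_iff κ p n).1 h0
    exact absurd (Nat.le_of_dvd hn h1) (by omega)
  have hA2 : (2 : ℂ)⁻¹ ∈ A := by
    refine ⟨((2 : ℕ) : ℚ)⁻¹, HasseAux_inv_nat κ 2 (hne 2 (by norm_num) (by omega)), ?_⟩
    simp
  have hA3 : (3 : ℂ)⁻¹ ∈ A := by
    refine ⟨((3 : ℕ) : ℚ)⁻¹, HasseAux_inv_nat κ 3 (hne 3 (by norm_num) (by omega)), ?_⟩
    simp
  have hk3 : 3 ≤ p - 1 := by omega
  have hk2 : Even (p - 1) := by
    have hpodd : p % 2 = 1 := hp.eq_two_or_odd.resolve_left (by omega)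
    exact ⟨p / 2, by omega⟩
  obtain ⟨hr, hr0⟩ := HasseAux_bern p hp h5 κ
  set r : HasseAux_A0 κ := ⟨_, hr⟩ with hrdef
  set c : ℕ → HasseAux_A0 κ := fun m =>
    if m = 0 then 1 else r * ((σ (p - 1 - 1) m : ℕ) : HasseAux_A0 κ) with hc
  have hcoef : ∀ m, PowerSeries.coeff m (qExpansion 1 (ModularForm.E hk3)) =
      (((c m : HasseAux_A0 κ) : ℚ) : ℂ) := by
    intro m
    rw [EisensteinSeries.E_qExpansion_coeff hk3 hk2 m, hc]
    simp only
    split_ifs with hm
    · simp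
    · rw [hrdef]
      push_cast
      ring
  obtain ⟨Φ, hΦ, hΦe⟩ := hS A hA2 hA3 (p - 1) (ModularForm.E hk3) (by
    intro m
    rw [hcoef m]
    exact ⟨_, (c m).2, rfl⟩)
  refine ⟨Φ.map ψ, ?_, ?_⟩
  · intro d hd
    apply hΦ
    intro h0
    apply hd
    rw [MvPolynomial.coeff_map, h0, map_zero]
  · rw [HasseAux_ev_map]
    ext m
    rw [PowerSeries.coeff_map]
    have h1 : ((PowerSeries.coeff m (ev A Φ) : A) : ℂ) =
        PowerSeries.coeff m (qExpansion 1 (ModularForm.E hk3)) := by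
      rw [← hΦe, PowerSeries.coeff_map]
      rfl
    rw [hψe _ _ (h1.trans (hcoef m)), PowerSeries.coeff_one, hc]
    simp only
    split_ifs with hm
    · exact map_one _
    · rw [map_mul, hr0, zero_mul]

end Pool.Agent.D12
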