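import Pool.Agent.D12.Stmts

set_option autoImplicit false

/-!
# Lattices all of whose shells are spherical 12-designs: module Raman2
-/

namespace Pool.Agent.D12

open UpperHalfPlane hiding I
open Complex Derivative Function
open scoped Real Manifold ModularForm MatrixGroups

/-! ### expansions -/

theorem raman2_term (c : ℂ) (m : ℕ) (τ : ℂ) :
    c * cexp (2 * π * I * τ * m / (1 : ℕ)) = c • (Periodic.qParam 1 τ) ^ m := by
  unfold Periodic.qParam
  rw [← Complex.exp_nat_mul, smul_eq_mul]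
  congr 2
  push_cast
  ring

theorem raman2_conv {φ : ℍ → ℂ} {a : PowerSeries ℂ} (h : HasQ 1 φ a) (τ : ℍ) :
    HasSum (fun m : ℕ => (PowerSeries.coeff m a) • (Periodic.qParam 1 τ) ^ m) (φ τ) := by
  have h1 := h τ
  have h2 : (fun k : ℕ => PowerSeries.coeff k a * cexp (2 * π * I * (τ : ℂ) * k / (1 : ℕ))) =
      fun m : ℕ => (PowerSeries.coeff m a) • (Periodic.qParam 1 τ) ^ m := by
    funext m
    exact raman2_term _ m τ
  rw [h2] at h1
  exact h1

theorem raman2_conv' {φ : ℍ → ℂ} {a : PowerSeries ℂ}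
    (h : ∀ τ : ℍ, HasSum (fun m : ℕ => (PowerSeries.coeff m a) • (Periodic.qParam 1 τ) ^ m) (φ τ)) :
    HasQ 1 φ a := by
  intro τ
  have h2 : (fun k : ℕ => PowerSeries.coeff k a * cexp (2 * π * I * (τ : ℂ) * k / (1 : ℕ))) =
      fun m : ℕ => (PowerSeries.coeff m a) • (Periodic.qParam 1 τ) ^ m := by
    funext m
    exact raman2_term _ m τ
  rw [h2]
  exact h τ

theorem raman2_bdd {φ : ℍ → ℂ} {a : PowerSeries ℂ} (h : HasQ 1 φ a) : IsBoundedAtImInfty φ :=
  isBoundedAtImInfty_of_hasSum_qExpansion one_pos (raman2_conv h)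

theorem raman2_qpar (w : ℂ) : Periodic.qParam 1 (w + (1 : ℝ)) = Periodic.qParam 1 w := by
  unfold Periodic.qParam
  have h1 : 2 * (π : ℂ) * I * (w + (1 : ℝ)) / (1 : ℝ) = 2 * π * I * w / (1 : ℝ) + 2 * π * I := by
    push_cast
    ring
  rw [h1, Complex.exp_add, Complex.exp_two_pi_mul_I, mul_one]

theorem raman2_per {φ : ℍ → ℂ} {a : PowerSeries ℂ} (h : HasQ 1 φ a) :
    Periodic (φ ∘ ofComplex) (1 : ℝ) := by
  intro w
  by_cases hw : 0 < im w
  · have h1 : 0 < im (w + (1 : ℝ)) := by simpa using hw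
    simp only [comp_apply, ofComplex_apply_of_im_pos h1, ofComplex_apply_of_im_pos hw]
    have e1 := raman2_conv h ⟨w + (1 : ℝ), h1⟩
    have e2 := raman2_conv h ⟨w, hw⟩
    refine e1.unique ?_
    convert e2 using 2 with m
    exact congrArg (fun q : ℂ => (PowerSeries.coeff m a) • q ^ m) (raman2_qpar w)
  · have h1 : im (w + (1 : ℝ)) ≤ 0 := by simpa using hw
    have h2 : im w ≤ 0 := not_lt.mp hw
    simp only [comp_apply, ofComplex_apply_of_im_nonpos h1, ofComplex_apply_of_im_nonpos h2]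

theorem raman2_an {φ : ℍ → ℂ} {a : PowerSeries ℂ} (h : HasQ 1 φ a) (hd : MDiff φ) :
    AnalyticAt ℂ (cuspFunction 1 φ) 0 :=
  analyticAt_cuspFunction_zero one_pos (raman2_per h) hd (raman2_bdd h)

theorem raman2_q {φ : ℍ → ℂ} {a : PowerSeries ℂ} (h : HasQ 1 φ a) (hd : MDiff φ) :
    qExpansion 1 φ = a := by
  ext m
  have h1 := (hasFPowerSeriesOnBall_cuspFunction one_pos (raman2_an h hd)
    (raman2_conv h)).hasFPowerSeriesAt
  have h2 := (raman2_an h hd).hasFPowerSeriesAt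
  have h3 := congrArg (fun p : FormalMultilinearSeries ℂ ℂ ℂ => p.coeff m)
    (h1.eq_formalMultilinearSeries h2)
  simp only [FormalMultilinearSeries.coeff_ofScalars] at h3
  rw [qExpansion_coeff, h3, div_eq_inv_mul]

/-- the expansion of the derivative -/
theorem raman2_deriv {φ : ℍ → ℂ} {a : PowerSeries ℂ} (h : HasQ 1 φ a) :
    HasQ 1 (normalizedDerivOfComplex φ) (thd a) := by
  intro τ
  set y0 : ℝ := im (τ : ℂ) / 2 with hy0
  have hy : 0 < y0 := by
    have : 0 < im (τ : ℂ) := τ.im_pos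
    positivity
  set U : Set ℂ := {w : ℂ | y0 < im w} with hU
  have hUo : IsOpen U := isOpen_lt continuous_const Complex.continuous_im
  have hτU : (τ : ℂ) ∈ U := by
    show y0 < im (τ : ℂ)
    have : 0 < im (τ : ℂ) := τ.im_pos
    rw [hy0]
    linarith
  set F : ℕ → ℂ → ℂ := fun m w => PowerSeries.coeff m a * cexp (2 * π * I * w * m) with hF
  have hI : 0 < im ((y0 : ℂ) * I) := by simpa using hy
  have hsum : Summable (fun m : ℕ => ‖F m ((y0 : ℂ) * I)‖) := by
    have h1 := (h ⟨(y0 : ℂ) * I, hI⟩).summable.norm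
    convert h1 using 2 with m
    simp [hF]
  have hle : ∀ (m : ℕ) (w : ℂ), w ∈ U → ‖F m w‖ ≤ ‖F m ((y0 : ℂ) * I)‖ := by
    intro m w hw
    have hw' : y0 < im w := hw
    simp only [hF, norm_mul, Complex.norm_exp]
    refine mul_le_mul_of_nonneg_left (Real.exp_le_exp.mpr ?_) (norm_nonneg _)
    simp only [mul_re, mul_im, ofReal_re, ofReal_im, Complex.I_re, Complex.I_im, natCast_re,
      natCast_im, re_ofNat, im_ofNat]
    have hm : (0 : ℝ) ≤ m := Nat.cast_nonneg m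
    have hpi := Real.pi_pos
    nlinarith [mul_nonneg (mul_nonneg hpi.le hm) (sub_nonneg.mpr hw'.le)]
  have hdiff : ∀ m : ℕ, DifferentiableOn ℂ (F m) U := by
    intro m
    simp only [hF]
    fun_prop
  have hmain := hasSum_deriv_of_summable_norm hsum hdiff hUo hle hτU
  have heq : deriv (fun w : ℂ => ∑' m, F m w) (τ : ℂ) = deriv (φ ∘ ofComplex) (τ : ℂ) := by
    apply Filter.EventuallyEq.deriv_eq
    filter_upwards [hUo.mem_nhds hτU] with w hw
    have hw' : 0 < im w := hy.trans hw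
    rw [comp_apply, ofComplex_apply_of_im_pos hw']
    have h1 := (h ⟨w, hw'⟩).tsum_eq
    rw [← h1]
    refine tsum_congr fun m => ?_
    simp [hF]
  have hder : ∀ m : ℕ, deriv (F m) (τ : ℂ) =
      PowerSeries.coeff m a * (cexp (2 * π * I * (τ : ℂ) * m) * (2 * π * I * m)) := by
    intro m
    simp only [hF]
    have h1 : HasDerivAt (fun w : ℂ => 2 * π * I * w * m) (2 * π * I * m) (τ : ℂ) := by
      have := ((hasDerivAt_id (τ : ℂ)).const_mul (2 * π * I : ℂ)).mul_const (m : ℂ)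
      simpa using this
    exact ((h1.cexp).const_mul _).deriv
  rw [heq] at hmain
  have h2 := hmain.mul_left ((2 * π * I : ℂ)⁻¹)
  unfold normalizedDerivOfComplex
  have h3 : (fun m : ℕ => (2 * π * I : ℂ)⁻¹ * deriv (F m) (τ : ℂ)) =
      fun k : ℕ => PowerSeries.coeff k (thd a) * cexp (2 * π * I * (τ : ℂ) * k / (1 : ℕ)) := by
    funext m
    rw [hder, thd, PowerSeries.coeff_mk]
    have hpi : (π : ℂ) ≠ 0 := ofReal_ne_zero.mpr Real.pi_ne_zero
    push_cast
    rw [div_one]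
    field_simp
  rw [h3] at h2
  exact h2

/-! ### invariance -/

theorem raman2_den (γ : SL(2, ℤ)) (τ : ℍ) :
    HasDerivAt (EisensteinSeries.D2 γ ∘ ofComplex)
      (-(2 * π * I) * ((γ 1 0 : ℤ) : ℂ) ^ 2 / (denom γ τ) ^ 2) (τ : ℂ) := by
  have h1 := hasDerivAt_denom_zpow (γ : GL (Fin 2) ℝ) (-1) τ
  have h2 := h1.const_mul (2 * π * I * ((γ 1 0 : ℤ) : ℂ))
  have h3 : (EisensteinSeries.D2 γ ∘ ofComplex) =ᶠ[nhds (τ : ℂ)]
      fun w => 2 * π * I * ((γ 1 0 : ℤ) : ℂ) * (denom (γ : GL (Fin 2) ℝ) w) ^ (-1 : ℤ) := by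
    filter_upwards [isOpen_upperHalfPlaneSet.mem_nhds τ.im_pos] with w hw
    rw [comp_apply, ofComplex_apply_of_im_pos hw]
    simp only [EisensteinSeries.D2, div_eq_mul_inv, zpow_neg, zpow_one]
  have h4 := h2.congr_of_eventuallyEq h3
  have hd := denom_ne_zero (γ : GL (Fin 2) ℝ) τ
  have e1 : ((γ : GL (Fin 2) ℝ) 1 0 : ℂ) = ((γ 1 0 : ℤ) : ℂ) := by simp
  have e2 : (-1 - 1 : ℤ) = -2 := by norm_num
  have e3 : 2 * π * I * ((γ 1 0 : ℤ) : ℂ) * (((-1 : ℤ) : ℂ) * ((γ : GL (Fin 2) ℝ) 1 0 : ℂ) *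
      (denom (γ : GL (Fin 2) ℝ) τ) ^ (-1 - 1 : ℤ)) =
      -(2 * π * I) * ((γ 1 0 : ℤ) : ℂ) ^ 2 / (denom γ τ) ^ 2 := by
    rw [e1, e2, zpow_neg, zpow_ofNat]
    push_cast
    field_simp
  rw [e3] at h4
  exact h4

theorem raman2_D2 (γ : SL(2, ℤ)) (τ : ℍ) :
    normalizedDerivOfComplex (EisensteinSeries.D2 γ) τ =
      -(((γ 1 0 : ℤ) : ℂ) / denom γ τ) ^ 2 := by
  unfold normalizedDerivOfComplex
  rw [(raman2_den γ τ).deriv]
  have hpi : (π : ℂ) ≠ 0 := ofReal_ne_zero.mpr Real.pi_ne_zero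
  have hd := denom_ne_zero (γ : GL (Fin 2) ℝ) τ
  field_simp

theorem raman2_D2m (γ : SL(2, ℤ)) : MDiff (EisensteinSeries.D2 γ) := by
  intro τ
  exact mdifferentiableAt_iff.mpr (raman2_den γ τ).differentiableAt

/-- the function `D E₂ - E₂² / 12` -/
noncomputable def raman2_phi : ℍ → ℂ :=
  normalizedDerivOfComplex EisensteinSeries.E2 -
    (12 : ℂ)⁻¹ • (EisensteinSeries.E2 * EisensteinSeries.E2)

theorem raman2_phiM : MDiff raman2_phi := by
  unfold raman2_phi
  exact (normalizedDerivOfComplex_mdifferentiable E2_mdifferentiable).sub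
    ((E2_mdifferentiable.mul E2_mdifferentiable).const_smul _)

theorem raman2_inv (γ : SL(2, ℤ)) : raman2_phi ∣[(4 : ℤ)] γ = raman2_phi := by
  have h1 := normalizedDerivOfComplex_SL_slash (k := 2) E2_mdifferentiable (γ := γ)
  have h2 := ModularForm.mul_slash_SL2 2 2 γ EisensteinSeries.E2 EisensteinSeries.E2
  rw [EisensteinSeries.E2_slash_action] at h1 h2
  rw [normalizedDerivOfComplex_sub _ _ E2_mdifferentiable ((raman2_D2m γ).const_smul _),
    normalizedDerivOfComplex_smul _ _ (raman2_D2m γ)] at h1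
  have e4 : (2 : ℤ) + 2 = 4 := by norm_num
  rw [e4] at h1 h2
  funext τ
  have h1' := congrFun h1 τ
  have h2' := congrFun h2 τ
  simp only [Pi.sub_apply, Pi.smul_apply, Pi.mul_apply, smul_eq_mul, raman2_D2,
    EisensteinSeries.D2, riemannZeta_two] at h1' h2'
  have h3 : (raman2_phi ∣[(4 : ℤ)] γ) τ =
      (normalizedDerivOfComplex EisensteinSeries.E2 ∣[(4 : ℤ)] γ) τ -
      (12 : ℂ)⁻¹ * ((EisensteinSeries.E2 * EisensteinSeries.E2) ∣[(4 : ℤ)] γ) τ := by
    simp only [raman2_phi, ModularForm.SL_slash_apply, Pi.sub_apply, Pi.smul_apply, smul_eq_mul]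
    ring
  have hI := Complex.I_sq
  have hpi : (π : ℂ) ≠ 0 := ofReal_ne_zero.mpr Real.pi_ne_zero
  have hd := denom_ne_zero (γ : GL (Fin 2) ℝ) τ
  rw [h3, h2']
  simp only [raman2_phi, Pi.sub_apply, Pi.smul_apply, Pi.mul_apply, smul_eq_mul]
  have h4 : (normalizedDerivOfComplex EisensteinSeries.E2 ∣[(4 : ℤ)] γ) τ = _ :=
    (eq_sub_iff_add_eq.mp h1').symm
  rw [h4]
  push_cast
  field_simp
  ring_nf
  linear_combination (24 * π * denom (γ : GL (Fin 2) ℝ) τ * ((γ 1 0 : ℤ) : ℂ) *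
    EisensteinSeries.E2 τ - 72 * ((γ 1 0 : ℤ) : ℂ) ^ 2 * I) * hI

/-- the form -/
theorem raman2_form (hQ : HasQ 1 EisensteinSeries.E2 (E2R ℂ)) :
    ∃ f : ModularForm 𝒮ℒ 4, (f : ℍ → ℂ) = raman2_phi := by
  have hb : IsBoundedAtImInfty raman2_phi := by
    have h1 := raman2_bdd (raman2_deriv hQ)
    have h2 := raman2_bdd hQ
    have h3 : IsBoundedAtImInfty (EisensteinSeries.E2 * EisensteinSeries.E2) :=
      Filter.BoundedAtFilter.mul h2 h2
    have h4 : IsBoundedAtImInfty ((12 : ℂ)⁻¹ • (EisensteinSeries.E2 * EisensteinSeries.E2)) :=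
      Filter.BoundedAtFilter.smul _ h3
    unfold raman2_phi
    rw [sub_eq_add_neg]
    exact Filter.BoundedAtFilter.add h1 (Filter.BoundedAtFilter.neg h4)
  refine ⟨{
    toFun := raman2_phi
    slash_action_eq' := ?_
    holo' := raman2_phiM
    bdd_at_cusps' := ?_ }, rfl⟩
  · rintro _ ⟨γ, hγ⟩
    rw [← hγ]
    exact raman2_inv γ
  · intro c hc
    rw [Subgroup.IsArithmetic.isCusp_iff_isCusp_SL2Z] at hc
    rw [OnePoint.isBoundedAt_iff_forall_SL2Z hc]
    intro γ _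
    exact (raman2_inv γ).symm ▸ hb

theorem raman2_main (hE : St_EisQ) :
    12 * thd (E2R ℂ) = E2R ℂ ^ 2 - E4R ℂ := by
  obtain ⟨hQ, h4, -⟩ := hE
  obtain ⟨f, hf⟩ := raman2_form hQ
  obtain ⟨c, hc⟩ : ∃ c : ℂ, c • ModularForm.E₄ = f :=
    (finrank_eq_one_iff_of_nonzero' ModularForm.E₄ (EisensteinSeries.E_ne_zero _ ⟨2, rfl⟩)).mp
      (Module.rank_eq_one_iff_finrank_eq_one.mp ModularForm.levelOne_weight_four_rank_one) f
  have a1 := raman2_an hQ E2_mdifferentiable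
  have a2 := raman2_an (raman2_deriv hQ)
    (normalizedDerivOfComplex_mdifferentiable E2_mdifferentiable)
  have a3 : AnalyticAt ℂ (cuspFunction 1 (EisensteinSeries.E2 * EisensteinSeries.E2)) 0 := by
    rw [cuspFunction_mul a1.continuousAt a1.continuousAt]
    exact a1.mul a1
  have a4 : AnalyticAt ℂ (cuspFunction 1
      ((12 : ℂ)⁻¹ • (EisensteinSeries.E2 * EisensteinSeries.E2))) 0 := by
    rw [cuspFunction_smul a3.continuousAt]
    exact analyticAt_const.smul a3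
  have q1 : qExpansion 1 raman2_phi = thd (E2R ℂ) - (12 : ℂ)⁻¹ • (E2R ℂ * E2R ℂ) := by
    unfold raman2_phi
    rw [qExpansion_sub a2 a4, qExpansion_smul a3, qExpansion_mul a1 a1,
      raman2_q hQ E2_mdifferentiable, raman2_q (raman2_deriv hQ)
        (normalizedDerivOfComplex_mdifferentiable E2_mdifferentiable)]
  have q2 : qExpansion 1 raman2_phi = c • E4R ℂ := by
    rw [← h4, ← hf, ← hc]
    exact ModularForm.qExpansion_smul one_pos one_mem_strictPeriods_SL c ModularForm.E₄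
  have q3 := q1.symm.trans q2
  have c2 : PowerSeries.coeff 0 (E2R ℂ) = 1 := by
    simp [E2R, e2s]
  have c4 : PowerSeries.coeff 0 (E4R ℂ) = 1 := by
    simp [E4R, e4s]
  have q4 := congrArg (fun a : PowerSeries ℂ => PowerSeries.coeff 0 a) q3
  have ct : PowerSeries.coeff 0 (thd (E2R ℂ)) = 0 := by
    simp [thd]
  have c22 : PowerSeries.coeff 0 (E2R ℂ * E2R ℂ) = 1 := by
    rw [PowerSeries.coeff_zero_eq_constantCoeff_apply] at c2 ⊢
    rw [map_mul, c2, mul_one]
  simp only [map_sub, PowerSeries.coeff_smul, ct, c4, c22, smul_eq_mul, mul_one, zero_sub] at q4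
  rw [← q4] at q3
  have q5 : (12 : ℂ) • (thd (E2R ℂ) - (12 : ℂ)⁻¹ • (E2R ℂ * E2R ℂ)) =
      (12 : ℂ) • (-(12 : ℂ)⁻¹ • E4R ℂ) := by rw [q3]
  rw [smul_sub, smul_smul, smul_smul] at q5
  norm_num at q5
  have q6 : (12 : ℂ) • thd (E2R ℂ) = 12 * thd (E2R ℂ) := by
    rw [PowerSeries.smul_eq_C_mul]
    congr 1
  rw [q6] at q5
  linear_combination q5

theorem raman2_map (a : PowerSeries ℤ) :
    thd (a.map (Int.castRingHom ℂ)) = (thd a).map (Int.castRingHom ℂ) := by
  ext m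
  simp [thd]

theorem st_Raman2 (hE : St_EisQ) : St_Raman2 := by
  unfold St_Raman2
  apply PowerSeries.map_injective (Int.castRingHom ℂ) Int.cast_injective
  have h := raman2_main hE
  unfold E2R E4R at h
  rw [raman2_map] at h
  simp only [map_mul, map_sub, map_pow, map_ofNat]
  exact h

end Pool.Agent.D12
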