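import Pool.Agent.D12.Asm
import Pool.Agent.D12.Final
import Pool.Agent.Helper70.Design.Final

set_option autoImplicit false

/-!
# A shell which is a spherical 12-design and the dual lattice (helper60)

If the shell of norm `ν = r ^ 2` of a lattice in dimension `n ≥ 119` is a spherical 12-design then
`(17 / 16) * n + 4 < ν * |α| ^ 2` for all nonzero `α` in the dual lattice: the polynomial
`Y (Y - 1) (Y - 4) (Y - 9) (Y - 16) (Y - 25)` is nonnegative at all squares of integers.
-/

namespace Pool.Agent.D12.SmallMin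

open MeasureTheory Metric Set
open Pool.Agent.Helper70.Design
open scoped RealInnerProductSpace

/-- scaled expectation of `Y (Y-1) (Y-4) (Y-9) (Y-16) (Y-25)` -/
noncomputable def Q6 (n a : ℝ) : ℝ :=
  (-14400) * ((n + 2) * (n + 4) * (n + 6) * (n + 8) * (n + 10)) +
  63228 * ((n + 4) * (n + 6) * (n + 8) * (n + 10)) * a +
  (-114675) * ((n + 6) * (n + 8) * (n + 10)) * a ^ 2 +
  107415 * ((n + 8) * (n + 10)) * a ^ 3 +
  (-51975) * (n + 10) * a ^ 4 +
  10395 * a ^ 5

private noncomputable def SmC0 (t : ℝ) : ℝ :=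
    438890740200000 + 17564625921600 * t + 281142000000 * t ^ 2 + 2249712000 * t ^ 3 +
    9000000 * t ^ 4 + 14400 * t ^ 5

private noncomputable def SmC1 (t : ℝ) : ℝ :=
    468208309152375 / 4 + 19725104046969 / 4 * t + 165635409045 / 2 * t ^ 2 +
    1386634395 / 2 * t ^ 3 + 11576415 / 4 * t ^ 4 + 19281 / 4 * t ^ 5

private noncomputable def SmC2 (t : ℝ) : ℝ :=
    19163142025223625 / 256 + 914058534100539 / 256 * t + 8474121806595 / 128 * t ^ 2 +
    76935996345 / 128 * t ^ 3 + 687420465 / 256 * t ^ 4 + 1213011 / 256 * t ^ 5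

private noncomputable def SmC3 (t : ℝ) : ℝ :=
    23596394995189665 / 4096 + 1262861077640661 / 4096 * t +
    12431268225225 / 2048 * t ^ 2 + 116329148865 / 2048 * t ^ 3 +
    1052019405 / 4096 * t ^ 4 + 1856169 / 4096 * t ^ 5

private noncomputable def SmC4 (t : ℝ) : ℝ :=
    102734802320282055 / 65536 + 5947729818811659 / 65536 * t +
    65070039684135 / 32768 * t ^ 2 + 683306705415 / 32768 * t ^ 3 +
    6955454955 / 65536 * t ^ 4 + 13816551 / 65536 * t ^ 5

private noncomputable def SmC5 (t : ℝ) : ℝ :=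
    4214226276277875 / 1048576 + 597697673409561 / 1048576 * t +
    7833315159375 / 524288 * t ^ 2 + 73231337865 / 524288 * t ^ 3 +
    465506655 / 1048576 * t ^ 4 + 61029 / 1048576 * t ^ 5


private theorem Sm_id (t s : ℝ) :
    Q6 (119 + t) ((4 + 17 / 16 * (119 + t)) * s) =
      (-SmC0 t) * (1 - s) ^ 5 + (-SmC1 t) * s * (1 - s) ^ 4 + (-SmC2 t) * s ^ 2 * (1 - s) ^ 3 +
        (-SmC3 t) * s ^ 3 * (1 - s) ^ 2 + (-SmC4 t) * s ^ 4 * (1 - s) + (-SmC5 t) * s ^ 5 := by
  simp only [Q6, SmC0, SmC1, SmC2, SmC3, SmC4, SmC5]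
  ring

theorem Q6_neg (x a : ℝ) (hx : 119 ≤ x) (ha0 : 0 < a) (ha : a ≤ 17 / 16 * x + 4) :
    Q6 x a < 0 := by
  obtain ⟨t, ht⟩ : ∃ t, x = 119 + t := ⟨x - 119, by ring⟩
  subst ht
  have ht0 : 0 ≤ t := by linarith
  have hB : 0 < 4 + 17 / 16 * (119 + t) := by positivity
  have ha' : a = (4 + 17 / 16 * (119 + t)) * (a / (4 + 17 / 16 * (119 + t))) := by
    field_simp
  rw [ha', Sm_id]
  have hs0 : 0 ≤ a / (4 + 17 / 16 * (119 + t)) := by positivity
  have hs1 : 0 ≤ 1 - a / (4 + 17 / 16 * (119 + t)) := by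
    rw [sub_nonneg, div_le_one hB]
    linarith
  refine bern5 _ _ _ _ _ _ _ _ hs0 hs1 (by linarith) ?_ ?_ ?_ ?_ ?_ ?_ <;>
  · rw [neg_lt_zero]
    simp only [SmC0, SmC1, SmC2, SmC3, SmC4, SmC5]
    positivity

theorem e6_eq (x a : ℝ) (hx : 0 < x) :
    (-14400) * (1 / x) * a + 21076 * (3 / (x * (x + 2))) * a ^ 2 +
      (-7645) * (15 / (x * (x + 2) * (x + 4))) * a ^ 3 +
      1023 * (105 / (x * (x + 2) * (x + 4) * (x + 6))) * a ^ 4 +
      (-55) * (945 / (x * (x + 2) * (x + 4) * (x + 6) * (x + 8))) * a ^ 5 +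
      1 * (10395 / (x * (x + 2) * (x + 4) * (x + 6) * (x + 8) * (x + 10))) * a ^ 6 =
    a * Q6 x a / (x * (x + 2) * (x + 4) * (x + 6) * (x + 8) * (x + 10)) := by
  unfold Q6
  field_simp
  ring

/-- the test polynomial at the square of an integer -/
theorem p6_nonneg (m : ℤ) : (0 : ℝ) ≤ (-14400) * (m : ℝ) ^ 2 + 21076 * ((m : ℝ) ^ 2) ^ 2 +
    (-7645) * ((m : ℝ) ^ 2) ^ 3 + 1023 * ((m : ℝ) ^ 2) ^ 4 + (-55) * ((m : ℝ) ^ 2) ^ 5 +
    1 * ((m : ℝ) ^ 2) ^ 6 := by
  have h1 : (-14400) * (m : ℝ) ^ 2 + 21076 * ((m : ℝ) ^ 2) ^ 2 +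
    (-7645) * ((m : ℝ) ^ 2) ^ 3 + 1023 * ((m : ℝ) ^ 2) ^ 4 + (-55) * ((m : ℝ) ^ 2) ^ 5 +
    1 * ((m : ℝ) ^ 2) ^ 6 = (m : ℝ) ^ 2 * ((m : ℝ) ^ 2 - 1) * ((m : ℝ) ^ 2 - 4) *
      ((m : ℝ) ^ 2 - 9) * ((m : ℝ) ^ 2 - 16) * ((m : ℝ) ^ 2 - 25) := by ring
  rw [h1]
  by_cases h : 25 ≤ m ^ 2
  · have h2 : (25 : ℝ) ≤ (m : ℝ) ^ 2 := by exact_mod_cast h
    have h3 : 0 ≤ (m : ℝ) ^ 2 - 25 := by linarith
    have h4 : 0 ≤ (m : ℝ) ^ 2 - 16 := by linarith
    have h5 : 0 ≤ (m : ℝ) ^ 2 - 9 := by linarith
    have h6 : 0 ≤ (m : ℝ) ^ 2 - 4 := by linarith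
    have h7 : 0 ≤ (m : ℝ) ^ 2 - 1 := by linarith
    positivity
  · push Not at h
    have h2 : -5 < m := by nlinarith
    have h3 : m < 5 := by nlinarith
    interval_cases m <;> norm_num

/-- the main inequality -/
theorem shell_dual {n : ℕ} (hn : 119 ≤ n)
    (L : Submodule ℤ (EuclideanSpace ℝ (Fin n))) (hd : DiscreteTopology L)
    (r : ℝ) (hr : 0 < r) (hex : ∃ v ∈ L, ‖v‖ = r) (H : ShellDesign n L r)
    (α : EuclideanSpace ℝ (Fin n)) (hα0 : α ≠ 0)
    (hint : ∀ x ∈ L, ∃ k : ℤ, ⟪x, α⟫ = (k : ℝ)) :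
    17 / 16 * (n : ℝ) + 4 < r ^ 2 * ‖α‖ ^ 2 := by
  haveI : DiscreteTopology L := hd
  by_contra hcon
  push Not at hcon
  have hn0 : 0 < n := by omega
  have hα : 0 < ‖α‖ := norm_pos_iff.mpr hα0
  set a : ℝ := r ^ 2 * ‖α‖ ^ 2 with ha
  have ha0 : 0 < a := by positivity
  have hcl : IsClosed (L : Set (EuclideanSpace ℝ (Fin n))) :=
    AddSubgroup.isClosed_of_discrete (H := L.toAddSubgroup)
  have hfin0 : ((L : Set (EuclideanSpace ℝ (Fin n))) ∩ closedBall 0 r).Finite := by
    have hc : IsCompact ((L : Set (EuclideanSpace ℝ (Fin n))) ∩ closedBall 0 r) :=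
      (isCompact_closedBall _ _).inter_left hcl
    refine hc.finite ?_
    have h1 : IsDiscrete (L : Set (EuclideanSpace ℝ (Fin n))) := ⟨hd⟩
    exact h1.mono inter_subset_left
  have hfin : {v : EuclideanSpace ℝ (Fin n) | v ∈ L ∧ ‖v‖ = r}.Finite := by
    refine hfin0.subset ?_
    rintro v ⟨h1, h2⟩
    refine ⟨h1, ?_⟩
    rw [mem_closedBall, dist_zero_right]
    exact h2.le
  set X := hfin.toFinset with hXdef
  have hX : ∀ v, v ∈ X ↔ v ∈ L ∧ ‖v‖ = r := by
    intro v
    rw [hXdef, Set.Finite.mem_toFinset]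
    rfl
  have hXne : X.Nonempty := by
    obtain ⟨v, hv, hvr⟩ := hex
    exact ⟨v, (hX v).mpr ⟨hv, hvr⟩⟩
  have hcard : (0 : ℝ) < X.card := by exact_mod_cast hXne.card_pos
  have hn1 : (0 : ℝ) < n := by exact_mod_cast hn0
  have hn119 : (119 : ℝ) ≤ n := by exact_mod_cast hn
  obtain ⟨v1, v2, v3, v4, v5, v6⟩ := cc_vals hn0
  have hpoly := shell_poly hn0 _ r H X hX α
  rw [← ha, v1, v2, v3, v4, v5, v6] at hpoly
  have hQ : Q6 n a < 0 := Q6_neg n a hn119 ha0 hcon
  have h1 := hpoly (-14400) 21076 (-7645) 1023 (-55) 1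
  have h2 : 0 ≤ ∑ x ∈ X, ((-14400) * ⟪x, α⟫ ^ 2 + 21076 * (⟪x, α⟫ ^ 2) ^ 2 +
      (-7645) * (⟪x, α⟫ ^ 2) ^ 3 + 1023 * (⟪x, α⟫ ^ 2) ^ 4 + (-55) * (⟪x, α⟫ ^ 2) ^ 5 +
      1 * (⟪x, α⟫ ^ 2) ^ 6) := by
    refine Finset.sum_nonneg fun x hx => ?_
    obtain ⟨m, hm⟩ := hint x ((hX x).mp hx).1
    rw [hm]
    exact p6_nonneg m
  rw [h1, e6_eq n a hn1] at h2
  have h4 : a * Q6 n a / (n * (n + 2) * (n + 4) * (n + 6) * (n + 8) * (n + 10)) < 0 :=
    div_neg_of_neg_of_pos (mul_neg_of_pos_of_neg ha0 hQ) (by positivity)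
  nlinarith

theorem crit_207 (n : ℕ) (h1 : 120 ≤ n) (h2 : n ≤ 207) (h3 : n ≠ 120) (h4 : n ≠ 122)
    (h5 : n ≠ 144) (h6 : n ≠ 146) :
    ∃ p j : ℕ, p.Prime ∧ 13 ≤ p ∧ 1 ≤ j ∧ j ≤ 5 ∧ p ∣ n + 2 * j ∧ n < 2 * j * (p - 1) := by
  interval_cases n
  · omega
  · exact ⟨127, 3, by norm_num, by norm_num, by norm_num, by norm_num, by norm_num, by norm_num⟩
  · omega
  · exact ⟨127, 2, by norm_num, by norm_num, by norm_num, by norm_num, by norm_num, by norm_num⟩
  · exact ⟨67, 5, by norm_num, by norm_num, by norm_num, by norm_num, by norm_num, by norm_num⟩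
  · exact ⟨127, 1, by norm_num, by norm_num, by norm_num, by norm_num, by norm_num, by norm_num⟩
  · exact ⟨67, 4, by norm_num, by norm_num, by norm_num, by norm_num, by norm_num, by norm_num⟩
  · exact ⟨131, 2, by norm_num, by norm_num, by norm_num, by norm_num, by norm_num, by norm_num⟩
  · exact ⟨67, 3, by norm_num, by norm_num, by norm_num, by norm_num, by norm_num, by norm_num⟩
  · exact ⟨131, 1, by norm_num, by norm_num, by norm_num, by norm_num, by norm_num, by norm_num⟩
  · exact ⟨67, 2, by norm_num, by norm_num, by norm_num, by norm_num, by norm_num, by norm_num⟩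
  · exact ⟨137, 3, by norm_num, by norm_num, by norm_num, by norm_num, by norm_num, by norm_num⟩
  · exact ⟨71, 5, by norm_num, by norm_num, by norm_num, by norm_num, by norm_num, by norm_num⟩
  · exact ⟨137, 2, by norm_num, by norm_num, by norm_num, by norm_num, by norm_num, by norm_num⟩
  · exact ⟨71, 4, by norm_num, by norm_num, by norm_num, by norm_num, by norm_num, by norm_num⟩
  · exact ⟨137, 1, by norm_num, by norm_num, by norm_num, by norm_num, by norm_num, by norm_num⟩
  · exact ⟨71, 3, by norm_num, by norm_num, by norm_num, by norm_num, by norm_num, by norm_num⟩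
  · exact ⟨139, 1, by norm_num, by norm_num, by norm_num, by norm_num, by norm_num, by norm_num⟩
  · exact ⟨71, 2, by norm_num, by norm_num, by norm_num, by norm_num, by norm_num, by norm_num⟩
  · exact ⟨29, 3, by norm_num, by norm_num, by norm_num, by norm_num, by norm_num, by norm_num⟩
  · exact ⟨73, 3, by norm_num, by norm_num, by norm_num, by norm_num, by norm_num, by norm_num⟩
  · exact ⟨149, 4, by norm_num, by norm_num, by norm_num, by norm_num, by norm_num, by norm_num⟩
  · exact ⟨73, 2, by norm_num, by norm_num, by norm_num, by norm_num, by norm_num, by norm_num⟩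
  · exact ⟨149, 3, by norm_num, by norm_num, by norm_num, by norm_num, by norm_num, by norm_num⟩
  · omega
  · exact ⟨149, 2, by norm_num, by norm_num, by norm_num, by norm_num, by norm_num, by norm_num⟩
  · omega
  · exact ⟨149, 1, by norm_num, by norm_num, by norm_num, by norm_num, by norm_num, by norm_num⟩
  · exact ⟨79, 5, by norm_num, by norm_num, by norm_num, by norm_num, by norm_num, by norm_num⟩
  · exact ⟨151, 1, by norm_num, by norm_num, by norm_num, by norm_num, by norm_num, by norm_num⟩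
  · exact ⟨79, 4, by norm_num, by norm_num, by norm_num, by norm_num, by norm_num, by norm_num⟩
  · exact ⟨157, 3, by norm_num, by norm_num, by norm_num, by norm_num, by norm_num, by norm_num⟩
  · exact ⟨79, 3, by norm_num, by norm_num, by norm_num, by norm_num, by norm_num, by norm_num⟩
  · exact ⟨157, 2, by norm_num, by norm_num, by norm_num, by norm_num, by norm_num, by norm_num⟩
  · exact ⟨79, 2, by norm_num, by norm_num, by norm_num, by norm_num, by norm_num, by norm_num⟩
  · exact ⟨157, 1, by norm_num, by norm_num, by norm_num, by norm_num, by norm_num, by norm_num⟩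
  · exact ⟨41, 4, by norm_num, by norm_num, by norm_num, by norm_num, by norm_num, by norm_num⟩
  · exact ⟨163, 3, by norm_num, by norm_num, by norm_num, by norm_num, by norm_num, by norm_num⟩
  · exact ⟨41, 3, by norm_num, by norm_num, by norm_num, by norm_num, by norm_num, by norm_num⟩
  · exact ⟨163, 2, by norm_num, by norm_num, by norm_num, by norm_num, by norm_num, by norm_num⟩
  · exact ⟨83, 3, by norm_num, by norm_num, by norm_num, by norm_num, by norm_num, by norm_num⟩
  · exact ⟨163, 1, by norm_num, by norm_num, by norm_num, by norm_num, by norm_num, by norm_num⟩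
  · exact ⟨83, 2, by norm_num, by norm_num, by norm_num, by norm_num, by norm_num, by norm_num⟩
  · exact ⟨167, 2, by norm_num, by norm_num, by norm_num, by norm_num, by norm_num, by norm_num⟩
  · exact ⟨43, 4, by norm_num, by norm_num, by norm_num, by norm_num, by norm_num, by norm_num⟩
  · exact ⟨167, 1, by norm_num, by norm_num, by norm_num, by norm_num, by norm_num, by norm_num⟩
  · exact ⟨43, 3, by norm_num, by norm_num, by norm_num, by norm_num, by norm_num, by norm_num⟩
  · exact ⟨173, 3, by norm_num, by norm_num, by norm_num, by norm_num, by norm_num, by norm_num⟩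
  · exact ⟨89, 5, by norm_num, by norm_num, by norm_num, by norm_num, by norm_num, by norm_num⟩
  · exact ⟨173, 2, by norm_num, by norm_num, by norm_num, by norm_num, by norm_num, by norm_num⟩
  · exact ⟨89, 4, by norm_num, by norm_num, by norm_num, by norm_num, by norm_num, by norm_num⟩
  · exact ⟨173, 1, by norm_num, by norm_num, by norm_num, by norm_num, by norm_num, by norm_num⟩
  · exact ⟨89, 3, by norm_num, by norm_num, by norm_num, by norm_num, by norm_num, by norm_num⟩
  · exact ⟨59, 2, by norm_num, by norm_num, by norm_num, by norm_num, by norm_num, by norm_num⟩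
  · exact ⟨89, 2, by norm_num, by norm_num, by norm_num, by norm_num, by norm_num, by norm_num⟩
  · exact ⟨179, 2, by norm_num, by norm_num, by norm_num, by norm_num, by norm_num, by norm_num⟩
  · exact ⟨31, 5, by norm_num, by norm_num, by norm_num, by norm_num, by norm_num, by norm_num⟩
  · exact ⟨179, 1, by norm_num, by norm_num, by norm_num, by norm_num, by norm_num, by norm_num⟩
  · exact ⟨31, 4, by norm_num, by norm_num, by norm_num, by norm_num, by norm_num, by norm_num⟩
  · exact ⟨181, 1, by norm_num, by norm_num, by norm_num, by norm_num, by norm_num, by norm_num⟩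
  · exact ⟨47, 4, by norm_num, by norm_num, by norm_num, by norm_num, by norm_num, by norm_num⟩
  · exact ⟨191, 5, by norm_num, by norm_num, by norm_num, by norm_num, by norm_num, by norm_num⟩
  · exact ⟨47, 3, by norm_num, by norm_num, by norm_num, by norm_num, by norm_num, by norm_num⟩
  · exact ⟨191, 4, by norm_num, by norm_num, by norm_num, by norm_num, by norm_num, by norm_num⟩
  · exact ⟨97, 5, by norm_num, by norm_num, by norm_num, by norm_num, by norm_num, by norm_num⟩
  · exact ⟨191, 3, by norm_num, by norm_num, by norm_num, by norm_num, by norm_num, by norm_num⟩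
  · exact ⟨97, 4, by norm_num, by norm_num, by norm_num, by norm_num, by norm_num, by norm_num⟩
  · exact ⟨191, 2, by norm_num, by norm_num, by norm_num, by norm_num, by norm_num, by norm_num⟩
  · exact ⟨97, 3, by norm_num, by norm_num, by norm_num, by norm_num, by norm_num, by norm_num⟩
  · exact ⟨191, 1, by norm_num, by norm_num, by norm_num, by norm_num, by norm_num, by norm_num⟩
  · exact ⟨97, 2, by norm_num, by norm_num, by norm_num, by norm_num, by norm_num, by norm_num⟩
  · exact ⟨193, 1, by norm_num, by norm_num, by norm_num, by norm_num, by norm_num, by norm_num⟩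
  · exact ⟨101, 5, by norm_num, by norm_num, by norm_num, by norm_num, by norm_num, by norm_num⟩
  · exact ⟨197, 2, by norm_num, by norm_num, by norm_num, by norm_num, by norm_num, by norm_num⟩
  · exact ⟨101, 4, by norm_num, by norm_num, by norm_num, by norm_num, by norm_num, by norm_num⟩
  · exact ⟨197, 1, by norm_num, by norm_num, by norm_num, by norm_num, by norm_num, by norm_num⟩
  · exact ⟨101, 3, by norm_num, by norm_num, by norm_num, by norm_num, by norm_num, by norm_num⟩
  · exact ⟨199, 1, by norm_num, by norm_num, by norm_num, by norm_num, by norm_num, by norm_num⟩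
  · exact ⟨101, 2, by norm_num, by norm_num, by norm_num, by norm_num, by norm_num, by norm_num⟩
  · exact ⟨41, 3, by norm_num, by norm_num, by norm_num, by norm_num, by norm_num, by norm_num⟩
  · exact ⟨103, 3, by norm_num, by norm_num, by norm_num, by norm_num, by norm_num, by norm_num⟩
  · exact ⟨211, 5, by norm_num, by norm_num, by norm_num, by norm_num, by norm_num, by norm_num⟩
  · exact ⟨103, 2, by norm_num, by norm_num, by norm_num, by norm_num, by norm_num, by norm_num⟩
  · exact ⟨211, 4, by norm_num, by norm_num, by norm_num, by norm_num, by norm_num, by norm_num⟩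
  · exact ⟨53, 4, by norm_num, by norm_num, by norm_num, by norm_num, by norm_num, by norm_num⟩
  · exact ⟨211, 3, by norm_num, by norm_num, by norm_num, by norm_num, by norm_num, by norm_num⟩
  · exact ⟨53, 3, by norm_num, by norm_num, by norm_num, by norm_num, by norm_num, by norm_num⟩
  · exact ⟨211, 2, by norm_num, by norm_num, by norm_num, by norm_num, by norm_num, by norm_num⟩

end Pool.Agent.D12.SmallMin
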