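import Pool.Agent.D12.Defs

set_option autoImplicit false

/-!
# Lattices all of whose shells are spherical 12-designs: statements of the modules

Paper: `/team-store/D12_paper.md`.  Every `def St_X : Prop` is proved in its own file `X.lean`
as `theorem st_X : St_X` (possibly with other `St_Y` as hypotheses).
-/

namespace Pool.Agent.D12

open UpperHalfPlane hiding I
open Complex Matrix Derivative
open scoped BigOperators MatrixGroups Real Manifold ModularForm ArithmeticFunction.sigma ComplexConjugate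

noncomputable section

/-! ## Group A: level one, mod p (section 8) -/

/-- `q`-expansions of `E₂, E₄, E₆` -/
def St_EisQ : Prop :=
  HasQ 1 EisensteinSeries.E2 (E2R ℂ) ∧
  qExpansion 1 (ModularForm.E₄ : ModularForm 𝒮ℒ 4) = E4R ℂ ∧
  qExpansion 1 (ModularForm.E₆ : ModularForm 𝒮ℒ 6) = E6R ℂ

/-- Ramanujan's identities for `E₄`, `E₆` -/
def St_Raman46 : Prop :=
  3 * thd e4s = e2s * e4s - e6s ∧ 2 * thd e6s = e2s * e6s - e4s ^ 2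

/-- Ramanujan's identity for `E₂` -/
def St_Raman2 : Prop := 12 * thd e2s = e2s ^ 2 - e4s

/-- (8.2): level-one forms with coefficients in a subring containing `1/2, 1/3` are polynomials
in `E₄, E₆` over that subring -/
def St_Struct : Prop :=
  ∀ (A : Subring ℂ), (2 : ℂ)⁻¹ ∈ A → (3 : ℂ)⁻¹ ∈ A → ∀ (W : ℕ) (f : ModularForm 𝒮ℒ (W : ℤ)),
    (∀ m, PowerSeries.coeff m (qExpansion 1 f) ∈ A) →
    ∃ Φ : MvPolynomial (Fin 2) A, Φ.IsWeightedHomogeneous wt W ∧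
      (ev A Φ).map A.subtype = qExpansion 1 f

/-- (8.3) -/
def St_Inj : Prop :=
  ∀ (κ : Type) [Field κ], (2 : κ) ≠ 0 → (3 : κ) ≠ 0 → ∀ (W : ℕ) (Φ : MvPolynomial (Fin 2) κ),
    Φ.IsWeightedHomogeneous wt W → ev κ Φ = 0 → Φ = 0

/-- (8.4) -/
def St_Hasse : Prop :=
  ∀ (p : ℕ), p.Prime → 5 ≤ p → ∀ (κ : Type) [Field κ] [CharP κ p],
    ∃ a : MvPolynomial (Fin 2) κ, a.IsWeightedHomogeneous wt (p - 1) ∧ ev κ a = 1

/-- (8.5): weight and `q`-expansion of `∂` -/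
def St_Del : Prop :=
  ∀ (κ : Type) [Field κ], (2 : κ) ≠ 0 → (3 : κ) ≠ 0 → ∀ (W : ℕ) (Φ : MvPolynomial (Fin 2) κ),
    Φ.IsWeightedHomogeneous wt W →
    (del κ Φ).IsWeightedHomogeneous wt (W + 2) ∧
    ev κ (del κ Φ) = thd (ev κ Φ) - PowerSeries.C ((W : κ) / 12) * E2R κ * ev κ Φ

/-- a divisor of a weighted homogeneous polynomial is weighted homogeneous -/
def St_HomogDvd : Prop :=
  ∀ (κ : Type) [Field κ] (W : ℕ) (f g : MvPolynomial (Fin 2) κ),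
    f.IsWeightedHomogeneous wt W → f ≠ 0 → g ∣ f →
    ∃ W' ≤ W, g.IsWeightedHomogeneous wt W'

/-- (8.6) -/
def St_Coprime : Prop :=
  ∀ (p : ℕ), p.Prime → 5 ≤ p → ∀ (κ : Type) [Field κ] [CharP κ p]
    (a : MvPolynomial (Fin 2) κ), a.IsWeightedHomogeneous wt (p - 1) → ev κ a = 1 →
    IsRelPrime a (12 * del κ a)

/-- (8.1), (8.7) -/
def St_LevelOne : Prop :=
  ∀ (p : ℕ), p.Prime → 5 ≤ p → ∀ (A : ValuationSubring ℂ), A.valuation (p : ℂ) < 1 →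
    ∀ (W S : ℕ) (P : ModularForm 𝒮ℒ (W : ℤ)) (Q : ModularForm 𝒮ℒ ((W + 2 * S : ℕ) : ℤ)),
      (∀ m, A.valuation (PowerSeries.coeff m (qExpansion 1 P)) ≤ 1) →
      A.valuation (PowerSeries.coeff 0 (qExpansion 1 P)) = 1 →
      (∀ m, A.valuation (PowerSeries.coeff m (qExpansion 1 Q)) ≤ 1) →
      (∀ m, A.valuation (PowerSeries.coeff m
        (qExpansion 1 Q - E2R ℂ ^ S * qExpansion 1 P)) < 1) →
      S * (p - 1) ≤ W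

/-! ## Group B: `q_N`-series and the norm (section 7) -/

/-- calculus of `q_N`-expansions, algebraic part -/
structure QAlg : Prop where
  add : ∀ (N : ℕ) (φ ψ : ℍ → ℂ) (a b : PowerSeries ℂ), HasQ N φ a → HasQ N ψ b →
    HasQ N (φ + ψ) (a + b)
  smul : ∀ (N : ℕ) (c : ℂ) (φ : ℍ → ℂ) (a : PowerSeries ℂ), HasQ N φ a →
    HasQ N (c • φ) (PowerSeries.C c * a)
  mul : ∀ (N : ℕ), 0 < N → ∀ (φ ψ : ℍ → ℂ) (a b : PowerSeries ℂ), HasQ N φ a → HasQ N ψ b →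
    HasQ N (φ * ψ) (a * b)
  unique : ∀ (N : ℕ), 0 < N → ∀ (φ : ℍ → ℂ) (a b : PowerSeries ℂ), HasQ N φ a → HasQ N φ b → a = b
  expand : ∀ (N : ℕ), 0 < N → ∀ (φ : ℍ → ℂ) (a : PowerSeries ℂ), HasQ 1 φ a → HasQ N φ (ex N a)
  ofForm : ∀ (W : ℤ) (f : ModularForm 𝒮ℒ W), HasQ 1 f (qExpansion 1 f)

/-- calculus of `q_N`-expansions, analytic part -/
structure QAna : Prop where
  mdiff : ∀ (N : ℕ), 0 < N → ∀ (φ : ℍ → ℂ) (a : PowerSeries ℂ), HasQ N φ a → MDiff φ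
  deriv : ∀ (N : ℕ), 0 < N → ∀ (φ : ℍ → ℂ) (a : PowerSeries ℂ), HasQ N φ a →
    HasQ N (normalizedDerivOfComplex φ) (dN N a)
  bdd : ∀ (N : ℕ), 0 < N → ∀ (φ : ℍ → ℂ) (a : PowerSeries ℂ), HasQ N φ a → IsBoundedAtImInfty φ

/-- `ex N` is a ring homomorphism -/
def St_Ex : Prop :=
  ∀ (R : Type) [CommRing R] (N : ℕ), 0 < N →
    ex N (1 : PowerSeries R) = 1 ∧
    (∀ a b : PowerSeries R, ex N (a + b) = ex N a + ex N b) ∧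
    (∀ a b : PowerSeries R, ex N (a * b) = ex N a * ex N b)

/-- an invariant function with a `q_N`-expansion is a level-one form -/
def St_LevelOneForm : Prop :=
  ∀ (W : ℕ) (φ : ℍ → ℂ) (N : ℕ) (a : PowerSeries ℂ), 0 < N →
    (∀ γ : SL(2, ℤ), φ ∣[(W : ℤ)] γ = φ) → HasQ N φ a →
    ∃ P : ModularForm 𝒮ℒ (W : ℤ), (P : ℍ → ℂ) = φ ∧ a = ex N (qExpansion 1 P)

/-- generic linear combination: for a finite group and a function with a unit value -/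
def St_Generic : Prop :=
  ∀ (A : ValuationSubring ℂ) (C : Type) [Group C] [Fintype C] (a : C → ℂ),
    (∀ s, A.valuation (a s) ≤ 1) → (∃ s, A.valuation (a s) = 1) →
    ∃ x : C → ℂ, (∀ s, A.valuation (x s) ≤ 1) ∧
      ∀ r : C, A.valuation (∑ s, x s * a (s * r)) = 1

/-- section 7 -/
def St_Norm : Prop :=
  ∀ (p : ℕ), p.Prime → 5 ≤ p → ∀ (A : ValuationSubring ℂ), A.valuation (p : ℂ) < 1 →
    ∀ (n j N : ℕ) (F T : ℍ → ℂ), KPData A n j N F T → 2 * j * (p - 1) ≤ n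

/-! ## Group C: theta functions (sections 2, 3, 5) -/

/-- Fourier transform of the Gaussian of the form `G` -/
def St_Fourier : Prop :=
  ∀ (n : ℕ) (G : Matrix (Fin n) (Fin n) ℤ), EvenForm G → ∀ (s : ℂ), 0 < s.re → ∀ (v : Fin n → ℝ),
    MeasureTheory.Integrable (fun x : Fin n → ℝ => cexp (-π * s * (qfR G x : ℂ))) ∧
    ∫ x : Fin n → ℝ, cexp (-π * s * (qfR G x : ℂ) - 2 * π * I * ((∑ i, v i * x i : ℝ) : ℂ)) =
      s ^ (-(n : ℂ) / 2) * ((Real.sqrt (G.det : ℝ) : ℝ) : ℂ)⁻¹ *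
        cexp (-π * ((qfR G.adjugate v / (G.det : ℝ) : ℝ) : ℂ) / s)

/-- Poisson summation on `ℤⁿ` -/
def St_PoissonGen : Prop :=
  ∀ (n : ℕ) (f : (Fin n → ℝ) → ℂ), Continuous f → MeasureTheory.Integrable f →
    (∀ R : ℝ, Summable (fun z : Fin n → ℤ =>
      ⨆ x : {x : Fin n → ℝ // ∀ i, |x i| ≤ R}, ‖f (fun i => x.1 i + z i)‖)) →
    Summable (fun w : Fin n → ℤ =>
      ∫ x : Fin n → ℝ, f x * cexp (-(2 * π * I * (prR w x : ℂ)))) →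
    ∑' z : Fin n → ℤ, f (fun i => (z i : ℝ)) =
      ∑' w : Fin n → ℤ, ∫ x : Fin n → ℝ, f x * cexp (-(2 * π * I * (prR w x : ℂ)))

/-- (2.1) for the coset `y + cℤⁿ` -/
def St_Poisson : Prop :=
  ∀ (n : ℕ) (G : Matrix (Fin n) (Fin n) ℤ), EvenForm G → ∀ (c : ℕ), 0 < c → ∀ (s : ℂ), 0 < s.re →
    ∀ (y : Fin n → ℤ) (b : Fin n → ℝ),
      Summable (fun z : Fin n → ℤ => cexp (-π * s * ((qf G (y + (c : ℤ) • z) : ℤ) : ℂ) +
        2 * π * I * (prR (y + (c : ℤ) • z) b : ℂ))) ∧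
      Summable (fun w : Fin n → ℤ => cexp (-π *
        ((qfR G.adjugate (fun i => (w i : ℝ) - c * b i) / (G.det : ℝ) : ℝ) : ℂ) / ((c : ℂ) ^ 2 * s) +
        2 * π * I * ((w ⬝ᵥ y : ℤ) : ℂ) / c)) ∧
      ∑' z : Fin n → ℤ, cexp (-π * s * ((qf G (y + (c : ℤ) • z) : ℤ) : ℂ) +
        2 * π * I * (prR (y + (c : ℤ) • z) b : ℂ)) =
      s ^ (-(n : ℂ) / 2) * ((c : ℂ) ^ n)⁻¹ * ((Real.sqrt (G.det : ℝ) : ℝ) : ℂ)⁻¹ *
        ∑' w : Fin n → ℤ, cexp (-π *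
          ((qfR G.adjugate (fun i => (w i : ℝ) - c * b i) / (G.det : ℝ) : ℝ) : ℂ) /
            ((c : ℂ) ^ 2 * s) + 2 * π * I * ((w ⬝ᵥ y : ℤ) : ℂ) / c)

/-- basic facts about even forms and their dual forms -/
structure FormFacts {n : ℕ} (G : Matrix (Fin n) (Fin n) ℤ) : Prop where
  det_pos : 0 < G.det
  qf_even : ∀ z : Fin n → ℤ, Even (qf G z)
  qf_nonneg : ∀ z : Fin n → ℤ, 0 ≤ qf G z
  adj_nonneg : ∀ w : Fin n → ℤ, 0 ≤ qf G.adjugate w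
  fin : ∀ k : ℤ, {z : Fin n → ℤ | qf G z = k}.Finite
  adj_fin : ∀ k : ℤ, {w : Fin n → ℤ | qf G.adjugate w = k}.Finite
  adj_zero : ∀ w : Fin n → ℤ, qf G.adjugate w = 0 → w = 0
  qf_zero : ∀ z : Fin n → ℤ, qf G z = 0 → z = 0
  adj_mul : ∀ z : Fin n → ℤ, qf G.adjugate (G *ᵥ z) = G.det * qf G z
  exp_sum : ∀ (t : ℝ), 0 < t → Summable (fun z : Fin n → ℤ => Real.exp (-t * (qf G z : ℝ)))
  adj_exp_sum : ∀ (t : ℝ), 0 < t →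
    Summable (fun w : Fin n → ℤ => Real.exp (-t * (qf G.adjugate w : ℝ)))

/-- all even forms satisfy `FormFacts` -/
def St_FormFacts : Prop :=
  ∀ (n : ℕ) (G : Matrix (Fin n) (Fin n) ℤ), EvenForm G → FormFacts G

/-- `q_N`-expansion of weighted theta functions -/
def St_ThetaQ : Prop :=
  ∀ (n : ℕ) (G : Matrix (Fin n) (Fin n) ℤ), EvenForm G → ∀ (ν : (Fin n → ℤ) → ℂ) (K : ℝ),
    (∀ w, ‖ν w‖ ≤ K) → HasQ (lev G) (thD G ν) (cf G ν)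

/-- `θ` as a weighted theta function of the dual lattice -/
def St_ThetaPrim : Prop :=
  ∀ (n : ℕ) (G : Matrix (Fin n) (Fin n) ℤ), EvenForm G → ∀ (ν : (Fin n → ℤ) → ℂ) (c0 : ℂ),
    (∀ z, ν (G *ᵥ z) = c0) → (∀ w, (∀ z, w ≠ G *ᵥ z) → ν w = 0) →
    thD G ν = c0 • th G

/-- (2.2) -/
def St_Transf : Prop :=
  ∀ (n : ℕ) (G : Matrix (Fin n) (Fin n) ℤ), EvenForm G → ∀ (γ : SL(2, ℤ)) (c : ℕ), 0 < c →
    γ 1 0 = (c : ℤ) →
    ∃ ρ : ℍ → ℂ, MDiff ρ ∧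
      (∀ τ : ℍ, ρ τ ^ 2 = (-I / c) ^ n * (((G.det : ℤ) : ℂ))⁻¹ * denom γ τ ^ n) ∧
      (∀ τ : ℍ, normalizedDerivOfComplex ρ τ =
        (n : ℂ) / 2 * (((γ 1 0 : ℤ) : ℂ) / (2 * π * I * denom γ τ)) * ρ τ) ∧
      ∀ τ : ℍ, th G (γ • τ) = ρ τ * thD G (nug G c (γ 0 0) (γ 1 1)) τ

/-- (2.3) -/
def St_RealId : Prop :=
  ∀ (n : ℕ) (G : Matrix (Fin n) (Fin n) ℤ), EvenForm G → ∀ (c : ℕ), 0 < c → ∀ (a : ℤ) (t s : ℝ),
    0 < t → ∀ (b : Fin n → ℝ),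
      Summable (fun z : Fin n → ℤ => cexp (π * I * a * ((qf G z : ℤ) : ℂ) / c -
        π * ((qf G z : ℤ) : ℂ) / (c ^ 2 * t) + 2 * π * I * s * (prR (G *ᵥ z) b : ℂ) / (c * t))) ∧
      Summable (fun w : Fin n → ℤ => gs G c a w * cexp (-π * t * ((qf G.adjugate w : ℤ) : ℂ) /
        ((G.det : ℤ) : ℂ) + 2 * π * s * (prR w b : ℂ))) ∧
      ∑' z : Fin n → ℤ, cexp (π * I * a * ((qf G z : ℤ) : ℂ) / c -
        π * ((qf G z : ℤ) : ℂ) / (c ^ 2 * t) + 2 * π * I * s * (prR (G *ᵥ z) b : ℂ) / (c * t)) =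
      ((t ^ ((n : ℝ) / 2) / Real.sqrt (G.det : ℝ) : ℝ) : ℂ) *
        cexp (-π * s ^ 2 * (qfR G b : ℂ) / t) *
        ∑' w : Fin n → ℤ, gs G c a w * cexp (-π * t * ((qf G.adjugate w : ℤ) : ℂ) /
          ((G.det : ℤ) : ℂ) + 2 * π * s * (prR w b : ℂ))

/-- first part of (3.1): proportionality -/
def St_Prop : Prop :=
  ∀ (n : ℕ) (G : Matrix (Fin n) (Fin n) ℤ), EvenForm G → DesignForm G → 0 < n →
    ∀ (c : ℕ), 0 < c → ∀ (a : ℤ) (k : ℕ) (i : ℕ), i ≤ 6 →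
      ∃ K : ℂ, ∀ b : Fin n → ℝ,
        ∑ᶠ (w : Fin n → ℤ) (_ : qf G.adjugate w = k), gs G c a w * (prR w b : ℂ) ^ (2 * i) =
          K * (qfR G b : ℂ) ^ i

/-- second part of (3.1): the constant of proportionality, pure algebra -/
def St_Normalize : Prop :=
  ∀ (n : ℕ) (G : Matrix (Fin n) (Fin n) ℤ), EvenForm G → 0 < n →
    ∀ (X : Finset (Fin n → ℤ)) (k : ℤ), (∀ w ∈ X, qf G.adjugate w = k) →
    ∀ (g : (Fin n → ℤ) → ℂ) (K : ℕ → ℂ) (m : ℕ),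
      (∀ i ≤ m, ∀ b : Fin n → ℝ,
        ∑ w ∈ X, g w * (prR w b : ℂ) ^ (2 * i) = K i * (qfR G b : ℂ) ^ i) →
      ∀ i ≤ m, K i = (mom n i : ℂ) * ((k : ℂ) / ((G.det : ℤ) : ℂ)) ^ i * ∑ w ∈ X, g w

/-- (3.1) -/
def St_GaussDesign : Prop :=
  ∀ (n : ℕ) (G : Matrix (Fin n) (Fin n) ℤ), EvenForm G → DesignForm G → 0 < n →
    ∀ (c : ℕ), 0 < c → ∀ (a : ℤ) (k : ℕ) (b : Fin n → ℝ) (i : ℕ), i ≤ 6 →
      ∑ᶠ (w : Fin n → ℤ) (_ : qf G.adjugate w = k), gs G c a w * (prR w b : ℂ) ^ (2 * i) =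
        (mom n i : ℂ) * ((k : ℂ) / ((G.det : ℤ) : ℂ) * (qfR G b : ℂ)) ^ i *
          ∑ᶠ (w : Fin n → ℤ) (_ : qf G.adjugate w = k), gs G c a w

/-- (5.1) -/
def St_HopCov : Prop :=
  ∀ (k : ℂ) (γ : SL(2, ℤ)) (φ ψ ρ : ℍ → ℂ), MDiff φ → MDiff ψ → MDiff ρ →
    (∀ τ : ℍ, normalizedDerivOfComplex ρ τ =
      k * (((γ 1 0 : ℤ) : ℂ) / (2 * π * I * denom γ τ)) * ρ τ) →
    (∀ τ : ℍ, φ (γ • τ) = ρ τ * ψ τ) →
    ∀ (i : ℕ) (τ : ℍ), Hop k i φ (γ • τ) = ρ τ * denom γ τ ^ (2 * i) * Hop k i ψ τ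

/-- `q_N`-expansion of `H_i` -/
def St_HopQ : Prop :=
  ∀ (N : ℕ), 0 < N → ∀ (k : ℂ) (φ : ℍ → ℂ) (a : PowerSeries ℂ), HasQ N φ a →
    ∀ i : ℕ, HasQ N (Hop k i φ) (HopS N k i a)

/-- (6.2) -/
def St_HopEst : Prop :=
  ∀ (p : ℕ), p.Prime → 5 ≤ p → ∀ (A : ValuationSubring ℂ), A.valuation (p : ℂ) < 1 →
    ∀ (N n j : ℕ), 0 < N → (∀ i < j, A.valuation ((n : ℂ) / 2 + i) = 1) →
    ∀ (M : A.ValueGroup) (a : PowerSeries ℂ),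
      (∀ k, A.valuation (PowerSeries.coeff k a) ≤ M) →
      (∀ r, 1 ≤ r → r ≤ j → ∀ k : ℕ,
        A.valuation (((k : ℂ) / N) ^ r * PowerSeries.coeff k a) ≤ A.valuation (p : ℂ) * M) →
      ∀ k, A.valuation (PowerSeries.coeff k
        (HopS N ((n : ℂ) / 2) j a - ex N (E2R ℂ) ^ j * a)) ≤ A.valuation (p : ℂ) * M

/-! ## Group D: Gauss sums (section 4) -/

/-- (4.1) -/
def St_Gauss1 : Prop :=
  ∀ (n : ℕ) (G : Matrix (Fin n) (Fin n) ℤ), EvenForm G → ∀ (c : ℕ), 0 < c → ∀ (a : ℤ)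
    (x x' : Fin n → ℤ), ∃ ζ : ℂ, IsIntegral ℤ ζ ∧
      gs G c a x * conj (gs G c a x') = (c : ℂ) ^ n * ζ

/-- (4.2) and `g(x)` depends only on `x` mod `c` -/
def St_Gauss2 : Prop :=
  ∀ (n : ℕ) (G : Matrix (Fin n) (Fin n) ℤ), EvenForm G → ∀ (c : ℕ), 0 < c → ∀ (a : ℤ),
    (∀ x y : Fin n → ℤ, gs G c a (x + (c : ℤ) • y) = gs G c a x) ∧
    ∃ t : Fin 4 → ℤ, ∀ x : Fin n → ℤ,
      gs G c a x ^ 4 = ∏ l : Fin 4, conj (gs G c a (t l • x))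

/-- (4.3) -/
def St_Gauss3 : Prop :=
  ∀ (n : ℕ) (G : Matrix (Fin n) (Fin n) ℤ), EvenForm G → ∀ (A : ValuationSubring ℂ) (c : ℕ),
    0 < c → ∀ (a : ℤ), ∃ M : A.ValueGroup, M ^ 2 ≤ A.valuation (c : ℂ) ^ n ∧
      ∀ x : Fin n → ℤ, A.valuation (gs G c a x) ≤ M

/-- (4.4) -/
def St_Gauss4 : Prop :=
  ∀ (n : ℕ) (G : Matrix (Fin n) (Fin n) ℤ), EvenForm G → ∀ (c : ℕ), 0 < c → ∀ (a b d : ℤ),
    a * d - b * c = 1 → (2 * G.det) ∣ (c : ℤ) →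
    (∀ z, nug G c a d (G *ᵥ z) = gs G c a 0) ∧
    (∀ w, (∀ z, w ≠ G *ᵥ z) → nug G c a d w = 0)

/-- (4.5) -/
def St_Gauss5 : Prop :=
  ∀ (n : ℕ) (G : Matrix (Fin n) (Fin n) ℤ), EvenForm G → ∀ (c : ℕ), 0 < c → ∀ (a b d : ℤ),
    a * d - b * c = 1 →
    gs G c a 0 ^ 4 = conj (gs G c a 0 ^ 4) ∧
    ‖gs G c a 0‖ ^ 2 ≤ (c : ℝ) ^ n * (G.det : ℝ) ^ n

/-! ## Group E: lattices (section 1) -/

/-- the design equation of the frozen statement for one shell -/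
def ShellD (n : ℕ) (L : Submodule ℤ (EuclideanSpace ℝ (Fin n))) (r : ℝ) : Prop :=
  ∀ p : MvPolynomial (Fin n) ℝ, p.totalDegree ≤ 12 →
    (∑ᶠ (v : EuclideanSpace ℝ (Fin n)) (_ : v ∈ L ∧ ‖v‖ = r),
        MvPolynomial.eval (fun i => WithLp.ofLp v i) p) =
      (Nat.card {v : EuclideanSpace ℝ (Fin n) // v ∈ L ∧ ‖v‖ = r} : ℝ) *
        ((∫ x, MvPolynomial.eval
              (fun i => r * WithLp.ofLp (x : EuclideanSpace ℝ (Fin n)) i) p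
            ∂((MeasureTheory.volume :
                MeasureTheory.Measure (EuclideanSpace ℝ (Fin n))).toSphere)) /
          ((MeasureTheory.volume :
                MeasureTheory.Measure (EuclideanSpace ℝ (Fin n))).toSphere
              Set.univ).toReal)

/-- (1.2): a lattice with a 4-design shell of minimal vectors is a multiple of a rational one -/
def St_Rational : Prop :=
  ∀ (n : ℕ), 2 ≤ n → ∀ (L : Submodule ℤ (EuclideanSpace ℝ (Fin n))), DiscreteTopology L →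
    Submodule.span ℝ (L : Set (EuclideanSpace ℝ (Fin n))) = ⊤ →
    (∀ r : ℝ, 0 < r → ShellD n L r) →
    ∀ b : Module.Basis (Fin n) ℤ L, ∃ l0 : ℝ, 0 < l0 ∧ ∀ i j, ∃ q : ℚ,
      inner ℝ (b i : EuclideanSpace ℝ (Fin n)) (b j : EuclideanSpace ℝ (Fin n)) = l0 * q

/-- section 1 -/
def St_Lattice : Prop :=
  ∀ (n : ℕ), 2 ≤ n → ∀ (L : Submodule ℤ (EuclideanSpace ℝ (Fin n))), DiscreteTopology L →
    Submodule.span ℝ (L : Set (EuclideanSpace ℝ (Fin n))) = ⊤ →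
    (∀ r : ℝ, 0 < r → ShellD n L r) →
    ∀ (p : ℕ), p.Prime → 3 ≤ p →
    ∃ G : Matrix (Fin n) (Fin n) ℤ, EvenForm G ∧ DesignForm G ∧
      ∃ z : Fin n → ℤ, ¬ (p : ℤ) ∣ qf G z

/-! ## Group F: assembly of sections 2-6 -/

/-- the action of `γ` with `c > 0` on `F` and `T` -/
def St_Slash : Prop :=
  ∀ (n : ℕ) (G : Matrix (Fin n) (Fin n) ℤ), EvenForm G → ∀ (j : ℕ) (γ : SL(2, ℤ)) (c : ℕ),
    0 < c → γ 1 0 = (c : ℤ) →
    (Fth G ∣[((n : ℕ) : ℤ)] γ = fun τ => (-I / c) ^ n *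
      thD G (nug G c (γ 0 0) (γ 1 1)) τ ^ 2) ∧
    (Tth G j ∣[((n + 4 * j : ℕ) : ℤ)] γ = fun τ => (-I / c) ^ n *
      Hop ((n : ℂ) / 2) j (thD G (nug G c (γ 0 0) (γ 1 1))) τ ^ 2)

/-- (5.2) -/
def St_FinIndex : Prop :=
  ∀ (n : ℕ) (G : Matrix (Fin n) (Fin n) ℤ), EvenForm G → ∀ (j : ℕ),
    ∃ Γ' : Subgroup SL(2, ℤ), Γ'.FiniteIndex ∧
      (∀ γ ∈ Γ', Fth G ∣[((n : ℕ) : ℤ)] γ = Fth G ∧
        Tth G j ∣[((n + 4 * j : ℕ) : ℤ)] γ = Tth G j) ∧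
      ∀ γ : SL(2, ℤ), γ 1 0 = 0 → ∃ g ∈ Γ', (g * γ) 1 0 ≠ 0

/-- (6.1) -/
def St_Est : Prop :=
  ∀ (n : ℕ) (G : Matrix (Fin n) (Fin n) ℤ), EvenForm G → DesignForm G → 2 ≤ n →
    ∀ (p j : ℕ), p.Prime → 13 ≤ p → 1 ≤ j → j ≤ 5 → p ∣ n + 2 * j →
    (∃ z : Fin n → ℤ, ¬ (p : ℤ) ∣ qf G z) →
    ∀ (A : ValuationSubring ℂ), A.valuation (p : ℂ) < 1 → ∀ (c : ℕ), 0 < c → ∀ (a d : ℤ),
    ∃ M : A.ValueGroup, M ^ 2 ≤ A.valuation (c : ℂ) ^ n ∧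
      ∀ k : ℕ, A.valuation (PowerSeries.coeff k (cf G (nug G c a d))) ≤ M ∧
        ∀ r : ℕ, 1 ≤ r → r ≤ 6 →
          A.valuation (((k : ℂ) / (lev G : ℕ)) ^ r *
            PowerSeries.coeff k (cf G (nug G c a d))) ≤ A.valuation (p : ℂ) * M

/-- (6.3) -/
def St_KP : Prop :=
  ∀ (n : ℕ) (G : Matrix (Fin n) (Fin n) ℤ), EvenForm G → DesignForm G → 2 ≤ n →
    ∀ (p j : ℕ), p.Prime → 13 ≤ p → 1 ≤ j → j ≤ 5 → p ∣ n + 2 * j →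
    (∃ z : Fin n → ℤ, ¬ (p : ℤ) ∣ qf G z) →
    ∀ (A : ValuationSubring ℂ), A.valuation (p : ℂ) < 1 →
      KPData A n j (lev G) (Fth G) (Tth G j)

/-- there is a valuation subring of `ℂ` above every prime -/
def St_Val : Prop :=
  ∀ (p : ℕ), p.Prime → ∃ A : ValuationSubring ℂ, A.valuation (p : ℂ) < 1

end

end Pool.Agent.D12
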